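import Mathlib
import Pool.Agent.H262R3.Lk.Defs

/-! Exact statements of the independent tasks. -/

open Finset

namespace Pool.Agent.H262R3.Lk

open Pool.Agent.H318R2.Cr (Rgh V)

/-- FL: fundamental lemma in progressions, relative error `(log z/log N)^5` -/
def St_FL : Prop := ∃ C : ℝ, 0 < C ∧ ∀ z q b N : ℕ, 32 ≤ z → 1 ≤ q → q ^ 8 ≤ z → b.Coprime q → z ≤ N →
  |(rc z q b N : ℝ) - N * V z / q.totient| ≤ C * (N * V z / q.totient) * (Real.log z / Real.log N) ^ 5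

/-- SUM: all series converge -/
def St_SUM : Prop := ∀ (z q b j : ℕ) (σ : ℝ), 0 < σ → Summable (aj z q b j σ) ∧ Summable (bj z q b j σ) ∧
  Summable (fun n : ℕ => (Real.log n) ^ j / (n : ℝ) ^ (1 + σ)) ∧
  Summable (fun n : ℕ => ArithmeticFunction.vonMangoldt n * ((Real.log n) ^ j / (n : ℝ) ^ (1 + σ)))

/-- DIFF: from FL by partial summation -/
def St_DIFF : Prop := ∃ C : ℝ, 0 < C ∧ ∀ (z q b b' j : ℕ) (σ : ℝ), 32 ≤ z → 1 ≤ q → q ^ 8 ≤ z →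
  b.Coprime q → b'.Coprime q → j ≤ 3 → 0 < σ → σ ≤ 1 →
  |Aj z q b j σ - Aj z q b' j σ| ≤ C * (Real.log z) ^ j / q.totient

/-- A0: from FL by partial summation -/
def St_A0 : Prop := ∃ C : ℝ, 0 < C ∧ ∀ (z q b : ℕ) (σ : ℝ), 32 ≤ z → 1 ≤ q → q ^ 8 ≤ z →
  b.Coprime q → 0 < σ → σ * Real.log z ≤ 1 → Aj z q b 0 σ ≤ C / (q.totient * (σ * Real.log z))

/-- BT: Brun-Titchmarsh for the von Mangoldt function -/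
def St_BT : Prop := ∃ C : ℝ, 0 < C ∧ ∀ q b N : ℕ, 32 ≤ N → 1 ≤ q → q ^ 8 ≤ N → b.Coprime q →
  ∑ n ∈ (Icc 1 N).filter (fun n => n ≡ b [MOD q]), ArithmeticFunction.vonMangoldt n ≤ C * N / q.totient

/-- B0: from BT by partial summation -/
def St_B0 : Prop := ∃ C : ℝ, 0 < C ∧ ∀ (z q b : ℕ) (σ : ℝ), 32 ≤ z → 1 ≤ q → q ^ 8 ≤ z →
  b.Coprime q → 0 < σ → σ * Real.log z ≤ 1 → Bj z q b 0 σ ≤ C / (q.totient * σ)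

/-- B2: lower bound for the principal sum (Chebyshev or Mertens) -/
def St_B2 : Prop := ∃ c c0 : ℝ, 0 < c ∧ 0 < c0 ∧ c0 ≤ 1 ∧ ∀ (z : ℕ) (σ : ℝ), 32 ≤ z → 0 < σ →
  σ * Real.log z ≤ c0 → c / σ ^ 3 ≤ Bj z 1 1 2 σ

/-- ALG: identities between the Dirichlet series of a completely multiplicative function -/
def St_ALG : Prop := ∀ (z q : ℕ) (χ : DirichletCharacter ℂ q) (σ : ℝ), 32 ≤ z → 0 < σ →
  Mj z χ σ * Lj z χ 0 σ = 1 ∧ Lj z χ 1 σ = Dj z χ 0 σ * Lj z χ 0 σ ∧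
  Dj z χ 2 σ * Lj z χ 0 σ = Lj z χ 3 σ - 3 * Dj z χ 0 σ * Lj z χ 2 σ + 2 * (Dj z χ 0 σ) ^ 3 * Lj z χ 0 σ

/-- EUL: consequences of the Euler product -/
def St_EUL : Prop := ∀ (z q : ℕ) (χ ψ : DirichletCharacter ℂ q) (σ : ℝ), 32 ≤ z → 0 < q → q ≤ z → 0 < σ →
  1 ≤ ‖Lj z (1 : DirichletCharacter ℂ q) 0 σ‖ ^ 3 * ‖Lj z χ 0 σ‖ ^ 4 * ‖Lj z (χ ^ 2) 0 σ‖ ∧
  (χ ^ 2 = 1 → 1 ≤ ‖Lj z (1 : DirichletCharacter ℂ q) 0 σ‖ * ‖Lj z χ 0 σ‖) ∧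
  (χ ^ 2 = 1 → ψ ^ 2 = 1 → 1 ≤ ‖Lj z (1 : DirichletCharacter ℂ q) 0 σ‖ * ‖Lj z χ 0 σ‖ * ‖Lj z ψ 0 σ‖ *
    ‖Lj z (χ * ψ) 0 σ‖)

/-- SWQ: no exceptional character of small conductor (Siegel-Walfisz) -/
def St_SWQ : Prop := ∀ B : ℕ, ∃ z0 : ℕ, ∀ z : ℕ, z0 ≤ z → ∀ q : ℕ, 1 < q → (q : ℝ) ≤ (Real.log z) ^ B →
  ∀ χ : DirichletCharacter ℂ q, χ.IsPrimitive → ∀ σ : ℝ, 0 < σ → σ ≤ 1 → 1 / 2 ≤ ‖Lj z χ 0 σ‖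

end Pool.Agent.H262R3.Lk
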