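import Mathlib
import Pool.Agent.H262R3.Lk.Defs
import Pool.Agent.H262R3.Lk.Stubs
import Pool.Agent.H318R2.Cr.Prod

/-! A0: rough numbers in a class, upper bound for the series. -/

open Finset

namespace Pool.Agent.H262R3.Lk

open Pool.Agent.H318R2.Cr (Rgh V V_pos cz_bounds)

namespace A0

/-- the weight -/
noncomputable def h (σ : ℝ) (n : ℕ) : ℝ := 1 / (n : ℝ) ^ (1 + σ)

theorem h_nonneg (σ : ℝ) (n : ℕ) : 0 ≤ h σ n := by
  unfold h
  positivity

/-- finite Abel summation -/
theorem abel (e : ℕ → ℝ) (g : ℕ → ℝ) (M : ℕ) :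
    ∑ n ∈ range (M + 1), e n * g n =
      ∑ N ∈ range M, (∑ n ∈ range (N + 1), e n) * (g N - g (N + 1)) +
        (∑ n ∈ range (M + 1), e n) * g M := by
  induction M with
  | zero => simp
  | succ M ih =>
    rw [sum_range_succ (fun n => e n * g n) (M + 1), ih,
      sum_range_succ (fun N => (∑ n ∈ range (N + 1), e n) * (g N - g (N + 1))) M,
      sum_range_succ e (M + 1)]
    ring

/-- difference of consecutive weights -/
theorem h_sub {σ : ℝ} (h0 : 0 < σ) (h1 : σ ≤ 1) {N : ℕ} (hN : 1 ≤ N) :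
    h σ N - h σ (N + 1) ≤ h σ N * (2 / N) := by
  unfold h
  have hN0 : (0 : ℝ) < N := by exact_mod_cast hN
  have hN1 : (0 : ℝ) < ((N + 1 : ℕ) : ℝ) := by positivity
  have e1 : ((N + 1 : ℕ) : ℝ) ^ (1 + σ) = (N : ℝ) ^ (1 + σ) * (1 + 1 / N) ^ (1 + σ) := by
    rw [← Real.mul_rpow hN0.le (by positivity)]
    congr 1
    push_cast
    field_simp
  have e2 : (1 + 1 / (N : ℝ)) ^ (1 + σ) ≤ (1 + 1 / (N : ℝ)) ^ (2 : ℝ) :=
    Real.rpow_le_rpow_of_exponent_le (by
      have : 0 < 1 / (N : ℝ) := by positivity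
      linarith) (by linarith)
  rw [Real.rpow_two] at e2
  have e3 : 0 < (1 + 1 / (N : ℝ)) ^ (1 + σ) := by positivity
  have e4 : 1 - 2 / (N : ℝ) ≤ 1 / (1 + 1 / (N : ℝ)) ^ (1 + σ) := by
    rw [le_div_iff₀ e3]
    by_cases hneg : 1 - 2 / (N : ℝ) ≤ 0
    · have : (1 - 2 / (N : ℝ)) * (1 + 1 / (N : ℝ)) ^ (1 + σ) ≤ 0 :=
        mul_nonpos_of_nonpos_of_nonneg hneg e3.le
      linarith
    · push Not at hneg
      refine (mul_le_mul_of_nonneg_left e2 hneg.le).trans ?_
      have hx : 0 < 1 / (N : ℝ) := by positivity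
      have h2x : 2 / (N : ℝ) = 2 * (1 / N) := by ring
      rw [h2x]
      nlinarith [pow_pos hx 2, pow_pos hx 3]
  rw [e1]
  have e5 : 1 / ((N : ℝ) ^ (1 + σ) * (1 + 1 / (N : ℝ)) ^ (1 + σ)) =
      1 / (N : ℝ) ^ (1 + σ) * (1 / (1 + 1 / (N : ℝ)) ^ (1 + σ)) := by
    rw [one_div_mul_one_div]
  rw [e5]
  have e6 : 0 < 1 / (N : ℝ) ^ (1 + σ) := by positivity
  nlinarith [mul_le_mul_of_nonneg_left e4 e6.le]

/-- telescoping bound of the weight -/
theorem h_tele {σ : ℝ} (h0 : 0 < σ) {N : ℕ} (hN : 2 ≤ N) :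
    σ * h σ N ≤ ((N - 1 : ℕ) : ℝ) ^ (-σ) - (N : ℝ) ^ (-σ) := by
  unfold h
  have hN2 : (2 : ℝ) ≤ N := by exact_mod_cast hN
  have hN0 : (0 : ℝ) < N := by linarith
  have hN1 : ((N - 1 : ℕ) : ℝ) = N - 1 := by
    rw [Nat.cast_sub (by omega)]
    simp
  rw [hN1]
  set y : ℝ := 1 - 1 / N with hy
  have hy0 : 0 < y := by
    have : 1 / (N : ℝ) ≤ 1 / 2 := one_div_le_one_div_of_le (by norm_num) hN2
    rw [hy]
    linarith
  have e1 : (N : ℝ) - 1 = N * y := by
    rw [hy]
    field_simp
  rw [e1, Real.mul_rpow hN0.le hy0.le]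
  have e2 : 1 + σ / N ≤ y ^ (-σ) := by
    rw [Real.rpow_def_of_pos hy0]
    have e3 : Real.log y ≤ -(1 / N) := by
      have := Real.log_le_sub_one_of_pos hy0
      rw [hy] at this ⊢
      linarith
    have e4 := Real.add_one_le_exp (Real.log y * -σ)
    have e5 : σ / N ≤ Real.log y * -σ := by
      have : σ / N = (-(1 / N)) * -σ := by ring
      rw [this]
      exact mul_le_mul_of_nonpos_right e3 (by linarith)
    linarith
  have e3 : (N : ℝ) ^ (1 + σ) = N * (N : ℝ) ^ σ := by
    rw [Real.rpow_add hN0, Real.rpow_one]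
  have e4 : (N : ℝ) ^ (-σ) = ((N : ℝ) ^ σ)⁻¹ := Real.rpow_neg hN0.le σ
  have e5 : 0 < (N : ℝ) ^ σ := by positivity
  rw [e3, e4]
  have e6 : σ * (1 / (N * (N : ℝ) ^ σ)) = ((N : ℝ) ^ σ)⁻¹ * (σ / N) := by
    field_simp
  rw [e6]
  have e7 : 0 < ((N : ℝ) ^ σ)⁻¹ := inv_pos.2 e5
  nlinarith [mul_le_mul_of_nonneg_left e2 e7.le]

theorem h_sum {σ : ℝ} (h0 : 0 < σ) (M : ℕ) :
    ∑ N ∈ (range M).filter (fun N => 2 ≤ N), h σ N ≤ 1 / σ := by
  have key : ∀ M : ℕ, 2 ≤ M → σ * ∑ N ∈ (range M).filter (fun N => 2 ≤ N), h σ N ≤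
      1 - ((M - 1 : ℕ) : ℝ) ^ (-σ) := by
    intro M hM
    induction M, hM using Nat.le_induction with
    | base =>
      have : (range 2).filter (fun N => 2 ≤ N) = ∅ := by decide
      rw [this]
      simp
    | succ M hM ih =>
      rw [range_add_one, filter_insert, if_pos hM, sum_insert (by simp)]
      have := h_tele h0 hM
      rw [Nat.add_sub_cancel]
      linarith
  rcases Nat.lt_or_ge M 2 with hM | hM
  · have : (range M).filter (fun N => 2 ≤ N) = ∅ := by
      ext N
      simp only [mem_filter, mem_range, notMem_empty, iff_false]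
      omega
    rw [this]
    simp only [sum_empty]
    positivity
  · have h1 := key M hM
    have h2 : 0 ≤ ((M - 1 : ℕ) : ℝ) ^ (-σ) := by positivity
    rw [le_div_iff₀ h0]
    linarith

theorem lt_of_rgh {z n : ℕ} (h : Rgh z n) (hn : 1 < n) : z < n := by
  have h1 := h n.minFac (Nat.minFac_prime (by omega))
  by_contra hcon
  push Not at hcon
  exact h1 ((Nat.minFac_le (by omega)).trans hcon) (Nat.minFac_dvd n)

open Classical in
/-- the indicator -/
noncomputable def e (z q b n : ℕ) : ℝ := if Rgh z n ∧ n ≡ b [MOD q] ∧ 1 < n then 1 else 0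

theorem e_zero {z q b n : ℕ} (h : n ≤ z) : e z q b n = 0 := by
  unfold e
  rw [if_neg]
  rintro ⟨h1, -, h3⟩
  have := lt_of_rgh h1 h3
  omega

theorem S_zero {z q b N : ℕ} (h : N ≤ z) : ∑ n ∈ range (N + 1), e z q b n = 0 := by
  apply sum_eq_zero
  intro n hn
  exact e_zero (by have := mem_range.1 hn; omega)

theorem S_le (z q b N : ℕ) : ∑ n ∈ range (N + 1), e z q b n ≤ rc z q b N := by
  classical
  unfold e rc
  rw [sum_boole]
  have : (range (N + 1)).filter (fun n => Rgh z n ∧ n ≡ b [MOD q] ∧ 1 < n) ⊆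
      (Icc 1 N).filter (fun n => Rgh z n ∧ n ≡ b [MOD q]) := by
    intro n hn
    rw [mem_filter, mem_range] at hn
    rw [mem_filter, mem_Icc]
    exact ⟨⟨by omega, by omega⟩, hn.2.1, hn.2.2.1⟩
  have h2 := card_le_card this
  have h3 : (((range (N + 1)).filter (fun n => Rgh z n ∧ n ≡ b [MOD q] ∧ 1 < n)).card : ℝ) ≤
      (((Icc 1 N).filter (fun n => Rgh z n ∧ n ≡ b [MOD q])).card : ℝ) := by
    exact_mod_cast h2
  exact h3

theorem S_nonneg (z q b N : ℕ) : 0 ≤ ∑ n ∈ range (N + 1), e z q b n := by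
  apply sum_nonneg
  intro n _
  unfold e
  split_ifs <;> norm_num

end A0

theorem a0 (hFL : St_FL) (hs : St_SUM) : St_A0 := by
  obtain ⟨C, hC, hFL⟩ := hFL
  obtain ⟨c₁, c₂, hc1, hc12, hcz⟩ := cz_bounds
  have hc2 : 0 < c₂ := by linarith
  refine ⟨3 * (1 + C) * c₂, by positivity, ?_⟩
  intro z q b σ hz hq hqz hb hσ hσz
  have hz1 : (32 : ℝ) ≤ z := by exact_mod_cast hz
  have hlog : 1 ≤ Real.log z := by
    rw [Real.le_log_iff_exp_le (by linarith)]
    linarith [Real.exp_one_lt_d9]
  have hσ1 : σ ≤ 1 := by nlinarith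
  have hφ : (0 : ℝ) < q.totient := by exact_mod_cast Nat.totient_pos.2 hq
  have hV := V_pos z
  set K : ℝ := (1 + C) * (V z / q.totient) with hK
  have hK0 : 0 < K := by positivity
  have hS : ∀ N : ℕ, ∑ n ∈ range (N + 1), A0.e z q b n ≤ K * N := by
    intro N
    rcases le_or_gt N z with hN | hN
    · rw [A0.S_zero hN]
      positivity
    · refine (A0.S_le z q b N).trans ?_
      have h1 := hFL z q b N hz hq hqz hb hN.le
      have h2 : (Real.log z / Real.log N) ^ 5 ≤ 1 := by
        have h3 : Real.log z ≤ Real.log N :=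
          Real.log_le_log (by linarith) (by exact_mod_cast hN.le)
        have h4 : Real.log z / Real.log N ≤ 1 := (div_le_one (by linarith)).2 h3
        exact pow_le_one₀ (div_nonneg (by linarith) (by linarith)) h4
      have h5 : 0 ≤ C * (N * V z / q.totient) := by positivity
      have h6 := (abs_le.1 h1).2
      have h7 : C * (N * V z / q.totient) * (Real.log z / Real.log N) ^ 5 ≤
          C * (N * V z / q.totient) * 1 := mul_le_mul_of_nonneg_left h2 h5
      have h8 : K * N = N * V z / q.totient + C * (N * V z / q.totient) := by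
        rw [hK]
        ring
      rw [h8]
      linarith
  have hpart : ∀ M : ℕ, ∑ n ∈ range (M + 1), A0.e z q b n * A0.h σ n ≤ 3 * K / σ := by
    intro M
    rw [A0.abel]
    have t1 : ∑ N ∈ range M, (∑ n ∈ range (N + 1), A0.e z q b n) * (A0.h σ N - A0.h σ (N + 1)) ≤
        2 * K / σ := by
      have t2 : ∀ N ∈ range M, (∑ n ∈ range (N + 1), A0.e z q b n) *
          (A0.h σ N - A0.h σ (N + 1)) ≤ if 2 ≤ N then 2 * K * A0.h σ N else 0 := by
        intro N _
        split_ifs with hN2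
        · have hN0 : (0 : ℝ) < N := by
            have : (2 : ℝ) ≤ N := by exact_mod_cast hN2
            linarith
          have t3 := A0.h_sub hσ hσ1 (N := N) (by omega)
          have t4 := A0.S_nonneg z q b N
          have hh := A0.h_nonneg σ N
          calc _ ≤ (∑ n ∈ range (N + 1), A0.e z q b n) * (A0.h σ N * (2 / N)) :=
                mul_le_mul_of_nonneg_left t3 t4
            _ ≤ (K * N) * (A0.h σ N * (2 / N)) :=
                mul_le_mul_of_nonneg_right (hS N) (by positivity)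
            _ = 2 * K * A0.h σ N := by field_simp
        · rw [A0.S_zero (by omega), zero_mul]
      refine (sum_le_sum t2).trans ?_
      rw [← sum_filter, ← mul_sum]
      have t5 := A0.h_sum hσ M
      calc _ ≤ 2 * K * (1 / σ) := mul_le_mul_of_nonneg_left t5 (by positivity)
        _ = 2 * K / σ := by ring
    have t2 : (∑ n ∈ range (M + 1), A0.e z q b n) * A0.h σ M ≤ K / σ := by
      refine (mul_le_mul_of_nonneg_right (hS M) (A0.h_nonneg σ M)).trans ?_
      have t3 : (M : ℝ) * A0.h σ M ≤ 1 := by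
        unfold A0.h
        rcases Nat.eq_zero_or_pos M with hM | hM
        · rw [hM]
          simp
        · have hM1 : (1 : ℝ) ≤ M := by exact_mod_cast hM
          have t4 : (M : ℝ) ≤ (M : ℝ) ^ (1 + σ) := by
            conv_lhs => rw [← Real.rpow_one (M : ℝ)]
            exact Real.rpow_le_rpow_of_exponent_le hM1 (by linarith)
          rw [mul_one_div, div_le_one (by positivity)]
          exact t4
      have t4 : K * M * A0.h σ M ≤ K := by
        rw [mul_assoc]
        exact mul_le_of_le_one_right hK0.le t3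
      refine t4.trans ?_
      rw [le_div_iff₀ hσ]
      exact mul_le_of_le_one_right hK0.le hσ1
    have t3 : 3 * K / σ = 2 * K / σ + K / σ := by ring
    linarith
  have haj : ∀ n, aj z q b 0 σ n = A0.e z q b n * A0.h σ n := by
    intro n
    unfold aj A0.e A0.h
    split_ifs <;> simp
  have hle : Aj z q b 0 σ ≤ 3 * K / σ := by
    unfold Aj
    apply Real.tsum_le_of_sum_range_le
    · intro n
      rw [haj]
      apply mul_nonneg _ (A0.h_nonneg _ _)
      unfold A0.e
      split_ifs <;> norm_num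
    · intro M
      simp only [haj]
      rcases Nat.eq_zero_or_pos M with hM | hM
      · rw [hM]
        simp only [range_zero, sum_empty]
        positivity
      · obtain ⟨M', rfl⟩ : ∃ M', M = M' + 1 := ⟨M - 1, by omega⟩
        exact hpart M'
  refine hle.trans ?_
  have hVz := (hcz z (by omega)).2
  have h9 : V z ≤ c₂ / Real.log z := by
    rw [le_div_iff₀ (by linarith)]
    exact hVz
  have h10 : 3 * K / σ = 3 * (1 + C) * V z / (q.totient * σ) := by
    rw [hK]
    field_simp
  rw [h10]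
  have h11 : 3 * (1 + C) * c₂ / (q.totient * (σ * Real.log z)) =
      3 * (1 + C) * (c₂ / Real.log z) / (q.totient * σ) := by
    field_simp
  rw [h11]
  have h12 : 0 < 3 * (1 + C) := by positivity
  exact div_le_div_of_nonneg_right (mul_le_mul_of_nonneg_left h9 h12.le) (by positivity)

end Pool.Agent.H262R3.Lk
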