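import Mathlib
import Pool.Agent.H262R3.Lk.Stubs

/-! Task ALG: identities between the Dirichlet series of a completely multiplicative function. -/

open Finset

namespace Pool.Agent.H262R3.Lk

open Pool.Agent.H318R2.Cr (Rgh V)

namespace ALG

open Filter Asymptotics

/-- convolution of real functions -/
noncomputable def cv (g h : ℕ → ℝ) (n : ℕ) : ℝ := ∑ p ∈ n.divisorsAntidiagonal, g p.1 * h p.2

/-- the twisted Dirichlet series at the real point `1 + σ` -/
noncomputable def S (f : ℕ → ℂ) (σ : ℝ) (g : ℕ → ℝ) : ℂ :=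
  LSeries (fun n => f n * (g n : ℂ)) ((1 + σ : ℝ) : ℂ)

def Sm (f : ℕ → ℂ) (σ : ℝ) (g : ℕ → ℝ) : Prop :=
  LSeriesSummable (fun n => f n * (g n : ℂ)) ((1 + σ : ℝ) : ℂ)

theorem summ {f : ℕ → ℂ} (hf : ∀ n, ‖f n‖ ≤ 1) {σ : ℝ} (hσ : 0 < σ) {g : ℕ → ℝ} (k : ℕ)
    (hg : ∀ n, |g n| ≤ (Real.log n) ^ k) : Sm f σ g := by
  refine LSeriesSummable_of_isBigO_rpow (x := 1 + σ / 2) ?_ ?_
  · simp only [Complex.ofReal_re]
    linarith
  · have h1 : (fun n : ℕ => (Real.log n) ^ (k : ℝ)) =O[atTop] fun n : ℕ => (n : ℝ) ^ (σ / 2) :=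
      ((isLittleO_log_rpow_rpow_atTop (k : ℝ) (half_pos hσ)).comp_tendsto
        tendsto_natCast_atTop_atTop).isBigO
    have h2 : (fun n : ℕ => f n * (g n : ℂ)) =O[atTop] fun n : ℕ => (Real.log n) ^ (k : ℝ) := by
      refine IsBigO.of_bound 1 (Eventually.of_forall fun n => ?_)
      rw [norm_mul, Complex.norm_real, one_mul, Real.rpow_natCast, Real.norm_eq_abs,
        Real.norm_eq_abs]
      calc ‖f n‖ * |g n| ≤ 1 * |g n| := mul_le_mul_of_nonneg_right (hf n) (abs_nonneg _)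
        _ = |g n| := one_mul _
        _ ≤ (Real.log n) ^ k := hg n
        _ ≤ |(Real.log n) ^ k| := le_abs_self _
    have h3 := h2.trans h1
    have h4 : (1 + σ / 2 - 1 : ℝ) = σ / 2 := by ring
    rw [h4]
    exact h3

theorem conv {f : ℕ → ℂ} (hm : ∀ a b, f (a * b) = f a * f b) (g h : ℕ → ℝ) :
    LSeries.convolution (fun n => f n * (g n : ℂ)) (fun n => f n * (h n : ℂ)) =
      fun n => f n * (cv g h n : ℂ) := by
  rw [LSeries.convolution_def]
  funext n
  unfold cv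
  push_cast
  rw [Finset.mul_sum]
  refine Finset.sum_congr rfl fun p hp => ?_
  rw [← (Nat.mem_divisorsAntidiagonal.1 hp).1, hm]
  ring

theorem S_mul {f : ℕ → ℂ} (hm : ∀ a b, f (a * b) = f a * f b) {σ : ℝ} {g h : ℕ → ℝ}
    (hg : Sm f σ g) (hh : Sm f σ h) : S f σ g * S f σ h = S f σ (cv g h) ∧ Sm f σ (cv g h) := by
  refine ⟨?_, ?_⟩
  · unfold S
    rw [← LSeries_convolution' hg hh, conv hm]
  · have := LSeriesSummable.convolution hg hh
    rw [conv hm] at this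
    exact this

theorem S_add {f : ℕ → ℂ} {σ : ℝ} {g h : ℕ → ℝ} (hg : Sm f σ g) (hh : Sm f σ h) :
    S f σ g + S f σ h = S f σ (fun n => g n + h n) ∧ Sm f σ (fun n => g n + h n) := by
  have e : (fun n => f n * ((g n + h n : ℝ) : ℂ)) =
      (fun n => f n * (g n : ℂ)) + fun n => f n * (h n : ℂ) := by
    funext n
    simp only [Pi.add_apply]
    push_cast
    ring
  refine ⟨?_, ?_⟩
  · unfold S
    rw [e, LSeries_add hg hh]
  · unfold Sm
    rw [e]
    exact LSeriesSummable.add hg hh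

theorem S_congr {f : ℕ → ℂ} {σ : ℝ} {g h : ℕ → ℝ} (hgh : ∀ n, n ≠ 0 → g n = h n) :
    S f σ g = S f σ h := by
  unfold S
  refine LSeries_congr (fun {n} hn => ?_) _
  rw [hgh n hn]

/-- logarithm power -/
noncomputable def lg (j : ℕ) (n : ℕ) : ℝ := (Real.log n) ^ j
/-- von Mangoldt times a power of the logarithm -/
noncomputable def vl (j : ℕ) (n : ℕ) : ℝ := ArithmeticFunction.vonMangoldt n * (Real.log n) ^ j

theorem cv_vl0_lg0 (n : ℕ) : cv (vl 0) (lg 0) n = Real.log n := by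
  unfold cv vl lg
  simp only [pow_zero, mul_one]
  rw [← ArithmeticFunction.vonMangoldt_sum, ← Nat.map_div_right_divisors, Finset.sum_map]
  rfl

theorem log_split {n : ℕ} {p : ℕ × ℕ} (hp : p ∈ n.divisorsAntidiagonal) :
    Real.log n = Real.log p.1 + Real.log p.2 := by
  obtain ⟨h1, h2⟩ := Nat.mem_divisorsAntidiagonal.1 hp
  have h3 : (p.1 : ℝ) ≠ 0 := by
    intro h
    apply h2
    rw [← h1]
    have : p.1 = 0 := by exact_mod_cast h
    rw [this, zero_mul]
  have h4 : (p.2 : ℝ) ≠ 0 := by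
    intro h
    apply h2
    rw [← h1]
    have : p.2 = 0 := by exact_mod_cast h
    rw [this, mul_zero]
  rw [← Real.log_mul h3 h4, ← h1, Nat.cast_mul]

theorem cv2 (n : ℕ) : cv (vl 1) (lg 0) n + cv (vl 0) (lg 1) n = lg 2 n := by
  have h := cv_vl0_lg0 n
  have h3 : lg 2 n = Real.log n * Real.log n := by unfold lg; ring
  rw [h3]
  nth_rewrite 2 [← h]
  unfold cv
  rw [← Finset.sum_add_distrib, Finset.mul_sum]
  refine Finset.sum_congr rfl fun p hp => ?_
  rw [log_split hp]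
  unfold vl lg
  ring

theorem cv3 (n : ℕ) : cv (vl 2) (lg 0) n + (cv (vl 1) (lg 1) n + cv (vl 1) (lg 1) n) +
    cv (vl 0) (lg 2) n = lg 3 n := by
  have h := cv_vl0_lg0 n
  have h3 : lg 3 n = (Real.log n) ^ 2 * Real.log n := by unfold lg; ring
  rw [h3]
  nth_rewrite 2 [← h]
  unfold cv
  rw [← Finset.sum_add_distrib, ← Finset.sum_add_distrib, ← Finset.sum_add_distrib,
    Finset.mul_sum]
  refine Finset.sum_congr rfl fun p hp => ?_
  rw [log_split hp]
  unfold vl lg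
  ring

theorem cv_mu (n : ℕ) : cv (fun n => ((ArithmeticFunction.moebius n : ℤ) : ℝ)) (lg 0) n =
    if n = 1 then 1 else 0 := by
  have h := congrArg (fun F : ArithmeticFunction ℤ => F n) ArithmeticFunction.moebius_mul_coe_zeta
  simp only [ArithmeticFunction.mul_apply, ArithmeticFunction.one_apply] at h
  have h2 : cv (fun n => ((ArithmeticFunction.moebius n : ℤ) : ℝ)) (lg 0) n =
      ((∑ p ∈ n.divisorsAntidiagonal, ArithmeticFunction.moebius p.1 *
        ((ArithmeticFunction.zeta : ArithmeticFunction ℕ) : ArithmeticFunction ℤ) p.2 : ℤ) : ℝ) := by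
    unfold cv lg
    push_cast
    refine Finset.sum_congr rfl fun p hp => ?_
    obtain ⟨h1, h2⟩ := Nat.mem_divisorsAntidiagonal.1 hp
    have h3 : p.2 ≠ 0 := by
      rintro h
      rw [h, mul_zero] at h1
      exact h2 h1.symm
    simp [ArithmeticFunction.natCoe_apply, ArithmeticFunction.zeta_apply, h3]
  rw [h2, h]
  split_ifs <;> simp

section main

variable {z q : ℕ} (χ : DirichletCharacter ℂ q)

theorem f_one : fz z χ 1 = 1 := by
  unfold fz
  rw [if_pos]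
  · simp
  · intro p hp _ h
    exact hp.one_lt.ne' (Nat.dvd_one.1 h)

theorem f_mul (a b : ℕ) : fz z χ (a * b) = fz z χ a * fz z χ b := by
  have h : Rgh z (a * b) ↔ Rgh z a ∧ Rgh z b := by
    constructor
    · intro h
      exact ⟨fun p hp hz hd => h p hp hz (Dvd.dvd.mul_right hd b),
        fun p hp hz hd => h p hp hz (Dvd.dvd.mul_left hd a)⟩
    · rintro ⟨h1, h2⟩ p hp hz hd
      rcases (Nat.Prime.dvd_mul hp).1 hd with h | h
      · exact h1 p hp hz h
      · exact h2 p hp hz h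
  unfold fz
  by_cases h1 : Rgh z a
  · by_cases h2 : Rgh z b
    · rw [if_pos (h.2 ⟨h1, h2⟩), if_pos h1, if_pos h2, Nat.cast_mul, map_mul]
    · rw [if_neg (fun h' => h2 (h.1 h').2), if_neg h2, mul_zero]
  · rw [if_neg (fun h' => h1 (h.1 h').1), if_neg h1, zero_mul]

theorem f_le (n : ℕ) : ‖fz z χ n‖ ≤ 1 := by
  unfold fz
  split_ifs
  · exact χ.norm_le_one _
  · simp

theorem f_zero (hz : 32 ≤ z) : fz z χ 0 = 0 := by
  unfold fz
  rw [if_neg]
  intro h
  exact h 2 Nat.prime_two (by omega) (dvd_zero 2)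

theorem tsum_eq_S (hz : 32 ≤ z) (σ : ℝ) (g : ℕ → ℝ) :
    ∑' n : ℕ, fz z χ n * (((g n) / (n : ℝ) ^ (1 + σ) : ℝ) : ℂ) = S (fz z χ) σ g := by
  unfold S LSeries
  refine tsum_congr fun n => ?_
  rcases Nat.eq_zero_or_pos n with h | h
  · subst h
    rw [f_zero χ hz, zero_mul, LSeries.term_zero]
  · rw [LSeries.term_of_ne_zero (by omega)]
    push_cast
    rw [Complex.ofReal_cpow (by positivity)]
    push_cast
    ring

end main

end ALG

theorem alg : St_ALG := by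
  intro z q χ σ hz hσ
  set f : ℕ → ℂ := fz z χ with hf
  have hle : ∀ n, ‖f n‖ ≤ 1 := ALG.f_le χ
  have hmul : ∀ a b, f (a * b) = f a * f b := ALG.f_mul χ
  have hL : ∀ j, Lj z χ j σ = ALG.S f σ (ALG.lg j) := fun j =>
    ALG.tsum_eq_S χ hz σ (ALG.lg j)
  have hD : ∀ j, Dj z χ j σ = ALG.S f σ (ALG.vl j) := by
    intro j
    rw [← ALG.tsum_eq_S χ hz σ (ALG.vl j)]
    unfold Dj ALG.vl
    refine tsum_congr fun n => ?_
    rw [mul_div_assoc]
  have hM : Mj z χ σ = ALG.S f σ (fun n => ((ArithmeticFunction.moebius n : ℤ) : ℝ)) := by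
    rw [← ALG.tsum_eq_S χ hz σ _]
    unfold Mj
    refine tsum_congr fun n => ?_
    rw [mul_one_div]
  have sL : ∀ j, ALG.Sm f σ (ALG.lg j) := fun j => ALG.summ hle hσ j fun n => by
    unfold ALG.lg
    rw [abs_of_nonneg (pow_nonneg (Real.log_natCast_nonneg n) j)]
  have sD : ∀ j, ALG.Sm f σ (ALG.vl j) := fun j => ALG.summ hle hσ (j + 1) fun n => by
    unfold ALG.vl
    rw [abs_of_nonneg (mul_nonneg ArithmeticFunction.vonMangoldt_nonneg
      (pow_nonneg (Real.log_natCast_nonneg n) j)), pow_succ']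
    exact mul_le_mul_of_nonneg_right ArithmeticFunction.vonMangoldt_le_log
      (pow_nonneg (Real.log_natCast_nonneg n) j)
  have sM : ALG.Sm f σ (fun n => ((ArithmeticFunction.moebius n : ℤ) : ℝ)) :=
    ALG.summ hle hσ 0 fun n => by
      rw [pow_zero, ← Int.cast_abs]
      exact_mod_cast ArithmeticFunction.abs_moebius_le_one
  have e1 : Mj z χ σ * Lj z χ 0 σ = 1 := by
    rw [hM, hL, (ALG.S_mul hmul sM (sL 0)).1]
    have h1 : (fun n => f n * ((ALG.cv (fun n => ((ArithmeticFunction.moebius n : ℤ) : ℝ))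
        (ALG.lg 0) n : ℝ) : ℂ)) = LSeries.delta := by
      funext n
      rw [ALG.cv_mu]
      unfold LSeries.delta
      by_cases hn : n = 1
      · subst hn
        simp [hf, ALG.f_one]
      · simp [hn]
    unfold ALG.S
    rw [h1, LSeries_delta]
    rfl
  have e2 : Lj z χ 1 σ = Dj z χ 0 σ * Lj z χ 0 σ := by
    rw [hD, hL, hL, (ALG.S_mul hmul (sD 0) (sL 0)).1]
    refine ALG.S_congr fun n _ => ?_
    rw [ALG.cv_vl0_lg0]
    simp [ALG.lg]
  have e3 : Dj z χ 1 σ * Lj z χ 0 σ + Dj z χ 0 σ * Lj z χ 1 σ = Lj z χ 2 σ := by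
    obtain ⟨h1, h1'⟩ := ALG.S_mul hmul (sD 1) (sL 0)
    obtain ⟨h2, h2'⟩ := ALG.S_mul hmul (sD 0) (sL 1)
    rw [hD, hD, hL, hL, hL, h1, h2, (ALG.S_add h1' h2').1]
    exact ALG.S_congr fun n _ => ALG.cv2 n
  have e4 : Dj z χ 2 σ * Lj z χ 0 σ + (Dj z χ 1 σ * Lj z χ 1 σ + Dj z χ 1 σ * Lj z χ 1 σ) +
      Dj z χ 0 σ * Lj z χ 2 σ = Lj z χ 3 σ := by
    obtain ⟨h1, h1'⟩ := ALG.S_mul hmul (sD 2) (sL 0)
    obtain ⟨h2, h2'⟩ := ALG.S_mul hmul (sD 1) (sL 1)
    obtain ⟨h3, h3'⟩ := ALG.S_mul hmul (sD 0) (sL 2)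
    obtain ⟨h4, h4'⟩ := ALG.S_add h2' h2'
    obtain ⟨h5, h5'⟩ := ALG.S_add h1' h4'
    rw [hD, hD, hD, hL, hL, hL, hL, h1, h2, h3, h4, h5, (ALG.S_add h5' h3').1]
    exact ALG.S_congr fun n _ => ALG.cv3 n
  refine ⟨e1, e2, ?_⟩
  rw [← e4, ← e3, e2]
  ring

end Pool.Agent.H262R3.Lk
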