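import Mathlib
import Pool.Agent.H262R3.Lk.Stubs

/-! Task B0: from Brun-Titchmarsh by partial summation. -/

open Finset

namespace Pool.Agent.H262R3.Lk

open Pool.Agent.H318R2.Cr (Rgh V)

namespace B0

theorem sum_Icc_range (g : ℕ → ℝ) (N : ℕ) :
    ∑ n ∈ Icc 1 N, g n = ∑ i ∈ range N, g (i + 1) := by
  induction N with
  | zero => simp
  | succ N ih => rw [Finset.sum_Icc_succ_top (by omega), ih, Finset.sum_range_succ]

/-- comparison of sums by partial summation -/
theorem abel_le {d h : ℕ → ℝ} (hh : ∀ n, h (n + 1) ≤ h n)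
    (hd : ∀ N, 0 ≤ ∑ i ∈ range N, d i) (M : ℕ) :
    (∑ i ∈ range M, d i) * h M ≤ ∑ i ∈ range M, d i * h i := by
  induction M with
  | zero => simp
  | succ M ih =>
    calc (∑ i ∈ range (M + 1), d i) * h (M + 1) ≤ (∑ i ∈ range (M + 1), d i) * h M :=
          mul_le_mul_of_nonneg_left (hh M) (hd _)
      _ = (∑ i ∈ range M, d i) * h M + d M * h M := by rw [Finset.sum_range_succ]; ring
      _ ≤ ∑ i ∈ range M, d i * h i + d M * h M := by linarith
      _ = _ := by rw [Finset.sum_range_succ]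

theorem abel_cmp {a h : ℕ → ℝ} {K : ℝ} (hh : ∀ n, h (n + 1) ≤ h n) (h0 : ∀ n, 0 ≤ h n)
    (hd : ∀ N : ℕ, ∑ i ∈ range N, a i ≤ K * N) (M : ℕ) :
    ∑ i ∈ range M, a i * h i ≤ K * ∑ i ∈ range M, h i := by
  have h1 := abel_le (d := fun i => K - a i) hh (fun N => by
    rw [Finset.sum_sub_distrib, Finset.sum_const, Finset.card_range, nsmul_eq_mul]
    have := hd N
    linarith) M
  have h2 : 0 ≤ (∑ i ∈ range M, (K - a i)) * h M := by
    refine mul_nonneg ?_ (h0 M)
    rw [Finset.sum_sub_distrib, Finset.sum_const, Finset.card_range, nsmul_eq_mul]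
    have := hd M
    linarith
  have h3 : ∑ i ∈ range M, (K - a i) * h i = K * ∑ i ∈ range M, h i - ∑ i ∈ range M, a i * h i := by
    rw [Finset.mul_sum, ← Finset.sum_sub_distrib]
    exact Finset.sum_congr rfl (fun i _ => by ring)
  rw [h3] at h1
  linarith

/-- the weight -/
noncomputable def hw (σ : ℝ) (i : ℕ) : ℝ := 1 / ((i : ℝ) + 1) ^ (1 + σ)

theorem hw_nonneg (σ : ℝ) (i : ℕ) : 0 ≤ hw σ i := by
  unfold hw; positivity

theorem hw_anti {σ : ℝ} (hσ : 0 < σ) (i : ℕ) : hw σ (i + 1) ≤ hw σ i := by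
  unfold hw
  apply one_div_le_one_div_of_le (by positivity)
  apply Real.rpow_le_rpow (by positivity) _ (by linarith)
  push_cast
  linarith

theorem hw_step {σ : ℝ} (hσ : 0 < σ) (M : ℕ) (hM : 1 ≤ M) :
    hw σ M ≤ (1 / σ) * ((M : ℝ) ^ (-σ) - ((M : ℝ) + 1) ^ (-σ)) := by
  have hM0 : (0 : ℝ) < M := by exact_mod_cast hM
  have h1 : (0 : ℝ) < (M : ℝ) + 1 := by linarith
  set L := Real.log ((M : ℝ) + 1) with hL
  have e1 : (M : ℝ) ^ (-σ) = ((M : ℝ) + 1) ^ (-σ) * Real.exp (σ * (L - Real.log M)) := by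
    rw [Real.rpow_def_of_pos hM0, Real.rpow_def_of_pos h1, ← Real.exp_add]
    congr 1
    ring
  have e2 : 1 + σ * (L - Real.log M) ≤ Real.exp (σ * (L - Real.log M)) := by
    have := Real.add_one_le_exp (σ * (L - Real.log M))
    linarith
  have e3 : 1 / ((M : ℝ) + 1) ≤ L - Real.log M := by
    have h2 : Real.log ((M : ℝ) / (M + 1)) ≤ (M : ℝ) / (M + 1) - 1 :=
      Real.log_le_sub_one_of_pos (by positivity)
    rw [Real.log_div hM0.ne' h1.ne'] at h2
    have h3 : (M : ℝ) / (M + 1) - 1 = -(1 / ((M : ℝ) + 1)) := by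
      field_simp
      ring
    rw [h3] at h2
    linarith
  have e4 : hw σ M = ((M : ℝ) + 1) ^ (-σ) * (1 / ((M : ℝ) + 1)) := by
    unfold hw
    rw [Real.rpow_add h1, Real.rpow_one, Real.rpow_neg h1.le]
    field_simp
  have h5 : (0 : ℝ) < ((M : ℝ) + 1) ^ (-σ) := Real.rpow_pos_of_pos h1 _
  rw [e4, e1]
  have h6 : σ * (1 / ((M : ℝ) + 1)) ≤ Real.exp (σ * (L - Real.log M)) - 1 := by
    have := mul_le_mul_of_nonneg_left e3 hσ.le
    linarith
  have h7 : (1 / ((M : ℝ) + 1)) ≤ (1 / σ) * (Real.exp (σ * (L - Real.log M)) - 1) := by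
    rw [one_div_mul_eq_div, le_div_iff₀ hσ]
    linarith
  calc ((M : ℝ) + 1) ^ (-σ) * (1 / ((M : ℝ) + 1))
      ≤ ((M : ℝ) + 1) ^ (-σ) * ((1 / σ) * (Real.exp (σ * (L - Real.log M)) - 1)) :=
        mul_le_mul_of_nonneg_left h7 h5.le
    _ = _ := by ring

theorem hw_sum {σ : ℝ} (hσ : 0 < σ) (hσ1 : σ ≤ 1) (M : ℕ) :
    ∑ i ∈ range M, hw σ i ≤ 2 / σ := by
  have hs : 1 ≤ 1 / σ := by rw [le_div_iff₀ hσ]; linarith
  have h2 : 2 / σ = 1 / σ + 1 / σ := by ring
  rcases Nat.eq_zero_or_pos M with rfl | hM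
  · simp only [range_zero, sum_empty]
    positivity
  · have key : ∀ M : ℕ, 1 ≤ M → ∑ i ∈ range M, hw σ i ≤ 1 + 1 / σ * (1 - (M : ℝ) ^ (-σ)) := by
      intro M hM
      induction M, hM using Nat.le_induction with
      | base =>
        rw [Finset.sum_range_one]
        unfold hw
        simp
      | succ M hM ih =>
        rw [Finset.sum_range_succ]
        have := hw_step hσ M hM
        push_cast
        nlinarith
    refine (key M hM).trans ?_
    have h3 : (0 : ℝ) ≤ (M : ℝ) ^ (-σ) := by positivity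
    have h4 : 1 / σ * (1 - (M : ℝ) ^ (-σ)) ≤ 1 / σ := by
      have : 0 ≤ 1 / σ * (M : ℝ) ^ (-σ) := by positivity
      linarith [mul_sub (1 / σ) 1 ((M : ℝ) ^ (-σ))]
    linarith

end B0

open B0 in
theorem b0 (h : St_BT) (_hs : St_SUM) : St_B0 := by
  classical
  obtain ⟨C, hC, hbt⟩ := h
  refine ⟨2 * C, by positivity, ?_⟩
  intro z q b σ hz hq hqz hbq hσ hσz
  have hφ : 0 < q.totient := Nat.totient_pos.mpr hq
  have hφ' : (0 : ℝ) < q.totient := by exact_mod_cast hφ
  have hσ1 : σ ≤ 1 := by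
    have hz' : (32 : ℝ) ≤ z := by exact_mod_cast hz
    have h1 : 1 ≤ Real.log z := by
      rw [Real.le_log_iff_exp_le (by linarith)]
      have := Real.exp_one_lt_d9
      linarith
    nlinarith
  set K : ℝ := C / q.totient with hK
  have hK0 : 0 < K := by positivity
  set a : ℕ → ℝ := fun i => if Rgh z (i + 1) ∧ (i + 1) ≡ b [MOD q] then
    ArithmeticFunction.vonMangoldt (i + 1) else 0 with ha
  have hpart : ∀ N : ℕ, ∑ i ∈ range N, a i ≤ K * N := by
    intro N
    rcases Nat.lt_or_ge N z with hN | hN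
    · have h0 : ∑ i ∈ range N, a i = 0 := by
        apply Finset.sum_eq_zero
        intro i hi
        rw [Finset.mem_range] at hi
        simp only [ha]
        split_ifs with hc
        · by_contra hne
          have hne' := ArithmeticFunction.vonMangoldt_ne_zero_iff.mp hne
          have h1 : i + 1 ≠ 1 := hne'.ne_one
          have h2 := Nat.minFac_prime h1
          have h3 : (i + 1).minFac ≤ i + 1 := Nat.minFac_le (by omega)
          exact hc.1 _ h2 (by omega) (Nat.minFac_dvd _)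
        · rfl
      rw [h0]
      positivity
    · have h1 := hbt q b N (hz.trans hN) hq (hqz.trans hN) hbq
      rw [Finset.sum_filter, sum_Icc_range] at h1
      have h2 : ∑ i ∈ range N, a i ≤ ∑ i ∈ range N, (if (i + 1) ≡ b [MOD q] then
          ArithmeticFunction.vonMangoldt (i + 1) else 0) := by
        apply Finset.sum_le_sum
        intro i _
        simp only [ha]
        by_cases hc : (i + 1) ≡ b [MOD q]
        · rw [if_pos hc]
          split_ifs
          · exact le_rfl
          · exact ArithmeticFunction.vonMangoldt_nonneg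
        · rw [if_neg hc, if_neg (fun h' => hc h'.2)]
      refine h2.trans (h1.trans (le_of_eq ?_))
      rw [hK]
      ring
  have hterm : ∀ i, bj z q b 0 σ (i + 1) = a i * hw σ i := by
    intro i
    simp only [bj, ha, hw, pow_zero]
    push_cast
    split_ifs <;> simp
  have hb0 : bj z q b 0 σ 0 = 0 := by
    simp [bj]
  have hnn : ∀ n, 0 ≤ bj z q b 0 σ n := by
    intro n
    unfold bj
    split_ifs
    · exact mul_nonneg ArithmeticFunction.vonMangoldt_nonneg (by positivity)
    · exact le_rfl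
  have hfin : 2 * C / (q.totient * σ) = K * (2 / σ) := by
    rw [hK]
    field_simp
  rw [hfin]
  unfold Bj
  refine Real.tsum_le_of_sum_range_le hnn (fun n => ?_)
  cases n with
  | zero =>
    simp only [range_zero, sum_empty]
    positivity
  | succ n =>
    rw [Finset.sum_range_succ', hb0, add_zero, Finset.sum_congr rfl (fun i _ => hterm i)]
    refine (abel_cmp (hw_anti hσ) (hw_nonneg σ) hpart n).trans ?_
    exact mul_le_mul_of_nonneg_left (hw_sum hσ hσ1 n) hK0.le

end Pool.Agent.H262R3.Lk
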