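import Pool.Agent.H262R3.Lk.Stubs
import Pool.Agent.Helper923.HMertens

/-! Task B2: lower bound of the principal sum. -/

open Finset

namespace Pool.Agent.H262R3.Lk

open Pool.Agent.H318R2.Cr (Rgh V)

namespace B2

theorem floor_ge_half {y : ℝ} (hy : 1 ≤ y) : y / 2 ≤ (⌊y⌋₊ : ℝ) := by
  have h1 : y < (⌊y⌋₊ : ℝ) + 1 := Nat.lt_floor_add_one y
  have h2 : 1 ≤ ⌊y⌋₊ := (Nat.one_le_floor_iff y).2 hy
  have h3 : (1:ℝ) ≤ (⌊y⌋₊ : ℝ) := by exact_mod_cast h2
  linarith

theorem bj_nonneg (z q b j : ℕ) (σ : ℝ) (n : ℕ) : 0 ≤ bj z q b j σ n := by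
  classical
  unfold bj
  split_ifs
  · apply mul_nonneg ArithmeticFunction.vonMangoldt_nonneg
    apply div_nonneg
    · exact pow_nonneg (Real.log_natCast_nonneg n) _
    · exact Real.rpow_nonneg (Nat.cast_nonneg n) _
  · exact le_refl _

end B2

theorem b2 (hs : St_SUM) : St_B2 := by
  classical
  obtain ⟨C, hC⟩ := Pool.Agent.Helper923.HMertens.mertens_log
  have hC0 : 0 ≤ C := (abs_nonneg _).trans (hC 1 le_rfl)
  refine ⟨Real.exp (-2) / 2, 1 / (2 * (2 * C + 1)), by positivity, by positivity, ?_, ?_⟩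
  · rw [div_le_one (by positivity)]
    linarith
  intro z σ hz hσ hzσ
  have hz' : (32:ℝ) ≤ z := by exact_mod_cast hz
  have hlogz : 1 ≤ Real.log z := by
    rw [Real.le_log_iff_exp_le (by linarith)]
    have := Real.exp_one_lt_d9
    linarith
  have hc0 : 1 / (2 * (2 * C + 1)) ≤ (1:ℝ) / 2 := by
    apply div_le_div_of_nonneg_left (by norm_num) (by norm_num)
    linarith
  have hσc : σ ≤ 1 / (2 * (2 * C + 1)) := by nlinarith
  have hσ2 : σ ≤ 1 / 2 := hσc.trans hc0
  have hinv : 2 ≤ 1 / σ := by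
    rw [le_div_iff₀ hσ]; linarith
  set x1 : ℕ := ⌊Real.exp (1 / σ)⌋₊ with hx1
  set x2 : ℕ := ⌊Real.exp (2 / σ)⌋₊ with hx2
  have he1 : (1:ℝ) ≤ Real.exp (1 / σ) := Real.one_le_exp (by positivity)
  have he2 : (1:ℝ) ≤ Real.exp (2 / σ) := Real.one_le_exp (by positivity)
  have hx11 : 1 ≤ x1 := (Nat.one_le_floor_iff _).2 he1
  have hx21 : 1 ≤ x2 := (Nat.one_le_floor_iff _).2 he2
  have hx12 : x1 ≤ x2 := by
    apply Nat.floor_mono
    apply Real.exp_le_exp.2
    apply div_le_div_of_nonneg_right (by norm_num) hσ.le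
  have hzx1 : (z:ℝ) ≤ Real.exp (1 / σ) := by
    rw [← Real.log_le_iff_le_exp (by linarith)]
    rw [le_div_iff₀ hσ]
    nlinarith
  -- the set of primes
  set S : Finset ℕ := (Finset.Ioc x1 x2).filter Nat.Prime with hS
  have hsum : ∑ p ∈ (Finset.Icc 1 x2).filter Nat.Prime, Real.log p / p =
      ∑ p ∈ (Finset.Icc 1 x1).filter Nat.Prime, Real.log p / p + ∑ p ∈ S, Real.log p / p := by
    rw [hS, ← Finset.sum_union]
    · congr 1
      ext p
      simp only [mem_filter, mem_Icc, mem_union, mem_Ioc]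
      constructor
      · rintro ⟨⟨h1, h2⟩, h3⟩
        by_cases h : p ≤ x1
        · exact Or.inl ⟨⟨h1, h⟩, h3⟩
        · exact Or.inr ⟨⟨by omega, h2⟩, h3⟩
      · rintro (⟨⟨h1, h2⟩, h3⟩ | ⟨⟨h1, h2⟩, h3⟩)
        · exact ⟨⟨h1, by omega⟩, h3⟩
        · exact ⟨⟨by omega, h2⟩, h3⟩
    · rw [Finset.disjoint_left]
      intro p h1 h2
      simp only [mem_filter, mem_Icc, mem_Ioc] at h1 h2
      omega
  have hm1 := abs_le.1 (hC x1 hx11)
  have hm2 := abs_le.1 (hC x2 hx21)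
  have hlx1 : Real.log x1 ≤ 1 / σ := by
    have h0 : (0:ℝ) < x1 := by exact_mod_cast hx11
    rw [Real.log_le_iff_le_exp h0]
    exact Nat.floor_le (by positivity)
  have hlx2 : 2 / σ - 1 ≤ Real.log x2 := by
    have h1 := B2.floor_ge_half he2
    have h2 : Real.log (Real.exp (2 / σ) / 2) ≤ Real.log x2 :=
      Real.log_le_log (by positivity) h1
    rw [Real.log_div (by positivity) (by norm_num), Real.log_exp] at h2
    have h3 : Real.log 2 ≤ 1 := by
      have := Real.log_two_lt_d9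
      linarith
    linarith
  have hSlow : 1 / (2 * σ) ≤ ∑ p ∈ S, Real.log p / p := by
    have h1 : 1 / σ - (2 * C + 1) ≤ ∑ p ∈ S, Real.log p / p := by
      have e : 2 / σ = 1 / σ + 1 / σ := by ring
      linarith [hm1.2, hm2.1]
    have h2 : (2 * C + 1) ≤ 1 / (2 * σ) := by
      rw [le_div_iff₀ (by positivity)]
      rw [le_div_iff₀ (by positivity)] at hσc
      linarith
    have h3 : 1 / σ = 1 / (2 * σ) + 1 / (2 * σ) := by
      field_simp
      norm_num
    linarith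
  -- terms
  have hterm : ∀ p ∈ S, Real.exp (-2) / σ ^ 2 * (Real.log p / p) ≤ bj z 1 1 2 σ p := by
    intro p hp
    simp only [hS, mem_filter, mem_Ioc] at hp
    obtain ⟨⟨hp1, hp2⟩, hpp⟩ := hp
    have hp0 : (0:ℝ) < p := by exact_mod_cast hpp.pos
    have hplow : Real.exp (1 / σ) < p := by
      have := Nat.lt_of_floor_lt hp1
      exact this
    have hpup : (p:ℝ) ≤ Real.exp (2 / σ) :=
      (Nat.le_floor_iff (by positivity)).1 hp2
    have hzp : z < p := by
      have : (z:ℝ) < p := lt_of_le_of_lt hzx1 hplow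
      exact_mod_cast this
    have hR : Rgh z p ∧ p ≡ 1 [MOD 1] := by
      refine ⟨?_, Nat.modEq_one⟩
      intro r hr hrz hrp
      have := (Nat.prime_dvd_prime_iff_eq hr hpp).1 hrp
      omega
    unfold bj
    rw [if_pos hR, ArithmeticFunction.vonMangoldt_apply_prime hpp]
    have hlog1 : 1 / σ ≤ Real.log p := by
      rw [Real.le_log_iff_exp_le hp0]; exact hplow.le
    have hlog2 : Real.log p ≤ 2 / σ := by
      rw [Real.log_le_iff_le_exp hp0]; exact hpup
    have hlog0 : 0 < Real.log p := lt_of_lt_of_le (by positivity) hlog1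
    have hpow : (p:ℝ) ^ (1 + σ) ≤ p * Real.exp 2 := by
      rw [Real.rpow_add hp0, Real.rpow_one]
      apply mul_le_mul_of_nonneg_left _ hp0.le
      rw [Real.rpow_def_of_pos hp0]
      apply Real.exp_le_exp.2
      calc Real.log p * σ ≤ 2 / σ * σ := mul_le_mul_of_nonneg_right hlog2 hσ.le
        _ = 2 := by field_simp
    have hpowpos : 0 < (p:ℝ) ^ (1 + σ) := Real.rpow_pos_of_pos hp0 _
    have hsq : 1 / σ ^ 2 ≤ (Real.log p) ^ 2 := by
      calc 1 / σ ^ 2 = (1 / σ) ^ 2 := by ring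
        _ ≤ (Real.log p) ^ 2 := by
            apply pow_le_pow_left₀ (by positivity) hlog1
    have e1 : Real.exp (-2) = 1 / Real.exp 2 := by
      rw [Real.exp_neg]; ring
    calc Real.exp (-2) / σ ^ 2 * (Real.log p / p)
        = Real.log p * ((1 / σ ^ 2) / (p * Real.exp 2)) := by
          rw [e1]
          have : Real.exp 2 ≠ 0 := (Real.exp_pos 2).ne'
          field_simp
      _ ≤ Real.log p * ((Real.log p) ^ 2 / (p:ℝ) ^ (1 + σ)) := by
          apply mul_le_mul_of_nonneg_left _ hlog0.le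
          apply div_le_div₀ (by positivity) hsq hpowpos hpow
  have hsumm := (hs z 1 1 2 σ hσ).2.1
  unfold Bj
  calc Real.exp (-2) / 2 / σ ^ 3 = Real.exp (-2) / σ ^ 2 * (1 / (2 * σ)) := by
        field_simp
    _ ≤ Real.exp (-2) / σ ^ 2 * ∑ p ∈ S, Real.log p / p :=
        mul_le_mul_of_nonneg_left hSlow (by positivity)
    _ = ∑ p ∈ S, Real.exp (-2) / σ ^ 2 * (Real.log p / p) := by rw [Finset.mul_sum]
    _ ≤ ∑ p ∈ S, bj z 1 1 2 σ p := Finset.sum_le_sum hterm
    _ ≤ ∑' n : ℕ, bj z 1 1 2 σ n :=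
        hsumm.sum_le_tsum S (fun n _ => B2.bj_nonneg z 1 1 2 σ n)

end Pool.Agent.H262R3.Lk
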