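import Mathlib
import Pool.Agent.H262R3.Lk.Stubs

/-! Exact statements of the second batch of tasks. -/

open Finset

namespace Pool.Agent.H262R3.Lk

open Pool.Agent.H318R2.Cr (Rgh V)

/-- BND: size and Lipschitz bounds of the rough `L`-series -/
def St_BND : Prop := ∃ C : ℝ, 1 ≤ C ∧ ∀ (z q : ℕ) (χ : DirichletCharacter ℂ q) (σ : ℝ), 32 ≤ z → 1 ≤ q →
  q ^ 8 ≤ z → 0 < σ → σ * Real.log z ≤ 1 →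
  (χ ≠ 1 → ∀ j : ℕ, j ≤ 3 → ‖Lj z χ j σ‖ ≤ C * (Real.log z) ^ j) ∧
  ‖Lj z (1 : DirichletCharacter ℂ q) 0 σ‖ ≤ C / (σ * Real.log z) ∧
  (χ ≠ 1 → ∀ τ : ℝ, 0 < τ → τ * Real.log z ≤ 1 →
    ‖Lj z χ 0 σ - Lj z χ 0 τ‖ ≤ C * Real.log z * |σ - τ|)

open Classical in
/-- PARS: mean squares over the characters (Parseval on the group of reduced classes) -/
def St_PARS : Prop := ∃ C : ℝ, 1 ≤ C ∧ ∀ (z q : ℕ) (σ : ℝ), 32 ≤ z → 1 ≤ q → q ^ 8 ≤ z → 0 < σ →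
  σ * Real.log z ≤ 1 →
  (∀ j : ℕ, 1 ≤ j → j ≤ 3 → ∑ χ ∈ (univ : Finset (DirichletCharacter ℂ q)).filter (fun χ => χ ≠ 1),
    ‖Lj z χ j σ‖ ^ 2 ≤ C * (Real.log z) ^ (2 * j)) ∧
  (∑ χ : DirichletCharacter ℂ q, ‖Dj z χ 0 σ‖ ^ 2 ≤ C / σ ^ 2) ∧
  (∑ χ : DirichletCharacter ℂ q, ‖Mj z χ σ - 1‖ ^ 2 ≤ C / (σ * Real.log z) ^ 2)

/-- ORT: orthogonality -/
def St_ORT : Prop := ∀ (z q b : ℕ) (σ : ℝ), 32 ≤ z → 1 ≤ q → q ≤ z → b.Coprime q → 0 < σ →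
  (q.totient : ℂ) * ((Bj z q b 2 σ : ℝ) : ℂ) = ∑ χ : DirichletCharacter ℂ q, χ ((b : ZMod q)⁻¹) * Dj z χ 2 σ ∧
  (q.totient : ℂ) * ((Aj z q b 3 σ : ℝ) : ℂ) = ∑ χ : DirichletCharacter ℂ q, χ ((b : ZMod q)⁻¹) * Lj z χ 3 σ ∧
  Lj z (1 : DirichletCharacter ℂ q) 3 σ =
    ((∑ b' ∈ (range q).filter (fun b' => b'.Coprime q), Aj z q b' 3 σ : ℝ) : ℂ) ∧
  Dj z (1 : DirichletCharacter ℂ q) 2 σ = ((Bj z 1 1 2 σ : ℝ) : ℂ)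

/-- COMB: the main combination -/
def St_COMB : Prop := ∀ c1 : ℝ, 0 < c1 → ∃ δ c : ℝ, 0 < δ ∧ δ ≤ 1 ∧ 0 < c ∧ ∀ (z q b : ℕ) (σ : ℝ), 32 ≤ z →
  1 ≤ q → q ^ 8 ≤ z → b.Coprime q → 0 < σ → σ * Real.log z ≤ δ →
  (∀ χ : DirichletCharacter ℂ q, χ ≠ 1 → c1 ≤ ‖Lj z χ 0 σ‖) → c / (q.totient * σ ^ 3) ≤ Bj z q b 2 σ

/-- LOW: at most one exceptional modulus -/
def St_LOW : Prop := ∃ c1 δ0 : ℝ, 0 < c1 ∧ 0 < δ0 ∧ δ0 ≤ 1 ∧ ∀ z : ℕ, 32 ≤ z → ∃ q1 : ℕ, 1 < q1 ∧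
  (z < q1 ∨ ∃ χ : DirichletCharacter ℂ q1, χ.IsPrimitive ∧ ∃ σ : ℝ, 0 < σ ∧ σ ≤ 1 ∧ ‖Lj z χ 0 σ‖ < 1 / 2) ∧
  ∀ q : ℕ, 1 ≤ q → q ^ 16 ≤ z → ¬ q1 ∣ q → ∀ χ : DirichletCharacter ℂ q, χ ≠ 1 →
    ∀ σ : ℝ, 0 < σ → σ * Real.log z ≤ δ0 → c1 ≤ ‖Lj z χ 0 σ‖

/-- weighted windows -/
noncomputable def wn (q b : ℕ) (k : ℕ) : ℝ := pc (Real.exp ((k : ℝ) / 2)) q b / Real.exp ((k : ℝ) / 2)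

/-- WUP: Brun-Titchmarsh for one window -/
def St_WUP : Prop := ∃ C : ℝ, 0 < C ∧ ∀ z q b k : ℕ, 32 ≤ z → 1 ≤ q → q ^ 8 ≤ z → b.Coprime q →
  Real.log z ≤ (k : ℝ) / 2 + 1 → 0 ≤ wn q b k ∧ wn q b k ≤ C / q.totient

/-- WIN: from the series to windows of bounded logarithmic length -/
def St_WIN : Prop := ∀ c : ℝ, 0 < c → ∃ η R c' : ℝ, 0 < η ∧ η < R ∧ 0 < c' ∧ ∀ (z q b : ℕ) (σ : ℝ), 32 ≤ z →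
  1 ≤ q → q ^ 8 ≤ z → b.Coprime q → 0 < σ → σ * Real.log z ≤ η / 4 → c / (q.totient * σ ^ 3) ≤ Bj z q b 2 σ →
  c' / (q.totient * σ ^ 3) ≤
    ∑ k ∈ Icc ⌈η / σ⌉₊ ⌊R / σ⌋₊, (k : ℝ) ^ 2 * Real.exp (-(σ * k / 2)) * wn q b k

/-- SEL: a common window for a positive proportion of `K` progressions -/
def St_SEL : Prop := ∀ (η R c' : ℝ), 0 < η → η < R → 0 < c' → ∃ c5 : ℝ, 0 < c5 ∧ ∀ (K z : ℕ) (σ : ℝ)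
  (q b s : Fin K → ℕ), 32 ≤ z → (∀ i, 1 ≤ q i ∧ q i ^ 8 ≤ z ∧ (b i).Coprime (q i)) → 0 < σ →
  σ * Real.log z ≤ η / 4 → (∀ i, σ * s i ≤ η / 2) →
  (∀ i, c' / ((q i).totient * σ ^ 3) ≤
    ∑ k ∈ Icc ⌈η / σ⌉₊ ⌊R / σ⌋₊, (k : ℝ) ^ 2 * Real.exp (-(σ * k / 2)) * wn (q i) (b i) k) →
  ∃ l : ℕ, η / (2 * σ) ≤ l ∧ (l : ℝ) ≤ R / σ ∧
    c5 * K ≤ (((univ : Finset (Fin K)).filter (fun i => c5 / (q i).totient ≤ wn (q i) (b i) (l + s i))).card : ℝ)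

end Pool.Agent.H262R3.Lk
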