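import Mathlib
import Pool.Agent.H262R3.Lk.Stubs2

/-! Task BND: size and Lipschitz bounds of the rough `L`-series. -/

open Finset

namespace Pool.Agent.H262R3.Lk

open Pool.Agent.H318R2.Cr (Rgh V)

namespace BND

/-- the weight -/
noncomputable def cw (j : ℕ) (σ : ℝ) (n : ℕ) : ℝ := (Real.log n) ^ j / (n : ℝ) ^ (1 + σ)

/-- the reduced residues -/
def rs (q : ℕ) : Finset ℕ := (range q).filter (fun b => b.Coprime q)

theorem card_rs (q : ℕ) : (rs q).card = q.totient := by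
  rw [Nat.totient_eq_card_coprime]
  unfold rs
  congr 1
  ext b
  simp only [mem_filter, Nat.coprime_comm]

theorem le_z {z q : ℕ} (hq : 1 ≤ q) (h : q ^ 8 ≤ z) : q ≤ z :=
  (Nat.le_self_pow (by norm_num) q).trans h

theorem not_rough_zero {z : ℕ} (hz : 32 ≤ z) : ¬ Rgh z 0 := fun h =>
  h 2 Nat.prime_two (by omega) (dvd_zero 2)

theorem rough_one (z : ℕ) : Rgh z 1 := fun p hp _ h =>
  hp.one_lt.ne' (Nat.dvd_one.1 h)

theorem rough_coprime {z q n : ℕ} (hz : 32 ≤ z) (hq : 1 ≤ q) (hqz : q ≤ z) (hn : Rgh z n) :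
    n.Coprime q := by
  by_contra hc
  obtain ⟨p, hp, h1, h2⟩ := Nat.Prime.not_coprime_iff_dvd.1 hc
  exact hn p hp ((Nat.le_of_dvd (by omega) h2).trans hqz) h1

theorem point {z q : ℕ} [NeZero q] (χ : DirichletCharacter ℂ q) (j : ℕ) (σ : ℝ) (hz : 32 ≤ z)
    (hq : 1 ≤ q) (hqz : q ≤ z) (n : ℕ) :
    fz z χ n * ((cw j σ n : ℝ) : ℂ) =
      (if n = 1 then ((cw j σ 1 : ℝ) : ℂ) else 0) + ∑ b ∈ rs q, χ (b : ZMod q) * ((aj z q b j σ n : ℝ) : ℂ) := by
  classical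
  unfold fz
  by_cases hn : Rgh z n
  · rw [if_pos hn]
    by_cases h1 : n = 1
    · subst h1
      rw [if_pos rfl]
      have h2 : ∑ b ∈ rs q, χ (b : ZMod q) * ((aj z q b j σ 1 : ℝ) : ℂ) = 0 := by
        refine Finset.sum_eq_zero fun b _ => ?_
        unfold aj
        rw [if_neg (by rintro ⟨_, _, h⟩; omega)]
        simp
      rw [h2, Nat.cast_one, map_one, one_mul, add_zero]
    · rw [if_neg h1, zero_add]
      have hn1 : 1 < n := by
        have : n ≠ 0 := by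
          rintro rfl
          exact not_rough_zero hz hn
        omega
      have hcop := rough_coprime hz hq hqz hn
      have hmem : n % q ∈ rs q := by
        unfold rs
        rw [mem_filter, mem_range]
        refine ⟨Nat.mod_lt _ hq, ?_⟩
        rw [Nat.coprime_iff_gcd_eq_one, ← Nat.gcd_rec, Nat.gcd_comm] 
        exact hcop
      rw [Finset.sum_eq_single_of_mem (n % q) hmem]
      · unfold aj
        rw [if_pos ⟨hn, (Nat.mod_modEq n q).symm, hn1⟩]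
        have : ((n % q : ℕ) : ZMod q) = (n : ZMod q) := ZMod.natCast_mod n q
        rw [this]
        rfl
      · intro b hb hbn
        unfold aj
        rw [if_neg, Complex.ofReal_zero, mul_zero]
        rintro ⟨_, h, _⟩
        apply hbn
        unfold rs at hb
        rw [mem_filter, mem_range] at hb
        have h3 : n % q = b % q := h
        rw [Nat.mod_eq_of_lt hb.1] at h3
        exact h3.symm
  · rw [if_neg hn, zero_mul]
    have h1 : n ≠ 1 := by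
      rintro rfl
      exact hn (rough_one z)
    rw [if_neg h1, zero_add]
    symm
    refine Finset.sum_eq_zero fun b _ => ?_
    unfold aj
    rw [if_neg (fun h => hn h.1)]
    simp

theorem cw_one (j : ℕ) (σ : ℝ) : cw j σ 1 = if j = 0 then 1 else 0 := by
  unfold cw
  rw [Nat.cast_one, Real.log_one, Real.one_rpow, div_one]
  split_ifs with h
  · rw [h, pow_zero]
  · exact zero_pow h

theorem Lj_eq (hs : St_SUM) {z q : ℕ} [NeZero q] (χ : DirichletCharacter ℂ q) (j : ℕ) {σ : ℝ}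
    (hσ : 0 < σ) (hz : 32 ≤ z) (hq : 1 ≤ q) (hqz : q ≤ z) :
    HasSum (fun n : ℕ => fz z χ n * ((cw j σ n : ℝ) : ℂ))
      (((if j = 0 then 1 else 0 : ℝ) : ℂ) + ∑ b ∈ rs q, χ (b : ZMod q) * ((Aj z q b j σ : ℝ) : ℂ)) := by
  have h1 : HasSum (fun n : ℕ => if n = 1 then ((cw j σ 1 : ℝ) : ℂ) else 0) ((cw j σ 1 : ℝ) : ℂ) :=
    hasSum_ite_eq 1 _
  have h2 : HasSum (fun n : ℕ => ∑ b ∈ rs q, χ (b : ZMod q) * ((aj z q b j σ n : ℝ) : ℂ))
      (∑ b ∈ rs q, χ (b : ZMod q) * ((Aj z q b j σ : ℝ) : ℂ)) := by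
    refine hasSum_sum fun b _ => ?_
    refine HasSum.mul_left _ ?_
    exact Complex.hasSum_ofReal.2 (hs z q b j σ hσ).1.hasSum
  have h3 := h1.add h2
  have e : (fun n : ℕ => fz z χ n * ((cw j σ n : ℝ) : ℂ)) = fun n =>
      (if n = 1 then ((cw j σ 1 : ℝ) : ℂ) else 0) +
        ∑ b ∈ rs q, χ (b : ZMod q) * ((aj z q b j σ n : ℝ) : ℂ) :=
    funext fun n => point χ j σ hz hq hqz n
  rw [e, ← cw_one j σ]
  exact h3

theorem Lj_val (hs : St_SUM) {z q : ℕ} [NeZero q] (χ : DirichletCharacter ℂ q) (j : ℕ) {σ : ℝ}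
    (hσ : 0 < σ) (hz : 32 ≤ z) (hq : 1 ≤ q) (hqz : q ≤ z) :
    Lj z χ j σ = ((if j = 0 then 1 else 0 : ℝ) : ℂ) +
      ∑ b ∈ rs q, χ (b : ZMod q) * ((Aj z q b j σ : ℝ) : ℂ) :=
  (Lj_eq hs χ j hσ hz hq hqz).tsum_eq

theorem sum_range_eq {q : ℕ} [NeZero q] (f : ZMod q → ℂ) :
    ∑ b ∈ range q, f (b : ZMod q) = ∑ a : ZMod q, f a := by
  refine Finset.sum_nbij' (fun b => (b : ZMod q)) (fun a => a.val) ?_ ?_ ?_ ?_ ?_
  · intro b _
    exact mem_univ _
  · intro a _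
    exact mem_range.2 (ZMod.val_lt a)
  · intro b hb
    exact ZMod.val_natCast_of_lt (mem_range.1 hb)
  · intro a _
    exact ZMod.natCast_zmod_val a
  · intro b _
    rfl

theorem sum_char {q : ℕ} [NeZero q] (χ : DirichletCharacter ℂ q) (hχ : χ ≠ 1) :
    ∑ b ∈ rs q, χ (b : ZMod q) = 0 := by
  have h1 : ∑ b ∈ rs q, χ (b : ZMod q) = ∑ b ∈ range q, χ (b : ZMod q) := by
    unfold rs
    rw [Finset.sum_filter]
    refine Finset.sum_congr rfl fun b _ => ?_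
    split_ifs with h
    · rfl
    · symm
      refine χ.map_nonunit ?_
      rw [ZMod.isUnit_iff_coprime]
      exact h
  rw [h1, sum_range_eq (fun a => χ a)]
  exact MulChar.sum_eq_zero_of_ne_one hχ

theorem one_mem_rs {q : ℕ} (hq : 1 ≤ q) : (1 % q) ∈ rs q := by
  unfold rs
  rw [mem_filter, mem_range]
  refine ⟨Nat.mod_lt _ hq, ?_⟩
  rw [Nat.coprime_iff_gcd_eq_one, ← Nat.gcd_rec, Nat.gcd_one_right]

theorem log_ge {z : ℕ} (hz : 32 ≤ z) : 1 ≤ Real.log z := by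
  have h1 : (32 : ℝ) ≤ z := by exact_mod_cast hz
  have h2 : Real.exp 1 ≤ z := by
    have := Real.exp_one_lt_d9
    linarith
  rw [Real.le_log_iff_exp_le (by linarith)]
  exact h2

/-- part (1) -/
theorem part1 (hs : St_SUM) {C : ℝ} (hC : 0 < C)
    (hd : ∀ (z q b b' j : ℕ) (σ : ℝ), 32 ≤ z → 1 ≤ q → q ^ 8 ≤ z →
      b.Coprime q → b'.Coprime q → j ≤ 3 → 0 < σ → σ ≤ 1 →
      |Aj z q b j σ - Aj z q b' j σ| ≤ C * (Real.log z) ^ j / q.totient)
    {z q : ℕ} (χ : DirichletCharacter ℂ q) {σ : ℝ} (hz : 32 ≤ z) (hq : 1 ≤ q) (hqz : q ^ 8 ≤ z)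
    (hσ : 0 < σ) (hσ1 : σ * Real.log z ≤ 1) (hχ : χ ≠ 1) (j : ℕ) (hj : j ≤ 3) :
    ‖Lj z χ j σ‖ ≤ (1 + C) * (Real.log z) ^ j := by
  have : NeZero q := ⟨by omega⟩
  have hL := log_ge hz
  have hσ2 : σ ≤ 1 := by nlinarith
  rw [Lj_val hs χ j hσ hz hq (le_z hq hqz)]
  have hφ : (0 : ℝ) < q.totient := by exact_mod_cast Nat.totient_pos.2 hq
  have h1 : ∑ b ∈ rs q, χ (b : ZMod q) * ((Aj z q b j σ : ℝ) : ℂ) =
      ∑ b ∈ rs q, χ (b : ZMod q) * ((Aj z q b j σ - Aj z q (1 % q) j σ : ℝ) : ℂ) := by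
    have h2 : ∑ b ∈ rs q, χ (b : ZMod q) * ((Aj z q (1 % q) j σ : ℝ) : ℂ) = 0 := by
      rw [← Finset.sum_mul, sum_char χ hχ, zero_mul]
    have h3 : ∀ b ∈ rs q, χ (b : ZMod q) * ((Aj z q b j σ - Aj z q (1 % q) j σ : ℝ) : ℂ) =
        χ (b : ZMod q) * ((Aj z q b j σ : ℝ) : ℂ) -
          χ (b : ZMod q) * ((Aj z q (1 % q) j σ : ℝ) : ℂ) := by
      intro b _
      rw [Complex.ofReal_sub, mul_sub]
    rw [Finset.sum_congr rfl h3, Finset.sum_sub_distrib, h2, sub_zero]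
  rw [h1]
  have h4 : ‖∑ b ∈ rs q, χ (b : ZMod q) * ((Aj z q b j σ - Aj z q (1 % q) j σ : ℝ) : ℂ)‖ ≤
      C * (Real.log z) ^ j := by
    refine (norm_sum_le _ _).trans ?_
    have h5 : ∀ b ∈ rs q, ‖χ (b : ZMod q) * ((Aj z q b j σ - Aj z q (1 % q) j σ : ℝ) : ℂ)‖ ≤
        C * (Real.log z) ^ j / q.totient := by
      intro b hb
      rw [norm_mul, Complex.norm_real, Real.norm_eq_abs]
      have h6 := χ.norm_le_one (b : ZMod q)
      have h7 := hd z q b (1 % q) j σ hz hq hqz (mem_filter.1 hb).2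
        (mem_filter.1 (one_mem_rs hq)).2 hj hσ hσ2
      calc ‖χ (b : ZMod q)‖ * |Aj z q b j σ - Aj z q (1 % q) j σ|
          ≤ 1 * |Aj z q b j σ - Aj z q (1 % q) j σ| :=
            mul_le_mul_of_nonneg_right h6 (abs_nonneg _)
        _ ≤ _ := by rw [one_mul]; exact h7
    refine (Finset.sum_le_sum h5).trans ?_
    rw [Finset.sum_const, nsmul_eq_mul, card_rs]
    apply le_of_eq
    field_simp
  refine (norm_add_le _ _).trans ?_
  have h8 : ‖((if j = 0 then 1 else 0 : ℝ) : ℂ)‖ ≤ 1 * (Real.log z) ^ j := by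
    rw [Complex.norm_real, Real.norm_eq_abs, one_mul]
    split_ifs with h
    · rw [h, pow_zero, abs_one]
    · rw [abs_zero]
      positivity
  calc _ ≤ 1 * (Real.log z) ^ j + C * (Real.log z) ^ j := add_le_add h8 h4
    _ = _ := by ring

theorem Aj_nonneg (z q b j : ℕ) {σ : ℝ} : 0 ≤ Aj z q b j σ := by
  classical
  unfold Aj
  refine tsum_nonneg fun n => ?_
  unfold aj
  split_ifs with h
  · exact div_nonneg (pow_nonneg (Real.log_natCast_nonneg n) _)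
      (Real.rpow_nonneg (Nat.cast_nonneg n) _)
  · exact le_rfl

/-- part (2) -/
theorem part2 (hs : St_SUM) {C : ℝ} (hC : 0 < C)
    (ha : ∀ (z q b : ℕ) (σ : ℝ), 32 ≤ z → 1 ≤ q → q ^ 8 ≤ z →
      b.Coprime q → 0 < σ → σ * Real.log z ≤ 1 → Aj z q b 0 σ ≤ C / (q.totient * (σ * Real.log z)))
    {z q : ℕ} {σ : ℝ} (hz : 32 ≤ z) (hq : 1 ≤ q) (hqz : q ^ 8 ≤ z)
    (hσ : 0 < σ) (hσ1 : σ * Real.log z ≤ 1) :
    ‖Lj z (1 : DirichletCharacter ℂ q) 0 σ‖ ≤ (1 + C) / (σ * Real.log z) := by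
  have : NeZero q := ⟨by omega⟩
  have hL := log_ge hz
  have hφ : (0 : ℝ) < q.totient := by exact_mod_cast Nat.totient_pos.2 hq
  have hσL : 0 < σ * Real.log z := by positivity
  rw [Lj_val hs _ 0 hσ hz hq (le_z hq hqz)]
  refine (norm_add_le _ _).trans ?_
  have h4 : ‖∑ b ∈ rs q, (1 : DirichletCharacter ℂ q) (b : ZMod q) * ((Aj z q b 0 σ : ℝ) : ℂ)‖ ≤
      C / (σ * Real.log z) := by
    refine (norm_sum_le _ _).trans ?_
    have h5 : ∀ b ∈ rs q, ‖(1 : DirichletCharacter ℂ q) (b : ZMod q) * ((Aj z q b 0 σ : ℝ) : ℂ)‖ ≤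
        C / (q.totient * (σ * Real.log z)) := by
      intro b hb
      rw [norm_mul, Complex.norm_real, Real.norm_eq_abs, abs_of_nonneg (Aj_nonneg z q b 0)]
      have h6 := (1 : DirichletCharacter ℂ q).norm_le_one (b : ZMod q)
      have h7 := ha z q b σ hz hq hqz (mem_filter.1 hb).2 hσ hσ1
      calc ‖(1 : DirichletCharacter ℂ q) (b : ZMod q)‖ * Aj z q b 0 σ
          ≤ 1 * Aj z q b 0 σ := mul_le_mul_of_nonneg_right h6 (Aj_nonneg z q b 0)
        _ ≤ _ := by rw [one_mul]; exact h7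
    refine (Finset.sum_le_sum h5).trans ?_
    rw [Finset.sum_const, nsmul_eq_mul, card_rs]
    apply le_of_eq
    field_simp
  have h8 : ‖((if (0 : ℕ) = 0 then 1 else 0 : ℝ) : ℂ)‖ ≤ 1 / (σ * Real.log z) := by
    rw [if_pos rfl, Complex.ofReal_one, norm_one, le_div_iff₀ hσL, one_mul]
    exact hσ1
  calc _ ≤ 1 / (σ * Real.log z) + C / (σ * Real.log z) := add_le_add h8 h4
    _ = _ := by ring

/-! ### the derivative -/

theorem fz_norm_le (z : ℕ) {q : ℕ} (χ : DirichletCharacter ℂ q) (n : ℕ) : ‖fz z χ n‖ ≤ 1 := by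
  classical
  unfold fz
  split_ifs with h
  · exact χ.norm_le_one _
  · rw [norm_zero]; exact zero_le_one

theorem fz_zero {z : ℕ} (hz : 32 ≤ z) {q : ℕ} (χ : DirichletCharacter ℂ q) : fz z χ 0 = 0 := by
  classical
  unfold fz
  rw [if_neg (not_rough_zero hz)]

theorem cpow_eq (n : ℕ) (σ : ℝ) : (((n : ℝ) ^ (1 + σ) : ℝ) : ℂ) = (n : ℂ) ^ ((1 : ℂ) + σ) := by
  rw [Complex.ofReal_cpow (Nat.cast_nonneg n)]
  push_cast
  rfl

theorem L0_eq {z : ℕ} (hz : 32 ≤ z) {q : ℕ} (χ : DirichletCharacter ℂ q) (σ : ℝ) :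
    Lj z χ 0 σ = LSeries (fz z χ) (1 + σ) := by
  unfold Lj LSeries
  refine tsum_congr fun n => ?_
  unfold LSeries.term
  split_ifs with h
  · rw [h, fz_zero hz, zero_mul]
  · rw [← cpow_eq, pow_zero, Complex.ofReal_div, Complex.ofReal_one]
    ring

theorem L1_eq {z : ℕ} (hz : 32 ≤ z) {q : ℕ} (χ : DirichletCharacter ℂ q) (σ : ℝ) :
    Lj z χ 1 σ = LSeries (LSeries.logMul (fz z χ)) (1 + σ) := by
  unfold Lj LSeries
  refine tsum_congr fun n => ?_
  unfold LSeries.term LSeries.logMul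
  split_ifs with h
  · rw [h, fz_zero hz, zero_mul]
  · rw [← cpow_eq, pow_one, Complex.ofReal_div, Complex.ofReal_log (Nat.cast_nonneg n)]
    push_cast
    ring

theorem hasDeriv {z : ℕ} (hz : 32 ≤ z) {q : ℕ} (χ : DirichletCharacter ℂ q) {σ : ℝ} (hσ : 0 < σ) :
    HasDerivAt (fun u : ℝ => Lj z χ 0 u) (-(Lj z χ 1 σ)) σ := by
  have hab : LSeries.abscissaOfAbsConv (fz z χ) ≤ 1 :=
    LSeries.abscissaOfAbsConv_le_of_le_const ⟨1, fun n _ => fz_norm_le z χ n⟩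
  have hre : LSeries.abscissaOfAbsConv (fz z χ) < ((1 : ℂ) + (σ : ℂ)).re := by
    refine lt_of_le_of_lt hab ?_
    rw [Complex.add_re, Complex.one_re, Complex.ofReal_re]
    have : (1 : ℝ) < 1 + σ := by linarith
    exact_mod_cast this
  have h1 := LSeries_hasDerivAt hre
  have h2 : HasDerivAt (fun u : ℝ => (1 : ℂ) + (u : ℂ)) 1 σ := by
    have := (Complex.ofRealCLM.hasDerivAt (x := σ)).const_add (1 : ℂ)
    simpa using this
  have h3 := h1.comp σ h2
  rw [mul_one, ← L1_eq hz] at h3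
  have e : (fun u : ℝ => Lj z χ 0 u) = LSeries (fz z χ) ∘ fun u : ℝ => (1 : ℂ) + (u : ℂ) := by
    funext u
    exact L0_eq hz χ u
  rw [e]
  exact h3

end BND

theorem bnd (hs : St_SUM) (hd : St_DIFF) (ha : St_A0) : St_BND := by
  obtain ⟨C1, hC1, hd⟩ := hd
  obtain ⟨C2, hC2, ha⟩ := ha
  refine ⟨1 + C1 + C2, by linarith, ?_⟩
  intro z q χ σ hz hq hqz hσ hσ1
  have hL := BND.log_ge hz
  have hL0 : 0 < Real.log z := by linarith
  refine ⟨?_, ?_, ?_⟩
  · intro hχ j hj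
    refine (BND.part1 hs hC1 hd χ hz hq hqz hσ hσ1 hχ j hj).trans ?_
    refine mul_le_mul_of_nonneg_right (by linarith) (by positivity)
  · refine (BND.part2 hs hC2 ha hz hq hqz hσ hσ1).trans ?_
    exact div_le_div_of_nonneg_right (by linarith) (by positivity)
  · intro hχ τ hτ hτ1
    have hseg : ∀ u ∈ Set.Icc (min σ τ) (max σ τ), 0 < u ∧ u * Real.log z ≤ 1 := by
      intro u hu
      refine ⟨lt_of_lt_of_le (lt_min hσ hτ) hu.1, ?_⟩
      rcases le_max_iff.1 hu.2 with h | h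
      · nlinarith
      · nlinarith
    have hconv : Convex ℝ (Set.Icc (min σ τ) (max σ τ)) := convex_Icc _ _
    have key := hconv.norm_image_sub_le_of_norm_hasDerivWithin_le (𝕜 := ℝ)
      (f := fun u : ℝ => Lj z χ 0 u) (f' := fun u => -(Lj z χ 1 u))
      (C := (1 + C1 + C2) * Real.log z) (x := τ) (y := σ)
      (fun u hu => (BND.hasDeriv hz χ (hseg u hu).1).hasDerivWithinAt) (fun u hu => by
        rw [norm_neg]
        have h1 := BND.part1 hs hC1 hd χ hz hq hqz (hseg u hu).1 (hseg u hu).2 hχ 1 (by norm_num)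
        rw [pow_one] at h1
        refine h1.trans (mul_le_mul_of_nonneg_right (by linarith) hL0.le))
      ⟨min_le_right _ _, le_max_right _ _⟩ ⟨min_le_left _ _, le_max_left _ _⟩
    rw [Real.norm_eq_abs] at key
    exact key

end Pool.Agent.H262R3.Lk
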