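import Mathlib
import Pool.Agent.H262R3.Lk.Stubs
import Pool.Agent.Helper602.MK.J3

/-!
# Brun-Titchmarsh for the von Mangoldt function
-/

set_option autoImplicit false

open Finset

namespace Pool.Agent.H262R3.Lk

theorem bt : St_BT := by
  obtain ⟨C1, hC1, hBT⟩ := Pool.Agent.Helper602.MK.BTLib.brun_titchmarsh
  obtain ⟨C2, hC2⟩ := Chebyshev.psi_sub_theta_le_mul_sqrt
  refine ⟨3 * C1 + |C2|, by positivity, ?_⟩
  intro q b N hN hq hqN hbq
  have hN0 : (0 : ℝ) < N := by exact_mod_cast (by omega : 0 < N)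
  have hq0 : (0 : ℝ) < q := by exact_mod_cast hq
  have hφ : (0 : ℝ) < (Nat.totient q : ℝ) := by exact_mod_cast Nat.totient_pos.2 hq
  have hφq : (Nat.totient q : ℝ) ≤ q := by exact_mod_cast Nat.totient_le q
  have hlogN : 0 < Real.log N := Real.log_pos (by exact_mod_cast (by omega : 1 < N))
  have hqN1 : q ≤ N := by
    calc q = q ^ 1 := (pow_one _).symm
      _ ≤ q ^ 8 := Nat.pow_le_pow_right hq (by norm_num)
      _ ≤ N := hqN
  -- splitting
  have hsplit : ∑ n ∈ (Icc 1 N).filter (fun n => n ≡ b [MOD q]), ArithmeticFunction.vonMangoldt n =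
      ∑ n ∈ ((Icc 1 N).filter (fun n => n ≡ b [MOD q])).filter (fun n => n.Prime),
        ArithmeticFunction.vonMangoldt n +
      ∑ n ∈ ((Icc 1 N).filter (fun n => n ≡ b [MOD q])).filter (fun n => ¬ n.Prime),
        ArithmeticFunction.vonMangoldt n :=
    (Finset.sum_filter_add_sum_filter_not _ _ _).symm
  -- prime powers
  have h2 : ∑ n ∈ ((Icc 1 N).filter (fun n => n ≡ b [MOD q])).filter (fun n => ¬ n.Prime),
      ArithmeticFunction.vonMangoldt n ≤ |C2| * (N / Nat.totient q) := by
    have e1 : ∑ n ∈ ((Icc 1 N).filter (fun n => n ≡ b [MOD q])).filter (fun n => ¬ n.Prime),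
        ArithmeticFunction.vonMangoldt n ≤
        ∑ n ∈ Ioc 0 ⌊(N : ℝ)⌋₊ with ¬ n.Prime, ArithmeticFunction.vonMangoldt n := by
      refine Finset.sum_le_sum_of_subset_of_nonneg ?_ fun _ _ _ =>
        ArithmeticFunction.vonMangoldt_nonneg
      intro n hn
      simp only [Finset.mem_filter, Finset.mem_Icc, Finset.mem_Ioc, Nat.floor_natCast] at hn ⊢
      exact ⟨⟨by omega, hn.1.1.2⟩, hn.2⟩
    rw [← Chebyshev.psi_sub_theta_eq_sum_not_prime] at e1
    refine e1.trans ((hC2 N).trans ?_)
    have e2 : Real.sqrt N ≤ N / Nat.totient q := by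
      rw [le_div_iff₀ hφ]
      have e3 : (Nat.totient q : ℝ) ≤ Real.sqrt N := by
        refine hφq.trans (Real.le_sqrt_of_sq_le ?_)
        have : q ^ 2 ≤ N := (Nat.pow_le_pow_right hq (by norm_num)).trans hqN
        exact_mod_cast this
      calc Real.sqrt N * Nat.totient q ≤ Real.sqrt N * Real.sqrt N :=
            mul_le_mul_of_nonneg_left e3 (Real.sqrt_nonneg _)
        _ = N := Real.mul_self_sqrt hN0.le
    calc C2 * Real.sqrt N ≤ |C2| * Real.sqrt N :=
          mul_le_mul_of_nonneg_right (le_abs_self _) (Real.sqrt_nonneg _)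
      _ ≤ _ := mul_le_mul_of_nonneg_left e2 (abs_nonneg _)
  -- primes
  set K : ℕ := N / q + 1 with hK
  have hK2 : 2 ≤ K := by
    have : 1 ≤ N / q := (Nat.one_le_div_iff (by omega)).2 hqN1
    omega
  have hNK : N < K * q := by
    have := Nat.lt_div_mul_add (a := N) (b := q) (by omega)
    rw [hK]
    linarith
  have hKle : (K : ℝ) ≤ 2 * N / q := by
    rw [le_div_iff₀ hq0]
    have e1 : N / q * q ≤ N := Nat.div_mul_le_self _ _
    have : K * q ≤ 2 * N := by
      rw [hK]
      nlinarith
    exact_mod_cast this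
  have hK0 : (0 : ℝ) < K := by exact_mod_cast (by omega : 0 < K)
  have hlogK0 : 0 < Real.log K := Real.log_pos (by exact_mod_cast (by omega : 1 < K))
  have hlogK : 7 * Real.log N ≤ 8 * Real.log K := by
    have e1 : N ^ 7 ≤ K ^ 8 := by
      have e2 : N ^ 8 ≤ K ^ 8 * q ^ 8 := by
        rw [← mul_pow]
        exact Nat.pow_le_pow_left hNK.le 8
      have e3 : N ^ 7 * N ≤ K ^ 8 * N := by
        calc N ^ 7 * N = N ^ 8 := by ring
          _ ≤ K ^ 8 * q ^ 8 := e2
          _ ≤ K ^ 8 * N := Nat.mul_le_mul_left _ hqN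
      exact Nat.le_of_mul_le_mul_right e3 (by omega)
    have e4 : (N : ℝ) ^ 7 ≤ (K : ℝ) ^ 8 := by exact_mod_cast e1
    have e5 := Real.log_le_log (by positivity) e4
    rw [Real.log_pow, Real.log_pow] at e5
    exact_mod_cast e5
  have h1 : ∑ n ∈ ((Icc 1 N).filter (fun n => n ≡ b [MOD q])).filter (fun n => n.Prime),
      ArithmeticFunction.vonMangoldt n ≤ 3 * C1 * (N / Nat.totient q) := by
    have e1 : ∑ n ∈ ((Icc 1 N).filter (fun n => n ≡ b [MOD q])).filter (fun n => n.Prime),
        ArithmeticFunction.vonMangoldt n ≤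
        ((((Icc 1 N).filter (fun n => n ≡ b [MOD q])).filter (fun n => n.Prime)).card : ℝ) *
          Real.log N := by
      rw [← nsmul_eq_mul, ← Finset.sum_const]
      refine Finset.sum_le_sum fun n hn => ?_
      simp only [Finset.mem_filter, Finset.mem_Icc] at hn
      refine ArithmeticFunction.vonMangoldt_le_log.trans ?_
      refine Real.log_le_log (by exact_mod_cast (by omega : 0 < n)) ?_
      exact_mod_cast hn.1.1.2
    have e2 : (((Icc 1 N).filter (fun n => n ≡ b [MOD q])).filter (fun n => n.Prime)).card ≤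
        ((Finset.range K).filter (fun k => (b % q + k * q).Prime)).card := by
      apply card_le_card_of_injOn (fun p => p / q)
      · intro p hp
        rw [mem_coe, mem_filter, mem_filter, mem_Icc] at hp
        obtain ⟨⟨⟨h1, h2⟩, h4⟩, h3⟩ := hp
        have h5 : b % q + p / q * q = p := by
          have : p % q = b % q := h4
          rw [← this, mul_comm]; exact Nat.mod_add_div p q
        rw [mem_coe, mem_filter, mem_range]
        refine ⟨?_, by rw [h5]; exact h3⟩
        rw [Nat.div_lt_iff_lt_mul (by omega)]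
        omega
      · intro p hp p' hp' h
        rw [mem_coe, mem_filter, mem_filter] at hp hp'
        have h1 : p % q = b % q := hp.1.2
        have h2 : p' % q = b % q := hp'.1.2
        simp only at h
        have e1 := Nat.mod_add_div p q
        have e2 := Nat.mod_add_div p' q
        rw [← e1, ← e2, h1, h2, h]
    have e3 := hBT (b % q) q K hq hK2
    have e4 : ((((Icc 1 N).filter (fun n => n ≡ b [MOD q])).filter (fun n => n.Prime)).card : ℝ) ≤
        C1 * ((q : ℝ) / (Nat.totient q : ℝ)) * K / Real.log K := by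
      refine le_trans ?_ e3
      exact_mod_cast e2
    have hC10 : 0 < C1 := by linarith
    calc _ ≤ ((((Icc 1 N).filter (fun n => n ≡ b [MOD q])).filter
            (fun n => n.Prime)).card : ℝ) * Real.log N := e1
      _ ≤ (C1 * ((q : ℝ) / (Nat.totient q : ℝ)) * K / Real.log K) * Real.log N :=
          mul_le_mul_of_nonneg_right e4 hlogN.le
      _ ≤ (C1 * ((q : ℝ) / (Nat.totient q : ℝ)) * K / Real.log K) * (8 / 7 * Real.log K) := by
          refine mul_le_mul_of_nonneg_left (by linarith) (by positivity)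
      _ = 8 / 7 * (C1 * ((q : ℝ) / (Nat.totient q : ℝ)) * K) := by
          field_simp
      _ ≤ 8 / 7 * (C1 * ((q : ℝ) / (Nat.totient q : ℝ)) * (2 * N / q)) := by
          gcongr
      _ = 16 / 7 * C1 * (N / Nat.totient q) := by
          field_simp
          ring
      _ ≤ 3 * C1 * (N / Nat.totient q) := by
          have : 0 ≤ (N : ℝ) / Nat.totient q := by positivity
          have h3 : 16 / 7 * C1 ≤ 3 * C1 := by linarith
          exact mul_le_mul_of_nonneg_right h3 this
  rw [hsplit]
  calc _ ≤ 3 * C1 * (N / Nat.totient q) + |C2| * (N / Nat.totient q) := add_le_add h1 h2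
    _ = _ := by ring

end Pool.Agent.H262R3.Lk
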