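import Pool.Agent.H262R3.Lk.Stubs2

/-!
# COMB: the main combination
-/

open Finset

namespace Pool.Agent.H262R3.Lk

open Pool.Agent.H318R2.Cr (Rgh V)

namespace COMB

theorem log32 (z : ℕ) (hz : 32 ≤ z) : 3 < Real.log z := by
  have h1 : Real.log 32 ≤ Real.log z := Real.log_le_log (by norm_num) (by exact_mod_cast hz)
  have h2 : Real.log 32 = 5 * Real.log 2 := by
    rw [show (32 : ℝ) = 2 ^ 5 by norm_num, Real.log_pow]
    norm_num
  have h3 := Real.log_two_gt_d9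
  linarith

/-- Cauchy-Schwarz with bounds -/
theorem cs {ι : Type*} (s : Finset ι) (f g : ι → ℝ) {a b : ℝ} (ha : 0 ≤ a) (hb : 0 ≤ b)
    (hf : ∑ i ∈ s, f i ^ 2 ≤ a ^ 2) (hg : ∑ i ∈ s, g i ^ 2 ≤ b ^ 2) :
    ∑ i ∈ s, f i * g i ≤ a * b := by
  refine (Real.sum_mul_le_sqrt_mul_sqrt s f g).trans ?_
  have h1 : √(∑ i ∈ s, f i ^ 2) ≤ a := by
    rw [← Real.sqrt_sq ha]
    exact Real.sqrt_le_sqrt hf
  have h2 : √(∑ i ∈ s, g i ^ 2) ≤ b := by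
    rw [← Real.sqrt_sq hb]
    exact Real.sqrt_le_sqrt hg
  exact mul_le_mul h1 h2 (Real.sqrt_nonneg _) ha

end COMB

theorem comb (halg : St_ALG) (hb2 : St_B2) (hdiff : St_DIFF) (hbnd : St_BND) (hpars : St_PARS)
    (hort : St_ORT) : St_COMB := by
  classical
  obtain ⟨c2, c0, hc2, hc0, hc01, hB2⟩ := hb2
  obtain ⟨Cd, hCd, hD⟩ := hdiff
  obtain ⟨Cb, hCb, hBnd⟩ := hbnd
  obtain ⟨Cp, hCp, hP⟩ := hpars
  intro c1 hc1
  set C' : ℝ := Cd + Cp + 3 * Cp / c1 + 2 * Cb * Cp / c1 with hC'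
  have hC'0 : 0 < C' := by
    have : 0 < Cb := by linarith
    have : 0 < Cp := by linarith
    positivity
  refine ⟨min c0 (c2 / (2 * C')), c2 / 2, lt_min hc0 (by positivity),
    (min_le_left _ _).trans hc01, by positivity, ?_⟩
  set δ : ℝ := min c0 (c2 / (2 * C')) with hδ
  intro z q b σ hz hq hqz hb hσ hσz hχ
  have hL3 := COMB.log32 z hz
  set L := Real.log z with hL
  have hL0 : 0 < L := by linarith
  have hδ0 : 0 < δ := lt_min hc0 (by positivity)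
  have hδ1 : δ ≤ 1 := (min_le_left _ _).trans hc01
  have hσL : σ * L ≤ 1 := hσz.trans hδ1
  have hσ1 : σ ≤ 1 := by nlinarith
  have hqz' : q ≤ z := (Nat.le_self_pow (by norm_num) q).trans hqz
  have hφ : 0 < (q.totient : ℝ) := by exact_mod_cast Nat.totient_pos.2 hq
  have hne : NeZero q := ⟨by omega⟩
  obtain ⟨o1, o2, o3, o4⟩ := hort z q b σ hz hq hqz' hb hσ
  obtain ⟨p1, p2, p3⟩ := hP z q σ hz hq hqz hσ hσL
  set X : Finset (DirichletCharacter ℂ q) := univ.filter (fun χ => χ ≠ 1) with hX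
  have hXmem : ∀ χ ∈ X, χ ≠ 1 := fun χ h => (Finset.mem_filter.1 h).2
  have hbu : IsUnit ((b : ZMod q)⁻¹) := by
    have h1 : IsUnit (b : ZMod q) := (ZMod.isUnit_iff_coprime b q).2 hb
    obtain ⟨u, hu⟩ := h1
    rw [← hu, ZMod.inv_coe_unit]
    exact Units.isUnit _
  have hsplit : ∀ F : DirichletCharacter ℂ q → ℂ,
      ∑ χ : DirichletCharacter ℂ q, χ ((b : ZMod q)⁻¹) * F χ =
        F 1 + ∑ χ ∈ X, χ ((b : ZMod q)⁻¹) * F χ := by
    intro F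
    rw [← Finset.sum_filter_add_sum_filter_not univ
      (fun χ : DirichletCharacter ℂ q => χ ≠ 1), ← hX]
    have h1 : univ.filter (fun χ : DirichletCharacter ℂ q => ¬ χ ≠ 1) = {1} := by
      ext χ
      simp
    rw [h1, Finset.sum_singleton, MulChar.one_apply hbu, one_mul, add_comm]
  -- algebra for each character
  have hD0 : ∀ χ ∈ X, Dj z χ 0 σ = Lj z χ 1 σ * Mj z χ σ := by
    intro χ _
    obtain ⟨a1, a2, _⟩ := halg z q χ σ hz hσ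
    rw [a2, mul_assoc, mul_comm (Lj z χ 0 σ), a1, mul_one]
  have hD2 : ∀ χ ∈ X, Dj z χ 2 σ = Lj z χ 3 σ + (Lj z χ 3 σ * (Mj z χ σ - 1) -
      3 * Dj z χ 0 σ * Lj z χ 2 σ * Mj z χ σ + 2 * (Dj z χ 0 σ) ^ 3) := by
    intro χ _
    obtain ⟨a1, _, a3⟩ := halg z q χ σ hz hσ
    have h1 : Dj z χ 2 σ = Dj z χ 2 σ * Lj z χ 0 σ * Mj z χ σ := by
      rw [mul_assoc, mul_comm (Lj z χ 0 σ), a1, mul_one]
    rw [h1, a3]
    have h2 : 2 * (Dj z χ 0 σ) ^ 3 * Lj z χ 0 σ * Mj z χ σ = 2 * (Dj z χ 0 σ) ^ 3 := by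
      rw [mul_assoc, mul_comm (Lj z χ 0 σ), a1, mul_one]
    linear_combination h2
  have hMn : ∀ χ ∈ X, ‖Mj z χ σ‖ ≤ 1 / c1 := by
    intro χ hx
    obtain ⟨a1, _, _⟩ := halg z q χ σ hz hσ
    have h1 := congrArg norm a1
    rw [norm_mul, norm_one] at h1
    have h2 := hχ χ (hXmem χ hx)
    rw [le_div_iff₀ hc1]
    calc ‖Mj z χ σ‖ * c1 ≤ ‖Mj z χ σ‖ * ‖Lj z χ 0 σ‖ :=
          mul_le_mul_of_nonneg_left h2 (norm_nonneg _)
      _ = 1 := h1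
  have hχn : ∀ χ : DirichletCharacter ℂ q, ‖χ ((b : ZMod q)⁻¹)‖ ≤ 1 :=
    fun χ => DirichletCharacter.norm_le_one χ _
  -- (a)
  have ha : ‖∑ χ ∈ X, χ ((b : ZMod q)⁻¹) * Lj z χ 3 σ‖ ≤ Cd * L ^ 3 := by
    have h1 := hsplit (fun χ => Lj z χ 3 σ)
    rw [← o2] at h1
    have h2 : ∑ χ ∈ X, χ ((b : ZMod q)⁻¹) * Lj z χ 3 σ =
        (((q.totient : ℝ) * Aj z q b 3 σ -
          ∑ b' ∈ (range q).filter (fun b' => b'.Coprime q), Aj z q b' 3 σ : ℝ) : ℂ) := by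
      push_cast
      rw [h1, o3]
      push_cast
      ring
    rw [h2, Complex.norm_real, Real.norm_eq_abs]
    have hcard : ((range q).filter (fun b' => b'.Coprime q)).card = q.totient := by
      rw [Nat.totient_eq_card_coprime]
      congr 1
      ext x
      simp only [Finset.mem_filter, Nat.coprime_comm]
    have h3 : (q.totient : ℝ) * Aj z q b 3 σ -
        ∑ b' ∈ (range q).filter (fun b' => b'.Coprime q), Aj z q b' 3 σ =
        ∑ b' ∈ (range q).filter (fun b' => b'.Coprime q), (Aj z q b 3 σ - Aj z q b' 3 σ) := by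
      rw [Finset.sum_sub_distrib, Finset.sum_const, hcard, nsmul_eq_mul]
    rw [h3]
    refine (Finset.abs_sum_le_sum_abs _ _).trans ?_
    have h4 : ∑ b' ∈ (range q).filter (fun b' => b'.Coprime q), |Aj z q b 3 σ - Aj z q b' 3 σ| ≤
        ∑ b' ∈ (range q).filter (fun b' => b'.Coprime q), Cd * L ^ 3 / q.totient := by
      refine Finset.sum_le_sum fun b' hb' => ?_
      exact hD z q b b' 3 σ hz hq hqz hb (Finset.mem_filter.1 hb').2 (le_refl _) hσ hσ1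
    refine h4.trans (le_of_eq ?_)
    rw [Finset.sum_const, hcard, nsmul_eq_mul]
    field_simp
  have hp3 : ∑ χ ∈ X, ‖Lj z χ 3 σ‖ ^ 2 ≤ Cp * L ^ (3 * 2) := by
    have h := p1 3 (by norm_num) (le_refl _)
    rw [show 2 * 3 = 3 * 2 from rfl] at h
    refine le_trans (le_of_eq ?_) h
    rw [hX]
    congr
  have hp2 : ∑ χ ∈ X, ‖Lj z χ 2 σ‖ ^ 2 ≤ Cp * L ^ (2 * 2) := by
    have h := p1 2 (by norm_num) (by norm_num)
    refine le_trans (le_of_eq ?_) h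
    rw [hX]
    congr
  -- (b)
  have hbb : ∑ χ ∈ X, ‖Lj z χ 3 σ‖ * ‖Mj z χ σ - 1‖ ≤ (√Cp * L ^ 3) * (√Cp / (σ * L)) := by
    have hCp0 : 0 ≤ Cp := by linarith
    refine COMB.cs X _ _ (by positivity) (by positivity) ?_ ?_
    · rw [mul_pow, Real.sq_sqrt hCp0, ← pow_mul]
      exact hp3
    · rw [div_pow, Real.sq_sqrt hCp0]
      refine le_trans ?_ p3
      exact Finset.sum_le_sum_of_subset_of_nonneg (Finset.subset_univ _)
        (fun χ _ _ => by positivity)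
  -- (c)
  have hcc : ∑ χ ∈ X, ‖Dj z χ 0 σ‖ * ‖Lj z χ 2 σ‖ ≤ (√Cp / σ) * (√Cp * L ^ 2) := by
    have hCp0 : 0 ≤ Cp := by linarith
    refine COMB.cs X _ _ (by positivity) (by positivity) ?_ ?_
    · rw [div_pow, Real.sq_sqrt hCp0]
      refine le_trans ?_ p2
      exact Finset.sum_le_sum_of_subset_of_nonneg (Finset.subset_univ _)
        (fun χ _ _ => by positivity)
    · rw [mul_pow, Real.sq_sqrt hCp0, ← pow_mul]
      exact hp2
  -- (d)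
  have hdd : ∑ χ ∈ X, ‖Dj z χ 0 σ‖ ^ 3 ≤ (Cb * L / c1) * (Cp / σ ^ 2) := by
    have h1 : ∀ χ ∈ X, ‖Dj z χ 0 σ‖ ^ 3 ≤ (Cb * L / c1) * ‖Dj z χ 0 σ‖ ^ 2 := by
      intro χ hx
      have h2 : ‖Dj z χ 0 σ‖ ≤ Cb * L / c1 := by
        rw [hD0 χ hx, norm_mul]
        have h3 := (hBnd z q χ σ hz hq hqz hσ hσL).1 (hXmem χ hx) 1 (by norm_num)
        rw [pow_one] at h3
        calc ‖Lj z χ 1 σ‖ * ‖Mj z χ σ‖ ≤ (Cb * L) * (1 / c1) :=
              mul_le_mul h3 (hMn χ hx) (norm_nonneg _) (by positivity)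
          _ = _ := by ring
      calc ‖Dj z χ 0 σ‖ ^ 3 = ‖Dj z χ 0 σ‖ * ‖Dj z χ 0 σ‖ ^ 2 := by ring
        _ ≤ _ := mul_le_mul_of_nonneg_right h2 (by positivity)
    refine (Finset.sum_le_sum h1).trans ?_
    rw [← Finset.mul_sum]
    refine mul_le_mul_of_nonneg_left ?_ (by positivity)
    refine le_trans ?_ p2
    exact Finset.sum_le_sum_of_subset_of_nonneg (Finset.subset_univ _)
      (fun χ _ _ => by positivity)
  -- total error
  have hCp0 : 0 ≤ Cp := by linarith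
  have herr : ‖∑ χ ∈ X, χ ((b : ZMod q)⁻¹) * Dj z χ 2 σ‖ ≤ Cd * L ^ 3 + Cp * L ^ 2 / σ +
      3 / c1 * (Cp * L ^ 2 / σ) + 2 * ((Cb * L / c1) * (Cp / σ ^ 2)) := by
    have h1 : ∑ χ ∈ X, χ ((b : ZMod q)⁻¹) * Dj z χ 2 σ = ∑ χ ∈ X, χ ((b : ZMod q)⁻¹) * Lj z χ 3 σ +
        ∑ χ ∈ X, χ ((b : ZMod q)⁻¹) * (Lj z χ 3 σ * (Mj z χ σ - 1) -
          3 * Dj z χ 0 σ * Lj z χ 2 σ * Mj z χ σ + 2 * (Dj z χ 0 σ) ^ 3) := by
      rw [← Finset.sum_add_distrib]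
      refine Finset.sum_congr rfl fun χ hx => ?_
      rw [hD2 χ hx]
      ring
    rw [h1]
    refine (norm_add_le _ _).trans ?_
    have h2 : ‖∑ χ ∈ X, χ ((b : ZMod q)⁻¹) * (Lj z χ 3 σ * (Mj z χ σ - 1) -
          3 * Dj z χ 0 σ * Lj z χ 2 σ * Mj z χ σ + 2 * (Dj z χ 0 σ) ^ 3)‖ ≤
        ∑ χ ∈ X, (‖Lj z χ 3 σ‖ * ‖Mj z χ σ - 1‖ + 3 / c1 * (‖Dj z χ 0 σ‖ * ‖Lj z χ 2 σ‖) +
          2 * ‖Dj z χ 0 σ‖ ^ 3) := by
      refine (norm_sum_le _ _).trans (Finset.sum_le_sum fun χ hx => ?_)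
      rw [norm_mul]
      refine (mul_le_of_le_one_left (norm_nonneg _) (hχn χ)).trans ?_
      refine (norm_add_le _ _).trans (add_le_add ((norm_sub_le _ _).trans (add_le_add ?_ ?_)) ?_)
      · rw [norm_mul]
      · rw [norm_mul, norm_mul, norm_mul]
        have h3 : ‖(3 : ℂ)‖ = 3 := by simp
        rw [h3]
        calc 3 * ‖Dj z χ 0 σ‖ * ‖Lj z χ 2 σ‖ * ‖Mj z χ σ‖ ≤
              3 * ‖Dj z χ 0 σ‖ * ‖Lj z χ 2 σ‖ * (1 / c1) :=
              mul_le_mul_of_nonneg_left (hMn χ hx) (by positivity)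
          _ = _ := by ring
      · rw [norm_mul, norm_pow]
        have h3 : ‖(2 : ℂ)‖ = 2 := by simp
        rw [h3]
    have h3 := h2
    rw [Finset.sum_add_distrib, Finset.sum_add_distrib, ← Finset.mul_sum, ← Finset.mul_sum] at h3
    have e1 : (√Cp * L ^ 3) * (√Cp / (σ * L)) = Cp * L ^ 2 / σ := by
      calc (√Cp * L ^ 3) * (√Cp / (σ * L)) = (√Cp * √Cp) * L ^ 3 / (σ * L) := by ring
        _ = Cp * L ^ 3 / (σ * L) := by rw [Real.mul_self_sqrt hCp0]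
        _ = Cp * L ^ 2 / σ := by field_simp
    have e2 : (√Cp / σ) * (√Cp * L ^ 2) = Cp * L ^ 2 / σ := by
      calc (√Cp / σ) * (√Cp * L ^ 2) = (√Cp * √Cp) * L ^ 2 / σ := by ring
        _ = Cp * L ^ 2 / σ := by rw [Real.mul_self_sqrt hCp0]
    rw [e1] at hbb
    rw [e2] at hcc
    have h4 : 3 / c1 * ∑ χ ∈ X, ‖Dj z χ 0 σ‖ * ‖Lj z χ 2 σ‖ ≤ 3 / c1 * (Cp * L ^ 2 / σ) :=
      mul_le_mul_of_nonneg_left hcc (by positivity)
    linarith
  -- comparison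
  have hLδ : L ≤ δ / σ := by
    rw [le_div_iff₀ hσ]
    linarith
  have hE : Cd * L ^ 3 + Cp * L ^ 2 / σ + 3 / c1 * (Cp * L ^ 2 / σ) +
      2 * ((Cb * L / c1) * (Cp / σ ^ 2)) ≤ C' * δ / σ ^ 3 := by
    have hu : L * σ ≤ δ := by linarith
    have hu0 : 0 ≤ L * σ := by positivity
    have g1 : L ^ 3 ≤ δ / σ ^ 3 := by
      rw [le_div_iff₀ (by positivity), ← mul_pow]
      calc (L * σ) ^ 3 ≤ δ ^ 3 := pow_le_pow_left₀ hu0 hu 3
        _ ≤ δ ^ 1 := pow_le_pow_of_le_one hδ0.le hδ1 (by norm_num)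
        _ = δ := pow_one δ
    have g2 : L ^ 2 / σ ≤ δ / σ ^ 3 := by
      rw [div_le_div_iff₀ hσ (by positivity)]
      have : L ^ 2 * σ ^ 3 = (L * σ) ^ 2 * σ := by ring
      rw [this]
      refine mul_le_mul_of_nonneg_right ?_ hσ.le
      calc (L * σ) ^ 2 ≤ δ ^ 2 := pow_le_pow_left₀ hu0 hu 2
        _ ≤ δ ^ 1 := pow_le_pow_of_le_one hδ0.le hδ1 (by norm_num)
        _ = δ := pow_one δ
    have g3 : L / σ ^ 2 ≤ δ / σ ^ 3 := by
      rw [div_le_div_iff₀ (by positivity) (by positivity)]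
      have : L * σ ^ 3 = (L * σ) * σ ^ 2 := by ring
      rw [this]
      exact mul_le_mul_of_nonneg_right hu (by positivity)
    have hCb0 : 0 < Cb := by linarith
    calc Cd * L ^ 3 + Cp * L ^ 2 / σ + 3 / c1 * (Cp * L ^ 2 / σ) +
        2 * ((Cb * L / c1) * (Cp / σ ^ 2)) = Cd * L ^ 3 + Cp * (L ^ 2 / σ) +
          3 * Cp / c1 * (L ^ 2 / σ) + 2 * Cb * Cp / c1 * (L / σ ^ 2) := by ring
      _ ≤ Cd * (δ / σ ^ 3) + Cp * (δ / σ ^ 3) + 3 * Cp / c1 * (δ / σ ^ 3) +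
          2 * Cb * Cp / c1 * (δ / σ ^ 3) := by
          gcongr
      _ = C' * δ / σ ^ 3 := by rw [hC']; ring
  have hδC : C' * δ ≤ c2 / 2 := by
    calc C' * δ ≤ C' * (c2 / (2 * C')) := mul_le_mul_of_nonneg_left (min_le_right _ _) hC'0.le
      _ = c2 / 2 := by field_simp
  have hE2 : C' * δ / σ ^ 3 ≤ c2 / 2 / σ ^ 3 :=
    div_le_div_of_nonneg_right hδC (by positivity)
  have hB1 := hB2 z σ hz hσ (hσz.trans (min_le_left _ _))
  -- final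
  have h1 := hsplit (fun χ => Dj z χ 2 σ)
  rw [← o1, o4] at h1
  have h2 : ((((q.totient : ℝ) * Bj z q b 2 σ - Bj z 1 1 2 σ : ℝ)) : ℂ) =
      ∑ χ ∈ X, χ ((b : ZMod q)⁻¹) * Dj z χ 2 σ := by
    push_cast
    rw [h1]
    ring
  have h3 : |(q.totient : ℝ) * Bj z q b 2 σ - Bj z 1 1 2 σ| ≤ c2 / 2 / σ ^ 3 := by
    rw [← Real.norm_eq_abs, ← Complex.norm_real, h2]
    exact herr.trans (hE.trans hE2)
  have h4 := (abs_le.1 h3).1
  have h5 : c2 / 2 / σ ^ 3 ≤ q.totient * Bj z q b 2 σ := by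
    have h6 : c2 / σ ^ 3 = c2 / 2 / σ ^ 3 + c2 / 2 / σ ^ 3 := by ring
    linarith
  have h6 : c2 / 2 / (q.totient * σ ^ 3) = c2 / 2 / σ ^ 3 / q.totient := by
    field_simp
  rw [h6, div_le_iff₀ hφ]
  linarith

end Pool.Agent.H262R3.Lk
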