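import Mathlib
import Pool.Agent.H262R3.Lk.Stubs2
import Pool.Agent.H410R2.Iface

/-! Exact statements of the third batch of tasks (zeros of `L`-functions close to `1`). -/

open Finset

namespace Pool.Agent.H262R3.Lk

open Pool.Agent.H318R2.Cr (Rgh V)
open Pool.Agent.H410R2 (psiLog)

/-- the `L`-function has a zero with real part at least `1 - η` and height at most `T` -/
def HZ {f : ℕ} (χ : DirichletCharacter ℂ f) (η T : ℝ) : Prop :=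
  ∃ (_ : NeZero f) (s : ℂ), 1 - η ≤ s.re ∧ |s.im| ≤ T ∧ χ.LFunction s = 0

/-- the width of the region used to define the bad characters -/
noncomputable def ez (Q : ℕ) : ℝ := Real.log (Real.log Q) / (100 * Real.log Q)

/-- ZF: a zero-free region gives a bound for the log-weighted prime sum -/
def St_ZF : Prop := ∃ C : ℝ, 0 < C ∧ ∀ (f : ℕ) (χ : DirichletCharacter ℂ f), 1 < f → χ.IsPrimitive →
  ∀ η T x : ℝ, 0 < η → η ≤ 1 / 100 → 2 ≤ T → 1 ≤ η * Real.log x → (f : ℝ) ≤ x → T ≤ x → ¬ HZ χ (4 * η) (T + 1) →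
  ‖psiLog x f χ‖ ≤ C * (Real.log x) ^ 2 * (x ^ (1 - η) + x / T)

open Classical in
/-- DENS: a zero density theorem -/
def St_DENS : Prop := ∃ C : ℝ, 0 < C ∧ ∀ Q : ℕ, 2 ≤ Q → ∀ η : ℝ, 0 ≤ η → η ≤ 1 / 100 →
  ∑ f ∈ Icc 2 Q, (((univ : Finset (DirichletCharacter ℂ f)).filter
    (fun χ => χ.IsPrimitive ∧ HZ χ η ((Q : ℝ) ^ 3))).card : ℝ) ≤ C * (Real.log Q) ^ 6 * (Q : ℝ) ^ (100 * η)

open Classical in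
/-- LL1: the mean over the characters that are not bad -/
def St_LL1 : Prop := ∀ N : ℕ, ∃ A : ℕ, ∀ A2 : ℕ, ∃ Q0 : ℕ, ∀ Q : ℕ, Q0 ≤ Q → ∀ x : ℝ, (Q : ℝ) ^ A ≤ x →
  x ≤ (Q : ℝ) ^ A2 →
  ∑ f ∈ Icc 2 Q, ∑ χ ∈ (univ : Finset (DirichletCharacter ℂ f)).filter
    (fun χ => χ.IsPrimitive ∧ ¬ HZ χ (ez Q) ((Q : ℝ) ^ 3)), ‖psiLog x f χ‖ ≤ x / (Real.log x) ^ N

/-- QS: conductors of real primitive characters -/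
def St_QS : Prop := ∀ (f : ℕ) (χ : DirichletCharacter ℂ f), 0 < f → χ.IsPrimitive → χ ^ 2 = 1 →
  (∀ p : ℕ, p.Prime → p ≠ 2 → ¬ p ^ 2 ∣ f) ∧ ¬ 16 ∣ f

/-- LOW2: as LOW, with a real character -/
def St_LOW2 : Prop := ∃ c1 δ0 : ℝ, 0 < c1 ∧ 0 < δ0 ∧ δ0 ≤ 1 ∧ ∀ z : ℕ, 32 ≤ z → ∃ q1 : ℕ, 1 < q1 ∧
  (z < q1 ∨ ∃ χ : DirichletCharacter ℂ q1, χ.IsPrimitive ∧ χ ^ 2 = 1 ∧
    ∃ σ : ℝ, 0 < σ ∧ σ ≤ 1 ∧ ‖Lj z χ 0 σ‖ < 1 / 2) ∧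
  ∀ q : ℕ, 1 ≤ q → q ^ 16 ≤ z → ¬ q1 ∣ q → ∀ χ : DirichletCharacter ℂ q, χ ≠ 1 →
    ∀ σ : ℝ, 0 < σ → σ * Real.log z ≤ δ0 → c1 ≤ ‖Lj z χ 0 σ‖

end Pool.Agent.H262R3.Lk
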