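import Mathlib
import Pool.Agent.H262R3.Lk.Stubs3
import Pool.Agent.H379R2.SW1

/-! DENS (helper418): an elementary zero density theorem close to `1`. -/

open Finset

namespace Pool.Agent.H262R3.Lk

namespace DENS

open Complex Filter Topology
open Pool.Agent.H379R2.SW (cpow_diff sum_tail blk summable_blk LFunction_eq_tsum partial_sum_eq)

/-! ### Abel summation -/

theorem abel_id (ψ g : ℕ → ℂ) {A B : ℕ} (hAB : A ≤ B) :
    ∑ n ∈ Ioc A B, ψ n * g n = (∑ n ∈ Ioc A B, ψ n) * g (B + 1) +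
      ∑ n ∈ Ioc A B, (∑ k ∈ Ioc A n, ψ k) * (g n - g (n + 1)) := by
  induction B, hAB using Nat.le_induction with
  | base => simp
  | succ B hAB ih =>
    rw [sum_Ioc_succ_top (by omega), sum_Ioc_succ_top (by omega : A ≤ B) (fun n =>
      (∑ k ∈ Ioc A n, ψ k) * (g n - g (n + 1))), sum_Ioc_succ_top (by omega), ih]
    ring

theorem sum_Ioc_range {M : Type*} [AddCommMonoid M] (f : ℕ → M) (A B : ℕ) :
    ∑ n ∈ Ioc A B, f n = ∑ m ∈ range (B - A), f (m + (A + 1)) := by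
  refine sum_nbij' (fun n => n - (A + 1)) (fun m => m + (A + 1)) ?_ ?_ ?_ ?_ ?_
  · intro n hn
    rw [mem_Ioc] at hn
    rw [mem_range]
    omega
  · intro m hm
    rw [mem_range] at hm
    rw [mem_Ioc]
    omega
  · intro n hn
    rw [mem_Ioc] at hn
    omega
  · intro m _
    simp
  · intro n hn
    rw [mem_Ioc] at hn
    congr 1
    omega

theorem sum_range_Ioc {M : Type*} [AddCommMonoid M] (f : ℕ → M) (N : ℕ) :
    ∑ n ∈ range (N + 1), f n = f 0 + ∑ n ∈ Ioc 0 N, f n := by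
  induction N with
  | zero => simp
  | succ N ih => rw [sum_range_succ, ih, sum_Ioc_succ_top (by omega), add_assoc]

theorem abel_bound (ψ : ℕ → ℂ) (D : ℝ) (hD : ∀ a b, ‖∑ n ∈ Ioc a b, ψ n‖ ≤ D) (w : ℂ)
    (h1 : 1 / 2 ≤ w.re) (h2 : w.re ≤ 1) {A : ℕ} (hA : 1 ≤ A) (B : ℕ) :
    ‖∑ n ∈ Ioc A B, ψ n * (n : ℂ) ^ (-w)‖ ≤ D * (1 + 8 * ‖w‖) * (A : ℝ) ^ (-w.re) := by
  have hD0 : 0 ≤ D := (norm_nonneg _).trans (hD 0 0)
  have hA' : (1 : ℝ) ≤ A := by exact_mod_cast hA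
  rcases le_or_gt B A with hBA | hAB
  · rw [Ioc_eq_empty (by omega), sum_empty, norm_zero]
    positivity
  rw [abel_id ψ (fun n => (n : ℂ) ^ (-w)) hAB.le]
  refine (norm_add_le _ _).trans ?_
  have e1 : ‖(∑ n ∈ Ioc A B, ψ n) * ((B + 1 : ℕ) : ℂ) ^ (-w)‖ ≤ D * (A : ℝ) ^ (-w.re) := by
    rw [norm_mul, norm_natCast_cpow_of_pos (by omega)]
    refine mul_le_mul (hD _ _) ?_ (by positivity) hD0
    rw [neg_re]
    refine Real.rpow_le_rpow_of_nonpos (by linarith) ?_ (by linarith)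
    exact_mod_cast (by omega : A ≤ B + 1)
  have e2 : ‖∑ n ∈ Ioc A B, (∑ k ∈ Ioc A n, ψ k) *
      ((n : ℂ) ^ (-w) - ((n + 1 : ℕ) : ℂ) ^ (-w))‖ ≤ D * (8 * ‖w‖) * (A : ℝ) ^ (-w.re) := by
    calc ‖∑ n ∈ Ioc A B, (∑ k ∈ Ioc A n, ψ k) * ((n : ℂ) ^ (-w) - ((n + 1 : ℕ) : ℂ) ^ (-w))‖
        ≤ ∑ n ∈ Ioc A B, D * (‖w‖ * (n : ℝ) ^ (-w.re - 1)) := by
          refine norm_sum_le_of_le _ fun n hn => ?_
          rw [mem_Ioc] at hn
          rw [norm_mul]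
          refine mul_le_mul (hD _ _) ?_ (norm_nonneg _) hD0
          have hn0 : (0 : ℝ) < n := by exact_mod_cast (by omega : 0 < n)
          have := cpow_diff (a := (n : ℝ)) (b := (n : ℝ) + 1) hn0 (by linarith) (s := w)
            (by linarith)
          rw [norm_sub_rev]
          push_cast at this ⊢
          refine this.trans (le_of_eq ?_)
          ring
      _ = D * ‖w‖ * ∑ m ∈ range (B - A), ((m + (A + 1) : ℕ) : ℝ) ^ (-w.re - 1) := by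
          rw [mul_sum, sum_Ioc_range]
          refine sum_congr rfl fun m _ => ?_
          ring
      _ ≤ D * ‖w‖ * (8 * ((A + 1 : ℕ) : ℝ) ^ (-w.re)) := by
          refine mul_le_mul_of_nonneg_left ?_ (by positivity)
          exact sum_tail h1 h2 (by omega) _
      _ ≤ D * ‖w‖ * (8 * (A : ℝ) ^ (-w.re)) := by
          gcongr ?_ * (8 * ?_)
          refine Real.rpow_le_rpow_of_nonpos (by linarith) ?_ (by linarith)
          push_cast
          linarith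
      _ = _ := by ring
  calc _ ≤ D * (A : ℝ) ^ (-w.re) + D * (8 * ‖w‖) * (A : ℝ) ^ (-w.re) := add_le_add e1 e2
    _ = _ := by ring

/-! ### Sums over periods -/

section per

variable {q : ℕ} [NeZero q]

theorem per_block (Φ : ZMod q → ℂ) (h0 : ∑ j, Φ j = 0) (a : ℕ) :
    ∑ n ∈ Ioc a (a + q), Φ (n : ZMod q) = 0 := by
  rw [← h0]
  refine Finset.sum_nbij' (fun n => (n : ZMod q)) (fun z => a + 1 + (z - ((a + 1 : ℕ) : ZMod q)).val)
    ?_ ?_ ?_ ?_ ?_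
  · intro j _; exact mem_univ _
  · intro z _
    have := ZMod.val_lt (z - ((a + 1 : ℕ) : ZMod q))
    rw [mem_Ioc]
    omega
  · intro n hn
    rw [mem_Ioc] at hn
    have h1 : ((n : ZMod q) - ((a + 1 : ℕ) : ZMod q)) = ((n - (a + 1) : ℕ) : ZMod q) := by
      rw [Nat.cast_sub (by omega)]
    rw [h1, ZMod.val_natCast_of_lt (by omega)]
    omega
  · intro z _
    simp only [Nat.cast_add, ZMod.natCast_val, ZMod.cast_id', id_eq]
    push_cast
    ring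
  · intro n _; rfl

theorem per_bound (Φ : ZMod q → ℂ) (hΦ : ∀ j, ‖Φ j‖ ≤ 1) (h0 : ∑ j, Φ j = 0) (a b : ℕ) :
    ‖∑ n ∈ Ioc a b, Φ (n : ZMod q)‖ ≤ q := by
  have hq : 0 < q := NeZero.pos q
  have key : ∀ k a b : ℕ, b ≤ a + k → ‖∑ n ∈ Ioc a b, Φ (n : ZMod q)‖ ≤ q := by
    intro k
    induction k using Nat.strong_induction_on with
    | _ k ih =>
      intro a b hb
      rcases le_or_gt b (a + q) with h | h
      · calc ‖∑ n ∈ Ioc a b, Φ (n : ZMod q)‖ ≤ ∑ n ∈ Ioc a b, 1 :=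
              norm_sum_le_of_le _ fun n _ => hΦ _
          _ = ((b - a : ℕ) : ℝ) := by simp
          _ ≤ q := by exact_mod_cast (by omega : b - a ≤ q)
      · rw [← sum_Ioc_consecutive _ (by omega : a ≤ a + q) h.le, per_block Φ h0, zero_add]
        exact ih (k - q) (by omega) (a + q) b (by omega)
  exact key b a b (by omega)

/-- partial sums at a zero -/
theorem zero_partial {χ : DirichletCharacter ℂ q} (hχ : χ ≠ 1) {ρ : ℂ} (h1 : 1 / 2 < ρ.re)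
    (h2 : ρ.re ≤ 1) (h0 : χ.LFunction ρ = 0) {V : ℕ} (hV : 1 ≤ V) :
    ‖∑ n ∈ Ioc 0 V, χ n * (n : ℂ) ^ (-ρ)‖ ≤ q * (1 + 8 * ‖ρ‖) * (V : ℝ) ^ (-ρ.re) := by
  have hs0 : ∑ j, χ j = 0 := MulChar.sum_eq_zero_of_ne_one hχ
  have hn1 : ∀ j, ‖χ j‖ ≤ 1 := fun j => χ.norm_le_one j
  have hq : 0 < q := NeZero.pos q
  have hL : χ.LFunction ρ = ∑' m, blk (fun j => χ j) m ρ :=
    LFunction_eq_tsum (fun j => χ j) hn1 hs0 h1
  rw [h0] at hL
  have ht : Tendsto (fun M : ℕ => ∑ m ∈ range M, blk (fun j => χ j) m ρ) atTop (𝓝 0) := by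
    rw [hL]
    exact (summable_blk (fun j => χ j) hn1 hs0 h1.le).hasSum.tendsto_sum_nat
  have ht2 : Tendsto (fun M : ℕ => ‖∑ m ∈ range M, blk (fun j => χ j) m ρ‖ +
      q * (1 + 8 * ‖ρ‖) * (V : ℝ) ^ (-ρ.re)) atTop
      (𝓝 (0 + q * (1 + 8 * ‖ρ‖) * (V : ℝ) ^ (-ρ.re))) := by
    have := ht.norm
    rw [norm_zero] at this
    exact this.add_const _
  rw [zero_add] at ht2
  refine ge_of_tendsto ht2 ?_
  filter_upwards [eventually_ge_atTop V] with M hM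
  have hMV : V ≤ M * q := hM.trans (Nat.le_mul_of_pos_right M hq)
  have e1 : ∑ m ∈ range M, blk (fun j => χ j) m ρ =
      ∑ n ∈ Ioc 0 (M * q), χ n * (n : ℂ) ^ (-ρ) := by
    rw [← partial_sum_eq, sum_range_Ioc, LSeries.term_zero, zero_add]
    refine sum_congr rfl fun n hn => ?_
    rw [mem_Ioc] at hn
    rw [LSeries.term_of_ne_zero (by omega), cpow_neg, div_eq_mul_inv]
  have e2 := sum_Ioc_consecutive (fun n : ℕ => χ n * (n : ℂ) ^ (-ρ)) (Nat.zero_le V) hMV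
  have e3 : ∑ n ∈ Ioc 0 V, χ n * (n : ℂ) ^ (-ρ) = ∑ m ∈ range M, blk (fun j => χ j) m ρ -
      ∑ n ∈ Ioc V (M * q), χ n * (n : ℂ) ^ (-ρ) := by
    rw [e1, ← e2]
    ring
  rw [e3]
  refine (norm_sub_le _ _).trans ?_
  gcongr
  exact abel_bound _ _ (per_bound (fun j => χ j) hn1 hs0) ρ h1.le h2 hV _

end per

/-! ### The mollifier -/

/-- the coefficients -/
noncomputable def cc (U V n : ℕ) : ℤ :=
  ∑ p ∈ n.divisorsAntidiagonal with p.1 ≤ U ∧ p.2 ≤ V, ArithmeticFunction.moebius p.1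

theorem cc_one {U V : ℕ} (hU : 1 ≤ U) (hV : 1 ≤ V) : cc U V 1 = 1 := by
  unfold cc
  rw [filter_true_of_mem]
  · simp
  · intro p hp
    rw [Nat.divisorsAntidiagonal_one, mem_singleton] at hp
    subst hp
    exact ⟨hU, hV⟩

theorem cc_small {U V n : ℕ} (hU : n ≤ U) (hV : n ≤ V) (hn : 1 < n) : cc U V n = 0 := by
  unfold cc
  rw [filter_true_of_mem]
  · have h := ArithmeticFunction.moebius_mul_coe_zeta
    have h2 := congrArg (fun f => f n) h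
    simp only [ArithmeticFunction.mul_apply] at h2
    rw [ArithmeticFunction.one_apply_ne (by omega)] at h2
    rw [← h2]
    refine sum_congr rfl fun p hp => ?_
    rw [Nat.mem_divisorsAntidiagonal] at hp
    have : p.2 ≠ 0 := by
      rintro h0
      rw [h0, mul_zero] at hp
      exact hp.2 hp.1.symm
    simp [ArithmeticFunction.zeta_apply, this]
  · intro p hp
    rw [Nat.mem_divisorsAntidiagonal] at hp
    constructor
    · exact (Nat.le_of_dvd (by omega) ⟨p.2, hp.1.symm⟩).trans hU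
    · exact (Nat.le_of_dvd (by omega) ⟨p.1, by rw [mul_comm]; exact hp.1.symm⟩).trans hV

theorem cc_abs (U V n : ℕ) : |(cc U V n : ℝ)| ≤ (n.divisors.card : ℝ) := by
  unfold cc
  push_cast
  refine (abs_sum_le_sum_abs _ _).trans ?_
  calc ∑ p ∈ n.divisorsAntidiagonal with p.1 ≤ U ∧ p.2 ≤ V,
        |((ArithmeticFunction.moebius p.1 : ℤ) : ℝ)|
      ≤ ∑ p ∈ n.divisorsAntidiagonal with p.1 ≤ U ∧ p.2 ≤ V, (1 : ℝ) := by
        refine sum_le_sum fun p _ => ?_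
        have := ArithmeticFunction.abs_moebius_le_one (n := p.1)
        exact_mod_cast this
    _ ≤ ∑ p ∈ n.divisorsAntidiagonal, (1 : ℝ) :=
        sum_le_sum_of_subset_of_nonneg (filter_subset _ _) fun _ _ _ => zero_le_one
    _ = (n.divisors.card : ℝ) := by
        rw [sum_const, nsmul_eq_mul, mul_one, ← Nat.map_div_right_divisors, card_map]

theorem moll (x : ℕ → ℂ) (hx : ∀ a b : ℕ, x (a * b) = x a * x b) {U V : ℕ} :
    (∑ d ∈ Ioc 0 U, ((ArithmeticFunction.moebius d : ℤ) : ℂ) * x d) * ∑ m ∈ Ioc 0 V, x m =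
      ∑ n ∈ Ioc 0 (U * V), (cc U V n : ℂ) * x n := by
  rw [sum_mul_sum, ← sum_product']
  rw [← sum_fiberwise_of_maps_to (s := Ioc 0 U ×ˢ Ioc 0 V) (t := Ioc 0 (U * V))
    (g := fun p => p.1 * p.2)]
  · refine sum_congr rfl fun n hn => ?_
    rw [mem_Ioc] at hn
    unfold cc
    push_cast
    rw [sum_mul]
    refine sum_congr ?_ fun p hp => ?_
    · ext p
      simp only [mem_filter, mem_product, mem_Ioc, Nat.mem_divisorsAntidiagonal]
      constructor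
      · rintro ⟨⟨⟨h1, h2⟩, h3, h4⟩, h5⟩
        exact ⟨⟨h5, by omega⟩, h2, h4⟩
      · rintro ⟨⟨h1, h2⟩, h3, h4⟩
        refine ⟨⟨⟨?_, h3⟩, ?_, h4⟩, h1⟩
        · rcases Nat.eq_zero_or_pos p.1 with h | h
          · rw [h, zero_mul] at h1; omega
          · exact h
        · rcases Nat.eq_zero_or_pos p.2 with h | h
          · rw [h, mul_zero] at h1; omega
          · exact h
    · rw [mem_filter, Nat.mem_divisorsAntidiagonal] at hp
      rw [← hp.1.1, hx]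
      ring
  · intro p hp
    rw [mem_product, mem_Ioc, mem_Ioc] at hp
    rw [mem_Ioc]
    exact ⟨Nat.mul_pos hp.1.1 hp.2.1, Nat.mul_le_mul hp.1.2 hp.2.2⟩

/-! ### Sums of divisor functions -/

theorem tau_submul (d m : ℕ) :
    ((d * m).divisors.card : ℝ) ≤ (d.divisors.card : ℝ) * (m.divisors.card : ℝ) := by
  rw [Nat.divisors_mul]
  exact_mod_cast card_mul_le

/-- sums over `d m ≤ W` -/
theorem sum_div_le (f : ℕ → ℝ) (g : ℕ → ℕ → ℝ) (h : ℕ → ℝ)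
    (hg : ∀ d m, g d m ≤ f d * h m) (hg0 : ∀ d m, 0 ≤ g d m) (W : ℕ) :
    ∑ n ∈ Ioc 0 W, ∑ p ∈ n.divisorsAntidiagonal, g p.1 p.2 ≤
      (∑ d ∈ Ioc 0 W, f d) * ∑ m ∈ Ioc 0 W, h m := by
  rw [sum_mul_sum, ← sum_product', sum_sigma']
  calc ∑ x ∈ (Ioc 0 W).sigma fun n => n.divisorsAntidiagonal, g x.2.1 x.2.2
      = ∑ p ∈ (Ioc 0 W ×ˢ Ioc 0 W).filter (fun p => p.1 * p.2 ≤ W), g p.1 p.2 := by
        refine sum_nbij' (fun x => x.2) (fun p => ⟨p.1 * p.2, p⟩) ?_ ?_ ?_ ?_ ?_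
        · rintro ⟨n, p⟩ hx
          simp only [mem_sigma, mem_Ioc, Nat.mem_divisorsAntidiagonal] at hx
          obtain ⟨⟨h1, h2⟩, h3, h4⟩ := hx
          have hp1 : 0 < p.1 := Nat.pos_of_ne_zero (by rintro h; rw [h, zero_mul] at h3; omega)
          have hp2 : 0 < p.2 := Nat.pos_of_ne_zero (by rintro h; rw [h, mul_zero] at h3; omega)
          simp only [mem_filter, mem_product, mem_Ioc]
          refine ⟨⟨⟨hp1, ?_⟩, hp2, ?_⟩, by omega⟩
          · exact (Nat.le_mul_of_pos_right _ hp2).trans (by omega)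
          · exact (Nat.le_mul_of_pos_left _ hp1).trans (by omega)
        · intro p hp
          simp only [mem_filter, mem_product, mem_Ioc] at hp
          simp only [mem_sigma, mem_Ioc, Nat.mem_divisorsAntidiagonal]
          have := Nat.mul_pos hp.1.1.1 hp.1.2.1
          exact ⟨⟨this, hp.2⟩, trivial, by omega⟩
        · rintro ⟨n, p⟩ hx
          simp only [mem_sigma, mem_Ioc, Nat.mem_divisorsAntidiagonal] at hx
          obtain ⟨_, h3, _⟩ := hx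
          subst h3
          rfl
        · intro p _; rfl
        · intro x _; rfl
    _ ≤ ∑ p ∈ Ioc 0 W ×ˢ Ioc 0 W, g p.1 p.2 :=
        sum_le_sum_of_subset_of_nonneg (filter_subset _ _) fun p _ _ => hg0 _ _
    _ ≤ ∑ p ∈ Ioc 0 W ×ˢ Ioc 0 W, f p.1 * h p.2 := sum_le_sum fun p _ => hg _ _

theorem harm_le (W : ℕ) : ∑ n ∈ Ioc 0 W, (1 : ℝ) / n ≤ 1 + Real.log W := by
  have h := harmonic_le_one_add_log W
  refine le_trans (le_of_eq ?_) h
  rw [harmonic, sum_Ioc_range]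
  push_cast
  simp

theorem tau1_le (W : ℕ) : ∑ n ∈ Ioc 0 W, (n.divisors.card : ℝ) / n ≤ (1 + Real.log W) ^ 2 := by
  have h1 : ∀ n ∈ Ioc 0 W, (n.divisors.card : ℝ) / n =
      ∑ p ∈ n.divisorsAntidiagonal, (1 : ℝ) / (p.1 * p.2) := by
    intro n hn
    rw [mem_Ioc] at hn
    have h2 : ∀ p ∈ n.divisorsAntidiagonal, (1 : ℝ) / (p.1 * p.2) = 1 / n := by
      intro p hp
      rw [Nat.mem_divisorsAntidiagonal] at hp
      rw [← hp.1]
      push_cast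
      rfl
    rw [sum_congr rfl h2, sum_const, nsmul_eq_mul, ← Nat.map_div_right_divisors, card_map]
    ring
  rw [sum_congr rfl h1]
  have h3 := sum_div_le (fun n => (1 : ℝ) / n)
    (fun d m => (1 : ℝ) / (d * m)) (fun n => (1 : ℝ) / n)
    (fun d m => by
      apply le_of_eq
      rw [div_mul_div_comm, one_mul]) (fun d m => by positivity) W
  refine h3.trans ?_
  have h4 := harm_le W
  have h5 : (0 : ℝ) ≤ ∑ n ∈ Ioc 0 W, (1 : ℝ) / n := sum_nonneg fun n _ => by positivity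
  rw [sq]
  exact mul_le_mul h4 h4 h5 (h5.trans h4)

theorem tau2_le (W : ℕ) :
    ∑ n ∈ Ioc 0 W, (n.divisors.card : ℝ) ^ 2 / n ≤ (1 + Real.log W) ^ 4 := by
  have h1 : ∀ n ∈ Ioc 0 W, (n.divisors.card : ℝ) ^ 2 / n =
      ∑ p ∈ n.divisorsAntidiagonal, ((p.1 * p.2).divisors.card : ℝ) / (p.1 * p.2) := by
    intro n hn
    rw [mem_Ioc] at hn
    have h2 : ∀ p ∈ n.divisorsAntidiagonal, ((p.1 * p.2).divisors.card : ℝ) / (p.1 * p.2) =
        (n.divisors.card : ℝ) / n := by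
      intro p hp
      rw [Nat.mem_divisorsAntidiagonal] at hp
      rw [← hp.1]
      push_cast
      rfl
    rw [sum_congr rfl h2, sum_const, nsmul_eq_mul, ← Nat.map_div_right_divisors, card_map]
    ring
  rw [sum_congr rfl h1]
  have h3 := sum_div_le (fun n => (n.divisors.card : ℝ) / n)
    (fun d m => ((d * m).divisors.card : ℝ) / (d * m)) (fun n => (n.divisors.card : ℝ) / n)
    (fun d m => by
      rw [div_mul_div_comm]
      gcongr
      exact tau_submul d m) (fun d m => by positivity) W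
  refine h3.trans ?_
  have h4 := tau1_le W
  have h5 : (0 : ℝ) ≤ ∑ n ∈ Ioc 0 W, (n.divisors.card : ℝ) / n :=
    sum_nonneg fun n _ => by positivity
  calc _ ≤ (1 + Real.log W) ^ 2 * (1 + Real.log W) ^ 2 :=
        mul_le_mul h4 h4 h5 (h5.trans h4)
    _ = _ := by ring

/-! ### Duality -/

theorem dual {ι : Type*} (s : Finset ι) (N : Finset ℕ) (hN : ∀ n ∈ N, 0 < n) (c : ℕ → ℂ)
    (x : ι → ℕ → ℂ) (h : ∀ r ∈ s, 1 / 2 ≤ ‖∑ n ∈ N, c n * x r n‖) :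
    ((s.card : ℝ) / 2) ^ 2 ≤ (∑ n ∈ N, ‖c n‖ ^ 2 / n) *
      ∑ r ∈ s, ∑ r' ∈ s, ‖∑ n ∈ N, (n : ℂ) * (x r n * (starRingEnd ℂ) (x r' n))‖ := by
  set S : ι → ℂ := fun r => ∑ n ∈ N, c n * x r n with hS
  set ε : ι → ℂ := fun r => (starRingEnd ℂ) (S r) / (‖S r‖ : ℂ) with hε
  have hε1 : ∀ r, ‖ε r‖ ≤ 1 := by
    intro r
    rw [hε]
    simp only [norm_div, RCLike.norm_conj, Complex.norm_real, norm_norm]
    exact div_self_le_one _
  have hε2 : ∀ r ∈ s, ε r * S r = (‖S r‖ : ℂ) := by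
    intro r hr
    have h1 : (0 : ℝ) < ‖S r‖ := by linarith [h r hr]
    have h2 : (‖S r‖ : ℂ) ≠ 0 := by exact_mod_cast h1.ne'
    simp only [hε]
    rw [div_mul_eq_mul_div, Complex.conj_mul', sq, mul_div_assoc, div_self h2, mul_one]
  set y : ℕ → ℂ := fun n => ∑ r ∈ s, ε r * x r n with hy
  have h3 : (s.card : ℝ) / 2 ≤ ∑ n ∈ N, ‖c n‖ * ‖y n‖ := by
    have h4 : (∑ r ∈ s, (‖S r‖ : ℂ)) = ∑ n ∈ N, c n * y n := by
      rw [← sum_congr rfl hε2]
      simp only [hS, hy, mul_sum]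
      rw [sum_comm]
      refine sum_congr rfl fun n _ => sum_congr rfl fun r _ => ?_
      ring
    have h5 : ((∑ r ∈ s, ‖S r‖ : ℝ) : ℂ) = ∑ n ∈ N, c n * y n := by
      rw [← h4]
      push_cast
      rfl
    have h6 : (∑ r ∈ s, ‖S r‖) = ‖∑ n ∈ N, c n * y n‖ := by
      rw [← h5, Complex.norm_real, Real.norm_of_nonneg (sum_nonneg fun _ _ => norm_nonneg _)]
    calc (s.card : ℝ) / 2 = ∑ _r ∈ s, (1 / 2 : ℝ) := by
          rw [sum_const, nsmul_eq_mul]; ring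
      _ ≤ ∑ r ∈ s, ‖S r‖ := sum_le_sum fun r hr => h r hr
      _ = ‖∑ n ∈ N, c n * y n‖ := h6
      _ ≤ ∑ n ∈ N, ‖c n‖ * ‖y n‖ := norm_sum_le_of_le _ fun n _ => (norm_mul _ _).le
  have h7 : (∑ n ∈ N, ‖c n‖ * ‖y n‖) ^ 2 ≤ (∑ n ∈ N, ‖c n‖ ^ 2 / n) * ∑ n ∈ N, n * ‖y n‖ ^ 2 := by
    have h8 := sum_mul_sq_le_sq_mul_sq N (fun n => ‖c n‖ / Real.sqrt n)
      (fun n => Real.sqrt n * ‖y n‖)
    have e1 : ∑ n ∈ N, ‖c n‖ / Real.sqrt n * (Real.sqrt n * ‖y n‖) = ∑ n ∈ N, ‖c n‖ * ‖y n‖ := by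
      refine sum_congr rfl fun n hn => ?_
      have : (0 : ℝ) < n := by exact_mod_cast hN n hn
      have := Real.sqrt_pos.2 this
      field_simp
    have e2 : ∑ n ∈ N, (‖c n‖ / Real.sqrt n) ^ 2 = ∑ n ∈ N, ‖c n‖ ^ 2 / n := by
      refine sum_congr rfl fun n hn => ?_
      rw [div_pow, Real.sq_sqrt (by positivity)]
    have e3 : ∑ n ∈ N, (Real.sqrt n * ‖y n‖) ^ 2 = ∑ n ∈ N, n * ‖y n‖ ^ 2 := by
      refine sum_congr rfl fun n hn => ?_
      rw [mul_pow, Real.sq_sqrt (by positivity)]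
    rwa [e1, e2, e3] at h8
  have h9 : ∑ n ∈ N, n * ‖y n‖ ^ 2 ≤
      ∑ r ∈ s, ∑ r' ∈ s, ‖∑ n ∈ N, (n : ℂ) * (x r n * (starRingEnd ℂ) (x r' n))‖ := by
    have e1 : ((∑ n ∈ N, n * ‖y n‖ ^ 2 : ℝ) : ℂ) = ∑ r ∈ s, ∑ r' ∈ s,
        (ε r * (starRingEnd ℂ) (ε r')) *
          ∑ n ∈ N, (n : ℂ) * (x r n * (starRingEnd ℂ) (x r' n)) := by
      push_cast
      have e2 : ∀ n ∈ N, (n : ℂ) * (‖y n‖ : ℂ) ^ 2 = ∑ r ∈ s, ∑ r' ∈ s,
          (ε r * (starRingEnd ℂ) (ε r')) * ((n : ℂ) * (x r n * (starRingEnd ℂ) (x r' n))) := by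
        intro n _
        rw [← Complex.mul_conj']
        simp only [hy]
        rw [map_sum, sum_mul_sum, mul_sum]
        refine sum_congr rfl fun r _ => ?_
        rw [mul_sum]
        refine sum_congr rfl fun r' _ => ?_
        rw [map_mul]
        ring
      rw [sum_congr rfl e2, sum_comm]
      refine sum_congr rfl fun r _ => ?_
      rw [sum_comm]
      refine sum_congr rfl fun r' _ => ?_
      rw [mul_sum]
    have e3 : ∑ n ∈ N, n * ‖y n‖ ^ 2 = ‖((∑ n ∈ N, n * ‖y n‖ ^ 2 : ℝ) : ℂ)‖ := by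
      rw [Complex.norm_real, Real.norm_of_nonneg (sum_nonneg fun _ _ => by positivity)]
    rw [e3, e1]
    refine norm_sum_le_of_le _ fun r _ => norm_sum_le_of_le _ fun r' _ => ?_
    rw [norm_mul, norm_mul, RCLike.norm_conj]
    have h1 := hε1 r
    have h2 := hε1 r'
    calc _ ≤ 1 * 1 * ‖∑ n ∈ N, (n : ℂ) * (x r n * (starRingEnd ℂ) (x r' n))‖ := by gcongr
      _ = _ := by rw [one_mul, one_mul]
  calc ((s.card : ℝ) / 2) ^ 2 ≤ (∑ n ∈ N, ‖c n‖ * ‖y n‖) ^ 2 := by gcongr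
    _ ≤ _ := h7
    _ ≤ _ := by
      refine mul_le_mul_of_nonneg_left h9 (sum_nonneg fun _ _ => by positivity)

/-! ### The functions attached to the zeros -/

/-- `χ(n) n^(-ρ)` -/
noncomputable def xx {f : ℕ} (χ : DirichletCharacter ℂ f) (ρ : ℂ) (n : ℕ) : ℂ :=
  χ n * (n : ℂ) ^ (-ρ)

theorem xx_mul {f : ℕ} (χ : DirichletCharacter ℂ f) (ρ : ℂ) (a b : ℕ) :
    xx χ ρ (a * b) = xx χ ρ a * xx χ ρ b := by
  unfold xx
  rw [Nat.cast_mul, map_mul, Nat.cast_mul, Complex.natCast_mul_natCast_cpow]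
  ring

theorem xx_one {f : ℕ} (χ : DirichletCharacter ℂ f) (ρ : ℂ) : xx χ ρ 1 = 1 := by
  unfold xx
  simp

theorem xx_norm {f : ℕ} (χ : DirichletCharacter ℂ f) (ρ : ℂ) {n : ℕ} (hn : 0 < n) :
    ‖xx χ ρ n‖ ≤ (n : ℝ) ^ (-ρ.re) := by
  unfold xx
  rw [norm_mul, norm_natCast_cpow_of_pos hn, neg_re]
  have := χ.norm_le_one n
  have h2 : (0 : ℝ) ≤ (n : ℝ) ^ (-ρ.re) := by positivity
  calc _ ≤ 1 * (n : ℝ) ^ (-ρ.re) := mul_le_mul_of_nonneg_right this h2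
    _ = _ := one_mul _

theorem conj_pow (n : ℕ) (s : ℂ) :
    (starRingEnd ℂ) ((n : ℂ) ^ s) = (n : ℂ) ^ ((starRingEnd ℂ) s) := by
  rw [cpow_conj _ _ (by rw [Complex.natCast_arg]; exact Real.pi_pos.ne), Complex.conj_natCast]

theorem rho_norm {Q : ℝ} {ρ : ℂ} (h0 : 0 ≤ ρ.re) (h1 : ρ.re ≤ 1) (h2 : |ρ.im| ≤ Q ^ 3) :
    ‖ρ‖ ≤ 1 + Q ^ 3 := by
  refine (norm_le_abs_re_add_abs_im ρ).trans (add_le_add ?_ h2)
  rw [abs_of_nonneg h0]
  exact h1

theorem rpow_Q {Q : ℕ} (hQ : 1 ≤ Q) (k m : ℕ) {β t : ℝ} (hβ : t ≤ β) (h : k * t = m) :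
    ((Q ^ k : ℕ) : ℝ) ^ (-β) ≤ ((Q : ℝ) ^ m)⁻¹ := by
  have hQ' : (1 : ℝ) ≤ Q := by exact_mod_cast hQ
  rw [Nat.cast_pow, ← Real.rpow_natCast, ← Real.rpow_mul (by linarith), ← Real.rpow_natCast,
    ← Real.rpow_neg (by linarith)]
  refine Real.rpow_le_rpow_of_exponent_le hQ' ?_
  have : (k : ℝ) * t ≤ k * β := by gcongr
  linarith

/-- the sum over the middle range is at least `1/2` -/
theorem big {Q f : ℕ} [NeZero f] (hQ : 2 ≤ Q) (hf : f ≤ Q) {χ : DirichletCharacter ℂ f}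
    (hχ : χ ≠ 1) {ρ : ℂ} (h1 : 99 / 100 ≤ ρ.re) (h2 : ρ.re ≤ 1) (h3 : |ρ.im| ≤ (Q : ℝ) ^ 3)
    (h0 : χ.LFunction ρ = 0) :
    1 / 2 ≤ ‖∑ n ∈ Ioc (Q ^ 8) (Q ^ 8 * Q ^ 24), (cc (Q ^ 8) (Q ^ 24) n : ℂ) * xx χ ρ n‖ := by
  have hQ2 : (2 : ℝ) ≤ Q := by exact_mod_cast hQ
  have hQ1 : 1 ≤ Q := by omega
  have hm := moll (xx χ ρ) (xx_mul χ ρ) (U := Q ^ 8) (V := Q ^ 24)
  have hU1 : 1 ≤ Q ^ 8 := Nat.one_le_pow _ _ (by omega)
  have hV1 : 1 ≤ Q ^ 24 := Nat.one_le_pow _ _ (by omega)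
  have hUV : Q ^ 8 ≤ Q ^ 24 := Nat.pow_le_pow_right (by omega) (by norm_num)
  have hUW : Q ^ 8 ≤ Q ^ 8 * Q ^ 24 := Nat.le_mul_of_pos_right _ (by omega)
  rw [← sum_Ioc_consecutive _ (Nat.zero_le (Q ^ 8)) hUW,
    ← sum_Ioc_consecutive (fun n => (cc (Q ^ 8) (Q ^ 24) n : ℂ) * xx χ ρ n) (Nat.zero_le 1)
      hU1] at hm
  have e1 : ∑ n ∈ Ioc 0 1, (cc (Q ^ 8) (Q ^ 24) n : ℂ) * xx χ ρ n = 1 := by
    rw [show Ioc 0 1 = {1} from rfl, sum_singleton, cc_one hU1 hV1, xx_one]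
    simp
  have e2 : ∑ n ∈ Ioc 1 (Q ^ 8), (cc (Q ^ 8) (Q ^ 24) n : ℂ) * xx χ ρ n = 0 := by
    refine sum_eq_zero fun n hn => ?_
    rw [mem_Ioc] at hn
    rw [cc_small hn.2 (hn.2.trans hUV) hn.1]
    simp
  rw [e1, e2, add_zero] at hm
  -- bound of the mollifier
  have e3 : ‖∑ d ∈ Ioc 0 (Q ^ 8), ((ArithmeticFunction.moebius d : ℤ) : ℂ) * xx χ ρ d‖ ≤
      (Q : ℝ) ^ 8 := by
    calc _ ≤ ∑ d ∈ Ioc 0 (Q ^ 8), (1 : ℝ) := by
          refine norm_sum_le_of_le _ fun d hd => ?_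
          rw [mem_Ioc] at hd
          rw [norm_mul]
          have h4 : ‖((ArithmeticFunction.moebius d : ℤ) : ℂ)‖ ≤ 1 := by
            rw [Complex.norm_intCast]
            have := ArithmeticFunction.abs_moebius_le_one (n := d)
            exact_mod_cast this
          have h5 : ‖xx χ ρ d‖ ≤ 1 := by
            refine (xx_norm χ ρ hd.1).trans ?_
            exact Real.rpow_le_one_of_one_le_of_nonpos (by exact_mod_cast hd.1) (by linarith)
          exact mul_le_one₀ h4 (norm_nonneg _) h5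
      _ = (Q : ℝ) ^ 8 := by simp
  have e4 : ‖∑ m ∈ Ioc 0 (Q ^ 24), xx χ ρ m‖ ≤ (Q : ℝ) * (1 + 8 * (1 + (Q : ℝ) ^ 3)) *
      ((Q : ℝ) ^ 18)⁻¹ := by
    refine (zero_partial hχ (by linarith) h2 h0 hV1).trans ?_
    have hn := rho_norm (by linarith) h2 h3
    have h5 := rpow_Q hQ1 24 18 (β := ρ.re) (t := 3 / 4) (by linarith) (by norm_num)
    have hf' : (f : ℝ) ≤ Q := by exact_mod_cast hf
    gcongr
  have e5 : ‖(∑ d ∈ Ioc 0 (Q ^ 8), ((ArithmeticFunction.moebius d : ℤ) : ℂ) * xx χ ρ d) *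
      ∑ m ∈ Ioc 0 (Q ^ 24), xx χ ρ m‖ ≤ 1 / 2 := by
    rw [norm_mul]
    calc _ ≤ (Q : ℝ) ^ 8 * ((Q : ℝ) * (1 + 8 * (1 + (Q : ℝ) ^ 3)) * ((Q : ℝ) ^ 18)⁻¹) := by
          gcongr
      _ = (9 + 8 * (Q : ℝ) ^ 3) / (Q : ℝ) ^ 9 := by
          field_simp
          ring
      _ ≤ 1 / 2 := by
          rw [div_le_div_iff₀ (by positivity) (by norm_num)]
          have h6 : (8 : ℝ) ≤ (Q : ℝ) ^ 3 := by
            calc (8 : ℝ) = 2 ^ 3 := by norm_num
              _ ≤ _ := by gcongr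
          have h7 : (Q : ℝ) ^ 9 = (Q : ℝ) ^ 3 * (Q : ℝ) ^ 3 * (Q : ℝ) ^ 3 := by ring
          rw [h7]
          nlinarith [mul_le_mul h6 h6 (by norm_num) (by positivity)]
  rw [hm] at e5
  have h8 := norm_sub_le (1 + ∑ n ∈ Ioc (Q ^ 8) (Q ^ 8 * Q ^ 24),
    (cc (Q ^ 8) (Q ^ 24) n : ℂ) * xx χ ρ n) (∑ n ∈ Ioc (Q ^ 8) (Q ^ 8 * Q ^ 24),
    (cc (Q ^ 8) (Q ^ 24) n : ℂ) * xx χ ρ n)
  rw [add_sub_cancel_right, norm_one] at h8
  linarith

/-- the diagonal terms -/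
theorem diag {f : ℕ} (χ : DirichletCharacter ℂ f) {ρ : ℂ} {η : ℝ} (hη : 0 ≤ η)
    (h1 : 1 - η ≤ ρ.re) (A W : ℕ) (hQ : 1 ≤ W) :
    ‖∑ n ∈ Ioc A W, (n : ℂ) * (xx χ ρ n * (starRingEnd ℂ) (xx χ ρ n))‖ ≤
      (W : ℝ) ^ (2 * η) * (1 + Real.log W) := by
  have hW : (1 : ℝ) ≤ W := by exact_mod_cast hQ
  calc _ ≤ ∑ n ∈ Ioc A W, (W : ℝ) ^ (2 * η) * (1 / n) := by
        refine norm_sum_le_of_le _ fun n hn => ?_
        rw [mem_Ioc] at hn
        have hn0 : 0 < n := by omega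
        have hn1 : (1 : ℝ) ≤ n := by exact_mod_cast hn0
        rw [norm_mul, norm_mul, RCLike.norm_conj, Complex.norm_natCast]
        have h2 := xx_norm χ ρ hn0
        have h3 : (n : ℝ) ^ (-ρ.re) ≤ (n : ℝ) ^ (-(1 - η)) :=
          Real.rpow_le_rpow_of_exponent_le hn1 (by linarith)
        have h4 := h2.trans h3
        calc (n : ℝ) * (‖xx χ ρ n‖ * ‖xx χ ρ n‖) ≤ n * ((n : ℝ) ^ (-(1 - η)) *
              (n : ℝ) ^ (-(1 - η))) := by gcongr
          _ = (n : ℝ) ^ (1 : ℝ) * (n : ℝ) ^ (-(1 - η) + -(1 - η)) := by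
              rw [Real.rpow_one, ← Real.rpow_add (by linarith)]
          _ = (n : ℝ) ^ (2 * η) * (n : ℝ) ^ (-1 : ℝ) := by
              rw [← Real.rpow_add (by linarith), ← Real.rpow_add (by linarith)]
              congr 1
              ring
          _ = (n : ℝ) ^ (2 * η) * (1 / n) := by
              rw [Real.rpow_neg_one, one_div]
          _ ≤ (W : ℝ) ^ (2 * η) * (1 / n) := by
              gcongr
              exact_mod_cast hn.2
    _ = (W : ℝ) ^ (2 * η) * ∑ n ∈ Ioc A W, (1 : ℝ) / n := by rw [mul_sum]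
    _ ≤ (W : ℝ) ^ (2 * η) * ∑ n ∈ Ioc 0 W, (1 : ℝ) / n := by
        gcongr
        exact Nat.zero_le _
    _ ≤ _ := by
        gcongr
        exact harm_le W

/-- the off-diagonal terms -/
theorem offdiag {Q f f' : ℕ} [NeZero f] [NeZero f'] (hQ : 2 ≤ Q) (hf : f ≤ Q) (hf' : f' ≤ Q)
    {χ : DirichletCharacter ℂ f} {χ' : DirichletCharacter ℂ f'} (hp : χ.IsPrimitive)
    (hp' : χ'.IsPrimitive)
    (hne : (⟨f, χ⟩ : Σ f : ℕ, DirichletCharacter ℂ f) ≠ ⟨f', χ'⟩) {ρ ρ' : ℂ}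
    (h1 : 99 / 100 ≤ ρ.re) (h2 : ρ.re ≤ 1) (h3 : |ρ.im| ≤ (Q : ℝ) ^ 3)
    (h1' : 99 / 100 ≤ ρ'.re) (h2' : ρ'.re ≤ 1) (h3' : |ρ'.im| ≤ (Q : ℝ) ^ 3) (W : ℕ) :
    ‖∑ n ∈ Ioc (Q ^ 8) W, (n : ℂ) * (xx χ ρ n * (starRingEnd ℂ) (xx χ' ρ' n))‖ ≤
      20 * ((Q : ℝ) ^ 2)⁻¹ := by
  have hQ2 : (2 : ℝ) ≤ Q := by exact_mod_cast hQ
  have hQ1 : 1 ≤ Q := by omega
  set N := f * f' with hN
  have hN0 : 0 < N := Nat.mul_pos (NeZero.pos f) (NeZero.pos f')
  have : NeZero N := ⟨by omega⟩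
  have hd1 : f ∣ N := ⟨f', rfl⟩
  have hd2 : f' ∣ N := ⟨f, by rw [hN, mul_comm]⟩
  set Ψ : DirichletCharacter ℂ N := DirichletCharacter.changeLevel hd1 χ *
    (DirichletCharacter.changeLevel hd2 χ')⁻¹ with hΨ
  have hΨ1 : Ψ ≠ 1 := by
    intro h
    rw [hΨ, mul_inv_eq_one] at h
    have c1 : (DirichletCharacter.changeLevel hd1 χ).conductor = f := by
      rw [DirichletCharacter.conductor_changeLevel]; exact hp
    have c2 : (DirichletCharacter.changeLevel hd2 χ').conductor = f' := by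
      rw [DirichletCharacter.conductor_changeLevel]; exact hp'
    have c3 : f = f' := by rw [← c1, ← c2, h]
    subst c3
    have c4 := DirichletCharacter.changeLevel_injective hd1 h
    exact hne (by rw [c4])
  set w : ℂ := ρ + (starRingEnd ℂ) ρ' - 1 with hw
  have hwre : w.re = ρ.re + ρ'.re - 1 := by simp [hw]
  have e1 : ∀ n ∈ Ioc (Q ^ 8) W, (n : ℂ) * (xx χ ρ n * (starRingEnd ℂ) (xx χ' ρ' n)) =
      Ψ n * (n : ℂ) ^ (-w) := by
    intro n hn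
    rw [mem_Ioc] at hn
    have hn0 : n ≠ 0 := by omega
    have hnc : (n : ℂ) ≠ 0 := by exact_mod_cast hn0
    unfold xx
    rw [map_mul, conj_pow]
    have e2 : (n : ℂ) ^ (-w) = (n : ℂ) * ((n : ℂ) ^ (-ρ) * (n : ℂ) ^ ((starRingEnd ℂ) (-ρ'))) := by
      rw [← Complex.cpow_add _ _ hnc]
      conv_rhs => lhs; rw [← Complex.cpow_one (n : ℂ)]
      rw [← Complex.cpow_add _ _ hnc]
      congr 1
      rw [hw, map_neg]
      ring
    have e3 : Ψ n = χ n * (starRingEnd ℂ) (χ' n) := by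
      by_cases hc : n.Coprime N
      · have hci : IsCoprime (n : ℤ) (N : ℤ) := Nat.isCoprime_iff_coprime.mpr hc
        have k1 := DirichletCharacter.changeLevel_eq_cast_of_dvd' χ hd1 hci
        have k2 := DirichletCharacter.changeLevel_eq_cast_of_dvd' χ' hd2 hci
        push_cast at k1 k2
        rw [hΨ, MulChar.mul_apply, k1, ← MulChar.star_apply', k2]
        rfl
      · rw [MulChar.map_nonunit Ψ (by rw [ZMod.isUnit_iff_coprime]; exact hc)]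
        rw [hN, Nat.coprime_mul_iff_right] at hc
        by_cases hc1 : n.Coprime f
        · have hc2 : ¬ n.Coprime f' := fun h => hc ⟨hc1, h⟩
          rw [MulChar.map_nonunit χ' (by rw [ZMod.isUnit_iff_coprime]; exact hc2), map_zero,
            mul_zero]
        · rw [MulChar.map_nonunit χ (by rw [ZMod.isUnit_iff_coprime]; exact hc1), zero_mul]
    rw [e2, e3]
    ring
  rw [sum_congr rfl e1]
  have hb := abel_bound (fun n => Ψ n) N (per_bound (fun j => Ψ j) (fun j => Ψ.norm_le_one j)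
    (MulChar.sum_eq_zero_of_ne_one hΨ1)) w (by rw [hwre]; linarith) (by rw [hwre]; linarith)
    (A := Q ^ 8) (Nat.one_le_pow _ _ (by omega)) W
  refine hb.trans ?_
  have hNQ : (N : ℝ) ≤ (Q : ℝ) ^ 2 := by
    rw [hN, sq]
    exact_mod_cast Nat.mul_le_mul hf hf'
  have hwn : ‖w‖ ≤ 2 * (1 + (Q : ℝ) ^ 3) + 1 := by
    have k1 := rho_norm (by linarith) h2 h3
    have k2 := rho_norm (by linarith) h2' h3'
    calc ‖w‖ ≤ ‖ρ + (starRingEnd ℂ) ρ'‖ + ‖(1 : ℂ)‖ := norm_sub_le _ _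
      _ ≤ (‖ρ‖ + ‖ρ'‖) + 1 := by
          rw [norm_one]
          gcongr
          refine (norm_add_le _ _).trans ?_
          rw [RCLike.norm_conj]
      _ ≤ _ := by linarith
  have hp8 := rpow_Q hQ1 8 7 (β := w.re) (t := 7 / 8) (by rw [hwre]; linarith) (by norm_num)
  calc (N : ℝ) * (1 + 8 * ‖w‖) * ((Q ^ 8 : ℕ) : ℝ) ^ (-w.re)
      ≤ (Q : ℝ) ^ 2 * (1 + 8 * (2 * (1 + (Q : ℝ) ^ 3) + 1)) * ((Q : ℝ) ^ 7)⁻¹ := by gcongr
    _ = (25 + 16 * (Q : ℝ) ^ 3) / (Q : ℝ) ^ 5 := by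
        field_simp
        ring
    _ ≤ 20 * ((Q : ℝ) ^ 2)⁻¹ := by
        rw [← div_eq_mul_inv, div_le_div_iff₀ (by positivity) (by positivity)]
        have h6 : (8 : ℝ) ≤ (Q : ℝ) ^ 3 := by
          calc (8 : ℝ) = 2 ^ 3 := by norm_num
            _ ≤ _ := by gcongr
        have h7 : (Q : ℝ) ^ 5 = (Q : ℝ) ^ 3 * (Q : ℝ) ^ 2 := by ring
        rw [h7]
        have h8 : (0 : ℝ) < (Q : ℝ) ^ 2 := by positivity
        nlinarith

theorem prim_ne_one {f : ℕ} (hf : 1 < f) {ψ : DirichletCharacter ℂ f} (h : ψ.IsPrimitive) :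
    ψ ≠ 1 := by
  have : NeZero f := ⟨by omega⟩
  intro h1
  have h2 : ψ.conductor = f := h
  rw [h1, DirichletCharacter.conductor_one] at h2
  omega

theorem card_le (f : ℕ) (hf : 0 < f) :
    (univ : Finset (DirichletCharacter ℂ f)).card ≤ f := by
  have : NeZero f := ⟨by omega⟩
  rw [card_univ, ← Nat.card_eq_fintype_card,
    DirichletCharacter.card_eq_totient_of_hasEnoughRootsOfUnity ℂ f]
  exact Nat.totient_le f

end DENS

open Classical DENS in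
theorem dens : St_DENS := by
  refine ⟨84 * 34 ^ 5 * 2, by norm_num, fun Q hQ η hη hη1 => ?_⟩
  have hQ2 : (2 : ℝ) ≤ Q := by exact_mod_cast hQ
  have hQ0 : (0 : ℝ) < Q := by linarith
  set s : Finset (Σ f : ℕ, DirichletCharacter ℂ f) := (Icc 2 Q).sigma fun f =>
    (univ : Finset (DirichletCharacter ℂ f)).filter
      (fun χ => χ.IsPrimitive ∧ HZ χ η ((Q : ℝ) ^ 3)) with hs
  have hcard : ∑ f ∈ Icc 2 Q, (((univ : Finset (DirichletCharacter ℂ f)).filter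
      (fun χ => χ.IsPrimitive ∧ HZ χ η ((Q : ℝ) ^ 3))).card : ℝ) = (s.card : ℝ) := by
    rw [hs, card_sigma]
    push_cast
    rfl
  rw [hcard]
  set R : ℝ := (s.card : ℝ) with hR
  have hR0 : 0 ≤ R := by positivity
  -- trivial bound
  have hRQ : R ≤ (Q : ℝ) ^ 2 := by
    have h1 : s.card ≤ Q * Q := by
      rw [hs, card_sigma]
      calc _ ≤ ∑ _f ∈ Icc 2 Q, Q := by
            refine sum_le_sum fun f hf => ?_
            rw [mem_Icc] at hf
            exact ((card_filter_le _ _).trans (card_le f (by omega))).trans hf.2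
        _ = (Icc 2 Q).card * Q := by rw [sum_const, smul_eq_mul]
        _ ≤ Q * Q := by
            gcongr
            rw [Nat.card_Icc]
            omega
    rw [hR, sq]
    exact_mod_cast h1
  -- the zeros
  have hz : ∀ r ∈ s, ∃ (_ : NeZero r.1) (ρ : ℂ), 1 - η ≤ ρ.re ∧ ρ.re ≤ 1 ∧
      |ρ.im| ≤ (Q : ℝ) ^ 3 ∧ r.2.LFunction ρ = 0 := by
    rintro ⟨f, χ⟩ hr
    simp only [hs, mem_sigma, mem_Icc, mem_filter, mem_univ, true_and] at hr
    obtain ⟨⟨hf1, hf2⟩, hp, hne, ρ, h1, h2, h3⟩ := hr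
    refine ⟨hne, ρ, h1, ?_, h2, h3⟩
    by_contra hc
    push Not at hc
    exact DirichletCharacter.LFunction_ne_zero_of_one_le_re χ
      (Or.inl (prim_ne_one (by omega) hp)) hc.le h3
  set ρ : (Σ f : ℕ, DirichletCharacter ℂ f) → ℂ := fun r =>
    if h : r ∈ s then (hz r h).choose_spec.choose else 0 with hρ
  have hρs : ∀ r, r ∈ s → ∃ _ : NeZero r.1, 1 - η ≤ (ρ r).re ∧ (ρ r).re ≤ 1 ∧
      |(ρ r).im| ≤ (Q : ℝ) ^ 3 ∧ r.2.LFunction (ρ r) = 0 := by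
    intro r hr
    refine ⟨(hz r hr).choose, ?_⟩
    have h1 := (hz r hr).choose_spec.choose_spec
    have h2 : ρ r = (hz r hr).choose_spec.choose := by
      simp only [hρ]
      rw [dif_pos hr]
    rw [h2]
    exact h1
  have hmem : ∀ r, r ∈ s → 2 ≤ r.1 ∧ r.1 ≤ Q ∧ r.2.IsPrimitive := by
    rintro ⟨f, χ⟩ hr
    simp only [hs, mem_sigma, mem_Icc, mem_filter, mem_univ, true_and] at hr
    exact ⟨hr.1.1, hr.1.2, hr.2.1⟩
  set W : ℕ := Q ^ 8 * Q ^ 24 with hW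
  have hW1 : 1 ≤ W := Nat.one_le_iff_ne_zero.2 (by positivity)
  set L : ℝ := 1 + Real.log W with hL
  have hL1 : 1 ≤ L := by
    have : 0 ≤ Real.log W := Real.log_nonneg (by exact_mod_cast hW1)
    linarith
  set P : ℝ := (W : ℝ) ^ (2 * η) with hP
  have hP1 : 1 ≤ P := Real.one_le_rpow (by exact_mod_cast hW1) (by linarith)
  have hdual := dual s (Ioc (Q ^ 8) W) (fun n hn => by rw [mem_Ioc] at hn; omega)
    (fun n => (cc (Q ^ 8) (Q ^ 24) n : ℂ)) (fun r => xx r.2 (ρ r)) (by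
      intro r hr
      obtain ⟨h1, h2, h3, h4, h5⟩ := hρs r hr
      obtain ⟨k1, k2, k3⟩ := hmem r hr
      exact big hQ k2 (prim_ne_one (by omega) k3) (by linarith) h3 h4 h5)
  have hc : ∑ n ∈ Ioc (Q ^ 8) W, ‖(cc (Q ^ 8) (Q ^ 24) n : ℂ)‖ ^ 2 / n ≤ L ^ 4 := by
    refine le_trans ?_ (tau2_le W)
    calc _ ≤ ∑ n ∈ Ioc (Q ^ 8) W, (n.divisors.card : ℝ) ^ 2 / n := by
          refine sum_le_sum fun n _ => ?_
          have h1 : ‖(cc (Q ^ 8) (Q ^ 24) n : ℂ)‖ ≤ (n.divisors.card : ℝ) := by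
            rw [Complex.norm_intCast]
            exact cc_abs _ _ _
          gcongr
      _ ≤ _ := by
          refine sum_le_sum_of_subset_of_nonneg ?_ fun n _ _ => by positivity
          intro n hn
          rw [mem_Ioc] at hn ⊢
          exact ⟨by omega, hn.2⟩
  have hk : ∑ r ∈ s, ∑ r' ∈ s, ‖∑ n ∈ Ioc (Q ^ 8) W, (n : ℂ) *
      (xx r.2 (ρ r) n * (starRingEnd ℂ) (xx r'.2 (ρ r') n))‖ ≤ R * (P * L + 20) := by
    have h1 : ∀ r ∈ s, ∑ r' ∈ s, ‖∑ n ∈ Ioc (Q ^ 8) W, (n : ℂ) *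
        (xx r.2 (ρ r) n * (starRingEnd ℂ) (xx r'.2 (ρ r') n))‖ ≤ P * L + 20 := by
      intro r hr
      obtain ⟨i1, h2, h3, h4, h5⟩ := hρs r hr
      obtain ⟨k1, k2, k3⟩ := hmem r hr
      rw [← add_sum_erase s _ hr]
      refine add_le_add (diag r.2 hη h2 _ W hW1) ?_
      calc _ ≤ ∑ _r' ∈ s.erase r, 20 * ((Q : ℝ) ^ 2)⁻¹ := by
            refine sum_le_sum fun r' hr' => ?_
            rw [mem_erase] at hr'
            obtain ⟨i1', h2', h3', h4', h5'⟩ := hρs r' hr'.2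
            obtain ⟨k1', k2', k3'⟩ := hmem r' hr'.2
            exact offdiag hQ k2 k2' k3 k3' (fun h => hr'.1 h.symm) (by linarith) h3 h4
              (by linarith) h3' h4' W
        _ = ((s.erase r).card : ℝ) * (20 * ((Q : ℝ) ^ 2)⁻¹) := by rw [sum_const, nsmul_eq_mul]
        _ ≤ (Q : ℝ) ^ 2 * (20 * ((Q : ℝ) ^ 2)⁻¹) := by
            gcongr
            refine le_trans ?_ hRQ
            rw [hR]
            exact_mod_cast card_le_card (erase_subset _ _)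
        _ = 20 := by field_simp
    calc _ ≤ ∑ _r ∈ s, (P * L + 20) := sum_le_sum h1
      _ = R * (P * L + 20) := by rw [sum_const, nsmul_eq_mul]
  have hmain : (R / 2) ^ 2 ≤ L ^ 4 * (R * (P * L + 20)) := by
    refine hdual.trans (mul_le_mul hc hk (sum_nonneg fun _ _ => sum_nonneg fun _ _ =>
      norm_nonneg _) (by positivity))
  have hR1 : R ≤ 84 * L ^ 5 * P := by
    rcases eq_or_lt_of_le hR0 with h0 | h0
    · rw [← h0]
      positivity
    · have h1 : R / 4 ≤ L ^ 4 * (P * L + 20) := by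
        have h2 : R * (R / 4) ≤ R * (L ^ 4 * (P * L + 20)) := by
          calc R * (R / 4) = (R / 2) ^ 2 := by ring
            _ ≤ _ := hmain
            _ = _ := by ring
        exact le_of_mul_le_mul_left h2 h0
      have h3 : P * L + 20 ≤ 21 * (P * L) := by
        have : 1 ≤ P * L := by nlinarith
        linarith
      have h4 : L ^ 4 * (P * L + 20) ≤ L ^ 4 * (21 * (P * L)) := by gcongr
      have h5 : L ^ 4 * (21 * (P * L)) = 21 * L ^ 5 * P := by ring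
      linarith
  have hlog : 1 ≤ 2 * Real.log Q := by
    have h1 : Real.log 2 ≤ Real.log Q := Real.log_le_log (by norm_num) hQ2
    have h2 := Real.log_two_gt_d9
    linarith
  have hLQ : L ≤ 34 * Real.log Q := by
    have h1 : Real.log W = 32 * Real.log Q := by
      rw [hW]
      push_cast
      rw [← pow_add, Real.log_pow]
      norm_num
    rw [hL, h1]
    linarith
  have hPQ : P ≤ (Q : ℝ) ^ (100 * η) := by
    have h1 : (W : ℝ) = (Q : ℝ) ^ (32 : ℝ) := by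
      rw [hW]
      push_cast
      rw [← pow_add, ← Real.rpow_natCast]
      norm_num
    rw [hP, h1, ← Real.rpow_mul hQ0.le]
    exact Real.rpow_le_rpow_of_exponent_le (by linarith) (by linarith)
  calc R ≤ 84 * L ^ 5 * P := hR1
    _ ≤ 84 * (34 * Real.log Q) ^ 5 * (Q : ℝ) ^ (100 * η) := by
        gcongr
    _ = 84 * 34 ^ 5 * (Real.log Q) ^ 5 * 1 * (Q : ℝ) ^ (100 * η) := by ring
    _ ≤ 84 * 34 ^ 5 * (Real.log Q) ^ 5 * (2 * Real.log Q) * (Q : ℝ) ^ (100 * η) := by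
        have : 0 ≤ Real.log Q := by linarith
        gcongr
    _ = _ := by ring

end Pool.Agent.H262R3.Lk
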