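import Mathlib
import Pool.Agent.H262R3.Lk.Stubs
import Pool.Agent.H318R2.Cr.Prod

/-! Difference of two classes, from the fundamental lemma by partial summation. -/

open Finset

namespace Pool.Agent.H262R3.Lk

open Pool.Agent.H318R2.Cr (Rgh V)

namespace DIFF

/-- summation by parts -/
theorem abel (a h : ℕ → ℝ) (N : ℕ) : ∑ n ∈ range (N+1), a n * h n = (∑ n ∈ range (N+1), a n) * h N
    - ∑ n ∈ range N, (∑ k ∈ range (n+1), a k) * (h (n+1) - h n) := by
  induction N with
  | zero => simp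
  | succ N ih =>
    rw [sum_range_succ, ih, sum_range_succ (fun n => (∑ k ∈ range (n+1), a k) * (h (n+1) - h n)),
      sum_range_succ a (N+1)]
    ring

theorem hdiff (j : ℕ) (σ : ℝ) (hj : j ≤ 3) (h0 : 0 < σ) (h1 : σ ≤ 1) (x : ℝ) (hx : 32 ≤ x) :
    |(Real.log (x+1)) ^ j / (x+1) ^ (1 + σ) - (Real.log x) ^ j / x ^ (1 + σ)| ≤
      5 * (Real.log (x+1))^j / x^2 := by
  set f : ℝ → ℝ := fun t => (Real.log t) ^ j * t ^ (-(1 + σ)) with hf
  set f' : ℝ → ℝ := fun t => (j * (Real.log t)^(j-1) * t⁻¹) * t ^ (-(1 + σ)) +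
    (Real.log t)^j * (-(1+σ) * t ^ (-(1 + σ) - 1)) with hf'
  have hd : ∀ t : ℝ, 0 < t → HasDerivAt f (f' t) t := by
    intro t ht
    exact ((Real.hasDerivAt_log ht.ne').pow j).mul (Real.hasDerivAt_rpow_const (Or.inl ht.ne'))
  have hfe : ∀ t : ℝ, 0 < t → f t = (Real.log t) ^ j / t ^ (1 + σ) := by
    intro t ht
    rw [hf]
    simp only
    rw [Real.rpow_neg ht.le, div_eq_mul_inv]
  obtain ⟨c, hc, hc'⟩ := exists_hasDerivAt_eq_slope f f' (a := x) (b := x + 1) (by linarith)
    (fun t ht => (hd t (by have := ht.1; linarith)).continuousAt.continuousWithinAt)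
    (fun t ht => hd t (by have := ht.1; linarith))
  have hc0 : 0 < c := by have := hc.1; linarith
  have hxc : x ≤ c := hc.1.le
  have hcx : c ≤ x + 1 := hc.2.le
  rw [← hfe _ (by linarith), ← hfe _ (by linarith)]
  have e1 : f (x+1) - f x = f' c := by rw [hc']; ring
  rw [e1]
  have hlc : 1 ≤ Real.log c := by
    rw [Real.le_log_iff_exp_le hc0]
    have := Real.exp_one_lt_d9
    linarith
  have hlc2 : Real.log c ≤ Real.log (x+1) := Real.log_le_log hc0 hcx
  have e2 : f' c = c ^ (-(1 + σ)) * c⁻¹ * (j * (Real.log c)^(j-1) - (1+σ) * (Real.log c)^j) := by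
    rw [hf']
    simp only
    rw [Real.rpow_sub_one hc0.ne']
    ring
  rw [e2, abs_mul, abs_of_nonneg (by positivity)]
  have e3 : |(j:ℝ) * (Real.log c)^(j-1) - (1+σ) * (Real.log c)^j| ≤ 5 * (Real.log c)^j := by
    have g1 : (Real.log c)^(j-1) ≤ (Real.log c)^j := pow_le_pow_right₀ hlc (by omega)
    have g2 : (j:ℝ) ≤ 3 := by exact_mod_cast hj
    have g3 : 0 ≤ (Real.log c)^(j-1) := by positivity
    have g4 : (j:ℝ) * (Real.log c)^(j-1) ≤ 3 * (Real.log c)^j := by gcongr
    have g5 : (0:ℝ) ≤ (j:ℝ) * (Real.log c)^(j-1) := by positivity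
    have g6 : 0 ≤ (Real.log c)^j := by positivity
    rw [abs_le]
    constructor
    · nlinarith
    · nlinarith
  have e4 : c ^ (-(1 + σ)) ≤ c⁻¹ := by
    rw [← Real.rpow_neg_one]
    apply Real.rpow_le_rpow_of_exponent_le (by linarith) (by linarith)
  calc c ^ (-(1 + σ)) * c⁻¹ * |(j:ℝ) * (Real.log c)^(j-1) - (1+σ) * (Real.log c)^j|
      ≤ c⁻¹ * c⁻¹ * (5 * (Real.log c)^j) := by gcongr
    _ = 5 * (Real.log c)^j / c^2 := by ring
    _ ≤ 5 * (Real.log (x+1))^j / x^2 := by
        have : 0 < Real.log (x+1) := by linarith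
        gcongr

theorem log_succ (n : ℕ) (hn : 32 ≤ n) : 3 ≤ Real.log n ∧ Real.log n ≤ Real.log (n+1) ∧ Real.log (n+1) ≤ 2 * Real.log n ∧
    1 / ((n:ℝ)+1) ≤ Real.log (n+1) - Real.log n := by
  have hn0 : (32:ℝ) ≤ n := by exact_mod_cast hn
  refine ⟨?_, Real.log_le_log (by linarith) (by linarith), ?_, ?_⟩
  · rw [Real.le_log_iff_exp_le (by linarith)]
    have := Real.exp_one_lt_d9
    have h3 : Real.exp 3 = Real.exp 1 ^ 3 := by rw [← Real.exp_nat_mul]; norm_num
    rw [h3]
    calc Real.exp 1 ^ 3 ≤ 3 ^ 3 := by gcongr; linarith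
      _ ≤ _ := by norm_num; linarith
  · have : 2 * Real.log n = Real.log ((n:ℝ)^2) := by rw [Real.log_pow]; norm_num
    rw [this]
    apply Real.log_le_log (by linarith)
    nlinarith
  · have h := Real.one_sub_inv_le_log_of_pos (x := ((n:ℝ)+1)/n) (by positivity)
    rw [Real.log_div (by linarith) (by linarith)] at h
    refine le_trans (le_of_eq ?_) h
    field_simp
    ring

/-- `∑ 1/(n (log n)^2)` -/
theorem tele (z N : ℕ) (hz : 32 ≤ z) : ∑ n ∈ range N with z ≤ n, 1 / ((n:ℝ) * (Real.log n)^2) ≤ 4 / Real.log z := by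
  have key : ∀ n : ℕ, 32 ≤ n → 1 / ((n:ℝ) * (Real.log n)^2) ≤ 4 / Real.log n - 4 / Real.log (n+1) := by
    intro n hn
    obtain ⟨h1, h2, h3, h4⟩ := log_succ n hn
    have hn0 : (32:ℝ) ≤ n := by exact_mod_cast hn
    have e : 4 / Real.log n - 4 / Real.log (n+1) = 4 * (Real.log (n+1) - Real.log n) / (Real.log n * Real.log (n+1)) := by
      have : 0 < Real.log n := by linarith
      have : 0 < Real.log (n+1) := by linarith
      field_simp
    rw [e]
    calc 1 / ((n:ℝ) * (Real.log n)^2) = 4 * (1/(2 * n)) / (Real.log n * (2 * Real.log n)) := by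
          field_simp; norm_num
      _ ≤ 4 * (1 / ((n:ℝ)+1)) / (Real.log n * Real.log (n+1)) := by
          gcongr
          · have : 0 < Real.log n := by linarith
            have : 0 < Real.log (n+1) := by linarith
            positivity
          · linarith
      _ ≤ _ := by
          have : 0 < Real.log n := by linarith
          have : 0 < Real.log (n+1) := by linarith
          gcongr
  have ind : ∀ N : ℕ, z ≤ N → ∑ n ∈ range N with z ≤ n, 1 / ((n:ℝ) * (Real.log n)^2) ≤ 4 / Real.log z - 4 / Real.log N := by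
    intro N hN
    induction N, hN using Nat.le_induction with
    | base =>
      rw [filter_false_of_mem]
      · simp
      · intro x hx; rw [mem_range] at hx; omega
    | succ N hN ih =>
      rw [range_add_one, filter_insert, if_pos hN, sum_insert (by simp)]
      have := key N (by omega)
      push_cast
      linarith
  by_cases hN : z ≤ N
  · have h1 := ind N hN
    have h2 := (log_succ N (by omega)).1
    have : 0 < 4 / Real.log N := by positivity
    linarith
  · rw [filter_false_of_mem]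
    · have := (log_succ z hz).1
      simp only [sum_empty]
      positivity
    · intro x hx; rw [mem_range] at hx; omega

/-- general bound -/
theorem gen (a : ℕ → ℝ) (z j : ℕ) (σ G : ℝ) (hz : 32 ≤ z) (hj : j ≤ 3) (h0 : 0 < σ) (h1 : σ ≤ 1) (hG : 0 ≤ G)
    (hS0 : ∀ n < z, ∑ k ∈ range (n+1), a k = 0)
    (hS : ∀ n, z ≤ n → |∑ k ∈ range (n+1), a k| ≤ G * n / (Real.log n)^5) (N : ℕ) :
    |∑ n ∈ range N, a n * ((Real.log n) ^ j / (n:ℝ) ^ (1 + σ))| ≤ 161 * G * (Real.log z)^j / (Real.log z)^4 := by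
  have hlz := (log_succ z hz).1
  rcases N with _ | N
  · simp
    positivity
  rw [abel a (fun n => (Real.log n) ^ j / (n:ℝ) ^ (1 + σ)) N]
  have hpw : ∀ n : ℕ, z ≤ n → (Real.log n)^j / (Real.log n)^5 ≤ (Real.log z)^j/(Real.log z)^3 * (1/(Real.log n)^2) := by
    intro n hn
    have hln := (log_succ n (by omega)).1
    have hlzn : Real.log z ≤ Real.log n := by
      apply Real.log_le_log
      · have : (32:ℝ) ≤ z := by exact_mod_cast hz
        linarith
      · exact_mod_cast hn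
    obtain ⟨i, hi⟩ : ∃ i, 3 = j + i := ⟨3 - j, by omega⟩
    have e1 : (Real.log n)^j / (Real.log n)^5 = 1/(Real.log n)^i * (1/(Real.log n)^2) := by
      have : (5:ℕ) = j + i + 2 := by omega
      rw [this, pow_add, pow_add]
      field_simp
    have e2 : (Real.log z)^j / (Real.log z)^3 = 1/(Real.log z)^i := by
      rw [hi, pow_add]
      field_simp
    rw [e1, e2]
    gcongr
  -- boundary term
  have b1 : |(∑ n ∈ range (N+1), a n) * ((Real.log N) ^ j / (N:ℝ) ^ (1 + σ))| ≤ G * (Real.log z)^j / (Real.log z)^4 := by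
    by_cases hN : z ≤ N
    · have hlN := (log_succ N (by omega)).1
      have hN1 : (1:ℝ) ≤ N := by exact_mod_cast (by omega : 1 ≤ N)
      rw [abs_mul, abs_of_nonneg (a := (Real.log N) ^ j / (N:ℝ) ^ (1 + σ)) (by positivity)]
      have c1 : (N:ℝ) ≤ (N:ℝ)^(1+σ) := by
        calc (N:ℝ) = (N:ℝ)^(1:ℝ) := (Real.rpow_one _).symm
          _ ≤ _ := Real.rpow_le_rpow_of_exponent_le hN1 (by linarith)
      have hlzn : Real.log z ≤ Real.log N := by
        apply Real.log_le_log
        · have : (32:ℝ) ≤ z := by exact_mod_cast hz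
          linarith
        · exact_mod_cast hN
      calc |∑ n ∈ range (N+1), a n| * ((Real.log N) ^ j / (N:ℝ) ^ (1 + σ))
          ≤ (G * N / (Real.log N)^5) * ((Real.log N) ^ j / (N:ℝ)) := by
            gcongr
            · exact hS N hN
        _ = G * ((Real.log N)^j / (Real.log N)^5) := by field_simp
        _ ≤ G * ((Real.log z)^j/(Real.log z)^3 * (1/(Real.log N)^2)) := by
            gcongr
            exact hpw N hN
        _ ≤ G * ((Real.log z)^j/(Real.log z)^3 * (1/(Real.log z)^1)) := by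
            gcongr
            calc (Real.log z)^1 ≤ (Real.log z)^2 := pow_le_pow_right₀ (by linarith) (by norm_num)
              _ ≤ _ := by gcongr
        _ = _ := by field_simp
    · rw [hS0 N (by omega)]
      simp
      positivity
  have b2 : |∑ n ∈ range N, (∑ k ∈ range (n+1), a k) * ((Real.log (n+1:ℕ)) ^ j / ((n+1:ℕ):ℝ) ^ (1 + σ) - (Real.log n) ^ j / (n:ℝ) ^ (1 + σ))| ≤
      160 * G * (Real.log z)^j / (Real.log z)^4 := by
    refine (abs_sum_le_sum_abs _ _).trans ?_
    have c1 : ∀ n ∈ range N, |(∑ k ∈ range (n+1), a k) * ((Real.log (n+1:ℕ)) ^ j / ((n+1:ℕ):ℝ) ^ (1 + σ) - (Real.log n) ^ j / (n:ℝ) ^ (1 + σ))|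
        ≤ if z ≤ n then 40 * G * (Real.log z)^j / (Real.log z)^3 * (1/((n:ℝ) * (Real.log n)^2)) else 0 := by
      intro n _
      split_ifs with hn
      · obtain ⟨d1, d2, d3, d4⟩ := log_succ n (by omega)
        have hn1 : (32:ℝ) ≤ n := by exact_mod_cast (by omega : 32 ≤ n)
        rw [abs_mul]
        have e1 := hdiff j σ hj h0 h1 n hn1
        push_cast
        calc _ ≤ (G * n / (Real.log n)^5) * (5 * (Real.log (n+1))^j / (n:ℝ)^2) := by
              gcongr
              exact hS n hn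
          _ ≤ (G * n / (Real.log n)^5) * (5 * (8 * (Real.log n)^j) / (n:ℝ)^2) := by
              gcongr
              calc (Real.log (n+1))^j ≤ (2 * Real.log n)^j := by
                    have : 0 < Real.log ((n:ℝ)+1) := by linarith
                    gcongr
                _ = 2^j * (Real.log n)^j := by rw [mul_pow]
                _ ≤ 2^3 * (Real.log n)^j := by gcongr; norm_num
                _ = _ := by norm_num
          _ = 40 * G * ((Real.log n)^j / (Real.log n)^5) * (1/(n:ℝ)) := by field_simp; ring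
          _ ≤ 40 * G * ((Real.log z)^j/(Real.log z)^3 * (1/(Real.log n)^2)) * (1/(n:ℝ)) := by
              gcongr
              exact hpw n hn
          _ = _ := by field_simp
      · rw [hS0 n (by omega)]
        simp
    refine (sum_le_sum c1).trans ?_
    rw [← sum_filter, ← mul_sum]
    calc _ ≤ 40 * G * (Real.log z)^j / (Real.log z)^3 * (4 / Real.log z) := by
          gcongr
          exact tele z N hz
      _ = _ := by field_simp; ring
  have b3 := abs_sub ((∑ n ∈ range (N+1), a n) * ((Real.log N) ^ j / (N:ℝ) ^ (1 + σ))) (∑ n ∈ range N, (∑ k ∈ range (n+1), a k) * ((Real.log (n+1:ℕ)) ^ j / ((n+1:ℕ):ℝ) ^ (1 + σ) - (Real.log n) ^ j / (n:ℝ) ^ (1 + σ)))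
  calc _ ≤ _ := b3
    _ ≤ G * (Real.log z)^j / (Real.log z)^4 + 160 * G * (Real.log z)^j / (Real.log z)^4 := add_le_add b1 b2
    _ = _ := by ring

open Classical in
theorem rough_gt {z n : ℕ} (h : Rgh z n) (h1 : 1 < n) : z < n := by
  by_contra hc
  exact h n.minFac (Nat.minFac_prime (by omega)) ((Nat.minFac_le (by omega)).trans (by omega)) (Nat.minFac_dvd n)

open Classical in
theorem sum_ind (z q b N : ℕ) (hz : 32 ≤ z) : 
    ∑ n ∈ range (N+1), (if Rgh z n ∧ n ≡ b [MOD q] ∧ 1 < n then (1:ℝ) else 0) = 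
      rc z q b N - (if 1 ≡ b [MOD q] ∧ 1 ≤ N then 1 else 0) := by
  unfold rc
  have e0 : ¬ Rgh z 0 := fun h => h 2 Nat.prime_two (by omega) (by simp)
  have e1 : Rgh z 1 := fun p hp _ hd => hp.one_lt.ne' (Nat.dvd_one.1 hd)
  induction N with
  | zero => simp
  | succ N ih =>
    rw [sum_range_succ, ih]
    have : Icc 1 (N+1) = insert (N+1) (Icc 1 N) := by
      ext x; simp only [mem_Icc, mem_insert]; omega
    rw [this, filter_insert]
    rcases Nat.eq_zero_or_pos N with rfl | hN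
    · by_cases hb : 1 ≡ b [MOD q]
      · simp [hb, e1]
      · simp [hb]
    · have hN1 : 1 ≤ N := hN
      have hN2 : 1 ≤ N + 1 := by omega
      have hN3 : 1 < N + 1 := by omega
      by_cases hr : Rgh z (N+1) ∧ (N+1) ≡ b [MOD q]
      · have e3 : (if Rgh z (N+1) ∧ (N+1) ≡ b [MOD q] ∧ 1 < N + 1 then (1:ℝ) else 0) = 1 := if_pos ⟨hr.1, hr.2, hN3⟩
        rw [e3, if_pos hr, card_insert_of_notMem (by simp)]
        simp only [hN1, hN2, and_true]
        push_cast
        ring
      · have e3 : (if Rgh z (N+1) ∧ (N+1) ≡ b [MOD q] ∧ 1 < N + 1 then (1:ℝ) else 0) = 0 := if_neg (fun h => hr ⟨h.1, h.2.1⟩)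
        rw [e3, if_neg hr]
        simp only [hN1, hN2, and_true]
        ring

/-- the absorbed `+1` -/
theorem absorb (c₁ : ℝ) (hc : 0 < c₁) (z q N : ℕ) (hz : 32 ≤ z) (hq : 1 ≤ q) (hqz : q ^ 8 ≤ z) (hN : z ≤ N)
    (hV : c₁ ≤ V z * Real.log z) :
    1 ≤ 8 ^ 5 / c₁ * ((N * V z / q.totient) * (Real.log z / Real.log N) ^ 5) := by
  have hlz := (log_succ z hz).1
  have hlN := (log_succ N (by omega)).1
  have hN0 : (1:ℝ) ≤ N := by exact_mod_cast (by omega : 1 ≤ N)
  set y : ℝ := (N:ℝ) ^ (1/8:ℝ) with hy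
  have hy1 : 1 ≤ y := Real.one_le_rpow hN0 (by norm_num)
  have hy8 : y ^ 8 = N := by
    rw [hy, ← Real.rpow_natCast, ← Real.rpow_mul (by linarith)]
    norm_num
  have hqy : (q:ℝ) ≤ y := by
    have : (q:ℝ)^8 ≤ y^8 := by rw [hy8]; exact_mod_cast hqz.trans hN
    exact le_of_pow_le_pow_left₀ (by norm_num) (by linarith) this
  have hphi : (q.totient : ℝ) ≤ y := le_trans (by exact_mod_cast Nat.totient_le q) hqy
  have hphi0 : 0 < (q.totient : ℝ) := by exact_mod_cast Nat.totient_pos.2 hq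
  have hlog : Real.log N ≤ 8 * y := by
    rw [← hy8, Real.log_pow]
    have := Real.log_le_sub_one_of_pos (x := y) (by linarith)
    push_cast
    linarith
  have hVz : c₁ / Real.log z ≤ V z := by rw [div_le_iff₀ (by linarith)]; exact hV
  have hVz0 : 0 ≤ V z := (Pool.Agent.H318R2.Cr.V_pos z).le
  calc (1:ℝ) ≤ y ^ 2 := by nlinarith
    _ = y ^ 8 / (y * y ^ 5) := by field_simp
    _ = 8 ^ 5 / c₁ * (N * (c₁ / 1) / y * (1 / (8 * y)) ^ 5) := by
        rw [← hy8]; field_simp
    _ ≤ 8 ^ 5 / c₁ * (N * (c₁ / 1) / y * (1 / (8 * y)) ^ 5) * Real.log z ^ 4 := by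
        apply le_mul_of_one_le_right (by positivity)
        exact one_le_pow₀ (by linarith)
    _ = 8 ^ 5 / c₁ * ((N * (c₁ / Real.log z) / y) * (Real.log z / (8 * y)) ^ 5) := by
        field_simp
    _ ≤ 8 ^ 5 / c₁ * ((N * V z / q.totient) * (Real.log z / Real.log N) ^ 5) := by
        gcongr

end DIFF

open DIFF in
open Classical in
theorem diff (h : St_FL) (hs : St_SUM) : St_DIFF := by
  obtain ⟨C, hC, hFL⟩ := h
  obtain ⟨c₁, c₂, hc₁, hc₁₂, hcz⟩ := Pool.Agent.H318R2.Cr.cz_bounds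
  have hc₂ : 0 < c₂ := lt_of_lt_of_le hc₁ hc₁₂
  refine ⟨161 * ((2 * C + 8 ^ 5 / c₁) * c₂), by positivity, ?_⟩
  intro z q b b' j σ hz hq hqz hb hb' hj h0 h1
  have hlz := (log_succ z hz).1
  have hphi0 : 0 < (q.totient : ℝ) := by exact_mod_cast Nat.totient_pos.2 hq
  have hV0 := Pool.Agent.H318R2.Cr.V_pos z
  obtain ⟨hV1, hV2⟩ := hcz z (by omega)
  set G : ℝ := (2 * C + 8 ^ 5 / c₁) * (V z / q.totient) * (Real.log z)^5 with hG
  have hG0 : 0 ≤ G := by positivity
  set a : ℕ → ℝ := fun n => (if Rgh z n ∧ n ≡ b [MOD q] ∧ 1 < n then (1:ℝ) else 0) -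
    (if Rgh z n ∧ n ≡ b' [MOD q] ∧ 1 < n then (1:ℝ) else 0) with ha
  have hSe : ∀ N, ∑ n ∈ range (N+1), a n = (rc z q b N - (if 1 ≡ b [MOD q] ∧ 1 ≤ N then 1 else 0)) -
      (rc z q b' N - (if 1 ≡ b' [MOD q] ∧ 1 ≤ N then 1 else 0)) := by
    intro N
    rw [ha]
    simp only [sum_sub_distrib]
    rw [sum_ind z q b N hz, sum_ind z q b' N hz]
  have hS0 : ∀ n < z, ∑ k ∈ range (n+1), a k = 0 := by
    intro n hn
    apply sum_eq_zero
    intro k hk
    rw [mem_range] at hk
    rw [ha]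
    simp only
    rw [if_neg, if_neg, sub_zero]
    · rintro ⟨h1, _, h2⟩; have := rough_gt h1 h2; omega
    · rintro ⟨h1, _, h2⟩; have := rough_gt h1 h2; omega
  have hS : ∀ n, z ≤ n → |∑ k ∈ range (n+1), a k| ≤ G * n / (Real.log n)^5 := by
    intro N hN
    rw [hSe]
    have f1 := hFL z q b N hz hq hqz hb hN
    have f2 := hFL z q b' N hz hq hqz hb' hN
    have f3 := absorb c₁ hc₁ z q N hz hq hqz hN hV1
    have f4 : |(if 1 ≡ b [MOD q] ∧ 1 ≤ N then (1:ℝ) else 0) - (if 1 ≡ b' [MOD q] ∧ 1 ≤ N then 1 else 0)| ≤ 1 := by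
      split_ifs <;> simp
    have hlN := (log_succ N (by omega)).1
    have e : G * N / (Real.log N)^5 = C * (N * V z / q.totient) * (Real.log z / Real.log N) ^ 5 + C * (N * V z / q.totient) * (Real.log z / Real.log N) ^ 5
        + 8 ^ 5 / c₁ * ((N * V z / q.totient) * (Real.log z / Real.log N) ^ 5) := by
      rw [hG, div_pow]; ring
    rw [e]
    rw [abs_le] at f1 f2 f4 ⊢
    constructor
    · linarith [f1.1, f1.2, f2.1, f2.2, f4.1, f4.2]
    · linarith [f1.1, f1.2, f2.1, f2.2, f4.1, f4.2]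
  have key := gen a z j σ G hz hj h0 h1 hG0 hS0 hS
  have hsum1 := (hs z q b j σ h0).1
  have hsum2 := (hs z q b' j σ h0).1
  have hsub : ∀ n, aj z q b j σ n - aj z q b' j σ n = a n * ((Real.log n) ^ j / (n:ℝ) ^ (1 + σ)) := by
    intro n
    rw [ha]
    unfold aj
    simp only
    split_ifs <;> simp
  have hsumm := hsum1.sub hsum2
  have hA : Aj z q b j σ - Aj z q b' j σ = ∑' n, (aj z q b j σ n - aj z q b' j σ n) := by
    unfold Aj
    rw [hsum1.tsum_sub hsum2]
  rw [hA]
  have ht := hsumm.hasSum.tendsto_sum_nat.abs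
  have hfin : 161 * G * (Real.log z)^j / (Real.log z)^4 ≤ 161 * ((2 * C + 8 ^ 5 / c₁) * c₂) * (Real.log z) ^ j / q.totient := by
    calc 161 * G * (Real.log z)^j / (Real.log z)^4 = 161 * ((2 * C + 8 ^ 5 / c₁) * (V z * Real.log z)) * (Real.log z) ^ j / q.totient := by
          rw [hG]; field_simp
      _ ≤ _ := by gcongr
  refine le_trans (le_of_tendsto ht (Filter.Eventually.of_forall fun N => ?_)) hfin
  have : ∑ n ∈ range N, (aj z q b j σ n - aj z q b' j σ n) = ∑ n ∈ range N, a n * ((Real.log n) ^ j / (n:ℝ) ^ (1 + σ)) :=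
    sum_congr rfl fun n _ => hsub n
  rw [this]
  exact key N

end Pool.Agent.H262R3.Lk
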