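import Mathlib
import Pool.Agent.H262R3.Lk.Defs
import Pool.Agent.H262R3.Lk.Stubs

/-! Task EUL (helper640): consequences of the Euler product. -/

open Finset

namespace Pool.Agent.H262R3.Lk

open Pool.Agent.H318R2.Cr (Rgh V)

namespace EUL

open DirichletCharacter Filter Topology

theorem rgh_iff {z q : ℕ} (hq : 0 < q) (hqz : q ≤ z) (n : ℕ) :
    Rgh z n ↔ n.Coprime (q * primorial z) := by
  constructor
  · intro h
    rw [Nat.coprime_iff_gcd_eq_one] at *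
    by_contra hne
    obtain ⟨p, hp, hpd⟩ := Nat.exists_prime_and_dvd hne
    have h1 : p ∣ n := hpd.trans (Nat.gcd_dvd_left _ _)
    have h2 : p ∣ q * primorial z := hpd.trans (Nat.gcd_dvd_right _ _)
    have hpz : p ≤ z := by
      rcases (hp.dvd_mul).1 h2 with h3 | h3
      · exact (Nat.le_of_dvd hq h3).trans hqz
      · rw [primorial] at h3
        obtain ⟨r, hr, hpr⟩ := (hp.prime.dvd_finsetProd_iff _).1 h3
        rw [Finset.mem_filter, Finset.mem_range] at hr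
        rw [(Nat.prime_dvd_prime_iff_eq hp hr.2).1 hpr]
        omega
    exact h p hp hpz h1
  · intro h p hp hpz hpn
    have h1 : p ∣ primorial z := by
      rw [primorial]
      exact Finset.dvd_prod_of_mem _ (by
        rw [Finset.mem_filter, Finset.mem_range]
        exact ⟨by omega, hp⟩)
    have h2 := Nat.dvd_gcd hpn (h1.mul_left q)
    rw [h] at h2
    exact hp.one_lt.ne' (Nat.dvd_one.1 h2)

noncomputable def ext {q : ℕ} (z : ℕ) (χ : DirichletCharacter ℂ q) :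
    DirichletCharacter ℂ (q * primorial z) :=
  changeLevel (Dvd.intro _ rfl) χ

theorem fz_eq {z q : ℕ} (hq : 0 < q) (hqz : q ≤ z) (χ : DirichletCharacter ℂ q) (n : ℕ) :
    fz z χ n = ext z χ (n : ZMod (q * primorial z)) := by
  unfold fz
  split_ifs with h
  · have hc := (rgh_iff hq hqz n).1 h
    have := changeLevel_eq_cast_of_dvd' χ (Dvd.intro _ rfl : q ∣ q * primorial z) (a := (n : ℤ))
      (Nat.isCoprime_iff_coprime.2 hc)
    rw [ext]
    simpa using this.symm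
  · symm
    apply MulChar.map_nonunit
    rw [ZMod.isUnit_iff_coprime]
    exact fun hc => h ((rgh_iff hq hqz n).2 hc)

theorem Lj_eq {z q : ℕ} (hq : 0 < q) (hqz : q ≤ z) (hz : 32 ≤ z) (χ : DirichletCharacter ℂ q)
    (σ : ℝ) :
    Lj z χ 0 σ = LSeries (fun n : ℕ => ext z χ (n : ZMod (q * primorial z))) (1 + σ) := by
  unfold Lj LSeries
  apply tsum_congr
  intro n
  unfold LSeries.term
  split_ifs with h
  · subst h
    have : ¬ Rgh z 0 := fun h => h 2 Nat.prime_two (by omega) (dvd_zero 2)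
    simp [fz, this]
  · rw [fz_eq hq hqz]
    push_cast
    rw [Complex.ofReal_cpow (by positivity)]
    push_cast
    ring

theorem ext_one (z q : ℕ) : ext z (1 : DirichletCharacter ℂ q) = 1 := by
  rw [ext, map_one]

/-- norm of one Euler factor -/
noncomputable def fac {N : ℕ} (χ : DirichletCharacter ℂ N) (σ : ℝ) (p : ℕ) : ℝ :=
  ‖(1 - χ (p : ZMod N) * (p : ℂ) ^ (-(1 + σ : ℂ)))⁻¹‖

theorem tendsto_fac {N : ℕ} (χ : DirichletCharacter ℂ N) {σ : ℝ} (hσ : 0 < σ) :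
    Tendsto (fun n : ℕ => ∏ p ∈ Nat.primesBelow n, fac χ σ p) atTop
      (𝓝 ‖LSeries (fun n : ℕ => χ (n : ZMod N)) (1 + σ)‖) := by
  have h := (DirichletCharacter.LSeries_eulerProduct χ (s := 1 + σ) (by simp [hσ])).norm
  simpa only [norm_prod, fac] using h

theorem pow_real {p : ℕ} (hp : p.Prime) {σ : ℝ} (hσ : 0 < σ) :
    ∃ x : ℝ, 0 < x ∧ x < 1 ∧ (p : ℂ) ^ (-(1 + σ : ℂ)) = (x : ℂ) := by
  refine ⟨(p : ℝ) ^ (-(1 + σ)), Real.rpow_pos_of_pos (by exact_mod_cast hp.pos) _,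
    Real.rpow_lt_one_of_one_lt_of_neg (by exact_mod_cast hp.one_lt) (by linarith), ?_⟩
  rw [Complex.ofReal_cpow (by positivity)]
  push_cast
  rfl

theorem fac_of_zero {N : ℕ} (χ : DirichletCharacter ℂ N) (σ : ℝ) (p : ℕ)
    (h : χ (p : ZMod N) = 0) : fac χ σ p = 1 := by
  simp [fac, h]

theorem fac_of_one {N : ℕ} (χ : DirichletCharacter ℂ N) (σ : ℝ) (p : ℕ) {x : ℝ} (hx1 : x < 1)
    (hx : (p : ℂ) ^ (-(1 + σ : ℂ)) = (x : ℂ)) (h : χ (p : ZMod N) = 1) :
    fac χ σ p = (1 - x)⁻¹ := by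
  rw [fac, h, hx, one_mul, norm_inv]
  congr 1
  rw [← Complex.ofReal_one, ← Complex.ofReal_sub, Complex.norm_real, Real.norm_eq_abs,
    abs_of_pos (by linarith)]

theorem fac_of_neg {N : ℕ} (χ : DirichletCharacter ℂ N) (σ : ℝ) (p : ℕ) {x : ℝ} (hx0 : 0 < x)
    (hx : (p : ℂ) ^ (-(1 + σ : ℂ)) = (x : ℂ)) (h : χ (p : ZMod N) = -1) :
    fac χ σ p = (1 + x)⁻¹ := by
  rw [fac, h, hx, norm_inv]
  congr 1
  rw [neg_one_mul, sub_neg_eq_add, ← Complex.ofReal_one, ← Complex.ofReal_add, Complex.norm_real,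
    Real.norm_eq_abs, abs_of_pos (by linarith)]

theorem two {x : ℝ} (h0 : 0 < x) (h1 : x < 1) : 1 ≤ (1 - x)⁻¹ ∧ 1 ≤ (1 - x)⁻¹ * (1 + x)⁻¹ := by
  constructor
  · exact (one_le_inv₀ (by linarith)).2 (by linarith)
  · rw [← mul_inv]
    exact (one_le_inv₀ (by nlinarith)).2 (by nlinarith)

/-- a real character takes the values `0, 1, -1` -/
theorem vals {N : ℕ} (χ : DirichletCharacter ℂ N) (h : χ ^ 2 = 1) {a : ZMod N} (ha : IsUnit a) :
    χ a = 1 ∨ χ a = -1 := by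
  have h1 : (χ ^ 2) a = 1 := by rw [h]; exact MulChar.one_apply ha
  rw [MulChar.pow_apply' _ two_ne_zero] at h1
  have h2 : (χ a - 1) * (χ a + 1) = 0 := by linear_combination h1
  rcases mul_eq_zero.1 h2 with h3 | h3
  · left; linear_combination h3
  · right; linear_combination h3

theorem prod_ge {N : ℕ} (χ : DirichletCharacter ℂ N) (h : χ ^ 2 = 1) {σ : ℝ} (hσ : 0 < σ) :
    1 ≤ ‖LSeries (fun n : ℕ => (1 : DirichletCharacter ℂ N) (n : ZMod N)) (1 + σ)‖ *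
      ‖LSeries (fun n : ℕ => χ (n : ZMod N)) (1 + σ)‖ := by
  refine ge_of_tendsto' ((tendsto_fac 1 hσ).mul (tendsto_fac χ hσ)) (fun n => ?_)
  rw [← Finset.prod_mul_distrib]
  have key : ∀ p ∈ Nat.primesBelow n, 1 ≤ fac (1 : DirichletCharacter ℂ N) σ p * fac χ σ p := by
    intro p hp
    have hpp : p.Prime := (Nat.mem_primesBelow.1 hp).2
    obtain ⟨x, h0, h1, hx⟩ := pow_real hpp hσ
    by_cases hu : IsUnit (p : ZMod N)
    · rw [fac_of_one _ σ p h1 hx (MulChar.one_apply hu)]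
      rcases vals χ h hu with h2 | h2
      · rw [fac_of_one _ σ p h1 hx h2]
        exact one_le_mul_of_one_le_of_one_le (two h0 h1).1 (two h0 h1).1
      · rw [fac_of_neg _ σ p h0 hx h2]
        exact (two h0 h1).2
    · rw [fac_of_zero _ σ p (MulChar.map_nonunit _ hu), fac_of_zero _ σ p (MulChar.map_nonunit _ hu)]
      norm_num
  calc (1 : ℝ) = ∏ p ∈ Nat.primesBelow n, 1 := by simp
    _ ≤ _ := Finset.prod_le_prod (fun _ _ => zero_le_one) key

theorem prod_ge4 {N : ℕ} (χ ψ : DirichletCharacter ℂ N) (h : χ ^ 2 = 1) (h' : ψ ^ 2 = 1) {σ : ℝ}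
    (hσ : 0 < σ) :
    1 ≤ ‖LSeries (fun n : ℕ => (1 : DirichletCharacter ℂ N) (n : ZMod N)) (1 + σ)‖ *
      ‖LSeries (fun n : ℕ => χ (n : ZMod N)) (1 + σ)‖ *
      ‖LSeries (fun n : ℕ => ψ (n : ZMod N)) (1 + σ)‖ *
      ‖LSeries (fun n : ℕ => (χ * ψ) (n : ZMod N)) (1 + σ)‖ := by
  refine ge_of_tendsto' ((((tendsto_fac 1 hσ).mul (tendsto_fac χ hσ)).mul (tendsto_fac ψ hσ)).mul
    (tendsto_fac (χ * ψ) hσ)) (fun n => ?_)
  rw [← Finset.prod_mul_distrib, ← Finset.prod_mul_distrib, ← Finset.prod_mul_distrib]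
  have key : ∀ p ∈ Nat.primesBelow n, 1 ≤ fac (1 : DirichletCharacter ℂ N) σ p * fac χ σ p *
      fac ψ σ p * fac (χ * ψ) σ p := by
    intro p hp
    have hpp : p.Prime := (Nat.mem_primesBelow.1 hp).2
    obtain ⟨x, h0, h1, hx⟩ := pow_real hpp hσ
    by_cases hu : IsUnit (p : ZMod N)
    · rw [fac_of_one _ σ p h1 hx (MulChar.one_apply hu)]
      have ha := (two h0 h1).1
      have hb := (two h0 h1).2
      have hab := one_le_mul_of_one_le_of_one_le ha ha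
      have hbb := one_le_mul_of_one_le_of_one_le hb hb
      rcases vals χ h hu with h2 | h2 <;> rcases vals ψ h' hu with h3 | h3
      · rw [fac_of_one _ σ p h1 hx h2, fac_of_one _ σ p h1 hx h3,
          fac_of_one (χ * ψ) σ p h1 hx (by rw [MulChar.mul_apply, h2, h3]; ring)]
        calc (1 : ℝ) ≤ ((1 - x)⁻¹ * (1 - x)⁻¹) * ((1 - x)⁻¹ * (1 - x)⁻¹) :=
              one_le_mul_of_one_le_of_one_le hab hab
          _ = _ := by ring
      · rw [fac_of_one _ σ p h1 hx h2, fac_of_neg _ σ p h0 hx h3,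
          fac_of_neg (χ * ψ) σ p h0 hx (by rw [MulChar.mul_apply, h2, h3]; ring)]
        calc (1 : ℝ) ≤ ((1 - x)⁻¹ * (1 + x)⁻¹) * ((1 - x)⁻¹ * (1 + x)⁻¹) := hbb
          _ = _ := by ring
      · rw [fac_of_neg _ σ p h0 hx h2, fac_of_one _ σ p h1 hx h3,
          fac_of_neg (χ * ψ) σ p h0 hx (by rw [MulChar.mul_apply, h2, h3]; ring)]
        calc (1 : ℝ) ≤ ((1 - x)⁻¹ * (1 + x)⁻¹) * ((1 - x)⁻¹ * (1 + x)⁻¹) := hbb
          _ = _ := by ring
      · rw [fac_of_neg _ σ p h0 hx h2, fac_of_neg _ σ p h0 hx h3,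
          fac_of_one (χ * ψ) σ p h1 hx (by rw [MulChar.mul_apply, h2, h3]; ring)]
        calc (1 : ℝ) ≤ ((1 - x)⁻¹ * (1 + x)⁻¹) * ((1 - x)⁻¹ * (1 + x)⁻¹) := hbb
          _ = _ := by ring
    · rw [fac_of_zero _ σ p (MulChar.map_nonunit _ hu), fac_of_zero _ σ p (MulChar.map_nonunit _ hu),
        fac_of_zero _ σ p (MulChar.map_nonunit _ hu), fac_of_zero _ σ p (MulChar.map_nonunit _ hu)]
      norm_num
  calc (1 : ℝ) = ∏ p ∈ Nat.primesBelow n, 1 := by simp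
    _ ≤ _ := Finset.prod_le_prod (fun _ _ => zero_le_one) key

end EUL

theorem eul : St_EUL := by
  intro z q χ ψ σ hz hq hqz hσ
  rw [EUL.Lj_eq hq hqz hz, EUL.Lj_eq hq hqz hz, EUL.Lj_eq hq hqz hz, EUL.Lj_eq hq hqz hz,
    EUL.Lj_eq hq hqz hz, EUL.ext_one]
  refine ⟨?_, fun h => ?_, fun h h' => ?_⟩
  · have h := DirichletCharacter.norm_LSeries_product_ge_one (EUL.ext z χ) hσ 0
    rw [norm_mul, norm_mul, norm_pow, norm_pow] at h
    have h2 : EUL.ext z (χ ^ 2) = (EUL.ext z χ) ^ 2 := by rw [EUL.ext, EUL.ext, map_pow]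
    rw [h2]
    simpa using h
  · have h2 : (EUL.ext z χ) ^ 2 = 1 := by rw [EUL.ext, ← map_pow, h, map_one]
    exact EUL.prod_ge _ h2 hσ
  · have h2 : (EUL.ext z χ) ^ 2 = 1 := by rw [EUL.ext, ← map_pow, h, map_one]
    have h3 : (EUL.ext z ψ) ^ 2 = 1 := by rw [EUL.ext, ← map_pow, h', map_one]
    have h4 : EUL.ext z (χ * ψ) = EUL.ext z χ * EUL.ext z ψ := by
      rw [EUL.ext, EUL.ext, EUL.ext, map_mul]
    rw [h4]
    exact EUL.prod_ge4 _ _ h2 h3 hσ

end Pool.Agent.H262R3.Lk
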