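import Mathlib
import Pool.Agent.H262R3.Lk.Stubs
import Pool.Agent.H318R2.Cr.FL3

/-! FL: the fundamental lemma in progressions with relative error `(log z / log N)^5`. -/

set_option autoImplicit false

open Finset

namespace Pool.Agent.H262R3.Lk

open Pool.Agent.H318R2.Cr BoundingSieve Pool.Agent.Helper923.PPS

namespace FL

/-- `(log N)^5 ≤ 10^5 N^(1/2)` -/
theorem log_pow5 {x : ℝ} (hx : 1 ≤ x) : Real.log x ^ 5 ≤ 100000 * x ^ ((1 : ℝ) / 2) := by
  have hx0 : 0 ≤ x := by linarith
  have h4 : Real.log x ≤ 10 * x ^ ((1 : ℝ) / 10) := by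
    have := Real.log_le_rpow_div hx0 (show (0 : ℝ) < 1 / 10 by norm_num)
    linarith
  calc Real.log x ^ 5 ≤ (10 * x ^ ((1 : ℝ) / 10)) ^ 5 :=
        pow_le_pow_left₀ (Real.log_nonneg hx) h4 5
    _ = 100000 * x ^ ((1 : ℝ) / 2) := by
        rw [mul_pow, ← Real.rpow_natCast (x ^ ((1 : ℝ) / 10)), ← Real.rpow_mul hx0]
        norm_num

theorem FL_upper5 : ∃ C U : ℝ, 0 ≤ C ∧ 1 ≤ U ∧ ∀ a q N z : ℕ, 0 < q → 2 ≤ z → 1 ≤ N →
    U * Real.log z ≤ Real.log N →
    (apSieve a q N z).siftedSum ≤ N * Vq q z * (1 + C * (Real.log z / Real.log N) ^ 5) := by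
  obtain ⟨K, hK, hsel⟩ := selS_lower
  obtain ⟨c₁, c₂, hc1, hc12, hcz⟩ := cz_bounds
  have hl2 : 0 < Real.log 2 := Real.log_pos (by norm_num)
  refine ⟨2 * (K * 3932160) + 100000 / (c₁ * Real.log 2 ^ 4), max 1 (8 * Real.log (2 * K)),
    by positivity, le_max_left _ _, ?_⟩
  intro a q N z hq hz hN hU
  have hz2 : (2 : ℝ) ≤ z := by exact_mod_cast hz
  have hlz : Real.log 2 ≤ Real.log z := Real.log_le_log (by norm_num) hz2
  have hlz0 : 0 < Real.log z := by linarith
  have hN1 : (1 : ℝ) ≤ N := by exact_mod_cast hN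
  have hN0 : (0 : ℝ) < N := by linarith
  have hUz : Real.log z ≤ Real.log N := by
    have h1 : 1 * Real.log z ≤ max 1 (8 * Real.log (2 * K)) * Real.log z :=
      mul_le_mul_of_nonneg_right (le_max_left _ _) hlz0.le
    linarith
  have hlN : 0 < Real.log N := by linarith
  set R : ℝ := (N : ℝ) ^ ((1 : ℝ) / 8) with hR
  have hR1 : 1 ≤ R := Real.one_le_rpow hN1 (by norm_num)
  have hlogR : Real.log R = Real.log N / 8 := by
    rw [hR, Real.log_rpow hN0]; ring
  have hV := Vq_pos q z
  have hsieve := siftedSum_le_selberg (apSieve a q N z) R hR1 1 zero_le_one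
    (fun d hd => apSieve_rem hq hd)
  have herr := err_sum (a := a) (q := q) (N := N) (z := z) hR1
  have hR4 : R ^ 4 = (N : ℝ) ^ ((1 : ℝ) / 2) := by
    rw [hR, ← Real.rpow_natCast, ← Real.rpow_mul hN0.le]; norm_num
  have hS := hsel a q N z R hz hR1
  set y := Real.log R / Real.log z with hy
  have hy0 : 0 < y := by
    rw [hy, hlogR]; positivity
  set x := K * Real.exp (-y) with hx
  have hx0 : 0 < x := by positivity
  have hyU : Real.log (2 * K) ≤ y := by
    rw [hy, hlogR, le_div_iff₀ hlz0]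
    have h1 : 8 * Real.log (2 * K) * Real.log z ≤ max 1 (8 * Real.log (2 * K)) * Real.log z :=
      mul_le_mul_of_nonneg_right (le_max_right _ _) hlz0.le
    linarith
  have hx12 : x ≤ 1 / 2 := by
    have h1 : Real.exp (-y) ≤ Real.exp (-(Real.log (2 * K))) := Real.exp_le_exp.2 (by linarith)
    rw [Real.exp_neg (Real.log (2 * K)), Real.exp_log (by positivity)] at h1
    calc x ≤ K * (2 * K)⁻¹ := mul_le_mul_of_nonneg_left h1 hK.le
      _ = 1 / 2 := by field_simp
  have hxy : x ≤ K * (3932160 * (Real.log z / Real.log N) ^ 5) := by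
    apply mul_le_mul_of_nonneg_left _ hK.le
    have h1 := Real.pow_div_factorial_le_exp y hy0.le 5
    have h1' : ((Nat.factorial 5 : ℕ) : ℝ) = 120 := by norm_num [Nat.factorial]
    rw [h1'] at h1
    rw [Real.exp_neg]
    have h3 : (Real.exp y)⁻¹ ≤ (y ^ 5 / 120)⁻¹ := inv_anti₀ (by positivity) h1
    refine h3.trans (le_of_eq ?_)
    rw [hy, hlogR]
    field_simp
    norm_num
  have hSpos : 0 < (Vq q z)⁻¹ * (1 - x) := by
    have : 0 < 1 - x := by linarith
    positivity
  have h1 : (apSieve a q N z).totalMass / selS (apSieve a q N z) R ≤ N * Vq q z * (1 + 2 * x) := by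
    change (N : ℝ) / _ ≤ _
    calc (N : ℝ) / selS (apSieve a q N z) R ≤ N / ((Vq q z)⁻¹ * (1 - x)) :=
          div_le_div_of_nonneg_left hN0.le hSpos hS
      _ = N * Vq q z * (1 / (1 - x)) := by
          have : 1 - x ≠ 0 := by linarith
          field_simp
      _ ≤ N * Vq q z * (1 + 2 * x) := by
          apply mul_le_mul_of_nonneg_left _ (by positivity)
          rw [div_le_iff₀ (by linarith)]
          nlinarith
  have h2 : (N : ℝ) ^ ((1 : ℝ) / 2) ≤
      N * Vq q z * (100000 / (c₁ * Real.log 2 ^ 4) * (Real.log z / Real.log N) ^ 5) := by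
    have h3 : c₁ / Real.log z ≤ Vq q z := by
      refine le_trans ?_ (V_le_Vq q z)
      rw [div_le_iff₀ hlz0]
      exact (hcz z hz).1
    have h5 := log_pow5 hN1
    have h6 : (N : ℝ) ^ ((1 : ℝ) / 2) * (N : ℝ) ^ ((1 : ℝ) / 2) = N := by
      rw [← Real.rpow_add hN0]; norm_num
    have h7 : 0 < (N : ℝ) ^ ((1 : ℝ) / 2) := by positivity
    calc (N : ℝ) ^ ((1 : ℝ) / 2) ≤ N * (c₁ / Real.log z) *
          (100000 / (c₁ * Real.log 2 ^ 4) * (Real.log z / Real.log N) ^ 5) := by
          have e : (N : ℝ) * (c₁ / Real.log z) *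
            (100000 / (c₁ * Real.log 2 ^ 4) * (Real.log z / Real.log N) ^ 5)
            = N * 100000 * (Real.log z / Real.log 2) ^ 4 / Real.log N ^ 5 := by
            field_simp
          rw [e, le_div_iff₀ (by positivity)]
          have h8 : 1 ≤ (Real.log z / Real.log 2) ^ 4 := by
            apply one_le_pow₀
            rw [one_le_div hl2]; exact hlz
          calc (N : ℝ) ^ ((1 : ℝ) / 2) * Real.log N ^ 5 ≤
                (N : ℝ) ^ ((1 : ℝ) / 2) * (100000 * (N : ℝ) ^ ((1 : ℝ) / 2)) :=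
                mul_le_mul_of_nonneg_left h5 h7.le
            _ = N * 100000 * 1 := by linear_combination 100000 * h6
            _ ≤ N * 100000 * (Real.log z / Real.log 2) ^ 4 :=
                mul_le_mul_of_nonneg_left h8 (by positivity)
      _ ≤ _ := by
          apply mul_le_mul_of_nonneg_right _ (by positivity)
          exact mul_le_mul_of_nonneg_left h3 hN0.le
  have h9 : N * Vq q z * (1 + 2 * x) ≤
      N * Vq q z * (1 + 2 * (K * 3932160) * (Real.log z / Real.log N) ^ 5) := by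
    apply mul_le_mul_of_nonneg_left _ (by positivity)
    linarith
  rw [hR4] at herr
  have e : N * Vq q z * (1 + (2 * (K * 3932160) + 100000 / (c₁ * Real.log 2 ^ 4)) *
      (Real.log z / Real.log N) ^ 5) =
    N * Vq q z * (1 + 2 * (K * 3932160) * (Real.log z / Real.log N) ^ 5) +
      N * Vq q z * (100000 / (c₁ * Real.log 2 ^ 4) * (Real.log z / Real.log N) ^ 5) := by ring
  rw [e]
  linarith

open Classical in
/-- number of `k < K` with `a + k q` free of primes `≤ z` -/
noncomputable def cn (z a q K : ℕ) : ℕ := ((range K).filter (fun k => Rgh z (a + k * q))).card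

theorem cn_le (z a q K : ℕ) : cn z a q K ≤ K := by
  classical
  unfold cn
  exact (card_filter_le _ _).trans (by rw [card_range])

theorem cn_anti {z' z a q K : ℕ} (h : z' ≤ z) : cn z a q K ≤ cn z' a q K := by
  classical
  unfold cn
  apply card_le_card
  intro k hk
  rw [mem_filter] at hk ⊢
  exact ⟨hk.1, Rgh_mono h hk.2⟩

theorem Vq_insert (q n : ℕ) : Vq q (n + 1) =
    if (n + 1).Prime ∧ ¬ (n + 1) ∣ q then (1 - 1 / ((n + 1 : ℕ) : ℝ)) * Vq q n else Vq q n := by
  classical
  split_ifs with hp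
  · have e : PQ q (n + 1) = insert (n + 1) (PQ q n) := by
      ext p
      rw [mem_insert, mem_PQ, mem_PQ]
      constructor
      · rintro ⟨h1, h2, h3⟩
        by_cases h : p = n + 1
        · left; exact h
        · right; exact ⟨h1, by omega, h3⟩
      · rintro (rfl | ⟨h1, h2, h3⟩)
        · exact ⟨hp.1, le_rfl, hp.2⟩
        · exact ⟨h1, by omega, h3⟩
    unfold Vq
    rw [e, prod_insert]
    rw [mem_PQ]; omega
  · have e : PQ q (n + 1) = PQ q n := by
      ext p
      rw [mem_PQ, mem_PQ]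
      constructor
      · rintro ⟨h1, h2, h3⟩
        have : p ≠ n + 1 := by rintro rfl; exact hp ⟨h1, h3⟩
        exact ⟨h1, by omega, h3⟩
      · rintro ⟨h1, h2, h3⟩; exact ⟨h1, by omega, h3⟩
    unfold Vq; rw [e]

theorem Vq_zero (q : ℕ) : Vq q 0 = 1 := by
  unfold Vq
  apply prod_eq_one
  intro p hp
  rw [mem_PQ] at hp
  have := hp.1.pos
  omega

theorem Vq_one' (q : ℕ) : Vq q 1 = 1 := by
  unfold Vq
  apply prod_eq_one
  intro p hp
  rw [mem_PQ] at hp
  have := hp.1.two_le
  omega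

theorem Vq_le_one (q z : ℕ) : Vq q z ≤ 1 := by
  unfold Vq
  apply prod_le_one
  · intro p hp
    exact (one_sub_inv_pos (mem_PQ.1 hp).1).le
  · intro p _
    have : (0 : ℝ) ≤ 1 / p := by positivity
    linarith

theorem Vq_tele (q z : ℕ) : ∑ p ∈ PQ q z, Vq q (p - 1) / p = 1 - Vq q z := by
  classical
  induction z with
  | zero =>
    rw [Vq_zero]
    have : PQ q 0 = ∅ := by
      ext p
      rw [mem_PQ]
      constructor
      · rintro ⟨h1, h2, _⟩
        have := h1.pos
        omega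
      · intro h; simp at h
    rw [this]; simp
  | succ z ih =>
    rw [Vq_insert]
    split_ifs with hp
    · have e : PQ q (z + 1) = insert (z + 1) (PQ q z) := by
        ext p
        rw [mem_insert, mem_PQ, mem_PQ]
        constructor
        · rintro ⟨h1, h2, h3⟩
          by_cases h : p = z + 1
          · left; exact h
          · right; exact ⟨h1, by omega, h3⟩
        · rintro (rfl | ⟨h1, h2, h3⟩)
          · exact ⟨hp.1, le_rfl, hp.2⟩
          · exact ⟨h1, by omega, h3⟩
      rw [e, sum_insert (by rw [mem_PQ]; omega), ih, Nat.add_sub_cancel]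
      ring
    · have e : PQ q (z + 1) = PQ q z := by
        ext p
        rw [mem_PQ, mem_PQ]
        constructor
        · rintro ⟨h1, h2, h3⟩
          have : p ≠ z + 1 := by rintro rfl; exact hp ⟨h1, h3⟩
          exact ⟨h1, by omega, h3⟩
        · rintro ⟨h1, h2, h3⟩; exact ⟨h1, by omega, h3⟩
      rw [e, ih]

/-- comparison of the sieve products -/
theorem Vq_ratio (q : ℕ) {w z : ℕ} (hwz : w ≤ z) : Vq q w * V z ≤ V w * Vq q z := by
  induction z, hwz using Nat.le_induction with
  | base => exact (mul_comm _ _).le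
  | succ z hz ih =>
    have hV := V_step z
    by_cases hp : (z + 1).Prime
    · rw [if_pos hp] at hV
      have e1 : V (z + 1) = (1 - 1 / ((z + 1 : ℕ) : ℝ)) * V z := by
        have : V (z + 1) = V z - V z / ((z + 1 : ℕ) : ℝ) := by linarith
        rw [this]; ring
      have hpos := one_sub_inv_pos hp
      have h1 : (1 - 1 / ((z + 1 : ℕ) : ℝ)) * Vq q z ≤ Vq q (z + 1) := by
        rw [Vq_insert]
        split_ifs
        · exact le_rfl
        · apply mul_le_of_le_one_left (Vq_pos q z).le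
          have : (0 : ℝ) ≤ 1 / ((z + 1 : ℕ) : ℝ) := by positivity
          linarith
      rw [e1]
      calc Vq q w * ((1 - 1 / ((z + 1 : ℕ) : ℝ)) * V z)
          = (1 - 1 / ((z + 1 : ℕ) : ℝ)) * (Vq q w * V z) := by ring
        _ ≤ (1 - 1 / ((z + 1 : ℕ) : ℝ)) * (V w * Vq q z) := mul_le_mul_of_nonneg_left ih hpos.le
        _ = V w * ((1 - 1 / ((z + 1 : ℕ) : ℝ)) * Vq q z) := by ring
        _ ≤ V w * Vq q (z + 1) := mul_le_mul_of_nonneg_left h1 (V_pos w).le
    · rw [if_neg hp] at hV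
      have e1 : V (z + 1) = V z := by linarith
      have e2 : Vq q (z + 1) = Vq q z := by
        rw [Vq_insert, if_neg (fun h => hp h.1)]
      rw [e1, e2]
      exact ih

theorem Vq_totient {q z : ℕ} (hq : 0 < q) (hz : q ≤ z) : V z * q = Vq q z * q.totient := by
  classical
  have h1 : V z = Vq q z * ∏ p ∈ q.primeFactors, (1 - 1 / (p : ℝ)) := by
    unfold V Vq
    rw [← prod_union]
    · apply prod_congr _ (fun _ _ => rfl)
      ext p
      rw [mem_union, mem_Pz, mem_PQ, Nat.mem_primeFactors]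
      constructor
      · rintro ⟨h1, h2⟩
        by_cases h3 : p ∣ q
        · right; exact ⟨h1, h3, hq.ne'⟩
        · left; exact ⟨h1, h2, h3⟩
      · rintro (⟨h1, h2, _⟩ | ⟨h1, h2, _⟩)
        · exact ⟨h1, h2⟩
        · exact ⟨h1, (Nat.le_of_dvd hq h2).trans hz⟩
    · rw [Finset.disjoint_left]
      intro p h1 h2
      rw [mem_PQ] at h1
      exact h1.2.2 (Nat.dvd_of_mem_primeFactors h2)
  have h2 : ((q.totient : ℕ) : ℝ) = q * ∏ p ∈ q.primeFactors, (1 - 1 / (p : ℝ)) := by
    have h3 := Nat.totient_eq_mul_prod_factors q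
    have h4 : (((q.totient : ℕ) : ℚ) : ℝ) = ((q * ∏ p ∈ q.primeFactors, (1 - (p : ℚ)⁻¹) : ℚ) : ℝ) := by
      rw [h3]
    push_cast at h4
    rw [h4]
    congr 1
    apply prod_congr rfl
    intro p _
    rw [one_div]
  rw [h1, h2]
  ring


theorem exists_root {p q : ℕ} (hp : p.Prime) (hq : ¬ p ∣ q) (a : ℕ) :
    ∃ k0, k0 < p ∧ p ∣ a + k0 * q := by
  have := Fact.mk hp
  have hq' : (q : ZMod p) ≠ 0 := by
    intro h
    exact hq ((ZMod.natCast_eq_zero_iff q p).1 h)
  refine ⟨((-(a : ZMod p)) * (q : ZMod p)⁻¹).val, ZMod.val_lt _, ?_⟩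
  rw [← ZMod.natCast_eq_zero_iff]
  push_cast
  rw [ZMod.natCast_zmod_val, mul_assoc, inv_mul_cancel₀ hq', mul_one, add_neg_cancel]

/-- one prime in Buchstab's identity -/
theorem one_prime {p q : ℕ} (hp : p.Prime) (hq : ¬ p ∣ q) (a K : ℕ) :
    ∃ m J : ℕ, (J : ℝ) ≤ K / p + 1 ∧ (K : ℝ) / p ≤ J + 1 ∧
      ((range K).filter (fun k => (a + k * q).minFac = p)).card ≤ cn (p - 1) m q J := by
  classical
  obtain ⟨k0, hk0, hd0⟩ := exists_root hp hq a
  have hp0 : (0 : ℝ) < p := by exact_mod_cast hp.pos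
  refine ⟨(a + k0 * q) / p, (K - k0 + (p - 1)) / p, ?_, ?_, ?_⟩
  · have h1 : (K - k0 + (p - 1)) / p ≤ (K + (p - 1)) / p := Nat.div_le_div_right (by omega)
    have h2 : (((K + (p - 1)) / p : ℕ) : ℝ) ≤ ((K + (p - 1) : ℕ) : ℝ) / p := Nat.cast_div_le
    have h3 : ((K + (p - 1) : ℕ) : ℝ) ≤ K + p := by
      push_cast
      have : ((p - 1 : ℕ) : ℝ) ≤ p := by exact_mod_cast Nat.sub_le p 1
      linarith
    have h4 : (((K - k0 + (p - 1)) / p : ℕ) : ℝ) ≤ (((K + (p - 1)) / p : ℕ) : ℝ) := by
      exact_mod_cast h1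
    calc _ ≤ ((K + (p - 1) : ℕ) : ℝ) / p := h4.trans h2
      _ ≤ (K + p) / p := div_le_div_of_nonneg_right h3 hp0.le
      _ = K / p + 1 := by field_simp
  · rw [div_le_iff₀ hp0]
    have h5 := Nat.div_add_mod (K - k0 + (p - 1)) p
    have h6 := Nat.mod_lt (K - k0 + (p - 1)) hp.pos
    have h7 : K ≤ ((K - k0 + (p - 1)) / p + 1) * p := by
      have h8 : ((K - k0 + (p - 1)) / p + 1) * p = p * ((K - k0 + (p - 1)) / p) + p := by ring
      have h9 := hp.two_le
      omega
    exact_mod_cast h7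
  · unfold cn
    have key : ∀ k ∈ (range K).filter (fun k => (a + k * q).minFac = p),
        k = k0 + p * (k / p) ∧ k / p < (K - k0 + (p - 1)) / p ∧
        a + k * q = p * ((a + k0 * q) / p + k / p * q) := by
      intro k hk
      rw [mem_filter, mem_range] at hk
      have hd : p ∣ a + k * q := by
        have := Nat.minFac_dvd (a + k * q)
        rwa [hk.2] at this
      have hmod : k ≡ k0 [MOD p] := by
        have h1 : a + k * q ≡ a + k0 * q [MOD p] :=
          ((Nat.modEq_zero_iff_dvd).2 hd).trans ((Nat.modEq_zero_iff_dvd).2 hd0).symm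
        have h2 := Nat.ModEq.add_left_cancel' a h1
        exact Nat.ModEq.cancel_right_of_coprime ((Nat.Prime.coprime_iff_not_dvd hp).2 hq) h2
      have hkp : k % p = k0 := by
        have : k % p = k0 % p := hmod
        rw [this, Nat.mod_eq_of_lt hk0]
      have h3 : k = k0 + p * (k / p) := by
        have := Nat.mod_add_div k p
        rw [hkp] at this
        exact this.symm
      refine ⟨h3, ?_, ?_⟩
      · rw [Nat.lt_iff_add_one_le, Nat.le_div_iff_mul_le hp.pos]
        have h4 : (k / p + 1) * p = p * (k / p) + p := by ring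
        have h5 := hp.two_le
        omega
      · obtain ⟨w, hw⟩ := hd0
        rw [hw, Nat.mul_div_cancel_left _ hp.pos]
        calc a + k * q = a + (k0 + p * (k / p)) * q := by rw [← h3]
          _ = (a + k0 * q) + p * (k / p) * q := by ring
          _ = p * (w + k / p * q) := by rw [hw]; ring
    apply card_le_card_of_injOn (fun k => k / p)
    · intro k hk
      have hk' := key k (by simpa using hk)
      simp only [coe_filter, Set.mem_ofPred_eq, mem_range] at hk ⊢
      refine ⟨hk'.2.1, ?_⟩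
      intro r hr hrp hrm
      have h9 : r ∣ a + k * q := by rw [hk'.2.2]; exact hrm.mul_left p
      have h10 := Nat.minFac_le_of_dvd hr.two_le h9
      have := hp.two_le
      omega
    · intro k hk k' hk' hkk
      have h1 := key k (by simpa using hk)
      have h2 := key k' (by simpa using hk')
      simp only at hkk
      rw [h1.1, h2.1, hkk]

theorem buchstab' {a q : ℕ} (haq : a.Coprime q) (z K : ℕ) :
    (K : ℝ) ≤ cn z a q K + ∑ p ∈ PQ q z,
      (((range K).filter (fun k => (a + k * q).minFac = p)).card : ℝ) := by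
  classical
  have h1 : range K ⊆ (range K).filter (fun k => Rgh z (a + k * q)) ∪
      (PQ q z).biUnion (fun p => (range K).filter (fun k => (a + k * q).minFac = p)) := by
    intro k hk
    rw [mem_union]
    by_cases hr : Rgh z (a + k * q)
    · left; exact mem_filter.2 ⟨hk, hr⟩
    · right
      rw [mem_biUnion]
      have hn1 : a + k * q ≠ 1 := by
        intro h
        rw [h] at hr
        exact hr Rgh_one
      have hmp := Nat.minFac_prime hn1
      unfold Rgh at hr
      push Not at hr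
      obtain ⟨p, hp, hpz, hpn⟩ := hr
      refine ⟨(a + k * q).minFac, mem_PQ.2 ⟨hmp, (Nat.minFac_le_of_dvd hp.two_le hpn).trans hpz, ?_⟩,
        mem_filter.2 ⟨hk, rfl⟩⟩
      intro hdq
      have h2 : (a + k * q).minFac ∣ a := by
        have h3 := Nat.minFac_dvd (a + k * q)
        exact (Nat.dvd_add_left (hdq.mul_left k)).1 h3
      have h4 := Nat.dvd_gcd h2 hdq
      rw [haq] at h4
      exact hmp.one_lt.ne' (Nat.dvd_one.1 h4)
  have h2 := (card_le_card h1).trans ((card_union_le _ _).trans (Nat.add_le_add_left card_biUnion_le _))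
  rw [card_range] at h2
  have e : cn z a q K = ((range K).filter (fun k => Rgh z (a + k * q))).card := rfl
  rw [e]
  exact_mod_cast h2

theorem Vq_log {c₁ c₂ : ℝ} (hc1 : 0 < c₁)
    (hcz : ∀ z : ℕ, 2 ≤ z → c₁ ≤ V z * Real.log z ∧ V z * Real.log z ≤ c₂)
    (q : ℕ) {p z : ℕ} (hp : p.Prime) (hpz : p ≤ z) :
    Vq q (p - 1) * Real.log p ≤ 2 * c₂ / c₁ * Real.log z * Vq q z := by
  have hp2 : (2 : ℝ) ≤ p := by exact_mod_cast hp.two_le
  have hz2 : 2 ≤ z := hp.two_le.trans hpz
  have hlp0 : 0 < Real.log p := Real.log_pos (by linarith)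
  have hlz0 : 0 < Real.log z := Real.log_pos (by exact_mod_cast (by omega : 1 < z))
  have hVlog : V (p - 1) * Real.log p ≤ 2 * c₂ := by
    have h1 := (hcz p hp.two_le).2
    have h2 := V_step (p - 1)
    have e : p - 1 + 1 = p := by have := hp.two_le; omega
    rw [e, if_pos hp] at h2
    have hVp := V_pos (p - 1)
    have h3 : V (p - 1) / p ≤ V (p - 1) / 2 := div_le_div_of_nonneg_left hVp.le (by norm_num) hp2
    have h4 : V (p - 1) ≤ 2 * V p := by linarith
    calc V (p - 1) * Real.log p ≤ 2 * V p * Real.log p := mul_le_mul_of_nonneg_right h4 hlp0.le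
      _ ≤ 2 * c₂ := by linarith
  have hr := Vq_ratio q (w := p - 1) (z := z) (by omega)
  have hVz := V_pos z
  have hlow := (hcz z hz2).1
  have hVqz := Vq_pos q z
  have hVqp := Vq_pos q (p - 1)
  -- Vq (p-1) * V z * log p <= 2 c2 Vq z
  have h5 : Vq q (p - 1) * Real.log p * V z ≤ 2 * c₂ * Vq q z := by
    calc Vq q (p - 1) * Real.log p * V z = (Vq q (p - 1) * V z) * Real.log p := by ring
      _ ≤ (V (p - 1) * Vq q z) * Real.log p := mul_le_mul_of_nonneg_right hr hlp0.le
      _ = (V (p - 1) * Real.log p) * Vq q z := by ring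
      _ ≤ 2 * c₂ * Vq q z := mul_le_mul_of_nonneg_right hVlog hVqz.le
  have h6 : Vq q (p - 1) * Real.log p * c₁ ≤ Vq q (p - 1) * Real.log p * V z * Real.log z := by
    rw [mul_assoc _ (V z)]
    exact mul_le_mul_of_nonneg_left hlow (by positivity)
  have h7 : Vq q (p - 1) * Real.log p * c₁ ≤ 2 * c₂ * Vq q z * Real.log z :=
    h6.trans (mul_le_mul_of_nonneg_right h5 hlz0.le)
  have h8 : 2 * c₂ / c₁ * Real.log z * Vq q z = (2 * c₂ * Vq q z * Real.log z) / c₁ := by ring
  rw [h8, le_div_iff₀ hc1]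
  exact h7

theorem cn_upper {C U : ℝ} (h : ∀ a q N z : ℕ, 0 < q → 2 ≤ z → 1 ≤ N →
    U * Real.log z ≤ Real.log N →
    (apSieve a q N z).siftedSum ≤ N * Vq q z * (1 + C * (Real.log z / Real.log N) ^ 5))
    {a q K z : ℕ} (hq : 0 < q) (hz : 2 ≤ z) (hK : 1 ≤ K) (hU : U * Real.log z ≤ Real.log K) :
    (cn z a q K : ℝ) ≤ K * Vq q z * (1 + C * (Real.log z / Real.log K) ^ 5) := by
  classical
  refine le_trans ?_ (h a q K z hq hz hK hU)
  have := rgh_le_sifted (a := a) (q := q) (N := K) (z := z) hq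
  unfold cn
  convert this using 2

theorem cn_lower : ∃ C U : ℝ, 0 ≤ C ∧ 1 ≤ U ∧ ∀ a q K z : ℕ, 0 < q → 0 < a → a.Coprime q →
    2 ≤ z → 1 ≤ K → U * Real.log z ≤ Real.log K →
    K * Vq q z * (1 - C * (Real.log z / Real.log K) ^ 5) ≤ (cn z a q K : ℝ) := by
  classical
  obtain ⟨C₁, U₁, hC₁, hU₁, hup⟩ := FL_upper5
  obtain ⟨c₁, c₂, hc1, hc12, hcz⟩ := cz_bounds
  obtain ⟨C₂, hC₂, hlogsum⟩ := sum_log_le
  have hl2 : 0 < Real.log 2 := Real.log_pos (by norm_num)
  obtain ⟨K₂, hK₂⟩ : ∃ K₂, K₂ = 64 * C₁ * c₂ / c₁ * (1 + C₂ / Real.log 2) := ⟨_, rfl⟩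
  obtain ⟨K₃, hK₃⟩ : ∃ K₃, K₃ = 100000 * (1 + 32 * C₁) / (c₁ * Real.log 2 ^ 4) := ⟨_, rfl⟩
  have hc2 : 0 < c₂ := by linarith
  have hK₂0 : 0 ≤ K₂ := by rw [hK₂]; positivity
  have hK₃0 : 0 ≤ K₃ := by rw [hK₃]; positivity
  refine ⟨K₂ + K₃, max 4 (2 * U₁), by positivity, le_trans (by norm_num) (le_max_left _ _), ?_⟩
  intro a q N z hq ha haq hz hN hU
  have hz2 : (2 : ℝ) ≤ z := by exact_mod_cast hz
  have hlz : Real.log 2 ≤ Real.log z := Real.log_le_log (by norm_num) hz2
  have hlz0 : 0 < Real.log z := by linarith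
  have hN1 : (1 : ℝ) ≤ N := by exact_mod_cast hN
  have hN0 : (0 : ℝ) < N := by linarith
  obtain ⟨L, hL⟩ : ∃ L, L = Real.log N := ⟨_, rfl⟩
  rw [← hL] at hU ⊢
  have h4z : 4 * Real.log z ≤ L :=
    (mul_le_mul_of_nonneg_right (le_max_left _ _) hlz0.le).trans hU
  have hUz : 2 * U₁ * Real.log z ≤ L :=
    (mul_le_mul_of_nonneg_right (le_max_right _ _) hlz0.le).trans hU
  have hL0 : 0 < L := by linarith
  have hV := Vq_pos q z
  -- z ≤ N^(1/4)
  obtain ⟨x, hx⟩ : ∃ x, x = (N : ℝ) ^ ((1 : ℝ) / 4) := ⟨_, rfl⟩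
  have hx0 : 0 < x := by rw [hx]; positivity
  have hx4 : x ^ 4 = N := by
    rw [hx, ← Real.rpow_natCast, ← Real.rpow_mul hN0.le]; norm_num
  have hx2' : x ^ 2 = (N : ℝ) ^ ((1 : ℝ) / 2) := by
    rw [hx, ← Real.rpow_natCast, ← Real.rpow_mul hN0.le]; norm_num
  have hlogx : Real.log x = L / 4 := by rw [hx, Real.log_rpow hN0, hL]; ring
  have hzx : (z : ℝ) ≤ x := by
    apply (Real.log_le_log_iff (by linarith) hx0).1
    rw [hlogx]; linarith
  have hx2 : 2 ≤ x := hz2.trans hzx
  -- estimate for each prime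
  have key : ∀ p ∈ PQ q z, (((range N).filter (fun k => (a + k * q).minFac = p)).card : ℝ) ≤
      N * (Vq q (p - 1) / p) + 64 * C₁ * c₂ / c₁ * (N * Vq q z * (Real.log z ^ 4 / L ^ 5)) *
        (Real.log p / p) + (1 + 32 * C₁) := by
    intro p hp
    obtain ⟨hpp, hpz, hpq⟩ := mem_PQ.1 hp
    obtain ⟨m, Np, hNp1, hNp2, hcard⟩ := one_prime hpp hpq a N
    have hcard' : (((range N).filter (fun k => (a + k * q).minFac = p)).card : ℝ) ≤
      cn (p - 1) m q Np := by exact_mod_cast hcard
    refine hcard'.trans ?_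
    have hp2 : (2 : ℝ) ≤ p := by exact_mod_cast hpp.two_le
    have hp0 : (0 : ℝ) < p := by linarith
    have hpzR : (p : ℝ) ≤ z := by exact_mod_cast hpz
    have hlp0 : 0 < Real.log p := Real.log_pos (by linarith)
    have hlpz : Real.log p ≤ Real.log z := Real.log_le_log hp0 hpzR
    have hV1 := Vq_le_one q (p - 1)
    have hVp := Vq_pos q (p - 1)
    -- bound for the sifted count
    have hb : (cn (p - 1) m q Np : ℝ) ≤
        Np * Vq q (p - 1) * (1 + 32 * C₁ * (Real.log p / L) ^ 5) := by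
      by_cases hp3 : p = 2
      · have h1 : (cn (p - 1) m q Np : ℝ) ≤ Np := by exact_mod_cast cn_le _ _ _ _
        have h2 : Vq q (p - 1) = 1 := by
          rw [hp3]
          exact Vq_one' q
        rw [h2, mul_one]
        refine h1.trans (le_mul_of_one_le_right (by positivity) ?_)
        have : 0 ≤ 32 * C₁ * (Real.log p / L) ^ 5 := by positivity
        linarith
      · have hp3' : 2 ≤ p - 1 := by
          have := hpp.two_le
          omega
        -- log Np ≥ L / 2
        have hNpx : x ^ 2 ≤ Np := by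
          have h1 : x ^ 3 ≤ N / p := by
            rw [le_div_iff₀ hp0, ← hx4]
            have : x ^ 3 * p ≤ x ^ 3 * x := mul_le_mul_of_nonneg_left (hpzR.trans hzx) (by positivity)
            calc x ^ 3 * p ≤ x ^ 3 * x := this
              _ = x ^ 4 := by ring
          have h2 : x ^ 2 + 1 ≤ x ^ 3 := by nlinarith [sq_nonneg x, mul_pos hx0 hx0]
          linarith
        have hNp0 : (0 : ℝ) < Np := lt_of_lt_of_le (by positivity) hNpx
        have hlNp : L / 2 ≤ Real.log Np := by
          have h1 := Real.log_le_log (by positivity) hNpx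
          rw [Real.log_pow, hlogx] at h1
          push_cast at h1
          linarith
        have hp1le : ((p - 1 : ℕ) : ℝ) ≤ p := by exact_mod_cast Nat.sub_le p 1
        have hp1pos : (0 : ℝ) < ((p - 1 : ℕ) : ℝ) := by exact_mod_cast (by omega : 0 < p - 1)
        have hlp1 : Real.log ((p - 1 : ℕ) : ℝ) ≤ Real.log p := Real.log_le_log hp1pos hp1le
        have hlp1' : 0 ≤ Real.log ((p - 1 : ℕ) : ℝ) :=
          Real.log_nonneg (by exact_mod_cast (by omega : 1 ≤ p - 1))
        have h1 := cn_upper hup (a := m) hq hp3' (K := Np) (by exact_mod_cast hNp0) (by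
          calc U₁ * Real.log ((p - 1 : ℕ) : ℝ) ≤ U₁ * Real.log z :=
                mul_le_mul_of_nonneg_left (hlp1.trans hlpz) (by linarith)
            _ ≤ L / 2 := by linarith
            _ ≤ _ := hlNp)
        refine h1.trans ?_
        apply mul_le_mul_of_nonneg_left _ (by positivity)
        have h2 : Real.log ((p - 1 : ℕ) : ℝ) / Real.log Np ≤ 2 * (Real.log p / L) := by
          have h3 : 0 < Real.log Np := by linarith
          rw [div_le_iff₀ h3]
          calc Real.log ((p - 1 : ℕ) : ℝ) ≤ Real.log p := hlp1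
            _ = 2 * (Real.log p / L) * (L / 2) := by field_simp
            _ ≤ 2 * (Real.log p / L) * Real.log Np := mul_le_mul_of_nonneg_left hlNp (by positivity)
        have h3 : 0 ≤ Real.log ((p - 1 : ℕ) : ℝ) / Real.log Np :=
          div_nonneg hlp1' (by linarith)
        have h4 := pow_le_pow_left₀ h3 h2 5
        have h5 := mul_le_mul_of_nonneg_left h4 hC₁
        have e : C₁ * (2 * (Real.log p / L)) ^ 5 = 32 * C₁ * (Real.log p / L) ^ 5 := by ring
        linarith
    have hr1 : (Real.log p / L) ^ 5 ≤ 1 := by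
      apply pow_le_one₀ (by positivity)
      rw [div_le_one hL0]; linarith
    have hVlog := Vq_log hc1 hcz q hpp hpz
    obtain ⟨W, hW⟩ : ∃ W, W = (Real.log p / L) ^ 5 := ⟨_, rfl⟩
    rw [← hW] at hb hr1
    have hW0 : 0 ≤ W := by rw [hW]; positivity
    calc (cn (p - 1) m q Np : ℝ) ≤ Np * Vq q (p - 1) * (1 + 32 * C₁ * W) := hb
      _ ≤ (N / p + 1) * Vq q (p - 1) * (1 + 32 * C₁ * W) := by gcongr
      _ = N * (Vq q (p - 1) / p) + 32 * C₁ * N / p * (Vq q (p - 1) * W) +
            Vq q (p - 1) * (1 + 32 * C₁ * W) := by ring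
      _ ≤ _ := by
          have h1 : Vq q (p - 1) * W ≤ 2 * c₂ / c₁ * Vq q z * Real.log z ^ 4 * Real.log p / L ^ 5 := by
            rw [hW, div_pow, ← mul_div_assoc]
            apply div_le_div_of_nonneg_right _ (by positivity)
            have h7 : Real.log p ^ 3 ≤ Real.log z ^ 3 := pow_le_pow_left₀ hlp0.le hlpz 3
            calc Vq q (p - 1) * Real.log p ^ 5
                = (Vq q (p - 1) * Real.log p) * (Real.log p ^ 3 * Real.log p) := by ring
              _ ≤ (2 * c₂ / c₁ * Real.log z * Vq q z) * (Real.log z ^ 3 * Real.log p) := by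
                  apply mul_le_mul hVlog _ (by positivity) (by positivity)
                  exact mul_le_mul_of_nonneg_right h7 hlp0.le
              _ = _ := by ring
          have h2 : 32 * C₁ * N / p * (Vq q (p - 1) * W) ≤ 32 * C₁ * N / p *
              (2 * c₂ / c₁ * Vq q z * Real.log z ^ 4 * Real.log p / L ^ 5) :=
            mul_le_mul_of_nonneg_left h1 (by positivity)
          have e : 32 * C₁ * N / p *
              (2 * c₂ / c₁ * Vq q z * Real.log z ^ 4 * Real.log p / L ^ 5) =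
            64 * C₁ * c₂ / c₁ * (N * Vq q z * (Real.log z ^ 4 / L ^ 5)) * (Real.log p / p) := by
            ring
          have h3 : Vq q (p - 1) * (1 + 32 * C₁ * W) ≤ 1 * (1 + 32 * C₁ * 1) := by gcongr
          linarith
  have hsum := sum_le_sum key
  rw [sum_add_distrib, sum_add_distrib, ← mul_sum, ← mul_sum, Vq_tele, sum_const,
    nsmul_eq_mul] at hsum
  have hbu := buchstab' haq z N
  have hcard : ((PQ q z).card : ℝ) ≤ z := by
    have : (PQ q z).card ≤ z := by
      unfold PQ
      refine (card_filter_le _ _).trans ?_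
      rw [Nat.card_Icc]; omega
    exact_mod_cast this
  have hlogs : ∑ p ∈ PQ q z, Real.log p / p ≤ Real.log z + C₂ := by
    refine le_trans (sum_le_sum_of_subset_of_nonneg (PQ_subset q z) ?_) (hlogsum z (by omega))
    intro p hp _
    have h1 : (1 : ℝ) ≤ p := by exact_mod_cast (mem_Pz.1 hp).1.one_lt.le
    have := Real.log_nonneg h1
    positivity
  have hVlow : c₁ ≤ Vq q z * Real.log z :=
    ((hcz z hz).1).trans (mul_le_mul_of_nonneg_right (V_le_Vq q z) hlz0.le)
  -- term 2
  have t2 : 64 * C₁ * c₂ / c₁ * (N * Vq q z * (Real.log z ^ 4 / L ^ 5)) *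
      ∑ p ∈ PQ q z, Real.log p / p ≤ N * Vq q z * (K₂ * (Real.log z / L) ^ 5) := by
    have h1 : ∑ p ∈ PQ q z, Real.log p / p ≤ (1 + C₂ / Real.log 2) * Real.log z := by
      have : C₂ ≤ C₂ / Real.log 2 * Real.log z := by
        rw [div_mul_eq_mul_div, le_div_iff₀ hl2]
        exact mul_le_mul_of_nonneg_left hlz hC₂
      linarith
    calc 64 * C₁ * c₂ / c₁ * (N * Vq q z * (Real.log z ^ 4 / L ^ 5)) *
          ∑ p ∈ PQ q z, Real.log p / p
        ≤ 64 * C₁ * c₂ / c₁ * (N * Vq q z * (Real.log z ^ 4 / L ^ 5)) *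
          ((1 + C₂ / Real.log 2) * Real.log z) := by
          apply mul_le_mul_of_nonneg_left h1
          positivity
      _ = _ := by rw [hK₂]; ring
  -- term 3
  have t3 : (PQ q z).card * (1 + 32 * C₁) ≤ N * Vq q z * (K₃ * (Real.log z / L) ^ 5) := by
    have h1 : L ^ 5 ≤ 100000 * x ^ 2 := by
      rw [hx2', hL]
      exact log_pow5 hN1
    have h3 : (z : ℝ) * L ^ 5 ≤ 100000 * N := by
      calc (z : ℝ) * L ^ 5 ≤ x * (100000 * x ^ 2) := mul_le_mul hzx h1 (by positivity) hx0.le
        _ = 100000 * x ^ 3 := by ring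
        _ ≤ 100000 * x ^ 4 := by
            have : x ^ 3 ≤ x ^ 4 := pow_le_pow_right₀ (by linarith) (by norm_num)
            linarith
        _ = 100000 * N := by rw [hx4]
    have h4 : Real.log 2 ^ 4 * c₁ ≤ Vq q z * Real.log z ^ 5 := by
      calc Real.log 2 ^ 4 * c₁ ≤ Real.log z ^ 4 * (Vq q z * Real.log z) :=
            mul_le_mul (pow_le_pow_left₀ hl2.le hlz 4) hVlow hc1.le (by positivity)
        _ = Vq q z * Real.log z ^ 5 := by ring
    calc (PQ q z).card * (1 + 32 * C₁) ≤ z * (1 + 32 * C₁) :=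
          mul_le_mul_of_nonneg_right hcard (by positivity)
      _ ≤ (100000 * N / L ^ 5) * (1 + 32 * C₁) := by
          apply mul_le_mul_of_nonneg_right _ (by positivity)
          rw [le_div_iff₀ (by positivity)]; exact h3
      _ = (100000 * N / L ^ 5) * (1 + 32 * C₁) / (Real.log 2 ^ 4 * c₁) *
            (Real.log 2 ^ 4 * c₁) := by field_simp
      _ ≤ (100000 * N / L ^ 5) * (1 + 32 * C₁) / (Real.log 2 ^ 4 * c₁) *
            (Vq q z * Real.log z ^ 5) := mul_le_mul_of_nonneg_left h4 (by positivity)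
      _ = _ := by rw [hK₃]; ring
  have e : N * Vq q z * (1 - (K₂ + K₃) * (Real.log z / L) ^ 5) = N * Vq q z -
    N * Vq q z * (K₂ * (Real.log z / L) ^ 5) - N * Vq q z * (K₃ * (Real.log z / L) ^ 5) := by ring
  rw [e]
  linarith

/-- the residue in `[1, q]` -/
theorem rep {q b : ℕ} (hq : 1 ≤ q) (hb : b.Coprime q) : ∃ b1, 0 < b1 ∧ b1 ≤ q ∧
    b1 ≡ b [MOD q] ∧ b1.Coprime q := by
  refine ⟨(b + q - 1) % q + 1, Nat.succ_pos _, Nat.mod_lt _ hq, ?_, ?_⟩
  · have h1 : (b + q - 1) % q + 1 ≡ (b + q - 1) + 1 [MOD q] := (Nat.mod_modEq _ _).add_right 1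
    have h2 : (b + q - 1) + 1 = b + q := by omega
    rw [h2] at h1
    exact h1.trans (by simp [Nat.ModEq])
  · have h1 : (b + q - 1) % q + 1 ≡ (b + q - 1) + 1 [MOD q] := (Nat.mod_modEq _ _).add_right 1
    have h2 : (b + q - 1) + 1 = b + q := by omega
    rw [h2] at h1
    have h3 : (b + q - 1) % q + 1 ≡ b [MOD q] := h1.trans (by simp [Nat.ModEq])
    have h4 := h3.gcd_eq
    unfold Nat.Coprime at hb ⊢
    rw [h4]
    exact hb

theorem rc_eq {z q b b1 N : ℕ} (hq : 1 ≤ q) (h0 : 0 < b1) (h1 : b1 ≤ q) (hm : b1 ≡ b [MOD q])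
    (hN : q ≤ N) : rc z q b N = cn z b1 q ((N - b1) / q + 1) := by
  classical
  unfold rc cn
  symm
  apply card_bij (fun k _ => b1 + k * q)
  · intro k hk
    rw [mem_filter, mem_range] at hk
    rw [mem_filter, mem_Icc]
    have h2 : k ≤ (N - b1) / q := by omega
    have h3 := (Nat.le_div_iff_mul_le hq).1 h2
    refine ⟨⟨by omega, by omega⟩, hk.2, ?_⟩
    exact (Nat.modEq_iff_dvd' (by omega)).2 (by simp) |>.symm.trans hm
  · intro k _ k' _ hkk
    have : k * q = k' * q := by omega
    exact Nat.eq_of_mul_eq_mul_right hq this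
  · intro n hn
    rw [mem_filter, mem_Icc] at hn
    obtain ⟨⟨hn1, hn2⟩, hn3, hn4⟩ := hn
    have h5 : b1 ≡ n [MOD q] := hm.trans hn4.symm
    have h6 : b1 ≤ n := by
      by_contra hcon
      have h7 : q ∣ b1 - n := (Nat.modEq_iff_dvd' (by omega)).1 h5.symm
      have h8 := Nat.le_of_dvd (by omega) h7
      omega
    have h7 : q ∣ n - b1 := (Nat.modEq_iff_dvd' h6).1 h5
    obtain ⟨k, hk⟩ := h7
    have h8 : n = b1 + k * q := by
      have : k * q = q * k := mul_comm _ _
      omega
    refine ⟨k, ?_, h8.symm⟩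
    rw [mem_filter, mem_range]
    refine ⟨?_, by rw [← h8]; exact hn3⟩
    have h9 : k ≤ (N - b1) / q := by
      rw [Nat.le_div_iff_mul_le hq]
      omega
    omega

theorem K_bounds {q b1 N : ℕ} (hq : 1 ≤ q) (h1 : b1 ≤ q) (hN : q ≤ N) :
    (N : ℝ) / q - 1 ≤ (((N - b1) / q + 1 : ℕ) : ℝ) ∧
      (((N - b1) / q + 1 : ℕ) : ℝ) ≤ (N : ℝ) / q + 1 := by
  have hq0 : (0 : ℝ) < q := by exact_mod_cast hq
  constructor
  · rw [sub_le_iff_le_add, div_le_iff₀ hq0]
    have h2 := Nat.div_add_mod (N - b1) q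
    have h3 := Nat.mod_lt (N - b1) hq
    have h4 : N ≤ ((N - b1) / q + 1 + 1) * q := by
      have : ((N - b1) / q + 1 + 1) * q = q * ((N - b1) / q) + 2 * q := by ring
      omega
    exact_mod_cast h4
  · push_cast
    have h2 : (((N - b1) / q : ℕ) : ℝ) ≤ ((N - b1 : ℕ) : ℝ) / q := Nat.cast_div_le
    have h3 : ((N - b1 : ℕ) : ℝ) / q ≤ (N : ℝ) / q := by
      apply div_le_div_of_nonneg_right _ hq0.le
      exact_mod_cast Nat.sub_le N b1
    linarith

end FL

open FL in
theorem fl : St_FL := by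
  classical
  obtain ⟨C₁, U₁, hC₁, hU₁, hup⟩ := FL_upper5
  obtain ⟨C₂, U₂, hC₂, hU₂, hlow⟩ := FL.cn_lower
  obtain ⟨c₁, c₂, hc1, hc12, hcz⟩ := cz_bounds
  have hc2 : 0 < c₂ := by linarith
  have hl2 : 0 < Real.log 2 := Real.log_pos (by norm_num)
  obtain ⟨U, hU⟩ : ∃ U, U = max U₁ U₂ := ⟨_, rfl⟩
  have hUU1 : U₁ ≤ U := by rw [hU]; exact le_max_left _ _
  have hUU2 : U₂ ≤ U := by rw [hU]; exact le_max_right _ _
  have hU1 : 1 ≤ U := hU₁.trans hUU1
  obtain ⟨CA, hCA⟩ : ∃ CA, CA = 32 * (C₁ + C₂) + 100000 * (1 + 32 * (C₁ + C₂)) := ⟨_, rfl⟩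
  obtain ⟨CB, hCB⟩ : ∃ CB, CB = (2 * (1 + C₁) * (c₂ / c₁) * (4 * U) + 2 * (2 * U) / c₁ + 1) *
    (2 * U) ^ 5 := ⟨_, rfl⟩
  have hCA0 : 0 < CA := by rw [hCA]; positivity
  have hCB0 : 0 < CB := by rw [hCB]; positivity
  refine ⟨CA + CB, by positivity, ?_⟩
  intro z q b N hz hq hqz hb hzN
  have hqz' : q ≤ z := by
    calc q = q ^ 1 := (pow_one q).symm
      _ ≤ q ^ 8 := Nat.pow_le_pow_right hq (by norm_num)
      _ ≤ z := hqz
  have hqN : q ≤ N := hqz'.trans hzN
  obtain ⟨b1, hb0, hb1, hbm, hbc⟩ := FL.rep hq hb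
  rw [FL.rc_eq hq hb0 hb1 hbm hqN]
  obtain ⟨hK1, hK2⟩ := FL.K_bounds hq hb1 hqN
  obtain ⟨K, hK⟩ : ∃ K, K = (N - b1) / q + 1 := ⟨_, rfl⟩
  rw [← hK] at hK1 hK2 ⊢
  have hKpos : 1 ≤ K := by
    rw [hK]
    exact Nat.le_add_left 1 _
  have hq0 : (0 : ℝ) < q := by exact_mod_cast hq
  have hz32 : (32 : ℝ) ≤ z := by exact_mod_cast hz
  have hzNR : (z : ℝ) ≤ N := by exact_mod_cast hzN
  have hN0 : (0 : ℝ) < N := by linarith
  have hN1 : (1 : ℝ) ≤ N := by linarith
  have hz0 : (0 : ℝ) < z := by linarith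
  have hlz : 1 ≤ Real.log z := by
    have h1 : Real.exp 1 ≤ z := by
      have := Real.exp_one_lt_d9
      linarith
    have := Real.log_le_log (Real.exp_pos 1) h1
    rwa [Real.log_exp] at this
  have hlz0 : 0 < Real.log z := by linarith
  have hlzN : Real.log z ≤ Real.log N := Real.log_le_log hz0 hzNR
  have hlN : 0 < Real.log N := by linarith
  have hφ : (0 : ℝ) < q.totient := by exact_mod_cast Nat.totient_pos.2 hq
  have hVq := Vq_pos q z
  -- the main term
  have hmain : (N : ℝ) * V z / q.totient = N / q * Vq q z := by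
    have h1 := FL.Vq_totient hq hqz'
    rw [div_eq_iff hφ.ne']
    calc (N : ℝ) * V z = N / q * (V z * q) := by field_simp
      _ = N / q * (Vq q z * q.totient) := by rw [h1]
      _ = _ := by ring
  rw [hmain]
  obtain ⟨y, hy⟩ : ∃ y, y = (N : ℝ) / q := ⟨_, rfl⟩
  rw [← hy] at hK1 hK2 ⊢
  -- N / q is large
  have hqN8 : (q : ℝ) ≤ (N : ℝ) ^ ((1 : ℝ) / 8) := by
    have h1 : (q : ℝ) ^ 8 ≤ N := by
      have : ((q ^ 8 : ℕ) : ℝ) ≤ z := by exact_mod_cast hqz
      push_cast at this
      linarith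
    calc (q : ℝ) = ((q : ℝ) ^ 8) ^ ((1 : ℝ) / 8) := by
          rw [← Real.rpow_natCast, ← Real.rpow_mul hq0.le]; norm_num
      _ ≤ _ := Real.rpow_le_rpow (by positivity) h1 (by norm_num)
  obtain ⟨s, hs⟩ : ∃ s, s = (N : ℝ) ^ ((1 : ℝ) / 8) := ⟨_, rfl⟩
  have hs0 : 0 < s := by rw [hs]; positivity
  have hs8 : s ^ 8 = N := by
    rw [hs, ← Real.rpow_natCast, ← Real.rpow_mul hN0.le]; norm_num
  have hs4 : s ^ 4 = (N : ℝ) ^ ((1 : ℝ) / 2) := by
    rw [hs, ← Real.rpow_natCast, ← Real.rpow_mul hN0.le]; norm_num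
  rw [← hs] at hqN8
  have hs15 : 3 / 2 ≤ s := by
    by_contra hcon
    push Not at hcon
    have h1 : s ^ 8 < (3 / 2 : ℝ) ^ 8 := pow_lt_pow_left₀ hcon hs0.le (by norm_num)
    rw [hs8] at h1
    norm_num at h1
    linarith
  have hy7 : s ^ 7 ≤ y := by
    rw [hy, le_div_iff₀ hq0]
    calc s ^ 7 * q ≤ s ^ 7 * s := mul_le_mul_of_nonneg_left hqN8 (by positivity)
      _ = N := by rw [← hs8]; ring
  have hy4 : s ^ 4 + 1 ≤ y := by
    refine le_trans ?_ hy7
    have h1 : (27 / 8 : ℝ) ≤ s ^ 3 := by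
      calc (27 / 8 : ℝ) = (3 / 2) ^ 3 := by norm_num
        _ ≤ s ^ 3 := pow_le_pow_left₀ (by norm_num) hs15 3
    have h2 : (81 / 16 : ℝ) ≤ s ^ 4 := by
      calc (81 / 16 : ℝ) = (3 / 2) ^ 4 := by norm_num
        _ ≤ s ^ 4 := pow_le_pow_left₀ (by norm_num) hs15 4
    have e : s ^ 7 = s ^ 4 * s ^ 3 := by ring
    rw [e]
    nlinarith
  have hy0 : 0 < y := by
    have : 0 < s ^ 4 := by positivity
    linarith
  have hKs : s ^ 4 ≤ K := by linarith
  have hK0 : (0 : ℝ) < K := by
    have : 0 < s ^ 4 := by positivity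
    linarith
  have hlK : Real.log N / 2 ≤ Real.log K := by
    have h1 := Real.log_le_log (by positivity) hKs
    rw [hs4, Real.log_rpow hN0] at h1
    linarith
  have hlK0 : 0 < Real.log K := by linarith
  obtain ⟨T, hT⟩ : ∃ T, T = (Real.log z / Real.log N) ^ 5 := ⟨_, rfl⟩
  rw [← hT]
  have hT0 : 0 < T := by rw [hT]; positivity
  have hT1 : T ≤ 1 := by
    rw [hT]
    apply pow_le_one₀ (by positivity)
    rw [div_le_one hlN]
    exact hlzN
  have hM0 : 0 < y * Vq q z := by positivity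
  -- y T is bounded below
  have hyT : 1 ≤ 100000 * (y * T) := by
    have h1 := FL.log_pow5 hN1
    rw [← hs4] at h1
    have h2 : 1 / Real.log N ^ 5 ≤ T := by
      rw [hT, div_pow]
      apply div_le_div_of_nonneg_right _ (by positivity)
      exact one_le_pow₀ hlz
    have h3 : s ^ 4 ≤ y := by linarith
    have h4 : 0 < s ^ 4 := by positivity
    calc (1 : ℝ) = Real.log N ^ 5 * (1 / Real.log N ^ 5) := by field_simp
      _ ≤ (100000 * s ^ 4) * T := mul_le_mul h1 h2 (by positivity) (by positivity)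
      _ ≤ (100000 * y) * T := by gcongr
      _ = 100000 * (y * T) := by ring
  have hKT : (Real.log z / Real.log K) ^ 5 ≤ 32 * T := by
    have h1 : Real.log z / Real.log K ≤ 2 * (Real.log z / Real.log N) := by
      rw [div_le_iff₀ hlK0]
      calc Real.log z = 2 * (Real.log z / Real.log N) * (Real.log N / 2) := by field_simp
        _ ≤ _ := mul_le_mul_of_nonneg_left hlK (by positivity)
    calc (Real.log z / Real.log K) ^ 5 ≤ (2 * (Real.log z / Real.log N)) ^ 5 :=
          pow_le_pow_left₀ (by positivity) h1 5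
      _ = 32 * T := by rw [hT]; ring
  have hKT0 : 0 ≤ (Real.log z / Real.log K) ^ 5 := by positivity
  rcases le_or_gt (2 * U * Real.log z) (Real.log N) with hcase | hcase
  · -- long intervals
    have hUK : U * Real.log z ≤ Real.log K := by linarith
    have hup1 := FL.cn_upper hup (a := b1) hq (by omega : 2 ≤ z) hKpos
      ((mul_le_mul_of_nonneg_right hUU1 hlz0.le).trans hUK)
    have hlow1 := hlow b1 q K z hq hb0 hbc (by omega) hKpos
      ((mul_le_mul_of_nonneg_right hUU2 hlz0.le).trans hUK)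
    -- uniform forms
    have hA : (cn z b1 q K : ℝ) ≤ (y + 1) * Vq q z * (1 + 32 * C₁ * T) := by
      refine hup1.trans ?_
      have h1 : C₁ * (Real.log z / Real.log K) ^ 5 ≤ 32 * C₁ * T := by
        calc C₁ * (Real.log z / Real.log K) ^ 5 ≤ C₁ * (32 * T) :=
              mul_le_mul_of_nonneg_left hKT hC₁
          _ = 32 * C₁ * T := by ring
      gcongr
    have hB : (y - 1) * Vq q z - (y + 1) * Vq q z * (32 * C₂ * T) ≤ (cn z b1 q K : ℝ) := by
      refine le_trans ?_ hlow1
      have h1 : C₂ * (Real.log z / Real.log K) ^ 5 ≤ 32 * C₂ * T := by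
        calc C₂ * (Real.log z / Real.log K) ^ 5 ≤ C₂ * (32 * T) :=
              mul_le_mul_of_nonneg_left hKT hC₂
          _ = 32 * C₂ * T := by ring
      have h2 : (y - 1) * Vq q z ≤ K * Vq q z := mul_le_mul_of_nonneg_right hK1 hVq.le
      have h3 : K * Vq q z * (C₂ * (Real.log z / Real.log K) ^ 5) ≤
          (y + 1) * Vq q z * (32 * C₂ * T) := by gcongr
      have e : (K : ℝ) * Vq q z * (1 - C₂ * (Real.log z / Real.log K) ^ 5) =
        K * Vq q z - K * Vq q z * (C₂ * (Real.log z / Real.log K) ^ 5) := by ring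
      rw [e]
      linarith
    have hVT : Vq q z ≤ 100000 * (y * Vq q z * T) := by
      calc Vq q z = Vq q z * 1 := (mul_one _).symm
        _ ≤ Vq q z * (100000 * (y * T)) := mul_le_mul_of_nonneg_left hyT hVq.le
        _ = _ := by ring
    have hfin : |(cn z b1 q K : ℝ) - y * Vq q z| ≤ CA * (y * Vq q z) * T := by
      obtain ⟨X, hX⟩ : ∃ X, X = y * Vq q z * T := ⟨_, rfl⟩
      have hX0 : 0 < X := by rw [hX]; positivity
      rw [← hX] at hVT
      have e1 : CA * (y * Vq q z) * T = CA * X := by rw [hX]; ring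
      have hVT1 : Vq q z * T ≤ Vq q z := mul_le_of_le_one_right hVq.le hT1
      have e2 : (y + 1) * Vq q z * (1 + 32 * C₁ * T) = y * Vq q z + Vq q z + 32 * C₁ * X +
          32 * C₁ * (Vq q z * T) := by rw [hX]; ring
      have e3 : (y - 1) * Vq q z - (y + 1) * Vq q z * (32 * C₂ * T) = y * Vq q z - Vq q z -
          32 * C₂ * X - 32 * C₂ * (Vq q z * T) := by rw [hX]; ring
      rw [e2] at hA
      rw [e3] at hB
      have h5 : 32 * C₁ * (Vq q z * T) ≤ 32 * C₁ * (100000 * X) :=
        mul_le_mul_of_nonneg_left (hVT1.trans hVT) (by positivity)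
      have h6 : 32 * C₂ * (Vq q z * T) ≤ 32 * C₂ * (100000 * X) :=
        mul_le_mul_of_nonneg_left (hVT1.trans hVT) (by positivity)
      have h7 : 0 ≤ C₁ * X := by positivity
      have h8 : 0 ≤ C₂ * X := by positivity
      rw [e1, hCA, abs_le]
      constructor <;> nlinarith
    refine hfin.trans ?_
    have : 0 ≤ CB * (y * Vq q z) * T := by positivity
    linarith
  · -- short intervals
    have hcn : (cn z b1 q K : ℝ) ≤
        (2 * (1 + C₁) * (c₂ / c₁) * (4 * U) + 2 * (2 * U) / c₁) * (y * Vq q z) := by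
      have hK2y : (K : ℝ) ≤ 2 * y := by
        have h2 : 1 ≤ y := by
          have : 0 < s ^ 4 := by positivity
          linarith
        linarith
      have hVlow : c₁ ≤ Vq q z * Real.log z :=
        ((hcz z (by omega)).1).trans (mul_le_mul_of_nonneg_right (V_le_Vq q z) hlz0.le)
      obtain ⟨x, hx⟩ : ∃ x, x = (z : ℝ) ^ (1 / (2 * U)) := ⟨_, rfl⟩
      have hlx : Real.log x = Real.log z / (2 * U) := by
        rw [hx, Real.log_rpow hz0]; ring
      have hx0 : 0 < x := by rw [hx]; positivity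
      rcases lt_or_ge x 2 with hx2 | hx2
      · -- z bounded
        have h1 : Real.log z ≤ 2 * U := by
          have h2 : Real.log x ≤ Real.log 2 := Real.log_le_log hx0 hx2.le
          rw [hlx, div_le_iff₀ (by positivity)] at h2
          have h3 : Real.log 2 ≤ 1 := by
            have := Real.log_two_lt_d9
            linarith
          nlinarith
        have h2 : (cn z b1 q K : ℝ) ≤ K := by exact_mod_cast FL.cn_le _ _ _ _
        have h3 : 1 ≤ (2 * U) / c₁ * Vq q z := by
          rw [div_mul_eq_mul_div, le_div_iff₀ hc1, one_mul]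
          calc c₁ ≤ Vq q z * Real.log z := hVlow
            _ ≤ Vq q z * (2 * U) := mul_le_mul_of_nonneg_left h1 hVq.le
            _ = _ := mul_comm _ _
        have h4 : 2 * y * 1 ≤ 2 * y * ((2 * U) / c₁ * Vq q z) :=
          mul_le_mul_of_nonneg_left h3 (by positivity)
        have h5 : 0 ≤ 2 * (1 + C₁) * (c₂ / c₁) * (4 * U) * (y * Vq q z) := by positivity
        have e : (2 * (1 + C₁) * (c₂ / c₁) * (4 * U) + 2 * (2 * U) / c₁) * (y * Vq q z) =
          2 * (1 + C₁) * (c₂ / c₁) * (4 * U) * (y * Vq q z) +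
            2 * y * ((2 * U) / c₁ * Vq q z) := by ring
        rw [e]
        linarith
      · -- sieve up to z'
        obtain ⟨w, hw⟩ : ∃ w, w = ⌊x⌋₊ := ⟨_, rfl⟩
        have hw2 : 2 ≤ w := by
          rw [hw]
          exact Nat.le_floor (by exact_mod_cast hx2)
        have hwx : (w : ℝ) ≤ x := by rw [hw]; exact Nat.floor_le hx0.le
        have hxw : x ≤ (w : ℝ) ^ 2 := by
          have h1 : x < (w : ℝ) + 1 := by rw [hw]; exact Nat.lt_floor_add_one x
          have h2 : (2 : ℝ) ≤ w := by exact_mod_cast hw2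
          nlinarith
        have hw0 : (0 : ℝ) < w := by exact_mod_cast (by omega : 0 < w)
        have hlw1 : Real.log w ≤ Real.log z / (2 * U) := by
          rw [← hlx]
          exact Real.log_le_log hw0 hwx
        have hlw2 : Real.log z / (4 * U) ≤ Real.log w := by
          have h1 := Real.log_le_log hx0 hxw
          rw [Real.log_pow, hlx] at h1
          push_cast at h1
          have e : Real.log z / (4 * U) = Real.log z / (2 * U) / 2 := by
            field_simp; norm_num
          rw [e]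
          linarith
        have hlw0 : 0 < Real.log w := lt_of_lt_of_le (by positivity) hlw2
        have hwz : w ≤ z := by
          have h1 : x ≤ z := by
            rw [hx]
            calc (z : ℝ) ^ (1 / (2 * U)) ≤ (z : ℝ) ^ (1 : ℝ) := by
                  apply Real.rpow_le_rpow_of_exponent_le (by linarith)
                  rw [div_le_one (by positivity)]
                  linarith
              _ = z := Real.rpow_one _
          exact_mod_cast hwx.trans h1
        have h1 : U * Real.log w ≤ Real.log z / 2 := by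
          calc U * Real.log w ≤ U * (Real.log z / (2 * U)) :=
                mul_le_mul_of_nonneg_left hlw1 (by linarith)
            _ = Real.log z / 2 := by field_simp
        have hup1 := FL.cn_upper hup (a := b1) hq hw2 hKpos (by
          calc U₁ * Real.log w ≤ U * Real.log w := mul_le_mul_of_nonneg_right hUU1 hlw0.le
            _ ≤ Real.log z / 2 := h1
            _ ≤ Real.log N / 2 := by linarith
            _ ≤ _ := hlK)
        have h2 : (Real.log w / Real.log K) ^ 5 ≤ 1 := by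
          apply pow_le_one₀ (by positivity)
          rw [div_le_one hlK0]
          have h3 : Real.log w ≤ U * Real.log w := le_mul_of_one_le_left hlw0.le hU1
          linarith
        have h3 : (cn z b1 q K : ℝ) ≤ cn w b1 q K := by exact_mod_cast FL.cn_anti hwz
        -- Vq w <= (c2/c1) 4U Vq z
        have h4 : Vq q w ≤ (c₂ / c₁) * (4 * U) * Vq q z := by
          have h5 := FL.Vq_ratio q hwz
          have h6 := (hcz w hw2).2
          have h7 := (hcz z (by omega)).1
          have hVz := V_pos z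
          have hVw := V_pos w
          have hVqw := Vq_pos q w
          -- Vq w * V z * log w <= c2 Vq z
          have h8 : Vq q w * V z * Real.log w ≤ c₂ * Vq q z := by
            calc Vq q w * V z * Real.log w ≤ V w * Vq q z * Real.log w :=
                  mul_le_mul_of_nonneg_right h5 hlw0.le
              _ = (V w * Real.log w) * Vq q z := by ring
              _ ≤ _ := mul_le_mul_of_nonneg_right h6 hVq.le
          have h9 : Vq q w * c₁ ≤ 4 * U * (Vq q w * V z * Real.log w) := by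
            have h10 : Real.log z ≤ 4 * U * Real.log w := by
              rw [div_le_iff₀ (by positivity)] at hlw2
              linarith
            calc Vq q w * c₁ ≤ Vq q w * (V z * Real.log z) :=
                  mul_le_mul_of_nonneg_left h7 hVqw.le
              _ ≤ Vq q w * (V z * (4 * U * Real.log w)) := by gcongr
              _ = _ := by ring
          have h11 : Vq q w * c₁ ≤ 4 * U * (c₂ * Vq q z) :=
            h9.trans (mul_le_mul_of_nonneg_left h8 (by positivity))
          have e : (c₂ / c₁) * (4 * U) * Vq q z = 4 * U * (c₂ * Vq q z) / c₁ := by ring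
          rw [e, le_div_iff₀ hc1]
          exact h11
        have hVqw := Vq_pos q w
        calc (cn z b1 q K : ℝ) ≤ cn w b1 q K := h3
          _ ≤ K * Vq q w * (1 + C₁ * (Real.log w / Real.log K) ^ 5) := hup1
          _ ≤ (2 * y) * ((c₂ / c₁) * (4 * U) * Vq q z) * (1 + C₁ * 1) := by gcongr
          _ = 2 * (1 + C₁) * (c₂ / c₁) * (4 * U) * (y * Vq q z) := by ring
          _ ≤ _ := by
              have h5 : 0 ≤ 2 * (2 * U) / c₁ * (y * Vq q z) := by positivity
              rw [add_mul]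
              linarith
    have hTB : 1 ≤ (2 * U) ^ 5 * T := by
      rw [hT, ← mul_pow]
      apply one_le_pow₀
      rw [← mul_div_assoc, one_le_div hlN]
      exact hcase.le
    have habs : |(cn z b1 q K : ℝ) - y * Vq q z| ≤
        (2 * (1 + C₁) * (c₂ / c₁) * (4 * U) + 2 * (2 * U) / c₁ + 1) * (y * Vq q z) := by
      have h1 : (0 : ℝ) ≤ cn z b1 q K := by positivity
      have h2 : 0 ≤ (2 * (1 + C₁) * (c₂ / c₁) * (4 * U) + 2 * (2 * U) / c₁) * (y * Vq q z) := by
        positivity
      rw [abs_le]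
      constructor <;> nlinarith
    have h3 : (2 * (1 + C₁) * (c₂ / c₁) * (4 * U) + 2 * (2 * U) / c₁ + 1) * (y * Vq q z) ≤
        CB * (y * Vq q z) * T := by
      have h4 : 0 ≤ (2 * (1 + C₁) * (c₂ / c₁) * (4 * U) + 2 * (2 * U) / c₁ + 1) *
        (y * Vq q z) := by positivity
      calc _ = (2 * (1 + C₁) * (c₂ / c₁) * (4 * U) + 2 * (2 * U) / c₁ + 1) *
            (y * Vq q z) * 1 := (mul_one _).symm
        _ ≤ (2 * (1 + C₁) * (c₂ / c₁) * (4 * U) + 2 * (2 * U) / c₁ + 1) *
            (y * Vq q z) * ((2 * U) ^ 5 * T) := mul_le_mul_of_nonneg_left hTB h4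
        _ = _ := by rw [hCB]; ring
    refine habs.trans (h3.trans ?_)
    have : 0 ≤ CA * (y * Vq q z) * T := by positivity
    linarith

end Pool.Agent.H262R3.Lk
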