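import Pool.Agent.H262R3.Lk.Stubs3

/-! Task LL1: the mean value over the good characters, from ZF and DENS. -/

open Finset

namespace Pool.Agent.H262R3.Lk

open Pool.Agent.H410R2 (psiLog)

namespace LL1

/-- ladder -/
theorem ladder (P : ℕ → Prop) (h0 : P 0) (J : ℕ) : ∃ j, j ≤ J ∧ P j ∧ (j = J ∨ ¬ P (j + 1)) := by
  induction J with
  | zero => exact ⟨0, le_rfl, h0, Or.inl rfl⟩
  | succ J ih =>
    obtain ⟨j, hj, hP, h | h⟩ := ih
    · subst h
      by_cases h1 : P (j + 1)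
      · exact ⟨j + 1, le_rfl, h1, Or.inl rfl⟩
      · exact ⟨j, by omega, hP, Or.inr h1⟩
    · exact ⟨j, by omega, hP, Or.inr h⟩

theorem card_le (f : ℕ) (hf : 1 ≤ f) : Fintype.card (DirichletCharacter ℂ f) ≤ f := by
  haveI : NeZero f := ⟨by omega⟩
  rw [← Nat.card_eq_fintype_card, DirichletCharacter.card_eq_totient_of_hasEnoughRootsOfUnity ℂ f]
  exact Nat.totient_le f

/-- existence of the number of classes -/
theorem exists_J (e L : ℝ) (he : 0 < e) (h1 : e ≤ 1 / 800) (hL : 1 / (800 * e) ≤ L) :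
    ∃ J : ℕ, 2 ^ J * e ≤ 1 / 800 ∧ 1 / 1600 < 2 ^ J * e ∧ (J : ℝ) ≤ L := by
  have hex : ∃ n : ℕ, 1 / 800 < 2 ^ n * e := by
    obtain ⟨n, hn⟩ := pow_unbounded_of_one_lt (1 / (800 * e)) (show (1 : ℝ) < 2 by norm_num)
    refine ⟨n, ?_⟩
    rw [div_lt_iff₀ (by positivity)] at hn
    linarith
  classical
  have hspec := Nat.find_spec hex
  have hmin := fun m => Nat.find_min hex (m := m)
  set n := Nat.find hex with hn
  have hn0 : n ≠ 0 := by
    intro h
    rw [h] at hspec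
    simp at hspec
    linarith
  obtain ⟨J, hJ⟩ := Nat.exists_eq_succ_of_ne_zero hn0
  have h2 := hmin J (by omega)
  rw [not_lt] at h2
  rw [hJ, Nat.succ_eq_add_one, pow_succ] at hspec
  refine ⟨J, h2, by linarith, ?_⟩
  have h3 : (J : ℝ) ≤ 2 ^ J := by
    have : J < 2 ^ J := Nat.lt_two_pow_self
    exact_mod_cast this.le
  have h4 : (2 : ℝ) ^ J ≤ 1 / (800 * e) := by
    rw [le_div_iff₀ (by positivity)]
    linarith
  linarith

/-- pointwise bound -/
theorem point {f : ℕ} (χ : DirichletCharacter ℂ f) (x T e B : ℝ) (J : ℕ) (hB : 0 ≤ B)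
    (hx : 0 < x)
    (hT : 0 < T)
    (h0 : ¬ HZ χ (4 * e) (T + 1))
    (hb : ∀ j ≤ J, ¬ HZ χ (4 * (2 ^ j * e)) (T + 1) →
      ‖psiLog x f χ‖ ≤ B * (x ^ (1 - 2 ^ j * e) + x / T)) [∀ j, Decidable (HZ χ (8 * (2 ^ j * e)) (T + 1))] :
    ‖psiLog x f χ‖ ≤ (∑ j ∈ range J, if HZ χ (8 * (2 ^ j * e)) (T + 1) then
      B * x ^ (1 - 2 ^ j * e) else 0) + B * (x ^ (1 - 2 ^ J * e) + x / T) := by
  obtain ⟨j, hj, hP, h⟩ := ladder (fun j => ¬ HZ χ (4 * (2 ^ j * e)) (T + 1)) (by simpa using h0) J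
  have h1 := hb j hj hP
  have hterm : ∀ i ∈ range J, 0 ≤ (if HZ χ (8 * (2 ^ i * e)) (T + 1) then
      B * x ^ (1 - 2 ^ i * e) else 0) := by
    intro i _
    split_ifs
    · exact mul_nonneg hB (Real.rpow_nonneg hx.le _)
    · exact le_rfl
  rcases h with h | h
  · subst h
    have := Finset.sum_nonneg hterm
    linarith
  · rcases Nat.lt_or_ge j J with h2 | h2
    · have h3 : HZ χ (8 * (2 ^ j * e)) (T + 1) := by
        by_contra h4
        apply h
        intro h5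
        apply h4
        have e1 : 4 * ((2 : ℝ) ^ (j + 1) * e) = 8 * (2 ^ j * e) := by rw [pow_succ]; ring
        rwa [e1] at h5
      have h4 := Finset.single_le_sum hterm (mem_range.2 h2)
      rw [if_pos h3] at h4
      have h5 : 0 ≤ B * x ^ (1 - 2 ^ J * e) := mul_nonneg hB (Real.rpow_nonneg hx.le _)
      have h6 : B * (x ^ (1 - 2 ^ j * e) + x / T) = B * x ^ (1 - 2 ^ j * e) + B * (x / T) := by ring
      have h7 : B * (x ^ (1 - 2 ^ J * e) + x / T) = B * x ^ (1 - 2 ^ J * e) + B * (x / T) := by ring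
      linarith
    · have h3 : j = J := by omega
      subst h3
      have := Finset.sum_nonneg hterm
      linarith

/-- the conditions on `Q` -/
theorem large (N A2 : ℕ) (C D : ℝ) : ∃ Q0 : ℕ, ∀ Q : ℕ, Q0 ≤ Q →
    16 ≤ Q ∧ 3 ≤ Real.log Q ∧ 6 * C * (A2 * Real.log Q) ^ (N + 2) ≤ Q ∧
      2 * C * D * (A2 : ℝ) ^ (N + 2) ≤ Real.log Q := by
  have hlog : Filter.Tendsto (fun Q : ℕ => Real.log (Q : ℝ)) Filter.atTop Filter.atTop :=
    Real.tendsto_log_atTop.comp tendsto_natCast_atTop_atTop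
  have h1 := hlog.eventually_ge_atTop 3
  have h2 := hlog.eventually_ge_atTop (2 * C * D * (A2 : ℝ) ^ (N + 2))
  have h3 : ∀ᶠ Q : ℕ in Filter.atTop, 6 * C * (A2 * Real.log Q) ^ (N + 2) ≤ Q := by
    have h4 : (fun x : ℝ => Real.log x ^ (N + 2)) =o[Filter.atTop] fun x => x :=
      Real.isLittleO_pow_log_id_atTop
    have h5 := (h4.const_mul_left (6 * C * (A2 : ℝ) ^ (N + 2))).bound (show (0 : ℝ) < 1 by norm_num)
    have h6 := tendsto_natCast_atTop_atTop.eventually h5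
    filter_upwards [h6] with Q hQ
    rw [one_mul, Real.norm_eq_abs, Real.norm_eq_abs, abs_of_nonneg (Nat.cast_nonneg Q : (0 : ℝ) ≤ Q)] at hQ
    have h7 := (le_abs_self _).trans hQ
    calc 6 * C * (A2 * Real.log Q) ^ (N + 2) = 6 * C * (A2 : ℝ) ^ (N + 2) * Real.log Q ^ (N + 2) := by
          rw [mul_pow]; ring
      _ ≤ Q := h7
  obtain ⟨Q0, hQ0⟩ := Filter.eventually_atTop.1
    (((Filter.eventually_ge_atTop 16).and h1).and (h3.and h2))
  exact ⟨Q0, fun Q hQ => ⟨(hQ0 Q hQ).1.1, (hQ0 Q hQ).1.2, (hQ0 Q hQ).2.1, (hQ0 Q hQ).2.2⟩⟩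

/-- the exponent of the classes -/
theorem expo (Q N : ℕ) (x e ej : ℝ) (hx : 0 < x) (hQ : 16 ≤ Q) (hL : 3 ≤ Real.log Q)
    (he : e = Real.log (Real.log Q) / (400 * Real.log Q)) (hej : e ≤ ej)
    (hlx : 800 * ((N : ℝ) + 10) * Real.log Q ≤ Real.log x) :
    x ^ (1 - ej) * (Q : ℝ) ^ (100 * (8 * ej)) ≤ x * ((Real.log Q) ^ (N + 10))⁻¹ := by
  have hQ0 : (0 : ℝ) < Q := by exact_mod_cast (by omega : 0 < Q)
  have hL0 : 0 < Real.log Q := by linarith
  have hLL : 0 < Real.log (Real.log Q) := Real.log_pos (by linarith)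
  have he0 : 0 < e := by rw [he]; positivity
  have h1 : x ^ (1 - ej) = x * Real.exp (-(ej * Real.log x)) := by
    rw [Real.rpow_sub hx, Real.rpow_one, div_eq_mul_inv, Real.rpow_def_of_pos hx, ← Real.exp_neg]
    congr 3
    ring
  have h2 : (Q : ℝ) ^ (100 * (8 * ej)) = Real.exp (800 * ej * Real.log Q) := by
    rw [Real.rpow_def_of_pos hQ0]
    congr 1
    ring
  have h3 : ((Real.log Q) ^ (N + 10))⁻¹ = Real.exp (-(((N : ℝ) + 10) * Real.log (Real.log Q))) := by
    rw [Real.exp_neg]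
    congr 1
    have : ((N : ℝ) + 10) * Real.log (Real.log Q) = ((N + 10 : ℕ) : ℝ) * Real.log (Real.log Q) := by
      push_cast; ring
    rw [this, Real.exp_nat_mul, Real.exp_log hL0]
  rw [h1, h2, h3, mul_assoc, ← Real.exp_add]
  apply mul_le_mul_of_nonneg_left _ hx.le
  apply Real.exp_le_exp.2
  have h4 : 0 ≤ Real.log x - 800 * Real.log Q := by
    have : 0 ≤ (N : ℝ) * Real.log Q := by positivity
    nlinarith
  have h5 : e * (Real.log x - 800 * Real.log Q) ≤ ej * (Real.log x - 800 * Real.log Q) :=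
    mul_le_mul_of_nonneg_right hej h4
  have h6 : e * (800 * ((N : ℝ) + 9) * Real.log Q) ≤ e * (Real.log x - 800 * Real.log Q) := by
    apply mul_le_mul_of_nonneg_left _ he0.le
    linarith
  have h7 : e * (800 * ((N : ℝ) + 9) * Real.log Q) = 2 * ((N : ℝ) + 9) * Real.log (Real.log Q) := by
    rw [he]
    field_simp
    ring
  have h8 : ((N : ℝ) + 10) * Real.log (Real.log Q) ≤ 2 * ((N : ℝ) + 9) * Real.log (Real.log Q) := by
    apply mul_le_mul_of_nonneg_right _ hLL.le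
    have : (0 : ℝ) ≤ N := Nat.cast_nonneg N
    linarith
  nlinarith

/-- the last class -/
theorem lastc (Q : ℕ) (x ej : ℝ) (hx : 0 < x) (hQ : 16 ≤ Q) (hL : 3 ≤ Real.log Q)
    (hej : 1 / 1600 ≤ ej) (hlx : 8000 * Real.log Q ≤ Real.log x) :
    x ^ (1 - ej) + x / ((Q : ℝ) ^ 3 - 1) ≤ 3 * x / (Q : ℝ) ^ 3 := by
  have hQ1 : (16 : ℝ) ≤ Q := by exact_mod_cast hQ
  have hQ0 : (0 : ℝ) < Q := by linarith
  have hL0 : 0 < Real.log Q := by linarith
  have h1 : x ^ (1 - ej) = x * Real.exp (-(ej * Real.log x)) := by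
    rw [Real.rpow_sub hx, Real.rpow_one, div_eq_mul_inv, Real.rpow_def_of_pos hx, ← Real.exp_neg]
    congr 3
    ring
  have h2 : Real.exp (-(ej * Real.log x)) ≤ ((Q : ℝ) ^ 3)⁻¹ := by
    have h3 : ((Q : ℝ) ^ 3)⁻¹ = Real.exp (-(3 * Real.log Q)) := by
      rw [Real.exp_neg]
      congr 1
      have : 3 * Real.log Q = ((3 : ℕ) : ℝ) * Real.log Q := by norm_num
      rw [this, Real.exp_nat_mul, Real.exp_log hQ0]
    rw [h3]
    apply Real.exp_le_exp.2
    have h4 : 1 / 1600 * (8000 * Real.log Q) ≤ ej * Real.log x :=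
      mul_le_mul hej hlx (by positivity) (by linarith)
    linarith
  have hQ3 : (16 : ℝ) ^ 3 ≤ (Q : ℝ) ^ 3 := pow_le_pow_left₀ (by norm_num) hQ1 3
  have h5 : x / ((Q : ℝ) ^ 3 - 1) ≤ 2 * x / (Q : ℝ) ^ 3 := by
    rw [div_le_div_iff₀ (by norm_num at hQ3; linarith) (by positivity)]
    norm_num at hQ3
    nlinarith
  have h6 : x ^ (1 - ej) ≤ x / (Q : ℝ) ^ 3 := by
    rw [h1, div_eq_mul_inv]
    exact mul_le_mul_of_nonneg_left h2 hx.le
  have h7 : 3 * x / (Q : ℝ) ^ 3 = x / (Q : ℝ) ^ 3 + 2 * x / (Q : ℝ) ^ 3 := by ring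
  linarith

end LL1

open Classical in
/-- LL1 -/
theorem ll1 (hz : St_ZF) (hd : St_DENS) : St_LL1 := by
  intro N
  obtain ⟨C, hC, hz⟩ := hz
  obtain ⟨D, hD, hd⟩ := hd
  refine ⟨800 * (N + 10), fun A2 => ?_⟩
  obtain ⟨Q0, hQ0⟩ := LL1.large N A2 C D
  refine ⟨Q0, fun Q hQ x hx1 hx2 => ?_⟩
  obtain ⟨hQ16, hL3, hc1, hc2⟩ := hQ0 Q hQ
  have hQr : (16 : ℝ) ≤ Q := by exact_mod_cast hQ16
  have hQp : (0 : ℝ) < Q := by linarith
  have hQx3 : (Q : ℝ) ^ 3 ≤ x := (pow_le_pow_right₀ (by linarith) (by omega)).trans hx1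
  have hQx1 : (Q : ℝ) ≤ x := by
    refine le_trans ?_ hQx3
    calc (Q : ℝ) = (Q : ℝ) ^ 1 := (pow_one _).symm
      _ ≤ (Q : ℝ) ^ 3 := pow_le_pow_right₀ (by linarith) (by omega)
  have hx0 : 0 < x := by linarith
  have hlx1 : 800 * ((N : ℝ) + 10) * Real.log Q ≤ Real.log x := by
    have := Real.log_le_log (by positivity) hx1
    rw [Real.log_pow] at this
    push_cast at this
    exact this
  have hlx2 : Real.log x ≤ A2 * Real.log Q := by
    have := Real.log_le_log hx0 hx2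
    rw [Real.log_pow] at this
    exact this
  have hNL : 0 ≤ (N : ℝ) * Real.log Q := by positivity
  have hlx8000 : 8000 * Real.log Q ≤ Real.log x := by nlinarith
  set e : ℝ := ez Q / 4 with he
  have he' : e = Real.log (Real.log Q) / (400 * Real.log Q) := by
    rw [he, ez, div_div]
    congr 1
    ring
  have hLL1 : 1 ≤ Real.log (Real.log Q) := by
    rw [Real.le_log_iff_exp_le (by linarith)]
    have := Real.exp_one_lt_d9
    linarith
  have he0 : 0 < e := by rw [he']; positivity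
  have he1 : e ≤ 1 / 800 := by
    rw [he', div_le_div_iff₀ (by positivity) (by norm_num)]
    have h1 := Real.log_le_sub_one_of_pos (show 0 < Real.log Q / 2 by linarith)
    rw [Real.log_div (by linarith) (by norm_num)] at h1
    have h2 := Real.log_two_lt_d9
    linarith
  have he2 : 1 / (800 * e) ≤ Real.log Q := by
    rw [div_le_iff₀ (by positivity), he']
    have : Real.log Q * (800 * (Real.log (Real.log Q) / (400 * Real.log Q))) =
        2 * Real.log (Real.log Q) := by field_simp; norm_num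
    rw [this]
    linarith
  obtain ⟨J, hJ1, hJ2, hJL⟩ := LL1.exists_J e (Real.log Q) he0 he1 he2
  set T : ℝ := (Q : ℝ) ^ 3 - 1 with hT
  have hQ3 : (4096 : ℝ) ≤ (Q : ℝ) ^ 3 := by
    calc (4096 : ℝ) = 16 ^ 3 := by norm_num
      _ ≤ (Q : ℝ) ^ 3 := pow_le_pow_left₀ (by norm_num) hQr 3
  have hT1 : T + 1 = (Q : ℝ) ^ 3 := by rw [hT]; ring
  have hT2 : 2 ≤ T := by rw [hT]; linarith
  have hTx : T ≤ x := by rw [hT]; linarith
  have hej1 : ∀ j : ℕ, e ≤ 2 ^ j * e := fun j => by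
    have : (1 : ℝ) ≤ 2 ^ j := one_le_pow₀ (by norm_num)
    nlinarith
  have hej2 : ∀ j : ℕ, j ≤ J → 2 ^ j * e ≤ 1 / 800 := fun j hj => by
    refine le_trans ?_ hJ1
    exact mul_le_mul_of_nonneg_right (pow_le_pow_right₀ (by norm_num) hj) he0.le
  have helx : 1 ≤ e * Real.log x := by
    have h1 : e * (8000 * Real.log Q) = 20 * Real.log (Real.log Q) := by
      rw [he']; field_simp; norm_num
    have h2 : e * (8000 * Real.log Q) ≤ e * Real.log x :=
      mul_le_mul_of_nonneg_left hlx8000 he0.le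
    linarith
  set B : ℝ := C * (Real.log x) ^ 2 with hB
  have hlx0 : 0 < Real.log x := by linarith
  have hB0 : 0 ≤ B := by rw [hB]; positivity
  -- the bound for one modulus
  have hone : ∀ f ∈ Icc 2 Q, ∑ χ ∈ (univ : Finset (DirichletCharacter ℂ f)).filter
      (fun χ => χ.IsPrimitive ∧ ¬ HZ χ (ez Q) ((Q : ℝ) ^ 3)), ‖psiLog x f χ‖ ≤
      (∑ j ∈ range J, (((univ : Finset (DirichletCharacter ℂ f)).filter
        (fun χ => χ.IsPrimitive ∧ HZ χ (8 * (2 ^ j * e)) ((Q : ℝ) ^ 3))).card : ℝ) *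
          (B * x ^ (1 - 2 ^ j * e))) + Q * (B * (x ^ (1 - 2 ^ J * e) + x / T)) := by
    intro f hf
    rw [mem_Icc] at hf
    have hpt : ∀ χ ∈ (univ : Finset (DirichletCharacter ℂ f)).filter
        (fun χ => χ.IsPrimitive ∧ ¬ HZ χ (ez Q) ((Q : ℝ) ^ 3)), ‖psiLog x f χ‖ ≤
        (∑ j ∈ range J, if HZ χ (8 * (2 ^ j * e)) ((Q : ℝ) ^ 3) then
          B * x ^ (1 - 2 ^ j * e) else 0) + B * (x ^ (1 - 2 ^ J * e) + x / T) := by
      intro χ hχ
      rw [mem_filter] at hχ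
      have h4e : 4 * e = ez Q := by rw [he]; ring
      have h := LL1.point χ x T e B J hB0 hx0 (by linarith)
        (by rw [h4e, hT1]; exact hχ.2.2) (by
          intro j hj hnz
          have h1 := hz f χ (by omega) hχ.2.1 (2 ^ j * e) T x (by positivity)
            (by have := hej2 j hj; linarith) hT2
            (by
              have := mul_le_mul_of_nonneg_right (hej1 j) hlx0.le
              linarith)
            (by
              have : (f : ℝ) ≤ Q := by exact_mod_cast hf.2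
              linarith) hTx hnz
          exact h1)
      rw [hT1] at h
      exact h
    refine (Finset.sum_le_sum hpt).trans ?_
    rw [Finset.sum_add_distrib, Finset.sum_comm, Finset.sum_const, nsmul_eq_mul]
    apply add_le_add
    · apply Finset.sum_le_sum
      intro j _
      rw [← Finset.sum_filter, Finset.sum_const, nsmul_eq_mul]
      apply mul_le_mul_of_nonneg_right _ (mul_nonneg hB0 (Real.rpow_nonneg hx0.le _))
      have hsub : (((univ : Finset (DirichletCharacter ℂ f)).filter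
          (fun χ => χ.IsPrimitive ∧ ¬ HZ χ (ez Q) ((Q : ℝ) ^ 3))).filter
          (fun χ => HZ χ (8 * (2 ^ j * e)) ((Q : ℝ) ^ 3))) ⊆
          (univ : Finset (DirichletCharacter ℂ f)).filter
          (fun χ => χ.IsPrimitive ∧ HZ χ (8 * (2 ^ j * e)) ((Q : ℝ) ^ 3)) := by
        intro χ hχ
        simp only [mem_filter, mem_univ, true_and] at hχ ⊢
        exact ⟨hχ.1.1, hχ.2⟩
      exact Nat.cast_le.2 (Finset.card_le_card hsub)
    · apply mul_le_mul_of_nonneg_right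
      · have h1 : ((univ : Finset (DirichletCharacter ℂ f)).filter
            (fun χ => χ.IsPrimitive ∧ ¬ HZ χ (ez Q) ((Q : ℝ) ^ 3))).card ≤ Q :=
          (Finset.card_filter_le _ _).trans
            ((LL1.card_le f (by omega)).trans hf.2)
        exact_mod_cast h1
      · apply mul_nonneg hB0
        have := Real.rpow_nonneg hx0.le (1 - 2 ^ J * e)
        have : 0 ≤ x / T := by positivity
        linarith
  refine (Finset.sum_le_sum hone).trans ?_
  rw [Finset.sum_add_distrib, Finset.sum_comm, Finset.sum_const, nsmul_eq_mul]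
  -- the classes
  have hcl : ∑ j ∈ range J, ∑ f ∈ Icc 2 Q, (((univ : Finset (DirichletCharacter ℂ f)).filter
        (fun χ => χ.IsPrimitive ∧ HZ χ (8 * (2 ^ j * e)) ((Q : ℝ) ^ 3))).card : ℝ) *
          (B * x ^ (1 - 2 ^ j * e)) ≤
      Real.log Q * (B * D * (Real.log Q) ^ 6 * (x * ((Real.log Q) ^ (N + 10))⁻¹)) := by
    have hj : ∀ j ∈ range J, ∑ f ∈ Icc 2 Q, (((univ : Finset (DirichletCharacter ℂ f)).filter
        (fun χ => χ.IsPrimitive ∧ HZ χ (8 * (2 ^ j * e)) ((Q : ℝ) ^ 3))).card : ℝ) *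
          (B * x ^ (1 - 2 ^ j * e)) ≤
          B * D * (Real.log Q) ^ 6 * (x * ((Real.log Q) ^ (N + 10))⁻¹) := by
      intro j hj
      rw [mem_range] at hj
      have h1 := hd Q (by omega) (8 * (2 ^ j * e)) (by positivity)
        (by have := hej2 j hj.le; linarith)
      have h2 := LL1.expo Q N x e (2 ^ j * e) hx0 hQ16 hL3 he' (hej1 j) hlx1
      rw [← Finset.sum_mul]
      have h3 : 0 ≤ B * x ^ (1 - 2 ^ j * e) := mul_nonneg hB0 (Real.rpow_nonneg hx0.le _)
      calc _ ≤ (D * (Real.log Q) ^ 6 * (Q : ℝ) ^ (100 * (8 * (2 ^ j * e)))) *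
            (B * x ^ (1 - 2 ^ j * e)) := mul_le_mul_of_nonneg_right h1 h3
        _ = B * D * (Real.log Q) ^ 6 *
            (x ^ (1 - 2 ^ j * e) * (Q : ℝ) ^ (100 * (8 * (2 ^ j * e)))) := by ring
        _ ≤ B * D * (Real.log Q) ^ 6 * (x * ((Real.log Q) ^ (N + 10))⁻¹) :=
            mul_le_mul_of_nonneg_left h2 (by positivity)
    refine (Finset.sum_le_sum hj).trans ?_
    rw [Finset.sum_const, nsmul_eq_mul, card_range]
    exact mul_le_mul_of_nonneg_right hJL (by positivity)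
  -- the rest
  have hrest : ((Icc 2 Q).card : ℝ) * (Q * (B * (x ^ (1 - 2 ^ J * e) + x / T))) ≤
      Q * (Q * (B * (3 * x / (Q : ℝ) ^ 3))) := by
    have h1 := LL1.lastc Q x (2 ^ J * e) hx0 hQ16 hL3 hJ2.le hlx8000
    have h2 : ((Icc 2 Q).card : ℝ) ≤ Q := by
      rw [Nat.card_Icc]
      exact_mod_cast (by omega : Q + 1 - 2 ≤ Q)
    have h3 : 0 ≤ x ^ (1 - 2 ^ J * e) + x / T := by
      have := Real.rpow_nonneg hx0.le (1 - 2 ^ J * e)
      have : 0 ≤ x / T := by positivity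
      linarith
    apply mul_le_mul h2 _ (by positivity) hQp.le
    apply mul_le_mul_of_nonneg_left _ hQp.le
    exact mul_le_mul_of_nonneg_left h1 hB0
  refine (add_le_add hcl hrest).trans ?_
  -- final
  rw [le_div_iff₀ (by positivity)]
  have hpow : (Real.log x) ^ (N + 2) ≤ (A2 * Real.log Q) ^ (N + 2) :=
    pow_le_pow_left₀ hlx0.le hlx2 _
  have hf1 : Real.log Q * (B * D * (Real.log Q) ^ 6 * (x * ((Real.log Q) ^ (N + 10))⁻¹)) *
      (Real.log x) ^ N ≤ x / 2 := by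
    have h1 : Real.log Q * (B * D * (Real.log Q) ^ 6 * (x * ((Real.log Q) ^ (N + 10))⁻¹)) *
        (Real.log x) ^ N = C * D * x * ((Real.log Q) ^ 7 * ((Real.log Q) ^ (N + 10))⁻¹) *
          (Real.log x) ^ (N + 2) := by
      rw [hB]; ring
    have h2 : C * D * x * ((Real.log Q) ^ 7 * ((Real.log Q) ^ (N + 10))⁻¹) *
          (Real.log x) ^ (N + 2) ≤ C * D * x * ((Real.log Q) ^ 7 * ((Real.log Q) ^ (N + 10))⁻¹) *
          (A2 * Real.log Q) ^ (N + 2) := mul_le_mul_of_nonneg_left hpow (by positivity)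
    have h3 : C * D * x * ((Real.log Q) ^ 7 * ((Real.log Q) ^ (N + 10))⁻¹) *
          (A2 * Real.log Q) ^ (N + 2) = (2 * C * D * (A2 : ℝ) ^ (N + 2)) * (x / (2 * Real.log Q)) := by
      have hl : Real.log Q ≠ 0 := by linarith
      rw [mul_pow]
      field_simp
      ring
    have h4 : (2 * C * D * (A2 : ℝ) ^ (N + 2)) * (x / (2 * Real.log Q)) ≤
        Real.log Q * (x / (2 * Real.log Q)) := mul_le_mul_of_nonneg_right hc2 (by positivity)
    have h5 : Real.log Q * (x / (2 * Real.log Q)) = x / 2 := by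
      have hl : Real.log Q ≠ 0 := by linarith
      field_simp
    linarith
  have hf2 : Q * (Q * (B * (3 * x / (Q : ℝ) ^ 3))) * (Real.log x) ^ N ≤ x / 2 := by
    have h1 : Q * (Q * (B * (3 * x / (Q : ℝ) ^ 3))) * (Real.log x) ^ N =
        (6 * C * (Real.log x) ^ (N + 2)) * (x / (2 * Q)) := by
      rw [hB]
      field_simp
      ring
    have h2 : (6 * C * (Real.log x) ^ (N + 2)) * (x / (2 * Q)) ≤ Q * (x / (2 * Q)) := by
      apply mul_le_mul_of_nonneg_right _ (by positivity)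
      refine le_trans ?_ hc1
      exact mul_le_mul_of_nonneg_left hpow (by positivity)
    have h3 : (Q : ℝ) * (x / (2 * Q)) = x / 2 := by field_simp
    linarith
  rw [add_mul]
  linarith

end Pool.Agent.H262R3.Lk
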