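import Mathlib
import Pool.Agent.H262R3.Lk.Stubs2

/-! LOW (helper19): lower bound of `|L|` and uniqueness of the exceptional modulus. -/

open Finset

namespace Pool.Agent.H262R3.Lk

open Pool.Agent.H318R2.Cr (Rgh V)

namespace LOW

open DirichletCharacter

theorem fz_cl {z q N : ℕ} (hN0 : 0 < N) (hN : N ≤ z) (h : q ∣ N) (χ : DirichletCharacter ℂ q)
    (n : ℕ) : fz z (changeLevel h χ) n = fz z χ n := by
  unfold fz
  by_cases hr : Rgh z n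
  · rw [if_pos hr, if_pos hr]
    have hcop : n.Coprime N := by
      apply Nat.Coprime.symm
      apply Nat.Coprime.symm
      by_contra hc
      obtain ⟨p, hp, h1, h2⟩ := Nat.Prime.not_coprime_iff_dvd.mp hc
      exact hr p hp ((Nat.le_of_dvd hN0 h2).trans hN) h1
    have h1 := changeLevel_eq_cast_of_dvd' χ h (a := (n : ℤ))
      (by exact_mod_cast Nat.isCoprime_iff_coprime.mpr hcop)
    push_cast at h1
    exact h1
  · rw [if_neg hr, if_neg hr]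

theorem Lj_cl {z q N : ℕ} (hN0 : 0 < N) (hN : N ≤ z) (h : q ∣ N) (χ : DirichletCharacter ℂ q)
    (j : ℕ) (σ : ℝ) : Lj z (changeLevel h χ) j σ = Lj z χ j σ := by
  unfold Lj
  refine tsum_congr fun n => ?_
  rw [fz_cl hN0 hN h χ n]

/-- exceptional modulus -/
def Exc (z : ℕ) (δ : ℝ) (f : ℕ) : Prop :=
  1 < f ∧ f ^ 16 ≤ z ∧ ∃ ψ : DirichletCharacter ℂ f, ψ.IsPrimitive ∧ ψ ^ 2 = 1 ∧
    ∃ σ : ℝ, 0 < σ ∧ σ * Real.log z ≤ δ ∧ ‖Lj z ψ 0 σ‖ < δ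

theorem pow8_of_pow16 {q z : ℕ} (h : q ^ 16 ≤ z) : q ^ 8 ≤ z := by
  rcases Nat.eq_zero_or_pos q with h0 | h0
  · subst h0; simp
  · exact (Nat.pow_le_pow_right h0 (by norm_num)).trans h

theorem primitive_ne_one {f : ℕ} (hf : 1 < f) {ψ : DirichletCharacter ℂ f} (h : ψ.IsPrimitive) :
    ψ ≠ 1 := by
  have : NeZero f := ⟨by omega⟩
  intro h1
  have h2 : ψ.conductor = f := h
  rw [h1, conductor_one] at h2
  omega

theorem unique_exc (heul : St_EUL) {C : ℝ} (hC1 : 1 ≤ C)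
    (hC : ∀ (z q : ℕ) (χ : DirichletCharacter ℂ q) (σ : ℝ), 32 ≤ z → 1 ≤ q →
      q ^ 8 ≤ z → 0 < σ → σ * Real.log z ≤ 1 →
      (χ ≠ 1 → ∀ j : ℕ, j ≤ 3 → ‖Lj z χ j σ‖ ≤ C * (Real.log z) ^ j) ∧
      ‖Lj z (1 : DirichletCharacter ℂ q) 0 σ‖ ≤ C / (σ * Real.log z) ∧
      (χ ≠ 1 → ∀ τ : ℝ, 0 < τ → τ * Real.log z ≤ 1 →
        ‖Lj z χ 0 σ - Lj z χ 0 τ‖ ≤ C * Real.log z * |σ - τ|))
    {δ : ℝ} (hδ0 : 0 < δ) (hδ1 : δ ≤ 1) (hδ : C ^ 2 * (1 + C) ^ 2 * δ < 1) {z : ℕ} (hz : 32 ≤ z)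
    {f1 f2 : ℕ} (h1 : Exc z δ f1) (h2 : Exc z δ f2) : f1 = f2 := by
  obtain ⟨h1f, h1z, ψ1, h1p, h1s, σ1, h1σ, h1L, h1b⟩ := h1
  obtain ⟨h2f, h2z, ψ2, h2p, h2s, σ2, h2σ, h2L, h2b⟩ := h2
  by_contra hne
  have hzr : (32:ℝ) ≤ z := by exact_mod_cast hz
  have hL : 0 < Real.log z := Real.log_pos (by linarith)
  set L := Real.log z with hLdef
  set N := f1 * f2 with hN
  have hN0 : 0 < N := Nat.mul_pos (by omega) (by omega)
  have : NeZero N := ⟨by omega⟩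
  have hN8 : N ^ 8 ≤ z := by
    have h3 : (N ^ 8) ^ 2 ≤ z ^ 2 := by
      calc (N ^ 8) ^ 2 = f1 ^ 16 * f2 ^ 16 := by rw [hN]; ring
        _ ≤ z * z := Nat.mul_le_mul h1z h2z
        _ = z ^ 2 := by ring
    exact (Nat.pow_le_pow_iff_left (by norm_num)).mp h3
  have hNz : N ≤ z := by
    calc N = N ^ 1 := (pow_one _).symm
      _ ≤ N ^ 8 := Nat.pow_le_pow_right hN0 (by norm_num)
      _ ≤ z := hN8
  have hd1 : f1 ∣ N := ⟨f2, rfl⟩
  have hd2 : f2 ∣ N := ⟨f1, by rw [hN, mul_comm]⟩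
  set σ := δ / L with hσ
  have hσ0 : 0 < σ := by positivity
  have hσL : σ * L = δ := by rw [hσ]; field_simp
  -- bounds at σ
  have key : ∀ (f : ℕ) (ψ : DirichletCharacter ℂ f) (s : ℝ), 1 < f → f ^ 16 ≤ z → ψ.IsPrimitive →
      0 < s → s * L ≤ δ → ‖Lj z ψ 0 s‖ < δ → ‖Lj z ψ 0 σ‖ ≤ δ * (1 + C) := by
    intro f ψ s hf hfz hp hs hsL hb
    have h3 := (hC z f ψ σ hz (by omega) (pow8_of_pow16 hfz) hσ0 (by rw [← hLdef, hσL]; exact hδ1)).2.2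
      (primitive_ne_one hf hp) s hs (by rw [← hLdef]; linarith)
    have h4 : |σ - s| ≤ δ / L := by
      have h5 : s ≤ δ / L := by rw [le_div_iff₀ hL]; exact hsL
      rw [abs_le]
      constructor <;> linarith
    have h6 : C * L * |σ - s| ≤ C * δ := by
      calc C * L * |σ - s| ≤ C * L * (δ / L) := by gcongr
        _ = C * δ := by field_simp
    have h7 := norm_le_insert' (Lj z ψ 0 σ) (Lj z ψ 0 s)
    calc ‖Lj z ψ 0 σ‖ ≤ ‖Lj z ψ 0 s‖ + ‖Lj z ψ 0 σ - Lj z ψ 0 s‖ := h7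
      _ ≤ δ + C * δ := add_le_add hb.le (h3.trans h6)
      _ = _ := by ring
  have k1 := key f1 ψ1 σ1 h1f h1z h1p h1σ h1L h1b
  have k2 := key f2 ψ2 σ2 h2f h2z h2p h2σ h2L h2b
  set χ1 := changeLevel hd1 ψ1 with hχ1
  set χ2 := changeLevel hd2 ψ2 with hχ2
  have hs1 : χ1 ^ 2 = 1 := by rw [hχ1, ← map_pow, h1s, map_one]
  have hs2 : χ2 ^ 2 = 1 := by rw [hχ2, ← map_pow, h2s, map_one]
  have hprod : χ1 * χ2 ≠ 1 := by
    intro h3
    apply hne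
    have h4 : χ1 = χ2 := by
      have h5 : χ1 * (χ2 * χ2) = χ2 := by rw [← mul_assoc, h3, one_mul]
      rw [← sq, hs2, mul_one] at h5
      exact h5
    have h5 : χ1.conductor = f1 := by rw [hχ1, conductor_changeLevel]; exact h1p
    have h6 : χ2.conductor = f2 := by rw [hχ2, conductor_changeLevel]; exact h2p
    rw [← h5, ← h6, h4]
  have hE := (heul z N χ1 χ2 σ hz hN0 hNz hσ0).2.2 hs1 hs2
  rw [hχ1, hχ2, Lj_cl hN0 hNz, Lj_cl hN0 hNz, ← hχ1, ← hχ2] at hE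
  have b1 := (hC z N 1 σ hz (by omega) hN8 hσ0 (by rw [← hLdef, hσL]; exact hδ1)).2.1
  rw [← hLdef, hσL] at b1
  have b2 := (hC z N (χ1 * χ2) σ hz (by omega) hN8 hσ0 (by rw [← hLdef, hσL]; exact hδ1)).1 hprod 0
    (by norm_num)
  rw [pow_zero, mul_one] at b2
  have hfin : ‖Lj z (1 : DirichletCharacter ℂ N) 0 σ‖ * ‖Lj z ψ1 0 σ‖ * ‖Lj z ψ2 0 σ‖ *
      ‖Lj z (χ1 * χ2) 0 σ‖ ≤ (C / δ) * (δ * (1 + C)) * (δ * (1 + C)) * C := by
    gcongr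
  have : (C / δ) * (δ * (1 + C)) * (δ * (1 + C)) * C = C ^ 2 * (1 + C) ^ 2 * δ := by
    field_simp
  linarith

theorem complex_case (heul : St_EUL) {C : ℝ} (hC1 : 1 ≤ C)
    (hC : ∀ (z q : ℕ) (χ : DirichletCharacter ℂ q) (σ : ℝ), 32 ≤ z → 1 ≤ q →
      q ^ 8 ≤ z → 0 < σ → σ * Real.log z ≤ 1 →
      (χ ≠ 1 → ∀ j : ℕ, j ≤ 3 → ‖Lj z χ j σ‖ ≤ C * (Real.log z) ^ j) ∧
      ‖Lj z (1 : DirichletCharacter ℂ q) 0 σ‖ ≤ C / (σ * Real.log z) ∧
      (χ ≠ 1 → ∀ τ : ℝ, 0 < τ → τ * Real.log z ≤ 1 →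
        ‖Lj z χ 0 σ - Lj z χ 0 τ‖ ≤ C * Real.log z * |σ - τ|))
    {e : ℝ} (he : e = 1 / (2 * C ^ 2)) {z q : ℕ} (hz : 32 ≤ z) (hq : 1 ≤ q) (hq8 : q ^ 8 ≤ z)
    (χ : DirichletCharacter ℂ q) (hχ1 : χ ≠ 1) (hχ : χ ^ 2 ≠ 1) {σ : ℝ} (hσ : 0 < σ)
    (hσL : σ * Real.log z ≤ e ^ 4) : e ^ 3 / (2 * C) ≤ ‖Lj z χ 0 σ‖ := by
  have hzr : (32:ℝ) ≤ z := by exact_mod_cast hz
  have hL : 0 < Real.log z := Real.log_pos (by linarith)
  set L := Real.log z with hLdef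
  have hC0 : 0 < C := by linarith
  have he0 : 0 < e := by rw [he]; positivity
  have he1 : e ≤ 1 := by
    rw [he, div_le_one (by positivity)]
    nlinarith
  have he4 : e ^ 4 ≤ 1 := pow_le_one₀ he0.le he1
  set τ := e ^ 4 / L with hτ
  have hτ0 : 0 < τ := by positivity
  have hτL : τ * L = e ^ 4 := by rw [hτ]; field_simp
  have hqz : q ≤ z := by
    calc q = q ^ 1 := (pow_one _).symm
      _ ≤ q ^ 8 := Nat.pow_le_pow_right hq (by norm_num)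
      _ ≤ z := hq8
  have hE := (heul z q χ χ τ hz hq hqz hτ0).1
  have b1 := (hC z q 1 τ hz hq hq8 hτ0 (by rw [← hLdef, hτL]; exact he4)).2.1
  rw [← hLdef, hτL] at b1
  have b2 := (hC z q (χ ^ 2) τ hz hq hq8 hτ0 (by rw [← hLdef, hτL]; exact he4)).1 hχ 0 (by norm_num)
  rw [pow_zero, mul_one] at b2
  have h1 : (1:ℝ) ≤ (C / e ^ 4) ^ 3 * ‖Lj z χ 0 τ‖ ^ 4 * C := by
    refine hE.trans ?_
    gcongr
  have h2 : (e ^ 3 / C) ^ 4 ≤ ‖Lj z χ 0 τ‖ ^ 4 := by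
    have h3 : (C / e ^ 4) ^ 3 * ‖Lj z χ 0 τ‖ ^ 4 * C = ‖Lj z χ 0 τ‖ ^ 4 / (e ^ 3 / C) ^ 4 := by
      field_simp
    rw [h3, le_div_iff₀ (by positivity), one_mul] at h1
    exact h1
  have h3 : e ^ 3 / C ≤ ‖Lj z χ 0 τ‖ := (pow_le_pow_iff_left₀ (by positivity) (norm_nonneg _)
    (by norm_num)).mp h2
  have h4 := (hC z q χ τ hz hq hq8 hτ0 (by rw [← hLdef, hτL]; exact he4)).2.2 hχ1 σ hσ
    (by rw [← hLdef]; linarith)
  have h5 : |τ - σ| ≤ e ^ 4 / L := by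
    have h6 : σ ≤ e ^ 4 / L := by rw [le_div_iff₀ hL]; exact hσL
    rw [abs_le]
    constructor <;> linarith
  have h6 : C * L * |τ - σ| ≤ e ^ 3 / (2 * C) := by
    calc C * L * |τ - σ| ≤ C * L * (e ^ 4 / L) := by gcongr
      _ = C * e * e ^ 3 := by field_simp
      _ = e ^ 3 / (2 * C) := by
          have : C * e = 1 / (2 * C) := by rw [he]; field_simp
          rw [this]; ring
  have h7 := norm_le_insert' (Lj z χ 0 τ) (Lj z χ 0 σ)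
  have h8 : e ^ 3 / C = e ^ 3 / (2 * C) + e ^ 3 / (2 * C) := by field_simp; ring
  linarith

end LOW

open DirichletCharacter in
theorem low (heul : St_EUL) (hbnd : St_BND) : St_LOW := by
  obtain ⟨C, hC1, hC⟩ := hbnd
  have hC0 : 0 < C := by linarith
  set e : ℝ := 1 / (2 * C ^ 2) with he
  have he0 : 0 < e := by positivity
  set δ : ℝ := min (e ^ 4) (min (1 / (2 * (C ^ 2 * (1 + C) ^ 2))) (1 / 2)) with hδ
  have hδ0 : 0 < δ := by
    rw [hδ]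
    apply lt_min (by positivity) (lt_min (by positivity) (by norm_num))
  have hδe : δ ≤ e ^ 4 := min_le_left _ _
  have hδC : δ ≤ 1 / (2 * (C ^ 2 * (1 + C) ^ 2)) := (min_le_right _ _).trans (min_le_left _ _)
  have hδh : δ ≤ 1 / 2 := (min_le_right _ _).trans (min_le_right _ _)
  have hδlt : C ^ 2 * (1 + C) ^ 2 * δ < 1 := by
    have h1 : C ^ 2 * (1 + C) ^ 2 * δ ≤ C ^ 2 * (1 + C) ^ 2 * (1 / (2 * (C ^ 2 * (1 + C) ^ 2))) :=
      mul_le_mul_of_nonneg_left hδC (by positivity)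
    have h2 : C ^ 2 * (1 + C) ^ 2 * (1 / (2 * (C ^ 2 * (1 + C) ^ 2))) = 1 / 2 := by
      field_simp
    linarith
  refine ⟨min (e ^ 3 / (2 * C)) δ, δ, lt_min (by positivity) hδ0, hδ0, by linarith, ?_⟩
  intro z hz
  have hzr : (32:ℝ) ≤ z := by exact_mod_cast hz
  have hL1 : 1 ≤ Real.log z := by
    rw [Real.le_log_iff_exp_le (by linarith)]
    have := Real.exp_one_lt_d9
    linarith
  have hmain : ∀ q1 : ℕ, (∀ f, LOW.Exc z δ f → f = q1) → ∀ q : ℕ, 1 ≤ q → q ^ 16 ≤ z → ¬ q1 ∣ q →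
      ∀ χ : DirichletCharacter ℂ q, χ ≠ 1 → ∀ σ : ℝ, 0 < σ → σ * Real.log z ≤ δ →
        min (e ^ 3 / (2 * C)) δ ≤ ‖Lj z χ 0 σ‖ := by
    intro q1 hq1 q hq hq16 hndvd χ hχ σ hσ hσL
    have : NeZero q := ⟨by omega⟩
    by_cases hsq : χ ^ 2 = 1
    · refine (min_le_right _ _).trans ?_
      by_contra hcon
      push Not at hcon
      have hf : χ.conductor ∣ q := conductor_dvd_level χ
      have hf1 : 1 < χ.conductor := by
        have h1 : χ.conductor ≠ 0 := conductor_ne_zero χ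
        have h2 : χ.conductor ≠ 1 := fun h => hχ (eq_one_iff_conductor_eq_one.mpr h)
        omega
      have hcl : changeLevel hf χ.primitiveCharacter = χ := changeLevel_primitiveCharacter χ
      have hqz : q ≤ z := by
        calc q = q ^ 1 := (pow_one _).symm
          _ ≤ q ^ 16 := Nat.pow_le_pow_right hq (by norm_num)
          _ ≤ z := hq16
      have hLe : Lj z χ 0 σ = Lj z χ.primitiveCharacter 0 σ := by
        conv_lhs => rw [← hcl]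
        exact LOW.Lj_cl hq hqz hf _ 0 σ
      have hexc : LOW.Exc z δ χ.conductor := by
        refine ⟨hf1, (Nat.pow_le_pow_left (Nat.le_of_dvd hq hf) 16).trans hq16,
          χ.primitiveCharacter, primitiveCharacter_isPrimitive χ, ?_, σ, hσ, hσL, ?_⟩
        · apply changeLevel_injective hf
          rw [map_pow, hcl, hsq, map_one]
        · rw [← hLe]; exact hcon
      apply hndvd
      rw [← hq1 _ hexc]
      exact hf
    · refine (min_le_left _ _).trans ?_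
      exact LOW.complex_case heul hC1 hC he hz hq (LOW.pow8_of_pow16 hq16) χ hχ hsq hσ
        (hσL.trans hδe)
  by_cases hex : ∃ f, LOW.Exc z δ f
  · obtain ⟨f, hf⟩ := hex
    refine ⟨f, hf.1, Or.inr ?_, ?_⟩
    · obtain ⟨_, _, ψ, hp, _, σ, hσ, hσL, hb⟩ := hf
      refine ⟨ψ, hp, σ, hσ, ?_, by linarith⟩
      nlinarith
    · exact hmain f fun g hg => LOW.unique_exc heul hC1 hC hδ0 (by linarith) hδlt hz hg hf
  · refine ⟨z + 1, by omega, Or.inl (by omega), ?_⟩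
    exact hmain (z + 1) fun g hg => absurd ⟨g, hg⟩ hex

end Pool.Agent.H262R3.Lk
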