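import Mathlib
import Pool.Agent.H262R3.Lk.Stubs3
import Pool.Agent.H262R3.Lk.LOW

/-! LOW2 (helper19): as LOW, with a real exceptional character. -/

open Finset

namespace Pool.Agent.H262R3.Lk

open Pool.Agent.H318R2.Cr (Rgh V)

open DirichletCharacter in
theorem low2 (heul : St_EUL) (hbnd : St_BND) : St_LOW2 := by
  obtain ⟨C, hC1, hC⟩ := hbnd
  have hC0 : 0 < C := by linarith
  set e : ℝ := 1 / (2 * C ^ 2) with he
  have he0 : 0 < e := by positivity
  set δ : ℝ := min (e ^ 4) (min (1 / (2 * (C ^ 2 * (1 + C) ^ 2))) (1 / 2)) with hδ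
  have hδ0 : 0 < δ := by
    rw [hδ]
    apply lt_min (by positivity) (lt_min (by positivity) (by norm_num))
  have hδe : δ ≤ e ^ 4 := min_le_left _ _
  have hδC : δ ≤ 1 / (2 * (C ^ 2 * (1 + C) ^ 2)) := (min_le_right _ _).trans (min_le_left _ _)
  have hδh : δ ≤ 1 / 2 := (min_le_right _ _).trans (min_le_right _ _)
  have hδlt : C ^ 2 * (1 + C) ^ 2 * δ < 1 := by
    have h1 : C ^ 2 * (1 + C) ^ 2 * δ ≤ C ^ 2 * (1 + C) ^ 2 * (1 / (2 * (C ^ 2 * (1 + C) ^ 2))) :=
      mul_le_mul_of_nonneg_left hδC (by positivity)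
    have h2 : C ^ 2 * (1 + C) ^ 2 * (1 / (2 * (C ^ 2 * (1 + C) ^ 2))) = 1 / 2 := by
      field_simp
    linarith
  refine ⟨min (e ^ 3 / (2 * C)) δ, δ, lt_min (by positivity) hδ0, hδ0, by linarith, ?_⟩
  intro z hz
  have hzr : (32:ℝ) ≤ z := by exact_mod_cast hz
  have hL1 : 1 ≤ Real.log z := by
    rw [Real.le_log_iff_exp_le (by linarith)]
    have := Real.exp_one_lt_d9
    linarith
  have hmain : ∀ q1 : ℕ, (∀ f, LOW.Exc z δ f → f = q1) → ∀ q : ℕ, 1 ≤ q → q ^ 16 ≤ z → ¬ q1 ∣ q →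
      ∀ χ : DirichletCharacter ℂ q, χ ≠ 1 → ∀ σ : ℝ, 0 < σ → σ * Real.log z ≤ δ →
        min (e ^ 3 / (2 * C)) δ ≤ ‖Lj z χ 0 σ‖ := by
    intro q1 hq1 q hq hq16 hndvd χ hχ σ hσ hσL
    have : NeZero q := ⟨by omega⟩
    by_cases hsq : χ ^ 2 = 1
    · refine (min_le_right _ _).trans ?_
      by_contra hcon
      push Not at hcon
      have hf : χ.conductor ∣ q := conductor_dvd_level χ
      have hf1 : 1 < χ.conductor := by
        have h1 : χ.conductor ≠ 0 := conductor_ne_zero χ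
        have h2 : χ.conductor ≠ 1 := fun h => hχ (eq_one_iff_conductor_eq_one.mpr h)
        omega
      have hcl : changeLevel hf χ.primitiveCharacter = χ := changeLevel_primitiveCharacter χ
      have hqz : q ≤ z := by
        calc q = q ^ 1 := (pow_one _).symm
          _ ≤ q ^ 16 := Nat.pow_le_pow_right hq (by norm_num)
          _ ≤ z := hq16
      have hLe : Lj z χ 0 σ = Lj z χ.primitiveCharacter 0 σ := by
        conv_lhs => rw [← hcl]
        exact LOW.Lj_cl hq hqz hf _ 0 σ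
      have hexc : LOW.Exc z δ χ.conductor := by
        refine ⟨hf1, (Nat.pow_le_pow_left (Nat.le_of_dvd hq hf) 16).trans hq16,
          χ.primitiveCharacter, primitiveCharacter_isPrimitive χ, ?_, σ, hσ, hσL, ?_⟩
        · apply changeLevel_injective hf
          rw [map_pow, hcl, hsq, map_one]
        · rw [← hLe]; exact hcon
      apply hndvd
      rw [← hq1 _ hexc]
      exact hf
    · refine (min_le_left _ _).trans ?_
      exact LOW.complex_case heul hC1 hC he hz hq (LOW.pow8_of_pow16 hq16) χ hχ hsq hσ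
        (hσL.trans hδe)
  by_cases hex : ∃ f, LOW.Exc z δ f
  · obtain ⟨f, hf⟩ := hex
    refine ⟨f, hf.1, Or.inr ?_, ?_⟩
    · obtain ⟨_, _, ψ, hp, hsq, σ, hσ, hσL, hb⟩ := hf
      refine ⟨ψ, hp, hsq, σ, hσ, ?_, by linarith⟩
      nlinarith
    · exact hmain f fun g hg => LOW.unique_exc heul hC1 hC hδ0 (by linarith) hδlt hz hg hf
  · refine ⟨z + 1, by omega, Or.inl (by omega), ?_⟩
    exact hmain (z + 1) fun g hg => absurd ⟨g, hg⟩ hex

end Pool.Agent.H262R3.Lk
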