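import Pool.Agent.H262R3.Lk.Stubs2

/-!
# ORT: orthogonality relations for the series
-/

open Finset

namespace Pool.Agent.H262R3.Lk

open Pool.Agent.H318R2.Cr (Rgh V)

namespace ORT

theorem fz_norm (z : ℕ) {q : ℕ} (χ : DirichletCharacter ℂ q) (n : ℕ) : ‖fz z χ n‖ ≤ 1 := by
  unfold fz
  split_ifs
  · exact DirichletCharacter.norm_le_one χ _
  · simp

theorem summ (z : ℕ) {q : ℕ} (χ : DirichletCharacter ℂ q) (g : ℕ → ℝ) (hg : ∀ n, 0 ≤ g n)
    (hs : Summable g) : Summable (fun n => fz z χ n * ((g n : ℝ) : ℂ)) := by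
  refine Summable.of_norm_bounded hs fun n => ?_
  rw [norm_mul, Complex.norm_real, Real.norm_eq_abs, abs_of_nonneg (hg n)]
  exact mul_le_of_le_one_left (hg n) (fz_norm z χ n)

theorem not_rgh_zero (z : ℕ) (hz : 32 ≤ z) : ¬ Rgh z 0 := by
  intro h
  exact h 2 Nat.prime_two (by omega) (dvd_zero 2)

theorem coprime_of_rgh {z q n : ℕ} (hq : 1 ≤ q) (hqz : q ≤ z) (h : Rgh z n) : n.Coprime q := by
  by_contra hcon
  obtain ⟨p, hp, hpn, hpq⟩ := Nat.Prime.not_coprime_iff_dvd.1 hcon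
  exact h p hp ((Nat.le_of_dvd (by omega) hpq).trans hqz) hpn

open Classical in
/-- orthogonality for one weight -/
theorem main (z q b : ℕ) (hq : 1 ≤ q) (hb : b.Coprime q) (g : ℕ → ℝ) (hg : ∀ n, 0 ≤ g n)
    (hs : Summable g) :
    ∑ χ : DirichletCharacter ℂ q, χ ((b : ZMod q)⁻¹) * ∑' n, fz z χ n * ((g n : ℝ) : ℂ) =
      (q.totient : ℂ) * ((∑' n, (if Rgh z n ∧ n ≡ b [MOD q] then g n else 0) : ℝ) : ℂ) := by
  have : NeZero q := ⟨by omega⟩
  have hbu : IsUnit (b : ZMod q) := (ZMod.isUnit_iff_coprime b q).2 hb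
  have h1 : ∀ χ : DirichletCharacter ℂ q, χ ((b : ZMod q)⁻¹) * ∑' n, fz z χ n * ((g n : ℝ) : ℂ) =
      ∑' n, χ ((b : ZMod q)⁻¹) * (fz z χ n * ((g n : ℝ) : ℂ)) := fun χ => tsum_mul_left.symm
  simp only [h1]
  rw [← Summable.tsum_finsetSum (fun χ _ => (summ z χ g hg hs).mul_left _)]
  rw [Complex.ofReal_tsum, ← tsum_mul_left]
  refine tsum_congr fun n => ?_
  by_cases hn : Rgh z n
  · have h2 : ∀ χ : DirichletCharacter ℂ q, χ ((b : ZMod q)⁻¹) * (fz z χ n * ((g n : ℝ) : ℂ)) =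
        (χ ((b : ZMod q)⁻¹) * χ (n : ZMod q)) * ((g n : ℝ) : ℂ) := by
      intro χ
      unfold fz
      rw [if_pos hn]
      ring
    simp only [h2]
    rw [← Finset.sum_mul, DirichletCharacter.sum_char_inv_mul_char_eq ℂ hbu]
    by_cases hnb : n ≡ b [MOD q]
    · have h3 : (b : ZMod q) = (n : ZMod q) := ((ZMod.natCast_eq_natCast_iff _ _ _).2 hnb).symm
      rw [if_pos h3, if_pos ⟨hn, hnb⟩]
    · have h3 : ¬ (b : ZMod q) = (n : ZMod q) := fun h =>
        hnb ((ZMod.natCast_eq_natCast_iff _ _ _).1 h.symm)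
      rw [if_neg h3, if_neg (fun h => hnb h.2)]
      simp
  · have h2 : ∀ χ : DirichletCharacter ℂ q, χ ((b : ZMod q)⁻¹) * (fz z χ n * ((g n : ℝ) : ℂ)) =
        0 := by
      intro χ
      unfold fz
      rw [if_neg hn]
      ring
    simp only [h2]
    rw [if_neg (fun h => hn h.1)]
    simp

open Classical in
theorem principal (z q : ℕ) (hq : 1 ≤ q) (hqz : q ≤ z) (g : ℕ → ℝ) :
    ∑' n, fz z (1 : DirichletCharacter ℂ q) n * ((g n : ℝ) : ℂ) =
      ((∑' n, (if Rgh z n then g n else 0) : ℝ) : ℂ) := by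
  rw [Complex.ofReal_tsum]
  refine tsum_congr fun n => ?_
  unfold fz
  by_cases hn : Rgh z n
  · rw [if_pos hn, if_pos hn, MulChar.one_apply
      ((ZMod.isUnit_iff_coprime n q).2 (coprime_of_rgh hq hqz hn)), one_mul]
  · rw [if_neg hn, if_neg hn]
    simp

end ORT

theorem ort (hs : St_SUM) : St_ORT := by
  classical
  intro z q b σ hz hq hqz hb hσ
  obtain ⟨_, _, hs3, _⟩ := hs z q b 3 σ hσ
  obtain ⟨_, _, _, hs2⟩ := hs z q b 2 σ hσ
  have hg3 : ∀ n : ℕ, 0 ≤ (Real.log n) ^ 3 / (n : ℝ) ^ (1 + σ) := by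
    intro n
    have := Real.log_natCast_nonneg n
    positivity
  have hg2 : ∀ n : ℕ, 0 ≤ ArithmeticFunction.vonMangoldt n * ((Real.log n) ^ 2 / (n : ℝ) ^ (1 + σ)) := by
    intro n
    refine mul_nonneg ArithmeticFunction.vonMangoldt_nonneg (by positivity)
  have haj : ∀ b' n : ℕ, aj z q b' 3 σ n =
      if Rgh z n ∧ n ≡ b' [MOD q] then (Real.log n) ^ 3 / (n : ℝ) ^ (1 + σ) else 0 := by
    intro b' n
    unfold aj
    by_cases h : Rgh z n ∧ n ≡ b' [MOD q]
    · rw [if_pos h]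
      by_cases h1 : 1 < n
      · rw [if_pos ⟨h.1, h.2, h1⟩]
      · rw [if_neg (fun h' => h1 h'.2.2)]
        have : n = 0 ∨ n = 1 := by omega
        rcases this with rfl | rfl
        · exact absurd h.1 (ORT.not_rgh_zero z hz)
        · simp
    · rw [if_neg h, if_neg (fun h' => h ⟨h'.1, h'.2.1⟩)]
  refine ⟨?_, ?_, ?_, ?_⟩
  · unfold Dj Bj
    rw [ORT.main z q b hq hb _ hg2 hs2]
    rfl
  · unfold Lj Aj
    rw [ORT.main z q b hq hb _ hg3 hs3]
    simp only [haj]
  · unfold Lj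
    rw [ORT.principal z q hq hqz]
    congr 1
    unfold Aj
    rw [← Summable.tsum_finsetSum (fun b' _ => (hs z q b' 3 σ hσ).1)]
    refine tsum_congr fun n => ?_
    simp only [haj]
    by_cases hn : Rgh z n
    · rw [if_pos hn]
      have hmem : n % q ∈ (range q).filter (fun b' => b'.Coprime q) := by
        rw [Finset.mem_filter, Finset.mem_range]
        refine ⟨Nat.mod_lt _ (by omega), ?_⟩
        have := ORT.coprime_of_rgh hq hqz hn
        unfold Nat.Coprime at this ⊢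
        rw [← this, Nat.gcd_comm n q, Nat.gcd_rec q n]
      rw [Finset.sum_eq_single_of_mem _ hmem]
      · rw [if_pos ⟨hn, (Nat.mod_modEq n q).symm⟩]
      · intro b' hb' hne
        rw [Finset.mem_filter, Finset.mem_range] at hb'
        rw [if_neg]
        rintro ⟨_, h⟩
        apply hne
        have h1 : n % q = b' % q := h
        rw [Nat.mod_eq_of_lt hb'.1] at h1
        exact h1.symm
    · rw [if_neg hn]
      symm
      refine Finset.sum_eq_zero fun b' _ => ?_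
      rw [if_neg (fun h => hn h.1)]
  · unfold Dj
    rw [ORT.principal z q hq hqz]
    congr 1
    unfold Bj
    refine tsum_congr fun n => ?_
    unfold bj
    by_cases hn : Rgh z n
    · rw [if_pos hn, if_pos ⟨hn, Nat.modEq_one⟩]
    · rw [if_neg hn, if_neg (fun h => hn h.1)]

end Pool.Agent.H262R3.Lk
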