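import Mathlib
import Pool.Agent.H262R3.Lk.Stubs3

/-! QS (helper19): the conductor of a real primitive character is `2^a` times an odd squarefree
number with `a ≤ 3`. -/

open Finset

namespace Pool.Agent.H262R3.Lk

namespace QS

open DirichletCharacter

theorem not_trivial {f d : ℕ} (hf : 0 < f) (hd : d ∣ f) (hlt : d < f) (χ : DirichletCharacter ℂ f)
    (hp : χ.IsPrimitive)
    (h : ∀ u : (ZMod f)ˣ, (∃ k : ZMod f, (u : ZMod f) = 1 + (d : ZMod f) * k) → χ u = 1) : False := by
  have : NeZero f := ⟨by omega⟩
  have hF : χ.FactorsThrough d := by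
    rw [factorsThrough_iff_ker_unitsMap hd]
    intro u hu
    rw [MonoidHom.mem_ker] at hu ⊢
    have h1 : χ u = 1 := by
      apply h
      have h2 : (ZMod.castHom hd (ZMod d)) (u : ZMod f) = 1 := by
        have := congrArg Units.val hu
        simpa [ZMod.unitsMap_def] using this
      set n : ℤ := ((u : ZMod f).val : ℤ) with hn
      have hun : ((n : ℤ) : ZMod f) = (u : ZMod f) := by
        rw [hn]
        simp
      have h3 : ((n : ℤ) : ZMod d) = ((1 : ℤ) : ZMod d) := by
        have h4 := h2
        rw [← hun, map_intCast] at h4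
        rw [h4]; simp
      rw [ZMod.intCast_eq_intCast_iff] at h3
      obtain ⟨k, hk⟩ := h3.symm.dvd
      refine ⟨(k : ZMod f), ?_⟩
      rw [← hun]
      have h5 : n = 1 + d * k := by linarith
      rw [h5]
      push_cast
      ring
    apply Units.ext
    rw [MulChar.coe_toUnitHom, h1]
    rfl
  have h1 : χ.conductor ≤ d := Nat.sInf_le hF
  have h2 : χ.conductor = f := hp
  omega

theorem one_add_pow {R : Type*} [CommRing R] (a : R) (ha : a * a = 0) (n : ℕ) :
    (1 + a) ^ n = 1 + n * a := by
  induction n with
  | zero => simp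
  | succ n ih =>
    rw [pow_succ, ih]
    push_cast
    linear_combination (n : R) * ha

end QS

open DirichletCharacter in
theorem qs : St_QS := by
  intro f χ hf hp hsq
  have hsq1 : ∀ u : (ZMod f)ˣ, χ u * χ u = 1 := by
    intro u
    have := congrArg (fun ψ : DirichletCharacter ℂ f => ψ u) hsq
    simpa [sq, MulChar.one_apply_coe] using this
  constructor
  · intro p hpp hp2 hdiv
    obtain ⟨m, hm⟩ := hdiv
    have hm0 : 0 < m := by
      rcases Nat.eq_zero_or_pos m with h | h
      · subst h; simp at hm; omega
      · exact h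
    have hfp : f = p * (p * m) := by rw [hm]; ring
    refine QS.not_trivial (d := p * m) hf ⟨p, by rw [hm]; ring⟩ ?_ χ hp ?_
    · rw [hfp]
      have h1 : 0 < p * m := Nat.mul_pos hpp.pos hm0
      have h2 := hpp.two_le
      nlinarith
    · rintro u ⟨k, hk⟩
      have hf0 : ((p * (p * m) : ℕ) : ZMod f) = 0 := by
        rw [← hfp]; simp
      push_cast at hf0
      have ha : (((p * m : ℕ) : ZMod f) * k) * (((p * m : ℕ) : ZMod f) * k) = 0 := by
        push_cast
        linear_combination (m : ZMod f) * k ^ 2 * hf0
      have hu : u ^ p = 1 := by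
        apply Units.ext
        rw [Units.val_pow_eq_pow_val, hk, QS.one_add_pow _ ha]
        push_cast
        linear_combination k * hf0
      have h1 : χ u ^ p = 1 := by
        rw [← map_pow, ← Units.val_pow_eq_pow_val, hu]
        simp
      obtain ⟨r, hr⟩ := hpp.odd_of_ne_two hp2
      rw [hr, pow_succ, pow_mul, sq, hsq1, one_pow, one_mul] at h1
      exact h1
  · rintro ⟨m, hm⟩
    have hm0 : 0 < m := by omega
    refine QS.not_trivial (d := 8 * m) hf ⟨2, by rw [hm]; ring⟩ (by omega) χ hp ?_
    rintro u ⟨k, hk⟩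
    have hf0 : ((16 * m : ℕ) : ZMod f) = 0 := by
      rw [← hm]; simp
    push_cast at hf0
    set y : ZMod f := 1 + 4 * m * k with hy
    have hyu : y * y = u := by
      rw [hk, hy]
      push_cast
      linear_combination (m : ZMod f) * k ^ 2 * hf0
    have hyunit : IsUnit y := by
      apply isUnit_of_mul_isUnit_left (y := y)
      rw [hyu]
      exact u.isUnit
    obtain ⟨v, hv⟩ := hyunit
    rw [← hyu, map_mul, ← hv]
    exact hsq1 v

end Pool.Agent.H262R3.Lk
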