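import Pool.Agent.H262R3.Lk.Stubs2

/-!
# SEL: a common window for a positive proportion of the progressions
-/

open Finset

namespace Pool.Agent.H262R3.Lk

namespace SEL

/-- reindexing: one progression -/
theorem one (C η R c' : ℝ) (hη : 0 < η) (hηR : η < R) (σ : ℝ) (hσ : 0 < σ) (s : ℕ)
    (hs : σ * s ≤ η / 2) (w : ℕ → ℝ)
    (hw : ∀ k : ℕ, η / (2 * σ) ≤ k → 0 ≤ w k ∧ w k ≤ C)
    (h : c' / σ ^ 3 ≤ ∑ k ∈ Icc ⌈η / σ⌉₊ ⌊R / σ⌋₊, (k : ℝ) ^ 2 * Real.exp (-(σ * k / 2)) * w k) :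
    c' / (4 * R ^ 2 * σ) ≤ ∑ l ∈ Icc ⌈η / (2 * σ)⌉₊ ⌊R / σ⌋₊, w (l + s) := by
  have hR : 0 < R := hη.trans hηR
  have hs' : (s : ℝ) ≤ η / (2 * σ) := by
    rw [le_div_iff₀ (by positivity)]
    linarith
  have h2 : η / σ = η / (2 * σ) + η / (2 * σ) := by field_simp; ring
  have h1 : ∑ k ∈ Icc ⌈η / σ⌉₊ ⌊R / σ⌋₊, (k : ℝ) ^ 2 * Real.exp (-(σ * k / 2)) * w k ≤
      ∑ k ∈ Icc ⌈η / σ⌉₊ ⌊R / σ⌋₊, (R / σ) ^ 2 * w k := by
    refine Finset.sum_le_sum fun k hk => ?_
    rw [Finset.mem_Icc] at hk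
    have hk1 : η / σ ≤ k := Nat.ceil_le.1 hk.1
    have hk2 : (k : ℝ) ≤ R / σ := (Nat.le_floor_iff (by positivity)).1 hk.2
    have hw0 : 0 ≤ w k := (hw k (by
      have : 0 ≤ η / (2 * σ) := by positivity
      linarith)).1
    refine mul_le_mul_of_nonneg_right ?_ hw0
    have he : Real.exp (-(σ * k / 2)) ≤ 1 := by
      rw [Real.exp_le_one_iff]
      have : 0 ≤ σ * k / 2 := by positivity
      linarith
    calc (k : ℝ) ^ 2 * Real.exp (-(σ * k / 2)) ≤ (k : ℝ) ^ 2 * 1 :=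
          mul_le_mul_of_nonneg_left he (by positivity)
      _ ≤ (R / σ) ^ 2 := by
          rw [mul_one]
          exact pow_le_pow_left₀ (Nat.cast_nonneg k) hk2 2
  have h3 : ∑ k ∈ Icc ⌈η / σ⌉₊ ⌊R / σ⌋₊, w k ≤
      ∑ l ∈ Icc ⌈η / (2 * σ)⌉₊ ⌊R / σ⌋₊, w (l + s) := by
    have himg : ∑ k ∈ Icc ⌈η / σ⌉₊ ⌊R / σ⌋₊, w k =
        ∑ l ∈ (Icc ⌈η / σ⌉₊ ⌊R / σ⌋₊).image (fun k => k - s), w (l + s) := by
      rw [Finset.sum_image]
      · refine Finset.sum_congr rfl fun k hk => ?_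
        rw [Finset.mem_Icc] at hk
        have hk1 : η / σ ≤ k := Nat.ceil_le.1 hk.1
        have : (s : ℝ) ≤ k := by
          have : 0 ≤ η / (2 * σ) := by positivity
          linarith
        have hsk : s ≤ k := by exact_mod_cast this
        rw [Nat.sub_add_cancel hsk]
      · intro k hk k' hk' he
        have key : ∀ k : ℕ, k ∈ (Icc ⌈η / σ⌉₊ ⌊R / σ⌋₊ : Finset ℕ) → s ≤ k := by
          intro k hk
          rw [Finset.mem_Icc] at hk
          have hk1 : η / σ ≤ k := Nat.ceil_le.1 hk.1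
          have : (s : ℝ) ≤ k := by
            have : 0 ≤ η / (2 * σ) := by positivity
            linarith
          exact_mod_cast this
        have e1 := key k (Finset.mem_coe.1 hk)
        have e2 := key k' (Finset.mem_coe.1 hk')
        simp only at he
        omega
    rw [himg]
    refine Finset.sum_le_sum_of_subset_of_nonneg ?_ ?_
    · intro l hl
      rw [Finset.mem_image] at hl
      obtain ⟨k, hk, rfl⟩ := hl
      rw [Finset.mem_Icc] at hk ⊢
      have hk1 : η / σ ≤ k := Nat.ceil_le.1 hk.1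
      refine ⟨?_, (Nat.sub_le _ _).trans hk.2⟩
      rw [Nat.ceil_le]
      have hsk : s ≤ k := by
        have : (s : ℝ) ≤ k := by
          have : 0 ≤ η / (2 * σ) := by positivity
          linarith
        exact_mod_cast this
      rw [Nat.cast_sub hsk]
      linarith
    · intro l hl _
      rw [Finset.mem_Icc] at hl
      have hl1 : η / (2 * σ) ≤ l := Nat.ceil_le.1 hl.1
      refine (hw _ ?_).1
      push_cast
      linarith [Nat.cast_nonneg (α := ℝ) s]
  have h4 : c' / σ ^ 3 ≤ (R / σ) ^ 2 * ∑ l ∈ Icc ⌈η / (2 * σ)⌉₊ ⌊R / σ⌋₊, w (l + s) := by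
    refine h.trans (h1.trans ?_)
    rw [← Finset.mul_sum]
    exact mul_le_mul_of_nonneg_left h3 (by positivity)
  have h5 : c' / σ ^ 3 = (R / σ) ^ 2 * (c' / (R ^ 2 * σ)) := by
    field_simp
  rw [h5] at h4
  have h6 := le_of_mul_le_mul_left h4 (by positivity)
  have h0 : 0 ≤ ∑ l ∈ Icc ⌈η / (2 * σ)⌉₊ ⌊R / σ⌋₊, w (l + s) := by
    refine Finset.sum_nonneg fun l hl => ?_
    rw [Finset.mem_Icc] at hl
    have hl1 : η / (2 * σ) ≤ l := Nat.ceil_le.1 hl.1
    refine (hw _ ?_).1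
    push_cast
    linarith [Nat.cast_nonneg (α := ℝ) s]
  have h7 : c' / (4 * R ^ 2 * σ) = (c' / (R ^ 2 * σ)) / 4 := by
    field_simp
  rw [h7]
  linarith

end SEL

theorem sel (hw : St_WUP) : St_SEL := by
  classical
  obtain ⟨C, hC, hW⟩ := hw
  intro η R c' hη hηR hc'
  have hR : 0 < R := hη.trans hηR
  set c'' : ℝ := c' / (4 * R ^ 3) with hc''
  have hc''0 : 0 < c'' := by positivity
  refine ⟨min (c'' / 2) (c'' / (2 * C)), lt_min (by positivity) (by positivity), ?_⟩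
  intro K z σ q b s hz hq hσ hσz hs hsum
  have hlog : 3 < Real.log z := by
    have h1 : Real.log 32 ≤ Real.log z := Real.log_le_log (by norm_num) (by exact_mod_cast hz)
    have h2 : Real.log 32 = 5 * Real.log 2 := by
      rw [show (32 : ℝ) = 2 ^ 5 by norm_num, Real.log_pow]
      norm_num
    have h3 := Real.log_two_gt_d9
    linarith
  have hσs : σ ≤ η / 12 := by nlinarith
  -- weights
  set w : Fin K → ℕ → ℝ := fun i k => (q i).totient * wn (q i) (b i) k with hwdef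
  have hφ : ∀ i, 0 < ((q i).totient : ℝ) := by
    intro i
    have := Nat.totient_pos.2 (hq i).1
    exact_mod_cast this
  have hwb : ∀ i, ∀ k : ℕ, η / (2 * σ) ≤ k → 0 ≤ w i k ∧ w i k ≤ C := by
    intro i k hk
    have h1 : Real.log z ≤ (k : ℝ) / 2 + 1 := by
      have h2 : Real.log z ≤ η / (2 * σ) / 2 := by
        rw [div_div, le_div_iff₀ (by positivity)]
        nlinarith
      linarith
    obtain ⟨h2, h3⟩ := hW z (q i) (b i) k hz (hq i).1 (hq i).2.1 (hq i).2.2 h1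
    refine ⟨mul_nonneg (hφ i).le h2, ?_⟩
    rw [le_div_iff₀ (hφ i)] at h3
    simp only [hwdef]
    linarith
  have hws : ∀ i, c' / (4 * R ^ 2 * σ) ≤ ∑ l ∈ Icc ⌈η / (2 * σ)⌉₊ ⌊R / σ⌋₊, w i (l + s i) := by
    intro i
    refine SEL.one C η R c' hη hηR σ hσ (s i) (hs i) (w i) (hwb i) ?_
    have h1 := mul_le_mul_of_nonneg_left (hsum i) (hφ i).le
    have h2 : ((q i).totient : ℝ) * (c' / ((q i).totient * σ ^ 3)) = c' / σ ^ 3 := by
      have := (hφ i).ne'
      field_simp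
    rw [h2, Finset.mul_sum] at h1
    refine h1.trans (le_of_eq ?_)
    refine Finset.sum_congr rfl fun k _ => ?_
    simp only [hwdef]
    ring
  -- the set of l
  set I : Finset ℕ := Icc ⌈η / (2 * σ)⌉₊ ⌊R / σ⌋₊ with hI
  have hIne : I.Nonempty := by
    rw [hI, Finset.nonempty_Icc, Nat.le_floor_iff (by positivity)]
    have h1 : ((⌈η / (2 * σ)⌉₊ : ℕ) : ℝ) < η / (2 * σ) + 1 := Nat.ceil_lt_add_one (by positivity)
    have h2 : η / (2 * σ) + 1 ≤ R / σ := by
      have h3 : η / (2 * σ) = η / 2 / σ := by field_simp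
      rw [h3]
      have h4 : (1 : ℝ) = σ / σ := by field_simp
      rw [h4, ← add_div, div_le_div_iff_of_pos_right hσ]
      linarith
    linarith
  have hIcard : (I.card : ℝ) ≤ R / σ := by
    have h1 : 1 ≤ ⌈η / (2 * σ)⌉₊ := Nat.one_le_ceil_iff.2 (by positivity)
    have h2 : I.card ≤ ⌊R / σ⌋₊ := by
      rw [hI, Nat.card_Icc]
      omega
    have h3 : ((⌊R / σ⌋₊ : ℕ) : ℝ) ≤ R / σ := Nat.floor_le (by positivity)
    exact le_trans (by exact_mod_cast h2) h3
  have htot : ∑ l ∈ I, (K : ℝ) * c'' ≤ ∑ l ∈ I, ∑ i, w i (l + s i) := by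
    rw [Finset.sum_comm, Finset.sum_const, nsmul_eq_mul]
    calc (I.card : ℝ) * ((K : ℝ) * c'') ≤ R / σ * ((K : ℝ) * c'') :=
          mul_le_mul_of_nonneg_right hIcard (by positivity)
      _ = ∑ i : Fin K, c' / (4 * R ^ 2 * σ) := by
          rw [Finset.sum_const, Finset.card_univ, Fintype.card_fin, nsmul_eq_mul, hc'']
          field_simp
      _ ≤ _ := Finset.sum_le_sum fun i _ => hws i
  obtain ⟨l, hl, hle⟩ := Finset.exists_le_of_sum_le hIne htot
  rw [hI, Finset.mem_Icc] at hl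
  have hl1 : η / (2 * σ) ≤ l := Nat.ceil_le.1 hl.1
  have hl2 : (l : ℝ) ≤ R / σ := (Nat.le_floor_iff (by positivity)).1 hl.2
  refine ⟨l, hl1, hl2, ?_⟩
  set S : Finset (Fin K) := univ.filter (fun i => c'' / 2 ≤ w i (l + s i)) with hS
  have hsub : S ⊆ (univ : Finset (Fin K)).filter
      (fun i => min (c'' / 2) (c'' / (2 * C)) / (q i).totient ≤ wn (q i) (b i) (l + s i)) := by
    intro i hi
    rw [hS, Finset.mem_filter] at hi
    rw [Finset.mem_filter]
    refine ⟨Finset.mem_univ _, ?_⟩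
    rw [div_le_iff₀ (hφ i)]
    refine (min_le_left _ _).trans (hi.2.trans ?_)
    simp only [hwdef]
    linarith
  have hcard : (K : ℝ) * c'' ≤ C * S.card + (K : ℝ) * (c'' / 2) := by
    refine hle.trans ?_
    rw [← Finset.sum_filter_add_sum_filter_not univ (fun i => c'' / 2 ≤ w i (l + s i))]
    refine add_le_add ?_ ?_
    · have : ∑ i ∈ univ.filter (fun i => c'' / 2 ≤ w i (l + s i)), w i (l + s i) ≤
          ∑ i ∈ univ.filter (fun i => c'' / 2 ≤ w i (l + s i)), C := by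
        refine Finset.sum_le_sum fun i _ => (hwb i (l + s i) ?_).2
        push_cast
        linarith [Nat.cast_nonneg (α := ℝ) (s i)]
      refine this.trans (le_of_eq ?_)
      rw [Finset.sum_const, nsmul_eq_mul, ← hS]
      ring
    · have : ∑ i ∈ univ.filter (fun i => ¬ c'' / 2 ≤ w i (l + s i)), w i (l + s i) ≤
          ∑ i ∈ univ.filter (fun i => ¬ c'' / 2 ≤ w i (l + s i)), c'' / 2 := by
        refine Finset.sum_le_sum fun i hi => ?_
        rw [Finset.mem_filter] at hi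
        exact (not_le.1 hi.2).le
      refine this.trans ?_
      rw [Finset.sum_const, nsmul_eq_mul]
      refine mul_le_mul_of_nonneg_right ?_ (by positivity)
      have h1 : (univ.filter (fun i => ¬ c'' / 2 ≤ w i (l + s i))).card ≤ K := by
        refine (Finset.card_le_univ _).trans ?_
        rw [Fintype.card_fin]
      exact_mod_cast h1
  have hcard2 : min (c'' / 2) (c'' / (2 * C)) * K ≤ S.card := by
    refine (mul_le_mul_of_nonneg_right (min_le_right _ _) (Nat.cast_nonneg K)).trans ?_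
    rw [div_mul_eq_mul_div, div_le_iff₀ (by positivity)]
    linarith
  refine hcard2.trans ?_
  exact_mod_cast Finset.card_le_card hsub

end Pool.Agent.H262R3.Lk
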