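import Mathlib
import Pool.Agent.H262R3.Lk.Stubs

/-! SUM (task of helper262): convergence of the series at the point `1 + σ`. -/

namespace Pool.Agent.H262R3.Lk

namespace SUM

open Real Filter Asymptotics

lemma logpow_summable (k : ℕ) (σ : ℝ) (hσ : 0 < σ) :
    Summable (fun n : ℕ => (Real.log n) ^ k / (n : ℝ) ^ (1 + σ)) := by
  have h1 : (fun x : ℝ => (Real.log x) ^ k) =o[atTop] (fun x : ℝ => x ^ (σ / 2)) := by
    have := isLittleO_log_rpow_rpow_atTop (k : ℝ) (half_pos hσ)
    simpa [Real.rpow_natCast] using this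
  have h2 : (fun n : ℕ => (Real.log n) ^ k) =o[atTop] (fun n : ℕ => (n : ℝ) ^ (σ / 2)) :=
    h1.comp_tendsto tendsto_natCast_atTop_atTop
  have h3 : (fun n : ℕ => (Real.log n) ^ k / (n : ℝ) ^ (1 + σ)) =O[atTop]
      (fun n : ℕ => (n : ℝ) ^ (σ / 2) / (n : ℝ) ^ (1 + σ)) := by
    have := h2.isBigO.mul (isBigO_refl (fun n : ℕ => ((n : ℝ) ^ (1 + σ))⁻¹) atTop)
    simpa [div_eq_mul_inv] using this
  have h4 : (fun n : ℕ => (n : ℝ) ^ (σ / 2) / (n : ℝ) ^ (1 + σ)) =ᶠ[atTop]
      (fun n : ℕ => 1 / (n : ℝ) ^ (1 + σ / 2)) := by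
    filter_upwards [eventually_gt_atTop 0] with n hn
    have hn' : (0 : ℝ) < n := by exact_mod_cast hn
    rw [← Real.rpow_sub hn', one_div, ← Real.rpow_neg hn'.le]
    congr 1; ring
  have h5 : Summable (fun n : ℕ => 1 / (n : ℝ) ^ (1 + σ / 2)) :=
    Real.summable_one_div_nat_rpow.2 (by linarith)
  exact summable_of_isBigO_nat h5 (h3.trans h4.isBigO)

lemma vm_summable (k : ℕ) (σ : ℝ) (hσ : 0 < σ) :
    Summable (fun n : ℕ => ArithmeticFunction.vonMangoldt n * ((Real.log n) ^ k / (n : ℝ) ^ (1 + σ))) := by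
  refine Summable.of_nonneg_of_le (fun n => ?_) (fun n => ?_) (logpow_summable (k + 1) σ hσ)
  · have : 0 ≤ Real.log n := Real.log_natCast_nonneg n
    have := @ArithmeticFunction.vonMangoldt_nonneg n
    positivity
  · have h0 : 0 ≤ Real.log n := Real.log_natCast_nonneg n
    have h1 : ArithmeticFunction.vonMangoldt n ≤ Real.log n := ArithmeticFunction.vonMangoldt_le_log
    calc _ ≤ Real.log n * ((Real.log n) ^ k / (n : ℝ) ^ (1 + σ)) := by gcongr
      _ = _ := by rw [pow_succ]; ring

end SUM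

open SUM in
theorem sum_all : St_SUM := by
  intro z q b j σ hσ
  refine ⟨?_, ?_, logpow_summable j σ hσ, vm_summable j σ hσ⟩
  · refine Summable.of_nonneg_of_le (fun n => ?_) (fun n => ?_) (logpow_summable j σ hσ)
    · have : 0 ≤ Real.log n := Real.log_natCast_nonneg n
      unfold aj; split_ifs <;> positivity
    · have : 0 ≤ Real.log n := Real.log_natCast_nonneg n
      unfold aj; split_ifs
      · exact le_rfl
      · positivity
  · refine Summable.of_nonneg_of_le (fun n => ?_) (fun n => ?_) (vm_summable j σ hσ)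
    · have : 0 ≤ Real.log n := Real.log_natCast_nonneg n
      have := @ArithmeticFunction.vonMangoldt_nonneg n
      unfold bj; split_ifs <;> positivity
    · have : 0 ≤ Real.log n := Real.log_natCast_nonneg n
      have := @ArithmeticFunction.vonMangoldt_nonneg n
      unfold bj; split_ifs
      · exact le_rfl
      · positivity

end Pool.Agent.H262R3.Lk
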