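import Mathlib
import Pool.Agent.H262R3.Lk.Stubs
import Pool.Agent.H379R2.SWMain
import Pool.Agent.H307R2.Sg6

/-! SWQ (helper19): no exceptional character of small conductor, from Siegel-Walfisz. -/

open Finset Filter Topology

namespace Pool.Agent.H262R3.Lk

open Pool.Agent.H318R2.Cr (Rgh V)

namespace SWQ

/-- `∑ Λ(n) χ(n)` for `n ≤ x` -/
noncomputable def psiC (x : ℝ) (q : ℕ) (χ : DirichletCharacter ℂ q) : ℂ :=
  ∑ n ∈ Icc 1 ⌊x⌋₊, ((ArithmeticFunction.vonMangoldt n : ℝ) : ℂ) * χ (n : ZMod q)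

theorem psiLog_sub (x c : ℝ) (hx : 1 ≤ x) (hc : 1 ≤ c) (q : ℕ) (χ : DirichletCharacter ℂ q) :
    ‖Pool.Agent.H410R2.psiLog (c * x) q χ - Pool.Agent.H410R2.psiLog x q χ -
      (Real.log c : ℂ) * psiC x q χ‖ ≤ Real.log c * ((c * x - x + 1) * Real.log (c * x)) := by
  have hx0 : 0 < x := by linarith
  have hcx : x ≤ c * x := by nlinarith
  have hfl : ⌊x⌋₊ ≤ ⌊c * x⌋₊ := Nat.floor_le_floor hcx
  have hlc : 0 ≤ Real.log c := Real.log_nonneg hc
  have hsplit : Icc 1 ⌊c * x⌋₊ = Icc 1 ⌊x⌋₊ ∪ Ioc ⌊x⌋₊ ⌊c * x⌋₊ := by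
    ext n
    simp only [mem_union, mem_Icc, mem_Ioc]
    omega
  have hdis : Disjoint (Icc 1 ⌊x⌋₊) (Ioc ⌊x⌋₊ ⌊c * x⌋₊) := by
    rw [Finset.disjoint_left]
    intro n h1 h2
    simp only [mem_Icc, mem_Ioc] at h1 h2
    omega
  have e1 : Pool.Agent.H410R2.psiLog (c * x) q χ - Pool.Agent.H410R2.psiLog x q χ -
      (Real.log c : ℂ) * psiC x q χ =
      ∑ n ∈ Ioc ⌊x⌋₊ ⌊c * x⌋₊, ((ArithmeticFunction.vonMangoldt n : ℝ) : ℂ) * χ (n : ZMod q) *
        ((Real.log (c * x / n) : ℝ) : ℂ) := by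
    unfold Pool.Agent.H410R2.psiLog psiC
    rw [hsplit, Finset.sum_union hdis]
    have key : ∑ n ∈ Icc 1 ⌊x⌋₊, ((ArithmeticFunction.vonMangoldt n : ℝ) : ℂ) * χ (n : ZMod q) *
          ((Real.log (c * x / n) : ℝ) : ℂ) -
        ∑ n ∈ Icc 1 ⌊x⌋₊, ((ArithmeticFunction.vonMangoldt n : ℝ) : ℂ) * χ (n : ZMod q) *
          ((Real.log (x / n) : ℝ) : ℂ) -
        (Real.log c : ℂ) * ∑ n ∈ Icc 1 ⌊x⌋₊, ((ArithmeticFunction.vonMangoldt n : ℝ) : ℂ) *
          χ (n : ZMod q) = 0 := by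
      rw [Finset.mul_sum, ← Finset.sum_sub_distrib, ← Finset.sum_sub_distrib]
      apply Finset.sum_eq_zero
      intro n hn
      rw [mem_Icc] at hn
      have hn0 : (0:ℝ) < n := by exact_mod_cast hn.1
      have : Real.log (c * x / n) = Real.log c + Real.log (x / n) := by
        rw [mul_div_assoc, Real.log_mul (by linarith) (by positivity)]
      rw [this]
      push_cast
      ring
    linear_combination key
  rw [e1]
  refine (norm_sum_le _ _).trans ?_
  have hterm : ∀ n ∈ Ioc ⌊x⌋₊ ⌊c * x⌋₊,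
      ‖((ArithmeticFunction.vonMangoldt n : ℝ) : ℂ) * χ (n : ZMod q) *
        ((Real.log (c * x / n) : ℝ) : ℂ)‖ ≤ Real.log (c * x) * Real.log c := by
    intro n hn
    rw [mem_Ioc] at hn
    have hn1 : x < n := Nat.lt_of_floor_lt hn.1
    have hn0 : (0:ℝ) < n := by linarith
    have hn2 : (n:ℝ) ≤ c * x := (Nat.le_floor_iff (by nlinarith)).mp hn.2
    have h1 : 0 ≤ Real.log (c * x / n) := by
      apply Real.log_nonneg
      rw [le_div_iff₀ hn0]
      linarith
    have h2 : Real.log (c * x / n) ≤ Real.log c := by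
      apply Real.log_le_log (by positivity)
      rw [div_le_iff₀ hn0]
      nlinarith
    have h3 : ArithmeticFunction.vonMangoldt n ≤ Real.log (c * x) :=
      ArithmeticFunction.vonMangoldt_le_log.trans (Real.log_le_log hn0 hn2)
    have h4 : 0 ≤ ArithmeticFunction.vonMangoldt n := ArithmeticFunction.vonMangoldt_nonneg
    rw [norm_mul, norm_mul, Complex.norm_real, Complex.norm_real, Real.norm_of_nonneg h4,
      Real.norm_of_nonneg h1]
    have h5 : ‖χ (n : ZMod q)‖ ≤ 1 := DirichletCharacter.norm_le_one χ _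
    have h6 : 0 ≤ Real.log (c * x) := h4.trans h3
    calc ArithmeticFunction.vonMangoldt n * ‖χ (n : ZMod q)‖ * Real.log (c * x / n)
        ≤ Real.log (c * x) * 1 * Real.log c := by
          apply mul_le_mul _ h2 h1 (by positivity)
          exact mul_le_mul h3 h5 (norm_nonneg _) h6
      _ = _ := by ring
  refine (Finset.sum_le_sum hterm).trans ?_
  rw [Finset.sum_const, Nat.card_Ioc, nsmul_eq_mul]
  have hcard : ((⌊c * x⌋₊ - ⌊x⌋₊ : ℕ) : ℝ) ≤ c * x - x + 1 := by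
    rw [Nat.cast_sub hfl]
    have a1 : (⌊c * x⌋₊ : ℝ) ≤ c * x := Nat.floor_le (by nlinarith)
    have a2 : x < ⌊x⌋₊ + 1 := Nat.lt_floor_add_one x
    linarith
  have hlog : 0 ≤ Real.log (c * x) := Real.log_nonneg (by linarith)
  calc ((⌊c * x⌋₊ - ⌊x⌋₊ : ℕ) : ℝ) * (Real.log (c * x) * Real.log c)
      ≤ (c * x - x + 1) * (Real.log (c * x) * Real.log c) := by gcongr
    _ = _ := by ring

theorem psiC_bound (B : ℕ) : ∃ x₁ : ℝ, ∀ x : ℝ, x₁ ≤ x → ∀ q : ℕ, 1 < q →
    (q : ℝ) ≤ (Real.log x) ^ B → ∀ χ : DirichletCharacter ℂ q, χ.IsPrimitive →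
      ‖psiC x q χ‖ ≤ 10 * x / (Real.log x) ^ 2 := by
  obtain ⟨x0, hx0⟩ := Pool.Agent.H379R2.SW.siegelWalfisz Pool.Agent.H307R2.siegel 5 B
  refine ⟨max (max x0 1) (Real.exp 24), fun x hx q hq hqB χ hχ => ?_⟩
  have hxx0 : x0 ≤ x := ((le_max_left _ _).trans (le_max_left _ _)).trans hx
  have hx1 : 1 ≤ x := ((le_max_right _ _).trans (le_max_left _ _)).trans hx
  have hx24 : Real.exp 24 ≤ x := (le_max_right _ _).trans hx
  have hxp : 0 < x := by linarith
  set L := Real.log x with hL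
  have hL24 : 24 ≤ L := by rw [hL, Real.le_log_iff_exp_le hxp]; exact hx24
  have hLp : 0 < L := by linarith
  have hLx : L ^ 3 ≤ x := by
    have h1 := Real.pow_div_factorial_le_exp L hLp.le 4
    have h2 : Real.exp L = x := by rw [hL, Real.exp_log hxp]
    rw [h2] at h1
    have h3 : ((Nat.factorial 4 : ℕ) : ℝ) = 24 := by norm_num [Nat.factorial]
    rw [h3, div_le_iff₀ (by norm_num)] at h1
    have h4 : 24 * L ^ 3 ≤ L ^ 4 := by
      have : 0 ≤ L ^ 3 := by positivity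
      nlinarith
    linarith
  set δ := 1 / L ^ 3 with hδ
  have hδ0 : 0 < δ := by positivity
  have hδ1 : δ ≤ 1 := by
    rw [hδ, div_le_one (by positivity)]
    have : (1:ℝ) ≤ L := by linarith
    exact one_le_pow₀ this
  have hc : 1 ≤ 1 + δ := by linarith
  have hmain := psiLog_sub x (1 + δ) hx1 hc q χ
  have hlogc1 : Real.log (1 + δ) ≤ δ := by
    have := Real.log_le_sub_one_of_pos (show 0 < 1 + δ by linarith)
    linarith
  have hlogc2 : δ / 2 ≤ Real.log (1 + δ) := by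
    have h1 := Real.one_sub_inv_le_log_of_pos (show 0 < 1 + δ by linarith)
    have h2 : δ / 2 ≤ 1 - (1 + δ)⁻¹ := by
      rw [show 1 - (1 + δ)⁻¹ = δ / (1 + δ) by field_simp; ring]
      apply div_le_div_of_nonneg_left hδ0.le (by linarith) (by linarith)
    linarith
  have hlogcx : Real.log ((1 + δ) * x) ≤ L + 1 := by
    rw [Real.log_mul (by linarith) (by linarith)]
    linarith
  have hlogcx' : L ≤ Real.log ((1 + δ) * x) := by
    apply Real.log_le_log hxp
    nlinarith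
  have hb1 : ‖Pool.Agent.H410R2.psiLog x q χ‖ ≤ x / L ^ 5 := hx0 x hxx0 q hq hqB χ hχ
  have hb2 : ‖Pool.Agent.H410R2.psiLog ((1 + δ) * x) q χ‖ ≤ 2 * x / L ^ 5 := by
    have hle : x ≤ (1 + δ) * x := by nlinarith
    have := hx0 ((1 + δ) * x) (hxx0.trans hle) q hq
      (hqB.trans (pow_le_pow_left₀ hLp.le hlogcx' _)) χ hχ
    refine this.trans ?_
    apply div_le_div₀ (by positivity) (by nlinarith) (by positivity)
    exact pow_le_pow_left₀ hLp.le hlogcx' _
  have hlogc0 : 0 < Real.log (1 + δ) := by linarith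
  have hE : Real.log (1 + δ) * (((1 + δ) * x - x + 1) * Real.log ((1 + δ) * x)) ≤
      Real.log (1 + δ) * (4 * x / L ^ 2) := by
    apply mul_le_mul_of_nonneg_left _ hlogc0.le
    have h1 : (1 + δ) * x - x + 1 ≤ 2 * (x / L ^ 3) := by
      have : (1 + δ) * x - x = x / L ^ 3 := by rw [hδ]; ring
      rw [this]
      have : 1 ≤ x / L ^ 3 := by rw [le_div_iff₀ (by positivity)]; linarith
      linarith
    have h2 : Real.log ((1 + δ) * x) ≤ 2 * L := by linarith
    calc ((1 + δ) * x - x + 1) * Real.log ((1 + δ) * x) ≤ (2 * (x / L ^ 3)) * (2 * L) := by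
          apply mul_le_mul h1 h2 (by linarith) (by positivity)
      _ = 4 * x / L ^ 2 := by
          field_simp
          ring
  have hnorm : Real.log (1 + δ) * ‖psiC x q χ‖ ≤
      2 * x / L ^ 5 + x / L ^ 5 + Real.log (1 + δ) * (4 * x / L ^ 2) := by
    have e : (Real.log (1 + δ) : ℂ) * psiC x q χ =
        Pool.Agent.H410R2.psiLog ((1 + δ) * x) q χ - Pool.Agent.H410R2.psiLog x q χ -
        (Pool.Agent.H410R2.psiLog ((1 + δ) * x) q χ - Pool.Agent.H410R2.psiLog x q χ -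
          (Real.log (1 + δ) : ℂ) * psiC x q χ) := by ring
    have e2 : Real.log (1 + δ) * ‖psiC x q χ‖ = ‖(Real.log (1 + δ) : ℂ) * psiC x q χ‖ := by
      rw [norm_mul, Complex.norm_real, Real.norm_of_nonneg hlogc0.le]
    rw [e2, e]
    refine (norm_sub_le _ _).trans ?_
    have := norm_sub_le (Pool.Agent.H410R2.psiLog ((1 + δ) * x) q χ)
      (Pool.Agent.H410R2.psiLog x q χ)
    linarith
  have h3 : 2 * x / L ^ 5 + x / L ^ 5 ≤ Real.log (1 + δ) * (6 * x / L ^ 2) := by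
    have : δ / 2 * (6 * x / L ^ 2) ≤ Real.log (1 + δ) * (6 * x / L ^ 2) :=
      mul_le_mul_of_nonneg_right hlogc2 (by positivity)
    refine le_trans (le_of_eq ?_) this
    rw [hδ]
    field_simp
    ring
  have h4 : Real.log (1 + δ) * ‖psiC x q χ‖ ≤ Real.log (1 + δ) * (10 * x / L ^ 2) := by
    have : Real.log (1 + δ) * (6 * x / L ^ 2) + Real.log (1 + δ) * (4 * x / L ^ 2) =
      Real.log (1 + δ) * (10 * x / L ^ 2) := by ring
    linarith
  exact le_of_mul_le_mul_left h4 hlogc0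

/-- `χ(n) log n` on primes -/
noncomputable def av {q : ℕ} (χ : DirichletCharacter ℂ q) (n : ℕ) : ℂ :=
  if n.Prime then χ (n : ZMod q) * ((Real.log n : ℝ) : ℂ) else 0

noncomputable def SS {q : ℕ} (χ : DirichletCharacter ℂ q) (n : ℕ) : ℂ := ∑ k ∈ Icc 1 n, av χ k

theorem SS_psiC (n : ℕ) (hn : 1 ≤ n) (q : ℕ) (χ : DirichletCharacter ℂ q) :
    ‖SS χ n - psiC n q χ‖ ≤ 2 * Real.sqrt n * Real.log n := by
  have hn1 : (1:ℝ) ≤ n := by exact_mod_cast hn
  refine le_trans ?_ (Chebyshev.psi_sub_theta_le hn1)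
  rw [Chebyshev.psi_sub_theta_eq_sum_not_prime, norm_sub_rev]
  have hI : Ioc 0 ⌊(n:ℝ)⌋₊ = Icc 1 ⌊(n:ℝ)⌋₊ := by
    ext k; simp only [mem_Ioc, mem_Icc]; omega
  rw [hI]
  unfold psiC SS
  have hfl : ⌊(n:ℝ)⌋₊ = n := Nat.floor_natCast n
  rw [hfl, ← Finset.sum_sub_distrib, Finset.sum_filter]
  refine (norm_sum_le _ _).trans (Finset.sum_le_sum ?_)
  intro k _
  unfold av
  by_cases h1 : k.Prime
  · rw [if_pos h1, if_neg (not_not.mpr h1), ArithmeticFunction.vonMangoldt_apply_prime h1,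
      mul_comm, sub_self, norm_zero]
  · rw [if_neg h1, if_pos h1, sub_zero, norm_mul, Complex.norm_real,
      Real.norm_of_nonneg ArithmeticFunction.vonMangoldt_nonneg]
    exact mul_le_of_le_one_right ArithmeticFunction.vonMangoldt_nonneg
      (DirichletCharacter.norm_le_one χ _)

theorem SS_bound (B : ℕ) : ∃ n₁ : ℕ, ∀ n : ℕ, n₁ ≤ n → ∀ q : ℕ, 1 < q →
    (q : ℝ) ≤ (Real.log n) ^ B → ∀ χ : DirichletCharacter ℂ q, χ.IsPrimitive →
      ‖SS χ n‖ ≤ 20 * n / (Real.log n) ^ 2 := by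
  obtain ⟨x1, hx1⟩ := psiC_bound B
  refine ⟨max ⌈x1⌉₊ ⌈Real.exp 100⌉₊, fun n hn q hq hqB χ hχ => ?_⟩
  have h1 : x1 ≤ n := (Nat.le_ceil _).trans (by exact_mod_cast (le_max_left _ _).trans hn)
  have h2 : Real.exp 100 ≤ n := (Nat.le_ceil _).trans (by exact_mod_cast (le_max_right _ _).trans hn)
  have hnp : (0:ℝ) < n := lt_of_lt_of_le (Real.exp_pos _) h2
  have hn1 : 1 ≤ n := by exact_mod_cast hnp
  set L := Real.log n with hL
  have hL100 : 100 ≤ L := by rw [hL, Real.le_log_iff_exp_le hnp]; exact h2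
  have hb := hx1 n h1 q hq hqB χ hχ
  have hc := SS_psiC n hn1 q χ
  have hs : 2 * Real.sqrt n * L ≤ 10 * n / L ^ 2 := by
    rw [le_div_iff₀ (by positivity)]
    have e1 : Real.sqrt n = Real.exp (L / 2) := by
      rw [hL, Real.sqrt_eq_rpow, Real.rpow_def_of_pos hnp]
      ring_nf
    have e2 : (n:ℝ) = Real.sqrt n * Real.sqrt n := (Real.mul_self_sqrt hnp.le).symm
    have h3 := Real.pow_div_factorial_le_exp (L / 2) (by positivity) 4
    have h4 : ((Nat.factorial 4 : ℕ) : ℝ) = 24 := by norm_num [Nat.factorial]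
    rw [h4, div_le_iff₀ (by norm_num), ← e1] at h3
    have h5 : 100 * L ^ 3 ≤ L ^ 4 := by
      have : 0 ≤ L ^ 3 := by positivity
      nlinarith
    have h6 : L ^ 3 ≤ 5 * Real.sqrt n := by
      have : (L / 2) ^ 4 = L ^ 4 / 16 := by ring
      rw [this] at h3
      nlinarith
    have h7 : 0 ≤ Real.sqrt n := Real.sqrt_nonneg _
    calc 2 * Real.sqrt n * L * L ^ 2 = 2 * Real.sqrt n * L ^ 3 := by ring
      _ ≤ 2 * Real.sqrt n * (5 * Real.sqrt n) := by gcongr
      _ = 10 * (Real.sqrt n * Real.sqrt n) := by ring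
      _ = 10 * n := by rw [← e2]
  have e : SS χ n = psiC n q χ + (SS χ n - psiC n q χ) := by ring
  rw [e]
  refine (norm_add_le _ _).trans ?_
  have : 20 * (n:ℝ) / L ^ 2 = 10 * n / L ^ 2 + 10 * n / L ^ 2 := by ring
  rw [this]
  exact add_le_add hb (hc.trans hs)

/-- the weight -/
noncomputable def fw (σ : ℝ) (n : ℕ) : ℝ := 1 / ((n:ℝ) ^ (1 + σ) * Real.log n)

theorem fw_pos {σ : ℝ} {n : ℕ} (hn : 3 ≤ n) : 0 < fw σ n := by
  have hn0 : (1:ℝ) < n := by exact_mod_cast (by omega : 1 < n)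
  have := Real.log_pos hn0
  unfold fw
  positivity

theorem fw_le {σ : ℝ} (hσ : 0 < σ) {n : ℕ} (hn : 3 ≤ n) : fw σ n ≤ 1 / (n * Real.log n) := by
  have hn0 : (1:ℝ) < n := by exact_mod_cast (by omega : 1 < n)
  have hl := Real.log_pos hn0
  unfold fw
  apply one_div_le_one_div_of_le (by positivity)
  apply mul_le_mul_of_nonneg_right _ hl.le
  nth_rewrite 1 [← Real.rpow_one (n:ℝ)]
  exact Real.rpow_le_rpow_of_exponent_le hn0.le (by linarith)

theorem fw_anti {σ : ℝ} (hσ : 0 < σ) {n : ℕ} (hn : 3 ≤ n) : fw σ (n + 1) ≤ fw σ n := by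
  have hn0 : (1:ℝ) < n := by exact_mod_cast (by omega : 1 < n)
  have hl := Real.log_pos hn0
  unfold fw
  apply one_div_le_one_div_of_le (by positivity)
  have h1 : (n:ℝ) ≤ ((n + 1 : ℕ) : ℝ) := by push_cast; linarith
  exact mul_le_mul (Real.rpow_le_rpow (by linarith) h1 (by linarith))
    (Real.log_le_log (by linarith) h1) hl.le (by positivity)

theorem fw_diff {σ : ℝ} (hσ : 0 < σ) (hσ1 : σ ≤ 1) {n : ℕ} (hn : 3 ≤ n) :
    fw σ n - fw σ (n + 1) ≤ 5 / (n ^ 2 * Real.log n) := by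
  have hn3 : (3:ℝ) ≤ n := by exact_mod_cast hn
  have hn0 : (1:ℝ) < n := by linarith
  have hl1 : 1 ≤ Real.log n := by
    rw [Real.le_log_iff_exp_le (by linarith)]
    have := Real.exp_one_lt_d9
    linarith
  set N : ℝ := (n:ℝ) with hN
  have hcast : ((n + 1 : ℕ) : ℝ) = N + 1 := by push_cast; rfl
  set L := Real.log N with hL
  set L' := Real.log (N + 1) with hL'
  set u := N ^ σ with hu
  set v := (N + 1) ^ σ with hv
  have hu1 : 1 ≤ u := Real.one_le_rpow hn0.le hσ.le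
  have hv1 : 1 ≤ v := Real.one_le_rpow (by linarith) hσ.le
  have hvu : v ≤ u * ((N + 1) / N) := by
    have h1 : v = u * ((N + 1) / N) ^ σ := by
      rw [hv, hu, ← Real.mul_rpow (by linarith) (by positivity)]
      congr 1
      field_simp
    rw [h1]
    apply mul_le_mul_of_nonneg_left _ (by linarith)
    have h2 : 1 ≤ (N + 1) / N := by rw [le_div_iff₀ (by linarith)]; linarith
    calc ((N + 1) / N) ^ σ ≤ ((N + 1) / N) ^ (1:ℝ) := Real.rpow_le_rpow_of_exponent_le h2 hσ1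
      _ = _ := Real.rpow_one _
  have hLL : L ≤ L' := Real.log_le_log (by linarith) (by linarith)
  have hL'L : L' ≤ L + 1 / N := by
    have h1 : L' = L + Real.log ((N + 1) / N) := by
      rw [hL', hL, Real.log_div (by linarith) (by linarith)]; ring
    rw [h1]
    have h2 := Real.log_le_sub_one_of_pos (show 0 < (N + 1) / N by positivity)
    have h3 : (N + 1) / N - 1 = 1 / N := by field_simp; ring
    linarith
  have e1 : fw σ n = 1 / (N * u * L) := by
    unfold fw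
    rw [Real.rpow_add (by linarith), Real.rpow_one]
  have e2 : fw σ (n + 1) = 1 / ((N + 1) * v * L') := by
    unfold fw
    rw [hcast, Real.rpow_add (by linarith), Real.rpow_one]
  rw [e1, e2]
  have hLp : 0 < L := by linarith
  have hLp' : 0 < L' := by linarith
  have hnum : (N + 1) * v * L' - N * u * L ≤ 5 * u * L := by
    have h1 : (N + 1) * v * L' ≤ (N + 1) * (u * ((N + 1) / N)) * (L + 1 / N) := by
      apply mul_le_mul _ hL'L hLp'.le (by positivity)
      exact mul_le_mul_of_nonneg_left hvu (by linarith)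
    have h2 : (N + 1) * (u * ((N + 1) / N)) * (L + 1 / N) - N * u * L =
        u * (2 * L + L / N + 1 + 2 / N + 1 / N ^ 2) := by
      field_simp
      ring
    have h3 : L / N ≤ L / 3 := div_le_div_of_nonneg_left hLp.le (by norm_num) hn3
    have h4 : 2 / N ≤ 2 / 3 := div_le_div_of_nonneg_left (by norm_num) (by norm_num) hn3
    have h5 : 1 / N ^ 2 ≤ 1 / 9 := by
      apply one_div_le_one_div_of_le (by norm_num)
      nlinarith
    have h6 : u * (2 * L + L / N + 1 + 2 / N + 1 / N ^ 2) ≤ u * (5 * L) := by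
      apply mul_le_mul_of_nonneg_left _ (by linarith)
      linarith
    linarith
  rw [div_sub_div _ _ (by positivity) (by positivity), div_le_div_iff₀ (by positivity) (by positivity)]
  have h7 : 0 < u * L := by positivity
  have h8 : N ^ 2 * L ≤ N * ((N + 1) * v * L') := by
    have : N * L ≤ (N + 1) * v * L' := by
      calc N * L ≤ (N + 1) * 1 * L' := by nlinarith
        _ ≤ (N + 1) * v * L' := by gcongr
    nlinarith
  calc (1 * ((N + 1) * v * L') - N * u * L * 1) * (N ^ 2 * L)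
      ≤ (5 * u * L) * (N ^ 2 * L) := by
        apply mul_le_mul_of_nonneg_right _ (by positivity)
        linarith
    _ ≤ (5 * u * L) * (N * ((N + 1) * v * L')) := by
        apply mul_le_mul_of_nonneg_left h8 (by positivity)
    _ = 5 * (N * u * L * ((N + 1) * v * L')) := by ring

theorem inv_log_diff {n : ℕ} (hn : 4 ≤ n) :
    1 / (n * (Real.log n) ^ 2) ≤ 1 / Real.log ((n:ℝ) - 1) - 1 / Real.log n := by
  have hn4 : (4:ℝ) ≤ n := by exact_mod_cast hn
  have h1 : 0 < Real.log ((n:ℝ) - 1) := Real.log_pos (by linarith)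
  have h2 : Real.log ((n:ℝ) - 1) ≤ Real.log n := Real.log_le_log (by linarith) (by linarith)
  have h3 : 0 < Real.log n := by linarith
  have h4 : 1 / (n:ℝ) ≤ Real.log n - Real.log ((n:ℝ) - 1) := by
    have h5 := Real.log_le_sub_one_of_pos (show 0 < ((n:ℝ) - 1) / n by
      apply div_pos <;> linarith)
    rw [Real.log_div (by linarith) (by linarith)] at h5
    have h6 : ((n:ℝ) - 1) / n - 1 = -(1 / n) := by field_simp; ring
    linarith
  rw [div_sub_div _ _ h1.ne' h3.ne', div_le_div_iff₀ (by positivity) (by positivity)]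
  have h7 : 1 ≤ (n:ℝ) * (Real.log n - Real.log ((n:ℝ) - 1)) := by
    have := mul_le_mul_of_nonneg_left h4 (show (0:ℝ) ≤ n by linarith)
    rwa [mul_one_div_cancel (by linarith)] at this
  calc 1 * (Real.log ((n:ℝ) - 1) * Real.log n) ≤ 1 * (Real.log n * Real.log n) := by gcongr
    _ ≤ ((n:ℝ) * (Real.log n - Real.log ((n:ℝ) - 1))) * (Real.log n * Real.log n) := by
        apply mul_le_mul_of_nonneg_right h7 (by positivity)
    _ = _ := by ring

theorem abel (z : ℕ) (a : ℕ → ℂ) (f : ℕ → ℝ) (N : ℕ) (hN : z ≤ N) :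
    ∑ n ∈ Ioc z N, a n * (f n : ℂ) = (∑ k ∈ Icc 1 N, a k) * (f N : ℂ) -
      (∑ k ∈ Icc 1 z, a k) * (f z : ℂ) +
      ∑ n ∈ Ico z N, (∑ k ∈ Icc 1 n, a k) * ((f n - f (n + 1) : ℝ) : ℂ) := by
  induction N, hN using Nat.le_induction with
  | base => simp
  | succ N hN ih =>
    rw [← Finset.insert_Ioc_right_eq_Ioc_add_one hN, Finset.sum_insert (by simp), ih,
      Finset.sum_Ico_succ_top hN, Finset.sum_Icc_succ_top (by omega : 1 ≤ N + 1)]
    push_cast
    ring

theorem partial_bound {z : ℕ} (hz : 4 ≤ z) {K : ℝ} (hK : 0 ≤ K) {a : ℕ → ℂ} {σ : ℝ} (hσ : 0 < σ)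
    (hσ1 : σ ≤ 1) (ha : ∀ n, z ≤ n → ‖∑ k ∈ Icc 1 n, a k‖ ≤ K * n / (Real.log n) ^ 2)
    {N : ℕ} (hN : z ≤ N) :
    ‖∑ n ∈ Ioc z N, a n * (fw σ n : ℂ)‖ ≤ 7 * K / Real.log ((z:ℝ) - 1) := by
  rw [abel z a (fw σ) N hN]
  have hz4 : (4:ℝ) ≤ z := by exact_mod_cast hz
  have hlz : 1 ≤ Real.log ((z:ℝ) - 1) := by
    rw [Real.le_log_iff_exp_le (by linarith)]
    have := Real.exp_one_lt_d9
    linarith
  have hend : ∀ n, z ≤ n → ‖(∑ k ∈ Icc 1 n, a k) * (fw σ n : ℂ)‖ ≤ K / Real.log ((z:ℝ) - 1) := by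
    intro n hn
    have hn4 : (4:ℝ) ≤ n := by exact_mod_cast hz.trans hn
    have hzn : (z:ℝ) ≤ n := by exact_mod_cast hn
    have hln : Real.log ((z:ℝ) - 1) ≤ Real.log n := Real.log_le_log (by linarith) (by linarith)
    rw [norm_mul, Complex.norm_real, Real.norm_of_nonneg (fw_pos (by omega)).le]
    calc ‖∑ k ∈ Icc 1 n, a k‖ * fw σ n
        ≤ (K * n / (Real.log n) ^ 2) * (1 / (n * Real.log n)) := by
          apply mul_le_mul (ha n hn) (fw_le hσ (by omega)) (fw_pos (by omega)).le (by positivity)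
      _ = K / (Real.log n) ^ 3 := by
          have : 0 < Real.log n := by linarith
          field_simp
      _ ≤ K / Real.log ((z:ℝ) - 1) := by
          apply div_le_div_of_nonneg_left hK (by linarith)
          calc Real.log ((z:ℝ) - 1) ≤ Real.log n := hln
            _ = (Real.log n) ^ 1 := (pow_one _).symm
            _ ≤ (Real.log n) ^ 3 := pow_le_pow_right₀ (by linarith) (by norm_num)
  have hmid : ‖∑ n ∈ Ico z N, (∑ k ∈ Icc 1 n, a k) * ((fw σ n - fw σ (n + 1) : ℝ) : ℂ)‖ ≤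
      5 * K / Real.log ((z:ℝ) - 1) := by
    refine (norm_sum_le _ _).trans ?_
    have hterm : ∀ n ∈ Ico z N, ‖(∑ k ∈ Icc 1 n, a k) * ((fw σ n - fw σ (n + 1) : ℝ) : ℂ)‖ ≤
        5 * K * (1 / Real.log ((n:ℝ) - 1) - 1 / Real.log n) := by
      intro n hn
      rw [mem_Ico] at hn
      have hn4 : (4:ℝ) ≤ n := by exact_mod_cast hz.trans hn.1
      have hzn : (z:ℝ) ≤ n := by exact_mod_cast hn.1
      have hln : Real.log ((z:ℝ) - 1) ≤ Real.log n := Real.log_le_log (by linarith) (by linarith)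
      rw [norm_mul, Complex.norm_real, Real.norm_of_nonneg (sub_nonneg.mpr (fw_anti hσ (by omega)))]
      calc ‖∑ k ∈ Icc 1 n, a k‖ * (fw σ n - fw σ (n + 1))
          ≤ (K * n / (Real.log n) ^ 2) * (5 / (n ^ 2 * Real.log n)) := by
            apply mul_le_mul (ha n hn.1) (fw_diff hσ hσ1 (by omega))
              (sub_nonneg.mpr (fw_anti hσ (by omega))) (by positivity)
        _ = 5 * K * (1 / (n * (Real.log n) ^ 2)) / Real.log n := by
            have : 0 < Real.log n := by linarith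
            field_simp
        _ ≤ 5 * K * (1 / (n * (Real.log n) ^ 2)) := by
            apply div_le_self (by positivity) (by linarith)
        _ ≤ _ := mul_le_mul_of_nonneg_left (inv_log_diff (by omega)) (by positivity)
    refine (Finset.sum_le_sum hterm).trans ?_
    rw [← Finset.mul_sum]
    have htel : ∀ M, z ≤ M → ∑ n ∈ Ico z M, (1 / Real.log ((n:ℝ) - 1) - 1 / Real.log n) =
        1 / Real.log ((z:ℝ) - 1) - 1 / Real.log ((M:ℝ) - 1) := by
      intro M hM
      induction M, hM using Nat.le_induction with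
      | base => simp
      | succ M hM ih =>
        rw [Finset.sum_Ico_succ_top hM, ih]
        push_cast
        rw [add_sub_cancel_right]
        ring
    rw [htel N hN]
    have hN4 : (4:ℝ) ≤ N := by exact_mod_cast hz.trans hN
    have h0 : 0 ≤ 1 / Real.log ((N:ℝ) - 1) := by
      have := Real.log_pos (show 1 < (N:ℝ) - 1 by linarith)
      positivity
    calc 5 * K * (1 / Real.log ((z:ℝ) - 1) - 1 / Real.log ((N:ℝ) - 1))
        ≤ 5 * K * (1 / Real.log ((z:ℝ) - 1)) := by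
          apply mul_le_mul_of_nonneg_left _ (by positivity)
          linarith
      _ = _ := by ring
  refine (norm_add_le _ _).trans ?_
  have h1 := norm_sub_le ((∑ k ∈ Icc 1 N, a k) * (fw σ N : ℂ)) ((∑ k ∈ Icc 1 z, a k) * (fw σ z : ℂ))
  have h2 := hend N hN
  have h3 := hend z le_rfl
  have h4 : 7 * K / Real.log ((z:ℝ) - 1) = K / Real.log ((z:ℝ) - 1) + K / Real.log ((z:ℝ) - 1) +
    5 * K / Real.log ((z:ℝ) - 1) := by ring
  linarith

/-- the completely multiplicative function -/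
noncomputable def fhom (z : ℕ) (_hz : 2 ≤ z) {q : ℕ} (χ : DirichletCharacter ℂ q) (σ : ℝ) (hσ : 0 < σ) :
    ℕ →*₀ ℂ where
  toFun n := fz z χ n * ((1 / (n : ℝ) ^ (1 + σ) : ℝ) : ℂ)
  map_zero' := by
    have : (0:ℝ) ^ (1 + σ) = 0 := Real.zero_rpow (by linarith)
    simp [this]
  map_one' := by
    have : Rgh z 1 := fun p hp _ h => hp.one_lt.ne' (Nat.dvd_one.mp h)
    simp [fz, this]
  map_mul' m n := by
    have h1 : Rgh z (m * n) ↔ Rgh z m ∧ Rgh z n := by
      constructor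
      · intro h
        exact ⟨fun p hp hpz hd => h p hp hpz (hd.mul_right n),
          fun p hp hpz hd => h p hp hpz (hd.mul_left m)⟩
      · rintro ⟨h1, h2⟩ p hp hpz hd
        rcases (Nat.Prime.dvd_mul hp).mp hd with h | h
        · exact h1 p hp hpz h
        · exact h2 p hp hpz h
    have h2 : (((m * n : ℕ) : ℝ)) ^ (1 + σ) = (m:ℝ) ^ (1 + σ) * (n:ℝ) ^ (1 + σ) := by
      push_cast
      exact Real.mul_rpow (by positivity) (by positivity)
    rw [h2]
    unfold fz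
    by_cases hm : Rgh z m
    · by_cases hn : Rgh z n
      · rw [if_pos (h1.mpr ⟨hm, hn⟩), if_pos hm, if_pos hn]
        push_cast
        rw [map_mul]
        ring
      · rw [if_neg (fun h => hn (h1.mp h).2), if_neg hn]
        simp
    · rw [if_neg (fun h => hm (h1.mp h).1), if_neg hm]
      simp

theorem fhom_apply (z : ℕ) (hz : 2 ≤ z) {q : ℕ} (χ : DirichletCharacter ℂ q) (σ : ℝ) (hσ : 0 < σ)
    (n : ℕ) : fhom z hz χ σ hσ n = fz z χ n * ((1 / (n : ℝ) ^ (1 + σ) : ℝ) : ℂ) := rfl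

theorem fz_norm (z : ℕ) {q : ℕ} (χ : DirichletCharacter ℂ q) (n : ℕ) : ‖fz z χ n‖ ≤ 1 := by
  unfold fz
  split_ifs
  · exact DirichletCharacter.norm_le_one χ _
  · simp

theorem fhom_norm (z : ℕ) (hz : 2 ≤ z) {q : ℕ} (χ : DirichletCharacter ℂ q) (σ : ℝ) (hσ : 0 < σ)
    (n : ℕ) : ‖fhom z hz χ σ hσ n‖ ≤ 1 / (n : ℝ) ^ (1 + σ) := by
  rw [fhom_apply, norm_mul, Complex.norm_real, Real.norm_of_nonneg (by positivity)]
  exact mul_le_of_le_one_left (by positivity) (fz_norm z χ n)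

theorem fhom_summable (z : ℕ) (hz : 2 ≤ z) {q : ℕ} (χ : DirichletCharacter ℂ q) (σ : ℝ)
    (hσ : 0 < σ) : Summable (‖fhom z hz χ σ hσ ·‖) :=
  Summable.of_nonneg_of_le (fun _ => norm_nonneg _) (fhom_norm z hz χ σ hσ)
    (Real.summable_one_div_nat_rpow.mpr (by linarith))

theorem fhom_prime (z : ℕ) (hz : 2 ≤ z) {q : ℕ} (χ : DirichletCharacter ℂ q) (σ : ℝ) (hσ : 0 < σ)
    {p : ℕ} (hp : p.Prime) : fhom z hz χ σ hσ p = if z < p then av χ p * (fw σ p : ℂ) else 0 := by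
  rw [fhom_apply]
  unfold fz
  by_cases h : z < p
  · have h1 : Rgh z p := by
      intro r hr hrz hd
      rcases (Nat.dvd_prime hp).mp hd with h2 | h2
      · exact hr.one_lt.ne' h2
      · omega
    rw [if_pos h1, if_pos h]
    unfold av fw
    rw [if_pos hp]
    have hp1 : (1:ℝ) < p := by exact_mod_cast hp.one_lt
    have hl := Real.log_pos hp1
    have h2 : (0:ℝ) < (p:ℝ) ^ (1 + σ) := by positivity
    have h3 : (1 / (p:ℝ) ^ (1 + σ) : ℝ) = Real.log p * (1 / ((p:ℝ) ^ (1 + σ) * Real.log p)) := by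
      field_simp
    rw [h3]
    push_cast
    ring
  · have h1 : ¬ Rgh z p := fun h1 => h1 p hp (by omega) dvd_rfl
    rw [if_neg h1, if_neg h, zero_mul]

theorem sum_primes_bound {z : ℕ} (hz : 4 ≤ z) {K : ℝ} (hK : 0 ≤ K) {q : ℕ}
    (χ : DirichletCharacter ℂ q) {σ : ℝ} (hσ : 0 < σ) (hσ1 : σ ≤ 1)
    (ha : ∀ n, z ≤ n → ‖SS χ n‖ ≤ K * n / (Real.log n) ^ 2) :
    ‖∑' p : Nat.Primes, fhom z (by omega) χ σ hσ p‖ ≤ 7 * K / Real.log ((z:ℝ) - 1) := by
  set F := fhom z (by omega) χ σ hσ with hF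
  have hsum : Summable (fun n => F n) := (fhom_summable z (by omega) χ σ hσ).of_norm
  have h1 : ∑' p : Nat.Primes, F p = ∑' n : ℕ, Set.indicator {p : ℕ | p.Prime} (fun n => F n) n :=
    tsum_subtype {p : ℕ | p.Prime} (fun n => F n)
  rw [h1]
  have hsum2 : Summable (Set.indicator {p : ℕ | p.Prime} (fun n => F n)) := hsum.indicator _
  have ht := hsum2.hasSum.tendsto_sum_nat
  have ht2 := ht.comp (tendsto_add_atTop_nat 1)
  refine le_of_tendsto ht2.norm ?_
  filter_upwards [eventually_ge_atTop z] with N hN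
  have e : ∑ n ∈ range (N + 1), Set.indicator {p : ℕ | p.Prime} (fun n => F n) n =
      ∑ n ∈ Ioc z N, av χ n * (fw σ n : ℂ) := by
    have hsub : Ioc z N ⊆ range (N + 1) := by
      intro n hn
      rw [mem_Ioc] at hn
      rw [mem_range]; omega
    symm
    have e2 : ∀ n ∈ Ioc z N, av χ n * (fw σ n : ℂ) =
        Set.indicator {p : ℕ | p.Prime} (fun n => F n) n := by
      intro n hn
      rw [mem_Ioc] at hn
      by_cases hp : n.Prime
      · rw [Set.indicator_of_mem (show n ∈ {p : ℕ | p.Prime} from hp), hF,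
          fhom_prime z (by omega) χ σ hσ hp, if_pos hn.1]
      · rw [Set.indicator_of_notMem (show n ∉ {p : ℕ | p.Prime} from hp)]
        unfold av
        rw [if_neg hp, zero_mul]
    rw [Finset.sum_congr rfl e2]
    apply Finset.sum_subset hsub
    intro n hn hn2
    rw [mem_range] at hn
    rw [mem_Ioc] at hn2
    by_cases hp : n.Prime
    · rw [Set.indicator_of_mem (show n ∈ {p : ℕ | p.Prime} from hp), hF,
        fhom_prime z (by omega) χ σ hσ hp, if_neg (by omega)]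
    · rw [Set.indicator_of_notMem (show n ∉ {p : ℕ | p.Prime} from hp)]
  change ‖∑ n ∈ range (N + 1), Set.indicator {p : ℕ | p.Prime} (fun n => F n) n‖ ≤ _
  rw [e]
  exact partial_bound hz hK hσ hσ1 ha hN

theorem log_sub (w : ℂ) (hw : ‖w‖ ≤ 1 / 2) : ‖-Complex.log (1 - w) - w‖ ≤ ‖w‖ ^ 2 := by
  have h := Complex.norm_log_one_add_sub_self_le (z := -w) (by rw [norm_neg]; linarith)
  rw [norm_neg] at h
  have e : -Complex.log (1 - w) - w = -(Complex.log (1 + -w) - -w) := by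
    rw [← sub_eq_add_neg]; ring
  rw [e, norm_neg]
  refine h.trans ?_
  have h1 : (1 - ‖w‖)⁻¹ ≤ 2 := by
    rw [inv_le_comm₀ (by linarith) (by norm_num)]
    linarith
  have h2 : 0 ≤ ‖w‖ ^ 2 := by positivity
  calc ‖w‖ ^ 2 * (1 - ‖w‖)⁻¹ / 2 ≤ ‖w‖ ^ 2 * 2 / 2 := by gcongr
    _ = _ := by ring

theorem fhom_small (z : ℕ) (hz : 2 ≤ z) {q : ℕ} (χ : DirichletCharacter ℂ q) (σ : ℝ) (hσ : 0 < σ)
    (p : Nat.Primes) : ‖fhom z hz χ σ hσ p‖ ≤ 1 / 2 ∧ ‖fhom z hz χ σ hσ p‖ ^ 2 ≤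
      if z < (p:ℕ) then 1 / ((p:ℕ):ℝ) ^ 2 else 0 := by
  have hp1 : (2:ℝ) ≤ ((p:ℕ):ℝ) := by exact_mod_cast p.2.two_le
  have h1 : 1 / ((p:ℕ):ℝ) ^ (1 + σ) ≤ 1 / ((p:ℕ):ℝ) := by
    apply one_div_le_one_div_of_le (by linarith)
    nth_rewrite 1 [← Real.rpow_one ((p:ℕ):ℝ)]
    exact Real.rpow_le_rpow_of_exponent_le (by linarith) (by linarith)
  have h2 := (fhom_norm z hz χ σ hσ p).trans h1
  constructor
  · refine h2.trans ?_
    apply one_div_le_one_div_of_le (by norm_num) hp1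
  · split_ifs with h
    · calc ‖fhom z hz χ σ hσ p‖ ^ 2 ≤ (1 / ((p:ℕ):ℝ)) ^ 2 := pow_le_pow_left₀ (norm_nonneg _) h2 2
        _ = _ := by rw [div_pow, one_pow]
    · rw [fhom_prime z hz χ σ hσ p.2, if_neg h]
      simp

theorem tail_sq (z : ℕ) (hz : 1 ≤ z) :
    Summable (fun p : Nat.Primes => if z < (p:ℕ) then 1 / ((p:ℕ):ℝ) ^ 2 else 0) ∧
    ∑' p : Nat.Primes, (if z < (p:ℕ) then 1 / ((p:ℕ):ℝ) ^ 2 else 0) ≤ 1 / (z:ℝ) := by
  set g : ℕ → ℝ := fun n => if z < n then 1 / (n:ℝ) ^ 2 else 0 with hg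
  have hg0 : ∀ n, 0 ≤ g n := by
    intro n
    simp only [hg]
    split_ifs <;> positivity
  have hbig : Summable (fun n : ℕ => 1 / (n:ℝ) ^ 2) := Real.summable_one_div_nat_pow.mpr (by norm_num)
  have hs : Summable g := by
    refine Summable.of_nonneg_of_le hg0 (fun n => ?_) hbig
    simp only [hg]
    split_ifs
    · exact le_rfl
    · positivity
  have hsp : Summable (fun p : Nat.Primes => g p) :=
    hs.comp_injective (i := fun p : Nat.Primes => (p:ℕ)) Subtype.coe_injective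
  refine ⟨hsp, ?_⟩
  have h1 : ∑' p : Nat.Primes, g p = ∑' n : ℕ, Set.indicator {p : ℕ | p.Prime} g n :=
    tsum_subtype {p : ℕ | p.Prime} g
  change ∑' p : Nat.Primes, g p ≤ _
  rw [h1]
  have h2 : ∑' n : ℕ, Set.indicator {p : ℕ | p.Prime} g n ≤ ∑' n, g n := by
    apply Summable.tsum_le_tsum _ (hs.indicator _) hs
    intro n
    exact Set.indicator_le_self' (fun _ _ => hg0 _) n
  refine h2.trans ?_
  have ht := hs.hasSum.tendsto_sum_nat
  refine le_of_tendsto ht ?_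
  filter_upwards [eventually_ge_atTop (z + 1)] with N hN
  have hz0 : (0:ℝ) < z := by exact_mod_cast hz
  have key : ∀ M, z + 1 ≤ M → ∑ n ∈ range M, g n ≤ 1 / (z:ℝ) - 1 / ((M:ℝ) - 1) := by
    intro M hM
    induction M, hM using Nat.le_induction with
    | base =>
      have : ∑ n ∈ range (z + 1), g n = 0 := by
        apply Finset.sum_eq_zero
        intro n hn
        rw [mem_range] at hn
        simp only [hg]
        rw [if_neg (by omega)]
      rw [this]
      push_cast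
      simp
    | succ M hM ih =>
      rw [Finset.sum_range_succ]
      have hM0 : (z:ℝ) + 1 ≤ M := by exact_mod_cast hM
      have : g M = 1 / (M:ℝ) ^ 2 := by
        simp only [hg]
        rw [if_pos (by omega)]
      rw [this]
      push_cast
      have h3 : 1 / (M:ℝ) ^ 2 ≤ 1 / ((M:ℝ) - 1) - 1 / M := by
        have hMp : (0:ℝ) < M := by linarith
        rw [div_sub_div _ _ (by linarith) (by linarith), div_le_div_iff₀ (by positivity)
          (by apply mul_pos <;> linarith)]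
        nlinarith
      rw [add_sub_cancel_right]
      linarith
  have hNp : (z:ℝ) + 1 ≤ N := by exact_mod_cast hN
  have h4 : 0 ≤ 1 / ((N:ℝ) - 1) := by
    apply div_nonneg (by norm_num); linarith
  linarith [key N hN]

theorem swq : St_SWQ := by
  intro B
  obtain ⟨n1, hn1⟩ := SS_bound B
  refine ⟨max (max n1 1000) (⌈Real.exp 600⌉₊ + 1), fun z hz q hq hqB χ hχ σ hσ hσ1 => ?_⟩
  have hz1 : n1 ≤ z := ((le_max_left _ _).trans (le_max_left _ _)).trans hz
  have hz2 : 1000 ≤ z := ((le_max_right _ _).trans (le_max_left _ _)).trans hz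
  have hz3 : ⌈Real.exp 600⌉₊ + 1 ≤ z := (le_max_right _ _).trans hz
  have hz4 : Real.exp 600 ≤ (z:ℝ) - 1 := by
    have h1 : (⌈Real.exp 600⌉₊ : ℝ) + 1 ≤ z := by exact_mod_cast hz3
    linarith [Nat.le_ceil (Real.exp 600)]
  have hzr : (1000:ℝ) ≤ z := by exact_mod_cast hz2
  have hlz : 600 ≤ Real.log ((z:ℝ) - 1) := by
    rw [Real.le_log_iff_exp_le (by linarith)]; exact hz4
  have hz2' : 2 ≤ z := by omega
  set F := fhom z hz2' χ σ hσ with hF
  have hsumF := fhom_summable z hz2' χ σ hσ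
  have hL : Lj z χ 0 σ = ∑' n : ℕ, F n := by
    unfold Lj
    refine tsum_congr fun n => ?_
    rw [hF, fhom_apply, pow_zero]
  have hexp := EulerProduct.exp_tsum_primes_log_eq_tsum hsumF
  rw [hL, ← hexp, Complex.norm_exp]
  have ha : ∀ n, z ≤ n → ‖SS χ n‖ ≤ 20 * n / (Real.log n) ^ 2 := by
    intro n hn
    apply hn1 n (hz1.trans hn) q hq _ χ hχ
    refine hqB.trans ?_
    apply pow_le_pow_left₀ (Real.log_nonneg (by linarith))
    apply Real.log_le_log (by linarith)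
    exact_mod_cast hn
  have hb1 := sum_primes_bound (z := z) (by omega) (by norm_num : (0:ℝ) ≤ 20) χ hσ hσ1 ha
  have hsP : Summable (fun p : Nat.Primes => F p) :=
    hsumF.of_norm.comp_injective (i := fun p : Nat.Primes => (p:ℕ)) Subtype.coe_injective
  obtain ⟨ht1, ht2⟩ := tail_sq z (by omega)
  have hbd : ∀ p : Nat.Primes, ‖-Complex.log (1 - F p) - F p‖ ≤
      if z < (p:ℕ) then 1 / ((p:ℕ):ℝ) ^ 2 else 0 := fun p =>
    (log_sub _ (fhom_small z hz2' χ σ hσ p).1).trans (fhom_small z hz2' χ σ hσ p).2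
  have hsN : Summable (fun p : Nat.Primes => ‖-Complex.log (1 - F p) - F p‖) :=
    Summable.of_nonneg_of_le (fun _ => norm_nonneg _) hbd ht1
  have hdecomp : ∑' p : Nat.Primes, -Complex.log (1 - F p) =
      ∑' p : Nat.Primes, (-Complex.log (1 - F p) - F p) + ∑' p : Nat.Primes, F p := by
    rw [← hsN.of_norm.tsum_add hsP]
    congr 1
    funext p
    ring
  have hb2 : ‖∑' p : Nat.Primes, (-Complex.log (1 - F p) - F p)‖ ≤ 1 / (z:ℝ) :=
    (norm_tsum_le_tsum_norm hsN).trans ((hsN.tsum_le_tsum hbd ht1).trans ht2)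
  have hG : ‖∑' p : Nat.Primes, -Complex.log (1 - F p)‖ ≤ 1 / 2 := by
    rw [hdecomp]
    refine (norm_add_le _ _).trans ?_
    have h1 : 1 / (z:ℝ) ≤ 1 / 1000 := one_div_le_one_div_of_le (by norm_num) hzr
    have h2 : 7 * (20:ℝ) / Real.log ((z:ℝ) - 1) ≤ 7 * 20 / 600 :=
      div_le_div_of_nonneg_left (by norm_num) (by norm_num) hlz
    have h3 : (7:ℝ) * 20 / 600 + 1 / 1000 ≤ 1 / 2 := by norm_num
    linarith
  have hre : -(1 / 2) ≤ (∑' p : Nat.Primes, -Complex.log (1 - F p)).re := by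
    have := Complex.abs_re_le_norm (∑' p : Nat.Primes, -Complex.log (1 - F p))
    have := (abs_le.mp (this.trans hG)).1
    linarith
  calc (1:ℝ) / 2 ≤ -(1 / 2) + 1 := by norm_num
    _ ≤ Real.exp (-(1 / 2)) := Real.add_one_le_exp _
    _ ≤ _ := Real.exp_le_exp.mpr hre

end SWQ

theorem swq : St_SWQ := SWQ.swq

end Pool.Agent.H262R3.Lk
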