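import Pool.Agent.H262R3.Lk.Stubs2

/-!
# WIN: from the series to windows of bounded logarithmic length
-/

open Finset

namespace Pool.Agent.H262R3.Lk

open Pool.Agent.H318R2.Cr (Rgh V)
open Pool.Agent.H378R2 (Phi)

namespace WIN

theorem phi_nonneg (u : ℝ) : 0 ≤ Phi u := le_max_left _ _

/-- the partition of unity -/
theorem tent (n : ℕ) (hn : 3 < Real.log n) : ∃ m : ℕ, 4 ≤ m ∧ ((m : ℝ) + 1) / 2 ≤ Real.log n ∧
    Real.log n ≤ (m : ℝ) / 2 + 1 ∧
    Phi (n / Real.exp ((m : ℝ) / 2)) + Phi (n / Real.exp (((m + 1 : ℕ) : ℝ) / 2)) = 1 / 2 := by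
  set v := Real.log n with hv
  have hn0 : (n : ℝ) ≠ 0 := by
    intro h
    rw [hv, h, Real.log_zero] at hn
    linarith
  have h1 : ((⌊2 * v - 1⌋₊ : ℕ) : ℝ) ≤ 2 * v - 1 := Nat.floor_le (by linarith)
  have h2 : 2 * v - 1 < (⌊2 * v - 1⌋₊ : ℕ) + 1 := Nat.lt_floor_add_one _
  set m := ⌊2 * v - 1⌋₊ with hm
  refine ⟨m, ?_, by linarith, by linarith, ?_⟩
  · rw [hm]
    exact Nat.le_floor (by push_cast; linarith)
  · have e : ∀ k : ℕ, Real.log (n / Real.exp ((k : ℝ) / 2)) = v - k / 2 := by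
      intro k
      rw [Real.log_div hn0 (Real.exp_pos _).ne', Real.log_exp]
    unfold Phi
    rw [e m, e (m + 1)]
    push_cast
    have a1 : |v - (m : ℝ) / 2 - 1 / 2| = v - (m : ℝ) / 2 - 1 / 2 := abs_of_nonneg (by linarith)
    have a2 : |v - ((m : ℝ) + 1) / 2 - 1 / 2| = -(v - ((m : ℝ) + 1) / 2 - 1 / 2) :=
      abs_of_nonpos (by linarith)
    rw [a1, a2, max_eq_right (by linarith), max_eq_right (by linarith)]
    ring

/-- one term of the double sum -/
noncomputable def T (q b : ℕ) (σ : ℝ) (k n : ℕ) : ℝ :=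
  (k : ℝ) ^ 2 * Real.exp (-(σ * k / 2)) * ((if n ∈ Icc 1 ⌊3 * Real.exp ((k : ℝ) / 2)⌋₊ ∧
    n ≡ b [MOD q] then Phi (n / Real.exp ((k : ℝ) / 2)) * ArithmeticFunction.vonMangoldt n
    else 0) / Real.exp ((k : ℝ) / 2))

theorem T_nonneg (q b : ℕ) (σ : ℝ) (k n : ℕ) : 0 ≤ T q b σ k n := by
  unfold T
  refine mul_nonneg (by positivity) (div_nonneg ?_ (Real.exp_pos _).le)
  split_ifs
  · exact mul_nonneg (phi_nonneg _) ArithmeticFunction.vonMangoldt_nonneg
  · exact le_refl _

theorem T_sum (q b : ℕ) (σ : ℝ) (k N : ℕ) : ∑ n ∈ range N, T q b σ k n ≤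
    (k : ℝ) ^ 2 * Real.exp (-(σ * k / 2)) * wn q b k := by
  classical
  unfold T
  rw [← Finset.mul_sum, ← Finset.sum_div]
  unfold wn pc
  refine mul_le_mul_of_nonneg_left ?_ (by positivity)
  refine div_le_div_of_nonneg_right ?_ (Real.exp_pos _).le
  rw [Finset.sum_filter]
  have h1 : ∑ n ∈ range N, (if n ∈ Icc 1 ⌊3 * Real.exp ((k : ℝ) / 2)⌋₊ ∧
    n ≡ b [MOD q] then Phi (n / Real.exp ((k : ℝ) / 2)) * ArithmeticFunction.vonMangoldt n
    else 0) = ∑ n ∈ range N ∩ Icc 1 ⌊3 * Real.exp ((k : ℝ) / 2)⌋₊, (if n ≡ b [MOD q] then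
      Phi (n / Real.exp ((k : ℝ) / 2)) * ArithmeticFunction.vonMangoldt n else 0) := by
    rw [← Finset.sum_ite_mem]
    refine Finset.sum_congr rfl fun n _ => ?_
    rw [ite_and]
  rw [h1]
  refine Finset.sum_le_sum_of_subset_of_nonneg Finset.inter_subset_right ?_
  intro n _ _
  split_ifs
  · exact mul_nonneg (phi_nonneg _) ArithmeticFunction.vonMangoldt_nonneg
  · exact le_refl _

theorem log32 (z : ℕ) (hz : 32 ≤ z) : 3 < Real.log z := by
  have h1 : Real.log 32 ≤ Real.log z := Real.log_le_log (by norm_num) (by exact_mod_cast hz)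
  have h2 : Real.log 32 = 5 * Real.log 2 := by
    rw [show (32 : ℝ) = 2 ^ 5 by norm_num, Real.log_pow]
    norm_num
  have h3 := Real.log_two_gt_d9
  linarith

/-- the pointwise bound -/
theorem point (z q b : ℕ) (σ : ℝ) (hσ : 0 < σ) (hz : 32 ≤ z) (n K : ℕ) (hK : 2 * n ≤ K) :
    bj z q b 2 σ n ≤
      2 * ∑ k ∈ (range K).filter (fun k : ℕ => Real.log z ≤ (k : ℝ) / 2 + 1), T q b σ k n := by
  classical
  have hR : 0 ≤ 2 * ∑ k ∈ (range K).filter (fun k : ℕ => Real.log z ≤ (k : ℝ) / 2 + 1),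
      T q b σ k n := mul_nonneg (by norm_num) (Finset.sum_nonneg fun k _ => T_nonneg _ _ _ _ _)
  by_cases hn : Rgh z n ∧ n ≡ b [MOD q]
  · by_cases hΛ : ArithmeticFunction.vonMangoldt n = 0
    · unfold bj
      rw [if_pos hn, hΛ, zero_mul]
      exact hR
    · have hn1 : n ≠ 1 := by
        rintro rfl
        exact hΛ ArithmeticFunction.vonMangoldt_apply_one
      have hn0 : n ≠ 0 := by
        rintro rfl
        exact hΛ (by simp)
      have hzn : z < n := by
        by_contra hcon
        push Not at hcon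
        have hp := Nat.minFac_prime hn1
        exact hn.1 _ hp ((Nat.minFac_le (Nat.pos_of_ne_zero hn0)).trans hcon) (Nat.minFac_dvd n)
      have hlogz := log32 z hz
      have hv : Real.log z < Real.log n :=
        Real.log_lt_log (by positivity) (by exact_mod_cast hzn)
      obtain ⟨m, hm4, hm1, hm2, hm3⟩ := tent n (hlogz.trans hv)
      set v := Real.log n with hvdef
      have hnpos : (0 : ℝ) < n := by exact_mod_cast Nat.pos_of_ne_zero hn0
      have hnexp : (n : ℝ) = Real.exp v := (Real.exp_log hnpos).symm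
      -- both windows
      have hwin : ∀ k : ℕ, 4 ≤ k → (k : ℝ) / 2 ≤ v → v ≤ (k : ℝ) / 2 + 1 →
          Phi (n / Real.exp ((k : ℝ) / 2)) * (ArithmeticFunction.vonMangoldt n *
            (v ^ 2 / (n : ℝ) ^ (1 + σ))) ≤ T q b σ k n := by
        intro k hk4 hk1 hk2
        have hmem : n ∈ Icc 1 ⌊3 * Real.exp ((k : ℝ) / 2)⌋₊ ∧ n ≡ b [MOD q] := by
          refine ⟨?_, hn.2⟩
          rw [Finset.mem_Icc]
          refine ⟨Nat.pos_of_ne_zero hn0, ?_⟩
          rw [Nat.le_floor_iff (by positivity), hnexp]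
          have h1 : Real.exp v ≤ Real.exp ((k : ℝ) / 2 + 1) := Real.exp_le_exp.2 hk2
          rw [Real.exp_add] at h1
          have h2 := Real.exp_one_lt_d9
          have h3 := Real.exp_pos ((k : ℝ) / 2)
          nlinarith
        unfold T
        rw [if_pos hmem]
        have h1 : v ^ 2 / (n : ℝ) ^ (1 + σ) ≤
            (k : ℝ) ^ 2 * Real.exp (-(σ * k / 2)) / Real.exp ((k : ℝ) / 2) := by
          have h2 : (n : ℝ) ^ (1 + σ) = Real.exp (v * (1 + σ)) := by
            rw [hnexp, ← Real.exp_mul]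
          rw [h2, div_eq_mul_inv, ← Real.exp_neg, div_eq_mul_inv, ← Real.exp_neg, mul_assoc,
            ← Real.exp_add]
          have hk4' : (4 : ℝ) ≤ k := by exact_mod_cast hk4
          refine mul_le_mul ?_ ?_ (Real.exp_pos _).le (by positivity)
          · exact pow_le_pow_left₀ (by linarith) (by linarith) 2
          · refine Real.exp_le_exp.2 ?_
            nlinarith
        have h3 : 0 ≤ Phi (n / Real.exp ((k : ℝ) / 2)) * ArithmeticFunction.vonMangoldt n :=
          mul_nonneg (phi_nonneg _) ArithmeticFunction.vonMangoldt_nonneg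
        have h4 := mul_le_mul_of_nonneg_left h1 h3
        calc Phi (n / Real.exp ((k : ℝ) / 2)) * (ArithmeticFunction.vonMangoldt n *
              (v ^ 2 / (n : ℝ) ^ (1 + σ))) = Phi (n / Real.exp ((k : ℝ) / 2)) *
              ArithmeticFunction.vonMangoldt n * (v ^ 2 / (n : ℝ) ^ (1 + σ)) := by ring
          _ ≤ _ := h4
          _ = _ := by ring
      have w1 := hwin m hm4 (by linarith) hm2
      have w2 := hwin (m + 1) (by omega) (by push_cast; linarith) (by push_cast; linarith)
      have hb : bj z q b 2 σ n = 2 * ((Phi (n / Real.exp ((m : ℝ) / 2)) +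
          Phi (n / Real.exp (((m + 1 : ℕ) : ℝ) / 2))) * (ArithmeticFunction.vonMangoldt n *
            (v ^ 2 / (n : ℝ) ^ (1 + σ)))) := by
        unfold bj
        rw [if_pos hn, hm3]
        ring
      rw [hb]
      refine mul_le_mul_of_nonneg_left ?_ (by norm_num)
      have hsub : ({m, m + 1} : Finset ℕ) ⊆
          (range K).filter (fun k : ℕ => Real.log z ≤ (k : ℝ) / 2 + 1) := by
        have hlogn : v ≤ n - 1 := Real.log_le_sub_one_of_pos hnpos
        have hmK : ((m : ℝ) + 1) < K := by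
          have : (2 * n : ℝ) ≤ K := by exact_mod_cast hK
          linarith
        have hmK' : m + 1 < K := by exact_mod_cast hmK
        intro k hk
        rw [Finset.mem_insert, Finset.mem_singleton] at hk
        rw [Finset.mem_filter, Finset.mem_range]
        rcases hk with rfl | rfl
        · exact ⟨by omega, by linarith⟩
        · exact ⟨hmK', by push_cast; linarith⟩
      have hsum := Finset.sum_le_sum_of_subset_of_nonneg (f := fun k => T q b σ k n) hsub
        (fun k _ _ => T_nonneg _ _ _ _ _)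
      rw [Finset.sum_pair (by omega)] at hsum
      refine le_trans ?_ hsum
      rw [add_mul]
      exact add_le_add w1 w2
  · unfold bj
    rw [if_neg hn]
    exact hR

end WIN

theorem win (_hs : St_SUM) (hw : St_WUP) : St_WIN := by
  classical
  obtain ⟨C, hC, hW⟩ := hw
  intro c hc
  set η : ℝ := min 1 (c / (8 * C)) with hη
  set R : ℝ := max 2 (6144 * C / c) with hR
  have hη0 : 0 < η := lt_min one_pos (by positivity)
  have hη1 : η ≤ 1 := min_le_left _ _
  have hR2 : 2 ≤ R := le_max_left _ _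
  refine ⟨η, R, c / 4, hη0, by linarith, by positivity, ?_⟩
  intro z q b σ hz hq hqz hbq hσ hσz hB
  have hlogz := WIN.log32 z hz
  have hφ : 0 < (q.totient : ℝ) := by exact_mod_cast Nat.totient_pos.2 hq
  -- bounds of the windows
  have hwb : ∀ k : ℕ, Real.log z ≤ (k : ℝ) / 2 + 1 → 0 ≤ wn q b k ∧ wn q b k ≤ C / q.totient :=
    fun k hk => hW z q b k hz hq hqz hbq hk
  set g : ℕ → ℝ := fun k => (k : ℝ) ^ 2 * Real.exp (-(σ * k / 2)) * wn q b k with hg
  set M : ℝ := ∑ k ∈ Icc ⌈η / σ⌉₊ ⌊R / σ⌋₊, g k with hM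
  have hlog2 : ∀ k : ℕ, η / σ ≤ k → Real.log z ≤ (k : ℝ) / 2 + 1 := by
    intro k hk
    have h1 : Real.log z ≤ η / σ / 4 := by
      rw [div_div, le_div_iff₀ (by positivity)]
      nlinarith
    have h2 : 0 ≤ η / σ := by positivity
    linarith
  have hgk : ∀ k ∈ Icc ⌈η / σ⌉₊ ⌊R / σ⌋₊, 0 ≤ g k := by
    intro k hk
    rw [Finset.mem_Icc] at hk
    have hk1 : η / σ ≤ k := Nat.ceil_le.1 hk.1
    exact mul_nonneg (by positivity) (hwb k (hlog2 k hk1)).1
  -- bound of the sum over k
  have hSK : ∀ K : ℕ, ∑ k ∈ (range K).filter (fun k : ℕ => Real.log z ≤ (k : ℝ) / 2 + 1), g k ≤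
      M + C / q.totient * (η ^ 3 / σ ^ 3) + C / q.totient * (768 / (R * σ ^ 3)) := by
    intro K
    set S := (range K).filter (fun k : ℕ => Real.log z ≤ (k : ℝ) / 2 + 1) with hS
    have hpt : ∀ k ∈ S, g k ≤ (if k ∈ Icc ⌈η / σ⌉₊ ⌊R / σ⌋₊ then g k else 0) +
        (if k ∈ Icc 1 ⌊η / σ⌋₊ then C / q.totient * (η / σ) ^ 2 else 0) +
        (if k ∈ Ioo ⌊R / σ⌋₊ K then C / q.totient * (384 / σ ^ 4 * ((k : ℝ) ^ 2)⁻¹) else 0) := by
      intro k hk
      rw [hS, Finset.mem_filter, Finset.mem_range] at hk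
      obtain ⟨hw0, hw1⟩ := hwb k hk.2
      have hg0 : 0 ≤ g k := mul_nonneg (by positivity) hw0
      have hk1 : 1 ≤ k := by
        by_contra hcon
        have : k = 0 := by omega
        rw [this] at hk
        norm_num at hk
        linarith
      have hkpos : (0 : ℝ) < k := by exact_mod_cast hk1
      have hi2 : 0 ≤ (if k ∈ Icc 1 ⌊η / σ⌋₊ then C / q.totient * (η / σ) ^ 2 else 0) := by
        split_ifs
        · positivity
        · exact le_refl _
      have hi3 : 0 ≤ (if k ∈ Ioo ⌊R / σ⌋₊ K then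
          C / q.totient * (384 / σ ^ 4 * ((k : ℝ) ^ 2)⁻¹) else 0) := by
        split_ifs
        · positivity
        · exact le_refl _
      have hi1 : 0 ≤ (if k ∈ Icc ⌈η / σ⌉₊ ⌊R / σ⌋₊ then g k else 0) := by
        split_ifs
        · exact hg0
        · exact le_refl _
      rcases lt_or_ge (k : ℝ) (η / σ) with h | h
      · have hmem : k ∈ Icc 1 ⌊η / σ⌋₊ := by
          rw [Finset.mem_Icc]
          exact ⟨hk1, (Nat.le_floor_iff (by positivity)).2 h.le⟩
        rw [if_pos hmem]
        have h1 : g k ≤ C / q.totient * (η / σ) ^ 2 := by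
          have h2 : (k : ℝ) ^ 2 * Real.exp (-(σ * k / 2)) ≤ (η / σ) ^ 2 := by
            have he : Real.exp (-(σ * k / 2)) ≤ 1 := by
              rw [Real.exp_le_one_iff]
              have : 0 ≤ σ * k / 2 := by positivity
              linarith
            calc (k : ℝ) ^ 2 * Real.exp (-(σ * k / 2)) ≤ (k : ℝ) ^ 2 * 1 :=
                  mul_le_mul_of_nonneg_left he (by positivity)
              _ ≤ (η / σ) ^ 2 := by
                  rw [mul_one]
                  exact pow_le_pow_left₀ hkpos.le h.le 2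
          calc g k ≤ (η / σ) ^ 2 * (C / q.totient) := mul_le_mul h2 hw1 hw0 (by positivity)
            _ = _ := by ring
        linarith
      · rcases le_or_gt k ⌊R / σ⌋₊ with h' | h'
        · have hmem : k ∈ Icc ⌈η / σ⌉₊ ⌊R / σ⌋₊ := by
            rw [Finset.mem_Icc]
            exact ⟨Nat.ceil_le.2 h, h'⟩
          rw [if_pos hmem]
          linarith
        · have hmem : k ∈ Ioo ⌊R / σ⌋₊ K := by
            rw [Finset.mem_Ioo]
            exact ⟨h', hk.1⟩
          rw [if_pos hmem]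
          have h1 : g k ≤ C / q.totient * (384 / σ ^ 4 * ((k : ℝ) ^ 2)⁻¹) := by
            have h2 : (k : ℝ) ^ 2 * Real.exp (-(σ * k / 2)) ≤ 384 / σ ^ 4 * ((k : ℝ) ^ 2)⁻¹ := by
              have hx : 0 < σ * k / 2 := by positivity
              have h3 : (σ * k / 2) ^ 4 / (Nat.factorial 4 : ℝ) ≤ Real.exp (σ * k / 2) :=
                Real.pow_div_factorial_le_exp _ hx.le 4
              have h4 : (Nat.factorial 4 : ℝ) = 24 := by norm_num [Nat.factorial]
              rw [h4] at h3
              rw [Real.exp_neg, ← div_eq_mul_inv, ← div_eq_mul_inv, div_div,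
                div_le_div_iff₀ (Real.exp_pos _) (by positivity)]
              have h5 : (k : ℝ) ^ 2 * (σ ^ 4 * (k : ℝ) ^ 2) = 384 * ((σ * k / 2) ^ 4 / 24) := by
                ring
              rw [h5]
              exact mul_le_mul_of_nonneg_left h3 (by norm_num)
            calc g k ≤ (384 / σ ^ 4 * ((k : ℝ) ^ 2)⁻¹) * (C / q.totient) :=
                  mul_le_mul h2 hw1 hw0 (by positivity)
              _ = _ := by ring
          linarith
    refine (Finset.sum_le_sum hpt).trans ?_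
    rw [Finset.sum_add_distrib, Finset.sum_add_distrib]
    refine add_le_add (add_le_add ?_ ?_) ?_
    · rw [Finset.sum_ite_mem]
      exact Finset.sum_le_sum_of_subset_of_nonneg Finset.inter_subset_right
        (fun k hk _ => hgk k hk)
    · rw [Finset.sum_ite_mem]
      refine (Finset.sum_le_sum_of_subset_of_nonneg (t := Icc 1 ⌊η / σ⌋₊)
        Finset.inter_subset_right (fun k _ _ => by positivity)).trans ?_
      rw [Finset.sum_const, Nat.card_Icc, nsmul_eq_mul]
      have h1 : ((⌊η / σ⌋₊ + 1 - 1 : ℕ) : ℝ) ≤ η / σ := by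
        rw [Nat.add_sub_cancel]
        exact Nat.floor_le (by positivity)
      calc ((⌊η / σ⌋₊ + 1 - 1 : ℕ) : ℝ) * (C / q.totient * (η / σ) ^ 2) ≤
            η / σ * (C / q.totient * (η / σ) ^ 2) :=
            mul_le_mul_of_nonneg_right h1 (by positivity)
        _ = _ := by ring
    · rw [Finset.sum_ite_mem]
      refine (Finset.sum_le_sum_of_subset_of_nonneg (t := Ioo ⌊R / σ⌋₊ K)
        Finset.inter_subset_right (fun k _ _ => by positivity)).trans ?_
      rw [← Finset.mul_sum, ← Finset.mul_sum]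
      have h1 := sum_Ioo_inv_sq_le (α := ℝ) ⌊R / σ⌋₊ K
      have h2 : 2 / (((⌊R / σ⌋₊ : ℕ) : ℝ) + 1) ≤ 2 * σ / R := by
        have h3 : R / σ < (⌊R / σ⌋₊ : ℕ) + 1 := Nat.lt_floor_add_one _
        rw [div_le_div_iff₀ (by positivity) (by positivity)]
        rw [div_lt_iff₀ hσ] at h3
        nlinarith
      have h4 := h1.trans h2
      calc C / q.totient * (384 / σ ^ 4 * ∑ i ∈ Ioo ⌊R / σ⌋₊ K, ((i : ℝ) ^ 2)⁻¹) ≤
            C / q.totient * (384 / σ ^ 4 * (2 * σ / R)) := by
            refine mul_le_mul_of_nonneg_left (mul_le_mul_of_nonneg_left h4 (by positivity))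
              (by positivity)
        _ = _ := by
            have : R ≠ 0 := by positivity
            field_simp
            ring
  -- the series
  have hBle : Bj z q b 2 σ ≤ 2 * (M + C / q.totient * (η ^ 3 / σ ^ 3) +
      C / q.totient * (768 / (R * σ ^ 3))) := by
    refine Real.tsum_le_of_sum_range_le (fun n => ?_) (fun N => ?_)
    · unfold bj
      split_ifs
      · refine mul_nonneg ArithmeticFunction.vonMangoldt_nonneg (by positivity)
      · exact le_refl _
    · have h1 : ∑ n ∈ range N, bj z q b 2 σ n ≤ ∑ n ∈ range N,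
          2 * ∑ k ∈ (range (2 * N)).filter (fun k : ℕ => Real.log z ≤ (k : ℝ) / 2 + 1),
            WIN.T q b σ k n := by
        refine Finset.sum_le_sum fun n hn => ?_
        rw [Finset.mem_range] at hn
        exact WIN.point z q b σ hσ hz n (2 * N) (by omega)
      refine h1.trans ?_
      rw [← Finset.mul_sum]
      refine mul_le_mul_of_nonneg_left ?_ (by norm_num)
      rw [Finset.sum_comm]
      exact (Finset.sum_le_sum fun k _ => WIN.T_sum q b σ k N).trans (hSK (2 * N))
  -- conclusion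
  have h1 := hB.trans hBle
  have h2 : C * η ^ 3 ≤ c / 8 := by
    have h3 : η ^ 3 ≤ η := by
      calc η ^ 3 ≤ η ^ 1 := pow_le_pow_of_le_one hη0.le hη1 (by norm_num)
        _ = η := pow_one η
    have h4 : η ≤ c / (8 * C) := min_le_right _ _
    calc C * η ^ 3 ≤ C * (c / (8 * C)) := mul_le_mul_of_nonneg_left (h3.trans h4) hC.le
      _ = c / 8 := by field_simp
  have h3 : C * 768 / R ≤ c / 8 := by
    have h4 : 6144 * C / c ≤ R := le_max_right _ _
    rw [div_le_iff₀ hc] at h4
    rw [div_le_iff₀ (by positivity)]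
    nlinarith
  have h5 : C / q.totient * (η ^ 3 / σ ^ 3) + C / q.totient * (768 / (R * σ ^ 3)) =
      (C * η ^ 3 + C * 768 / R) * (1 / (q.totient * σ ^ 3)) := by
    have : R ≠ 0 := by positivity
    field_simp
  have h6 : (C * η ^ 3 + C * 768 / R) * (1 / (q.totient * σ ^ 3)) ≤
      (c / 4) * (1 / (q.totient * σ ^ 3)) :=
    mul_le_mul_of_nonneg_right (by linarith) (by positivity)
  have h7 : c / (q.totient * σ ^ 3) = c * (1 / (q.totient * σ ^ 3)) := by ring
  have h8 : c / 4 / (q.totient * σ ^ 3) = c / 4 * (1 / (q.totient * σ ^ 3)) := by ring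
  rw [h7] at h1
  rw [h8]
  have h9 : c * (1 / (q.totient * σ ^ 3)) ≤ 2 * (M + (c / 4) * (1 / (q.totient * σ ^ 3))) := by
    refine h1.trans ?_
    rw [add_assoc, h5]
    linarith
  linarith

end Pool.Agent.H262R3.Lk
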