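import Mathlib
import Pool.Agent.H262R3.Lk.Stubs2

/-! WUP: Brun-Titchmarsh for one window, from BT. -/

open Finset

namespace Pool.Agent.H262R3.Lk

namespace WUP

open Pool.Agent.H378R2 (Phi)

theorem Phi_nonneg (u : ℝ) : 0 ≤ Phi u := le_max_left _ _

theorem Phi_le_one (u : ℝ) : Phi u ≤ 1 := by
  unfold Phi
  apply max_le (by norm_num)
  have := abs_nonneg (Real.log u - 1 / 2)
  linarith

theorem pc_nonneg (Y : ℝ) (q b : ℕ) : 0 ≤ pc Y q b :=
  Finset.sum_nonneg (fun _ _ => mul_nonneg (Phi_nonneg _) ArithmeticFunction.vonMangoldt_nonneg)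

theorem pc_le (Y : ℝ) (q b : ℕ) : pc Y q b ≤
    ∑ n ∈ (Icc 1 ⌊3 * Y⌋₊).filter (fun n => n ≡ b [MOD q]), ArithmeticFunction.vonMangoldt n := by
  unfold pc
  refine Finset.sum_le_sum (fun n _ => ?_)
  calc Phi (n / Y) * ArithmeticFunction.vonMangoldt n
      ≤ 1 * ArithmeticFunction.vonMangoldt n :=
        mul_le_mul_of_nonneg_right (Phi_le_one _) ArithmeticFunction.vonMangoldt_nonneg
    _ = ArithmeticFunction.vonMangoldt n := one_mul _

end WUP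

open WUP in
theorem wup (hbt : St_BT) : St_WUP := by
  obtain ⟨C, hC, hbt⟩ := hbt
  refine ⟨3 * C, by positivity, fun z q b k hz hq hqz hb hk => ?_⟩
  have hY : 0 < Real.exp ((k : ℝ) / 2) := Real.exp_pos _
  have hz0 : (0 : ℝ) < z := by
    have : (32 : ℝ) ≤ z := by exact_mod_cast hz
    linarith
  have hzY : (z : ℝ) ≤ 3 * Real.exp ((k : ℝ) / 2) := by
    have h1 : (z : ℝ) ≤ Real.exp ((k : ℝ) / 2 + 1) := by
      rw [← Real.exp_log hz0]
      exact Real.exp_le_exp.2 hk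
    rw [Real.exp_add] at h1
    have h2 : Real.exp 1 ≤ 3 := by
      have := Real.exp_one_lt_d9
      linarith
    calc (z : ℝ) ≤ Real.exp ((k : ℝ) / 2) * Real.exp 1 := h1
      _ ≤ Real.exp ((k : ℝ) / 2) * 3 := mul_le_mul_of_nonneg_left h2 hY.le
      _ = 3 * Real.exp ((k : ℝ) / 2) := mul_comm _ _
  have hN : z ≤ ⌊3 * Real.exp ((k : ℝ) / 2)⌋₊ := Nat.le_floor hzY
  have hNle : ((⌊3 * Real.exp ((k : ℝ) / 2)⌋₊ : ℕ) : ℝ) ≤ 3 * Real.exp ((k : ℝ) / 2) :=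
    Nat.floor_le (by positivity)
  have hφ : (0 : ℝ) < q.totient := by
    exact_mod_cast Nat.totient_pos.2 hq
  have h3 := hbt q b _ (hz.trans hN) hq (hqz.trans hN) hb
  unfold wn
  refine ⟨div_nonneg (pc_nonneg _ _ _) hY.le, ?_⟩
  rw [div_le_iff₀ hY]
  calc pc (Real.exp ((k : ℝ) / 2)) q b
      ≤ C * ((⌊3 * Real.exp ((k : ℝ) / 2)⌋₊ : ℕ) : ℝ) / q.totient := (pc_le _ _ _).trans h3
    _ ≤ C * (3 * Real.exp ((k : ℝ) / 2)) / q.totient := by gcongr
    _ = 3 * C / q.totient * Real.exp ((k : ℝ) / 2) := by ring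

end Pool.Agent.H262R3.Lk
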