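import Mathlib
import Pool.Agent.H262R3.Lk.Stubs3
import Pool.Agent.H379R2.SWP
import Pool.Agent.H379R2.SW2

/-! Task ZF (helper797): a zero-free rectangle gives a bound for the log-weighted prime sum. -/

set_option autoImplicit false

open MeasureTheory Complex Filter Topology Set
open scoped Real

namespace Pool.Agent.H262R3.Lk

namespace ZFx

open Pool.Agent.H379R2.SW (vert vert_re vert_im vert_ne_zero continuous_vert perron_sum
  char_norm_le zeta_norm_le)

/-- Logarithmic derivative of a zero-free function on a disc. -/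
lemma logDeriv_le {L : ℂ → ℂ} {s0 s1 : ℂ} {R M : ℝ} (hR : 0 < R) (hM : 0 < M)
    (hd : DifferentiableOn ℂ L (Metric.ball s0 R)) (hne : ∀ z ∈ Metric.ball s0 R, L z ≠ 0)
    (hB : ∀ z ∈ Metric.ball s0 R, ‖L z‖ ≤ ‖L s0‖ * Real.exp M) (h1 : ‖s1 - s0‖ ≤ 2 * R / 5) :
    ‖deriv L s1 / L s1‖ ≤ 20 * M / R := by
  have hs0 : s0 ∈ Metric.ball s0 R := Metric.mem_ball_self hR
  have hdd : DifferentiableOn ℂ (fun z => deriv L z / L z) (Metric.ball s0 R) :=
    (hd.deriv Metric.isOpen_ball).div hd hne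
  obtain ⟨h, h0, hh⟩ := hdd.isExactOn_ball.with_val_at s0 0
  -- `L z = L s0 * exp (h z)`
  have hconst : ∀ z ∈ Metric.ball s0 R, L z * cexp (-h z) = L s0 := by
    have hg : DifferentiableOn ℂ (fun z => L z * cexp (-h z)) (Metric.ball s0 R) := by
      intro z hz
      have e1 := (hd.differentiableAt (Metric.isOpen_ball.mem_nhds hz))
      have e2 := (hh z hz).differentiableAt
      exact (e1.mul e2.neg.cexp).differentiableWithinAt
    have hder : EqOn (deriv (fun z => L z * cexp (-h z))) 0 (Metric.ball s0 R) := by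
      intro z hz
      have e1 := (hd.differentiableAt (Metric.isOpen_ball.mem_nhds hz)).hasDerivAt
      have e2 := hh z hz
      have e3 := e1.mul e2.neg.cexp
      rw [show (fun z => L z * cexp (-h z)) = L * (fun z => cexp ((-h) z)) from rfl, e3.deriv]
      have hz0 := hne z hz
      simp only [Pi.neg_apply, Pi.zero_apply]
      field_simp
      ring
    intro z hz
    have := Metric.isOpen_ball.is_const_of_deriv_eq_zero
      (convex_ball s0 R).isPreconnected hg hder hz hs0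
    rw [this, h0, neg_zero, Complex.exp_zero, mul_one]
  have hre : ∀ z ∈ Metric.ball s0 R, (h z).re ≤ M := by
    intro z hz
    have e1 := hconst z hz
    have e2 : L z = L s0 * cexp (h z) := by
      rw [← e1, mul_assoc, ← Complex.exp_add, neg_add_cancel, Complex.exp_zero, mul_one]
    have e3 := hB z hz
    rw [e2, norm_mul, Complex.norm_exp] at e3
    have e4 : 0 < ‖L s0‖ := norm_pos_iff.2 (hne s0 hs0)
    exact Real.exp_le_exp.1 (le_of_mul_le_mul_left e3 e4)
  -- Borel–Carathéodory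
  have hbc : ∀ z, ‖z - s0‖ ≤ 4 * R / 5 → ‖h z‖ ≤ 8 * M := by
    intro z hz
    have hzR : ‖z - s0‖ < R := by linarith
    have k1 : DifferentiableOn ℂ (fun w => h (s0 + w)) (Metric.ball 0 R) := by
      intro w hw
      have hw' : s0 + w ∈ Metric.ball s0 R := by
        rw [mem_ball_iff_norm] at hw ⊢
        simpa using hw
      have := (hh _ hw').differentiableAt
      apply DifferentiableAt.differentiableWithinAt
      exact this.comp w ((differentiableAt_const _).add differentiableAt_id)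
    have k2 : MapsTo (fun w => h (s0 + w)) (Metric.ball 0 R) {z | z.re ≤ M} := by
      intro w hw
      have hw' : s0 + w ∈ Metric.ball s0 R := by
        rw [mem_ball_iff_norm] at hw ⊢
        simpa using hw
      exact hre _ hw'
    have k3 : (z - s0) ∈ Metric.ball (0 : ℂ) R := by
      rw [mem_ball_iff_norm, sub_zero]; exact hzR
    have k4 := borelCaratheodory_zero hM k1 k2 hR k3 (by simpa using h0)
    simp only [add_sub_cancel] at k4
    refine k4.trans ?_
    rw [div_le_iff₀ (by linarith)]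
    have : 2 * M * ‖z - s0‖ ≤ 2 * M * (4 * R / 5) := by
      apply mul_le_mul_of_nonneg_left hz (by linarith)
    nlinarith
  -- Cauchy estimate
  have hr : 0 < 2 * R / 5 := by positivity
  have hsub : ∀ z, ‖z - s1‖ ≤ 2 * R / 5 → ‖z - s0‖ ≤ 4 * R / 5 := by
    intro z hz
    have : z - s0 = (z - s1) + (s1 - s0) := by ring
    rw [this]
    refine (norm_add_le _ _).trans ?_
    linarith
  have hs1 : s1 ∈ Metric.ball s0 R := by
    rw [mem_ball_iff_norm]; linarith
  have hdc : DiffContOnCl ℂ h (Metric.ball s1 (2 * R / 5)) := by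
    apply DifferentiableOn.diffContOnCl
    intro z hz
    have hz' : ‖z - s1‖ ≤ 2 * R / 5 := by
      have := Metric.closure_ball_subset_closedBall hz
      rwa [mem_closedBall_iff_norm] at this
    have hz2 : z ∈ Metric.ball s0 R := by
      rw [mem_ball_iff_norm]
      have := hsub z hz'
      linarith
    exact (hh z hz2).differentiableAt.differentiableWithinAt
  have hc := Complex.norm_deriv_le_of_forall_mem_sphere_norm_le hr hdc (C := 8 * M) (by
    intro z hz
    rw [mem_sphere_iff_norm] at hz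
    exact hbc z (hsub z hz.le))
  rw [(hh s1 hs1).deriv] at hc
  refine hc.trans (le_of_eq ?_)
  field_simp
  norm_num

/-- the real zeta sum -/
lemma zsum {σ : ℝ} (h1 : 1 < σ) (h2 : σ ≤ 2) :
    Summable (fun n : ℕ => 1 / (n : ℝ) ^ σ) ∧ ∑' n : ℕ, 1 / (n : ℝ) ^ σ ≤ 28 / (σ - 1) := by
  have hs : Summable (fun n : ℕ => 1 / (n : ℝ) ^ σ) := Real.summable_one_div_nat_rpow.2 h1
  refine ⟨hs, ?_⟩
  have hz : riemannZeta (σ : ℂ) = ((∑' n : ℕ, 1 / (n : ℝ) ^ σ : ℝ) : ℂ) := by
    rw [zeta_eq_tsum_one_div_nat_cpow (by simpa using h1), Complex.ofReal_tsum]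
    apply tsum_congr
    intro n
    rw [Complex.ofReal_div, Complex.ofReal_one, Complex.ofReal_cpow (Nat.cast_nonneg n),
      Complex.ofReal_natCast]
  have hn0 : 0 ≤ ∑' n : ℕ, 1 / (n : ℝ) ^ σ := tsum_nonneg (fun n => by positivity)
  have h := zeta_norm_le (s := (σ : ℂ)) (by simpa using h1) (N := 4) (by
    rw [Complex.norm_real, Real.norm_of_nonneg (by linarith)]; linarith) (η := 1 / 4) (by norm_num)
  rw [hz, Complex.norm_real, Real.norm_of_nonneg hn0] at h
  have e1 : ‖(σ : ℂ) - 1‖ = σ - 1 := by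
    rw [← Complex.ofReal_one, ← Complex.ofReal_sub, Complex.norm_real,
      Real.norm_of_nonneg (by linarith)]
  have e2 : (4 : ℝ) ^ (2 * (1 / 4 : ℝ)) = 2 := by
    rw [show (2 * (1 / 4 : ℝ)) = (1 / 2 : ℝ) by norm_num, ← Real.sqrt_eq_rpow,
      show (4 : ℝ) = 2 ^ 2 by norm_num]
    exact Real.sqrt_sq (by norm_num)
  rw [e1, e2] at h
  refine h.trans ?_
  have h3 : 0 < σ - 1 := by linarith
  rw [le_div_iff₀ h3, add_mul, div_mul_cancel₀ _ h3.ne']
  nlinarith

/-- norm of an `L`-series -/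
lemma lseries_le {a : ℕ → ℂ} {s : ℂ} {ε B : ℝ} (hB : 0 ≤ B) (h1 : 1 < s.re - ε)
    (h2 : s.re - ε ≤ 2) (ha : ∀ n : ℕ, 0 < n → ‖a n‖ ≤ B * (n : ℝ) ^ ε) :
    ‖LSeries a s‖ ≤ B * (28 / (s.re - ε - 1)) := by
  obtain ⟨k1, k2⟩ := zsum h1 h2
  have hterm : ∀ n, ‖LSeries.term a s n‖ ≤ B * (1 / (n : ℝ) ^ (s.re - ε)) := by
    intro n
    rw [LSeries.norm_term_eq]
    rcases Nat.eq_zero_or_pos n with rfl | hn
    · rw [if_pos rfl]; positivity
    · rw [if_neg hn.ne']
      have hn' : (0 : ℝ) < n := by exact_mod_cast hn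
      rw [Real.rpow_sub hn', div_le_iff₀ (Real.rpow_pos_of_pos hn' _)]
      have := ha n hn
      have e1 : (n : ℝ) ^ s.re ≠ 0 := (Real.rpow_pos_of_pos hn' _).ne'
      have e2 : (n : ℝ) ^ ε ≠ 0 := (Real.rpow_pos_of_pos hn' _).ne'
      have e3 : B * (1 / ((n : ℝ) ^ s.re / (n : ℝ) ^ ε)) * (n : ℝ) ^ s.re = B * (n : ℝ) ^ ε := by
        field_simp
      rw [e3]; exact this
  have hsum : Summable (fun n => ‖LSeries.term a s n‖) :=
    Summable.of_nonneg_of_le (fun _ => norm_nonneg _) hterm (k1.mul_left B)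
  calc ‖LSeries a s‖ ≤ ∑' n, ‖LSeries.term a s n‖ := norm_tsum_le_tsum_norm hsum
    _ ≤ ∑' n : ℕ, B * (1 / (n : ℝ) ^ (s.re - ε)) :=
        Summable.tsum_le_tsum hterm hsum (k1.mul_left B)
    _ = B * ∑' n : ℕ, 1 / (n : ℝ) ^ (s.re - ε) := tsum_mul_left
    _ ≤ _ := mul_le_mul_of_nonneg_left k2 hB

/-- lower bound of `L` to the right of `1` -/
lemma L_lower {q : ℕ} [NeZero q] (χ : DirichletCharacter ℂ q) {s : ℂ} (h1 : 1 < s.re)
    (h2 : s.re ≤ 2) : 1 ≤ ‖χ.LFunction s‖ * (28 / (s.re - 1)) := by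
  have h := DirichletCharacter.LSeries.mul_mu_eq_one χ h1
  have h3 := congrArg norm h
  rw [norm_mul, norm_one] at h3
  rw [DirichletCharacter.LFunction_eq_LSeries χ h1]
  refine h3.ge.trans ?_
  apply mul_le_mul_of_nonneg_left _ (norm_nonneg _)
  have h4 := lseries_le (a := (fun n : ℕ => χ (n : ZMod q)) *
    (fun n : ℕ => ((ArithmeticFunction.moebius n : ℤ) : ℂ))) (s := s) (ε := 0) (B := 1)
    zero_le_one (by linarith) (by linarith) (by
      intro n _
      rw [Real.rpow_zero, one_mul, Pi.mul_apply, norm_mul]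
      have k1 := χ.norm_le_one (n : ZMod q)
      have k2 : ‖((ArithmeticFunction.moebius n : ℤ) : ℂ)‖ ≤ 1 := by
        rw [Complex.norm_intCast]
        exact_mod_cast ArithmeticFunction.abs_moebius_le_one
      calc _ ≤ (1 : ℝ) * 1 := mul_le_mul k1 k2 (norm_nonneg _) zero_le_one
        _ = 1 := by norm_num)
  simpa using h4

/-- the series of `Λ χ` -/
lemma Lam_le {q : ℕ} (χ : DirichletCharacter ℂ q) {s : ℂ} (h1 : 1 < s.re)
    (h2 : s.re ≤ 2) : ‖LSeries ((fun n : ℕ => χ (n : ZMod q)) *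
      (fun n : ℕ => ((ArithmeticFunction.vonMangoldt n : ℝ) : ℂ))) s‖ ≤
        112 / (s.re - 1) ^ 2 := by
  set ε : ℝ := (s.re - 1) / 2 with hε
  have hε0 : 0 < ε := by rw [hε]; linarith
  have h3 := lseries_le (a := (fun n : ℕ => χ (n : ZMod q)) *
      (fun n : ℕ => ((ArithmeticFunction.vonMangoldt n : ℝ) : ℂ))) (s := s) (ε := ε)
      (B := 1 / ε) (by positivity) (by rw [hε]; linarith) (by linarith) (by
      intro n hn
      rw [Pi.mul_apply, norm_mul, Complex.norm_real,
        Real.norm_of_nonneg ArithmeticFunction.vonMangoldt_nonneg]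
      have k1 := χ.norm_le_one (n : ZMod q)
      have k2 : ArithmeticFunction.vonMangoldt n ≤ Real.log n :=
        ArithmeticFunction.vonMangoldt_le_log
      have k3 := Real.log_le_rpow_div (Nat.cast_nonneg (α := ℝ) n) hε0
      calc _ ≤ (1 : ℝ) * ((n : ℝ) ^ ε / ε) :=
            mul_le_mul k1 (k2.trans k3) ArithmeticFunction.vonMangoldt_nonneg zero_le_one
        _ = _ := by ring)
  refine h3.trans (le_of_eq ?_)
  have e1 : s.re - ε - 1 = ε := by rw [hε]; ring
  have e2 : s.re - 1 = 2 * ε := by rw [hε]; ring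
  rw [e1, e2]
  field_simp
  norm_num

/-- the main estimate for the logarithmic derivative -/
lemma ld_le {f : ℕ} [NeZero f] {χ : DirichletCharacter ℂ f} (hχ : χ ≠ 1) {η T x : ℝ}
    (hη : 0 < η) (hη1 : η ≤ 1 / 100) (hT : 2 ≤ T) (hx : 0 < x) (hηx : 1 ≤ η * Real.log x)
    (hf : (f : ℝ) ≤ x) (hTx : T ≤ x) (hz : ¬ HZ χ (4 * η) (T + 1)) {s : ℂ}
    (h1 : 1 - η ≤ s.re) (h2 : s.re ≤ 1 + η) (h3 : |s.im| ≤ T) :
    ‖deriv χ.LFunction s / χ.LFunction s‖ ≤ 212 * (Real.log x) ^ 2 := by
  set ℓ : ℝ := Real.log x with hℓ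
  have hℓ100 : 100 ≤ ℓ := by
    by_contra hcon
    push Not at hcon
    have hℓ0 : 0 < ℓ := by
      by_contra h0
      push Not at h0
      nlinarith
    nlinarith
  have hη2 : 1 / η ≤ ℓ := by
    rw [div_le_iff₀ hη]; linarith
  have hx3 : 3 ≤ x := by
    have : Real.exp 100 ≤ x := by
      rw [← Real.le_log_iff_exp_le hx]; exact hℓ100
    have := Real.add_one_le_exp (100 : ℝ)
    linarith
  have hd : Differentiable ℂ χ.LFunction := DirichletCharacter.differentiable_LFunction hχ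
  set s0 : ℂ := ⟨1 + η, s.im⟩ with hs0
  have hs0re : s0.re = 1 + η := rfl
  have hs0im : s0.im = s.im := rfl
  have hball : ∀ z ∈ Metric.ball s0 (5 * η), 1 - 4 * η ≤ z.re ∧ |z.im| ≤ T + 1 ∧ ‖z‖ ≤ T + 3 := by
    intro z hz
    rw [mem_ball_iff_norm] at hz
    have k1 := (Complex.abs_re_le_norm (z - s0)).trans hz.le
    have k2 := (Complex.abs_im_le_norm (z - s0)).trans hz.le
    rw [Complex.sub_re, hs0re, abs_le] at k1
    rw [Complex.sub_im, hs0im, abs_le] at k2
    rw [abs_le] at h3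
    have k3 : |z.im| ≤ T + 1 := by rw [abs_le]; constructor <;> linarith
    refine ⟨by linarith, k3, ?_⟩
    refine (Complex.norm_le_abs_re_add_abs_im z).trans ?_
    have k4 : |z.re| ≤ 2 := by rw [abs_le]; constructor <;> linarith
    linarith
  set M : ℝ := 29 / η + 24 * η * ℓ with hM
  have hM0 : 0 < M := by positivity
  have hlow := L_lower χ (s := s0) (by rw [hs0re]; linarith) (by rw [hs0re]; linarith)
  rw [hs0re, add_sub_cancel_left] at hlow
  have key := logDeriv_le (L := χ.LFunction) (s0 := s0) (s1 := s) (R := 5 * η) (M := M)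
    (by positivity) hM0 hd.differentiableOn (by
      intro z hz' h0
      obtain ⟨k1, k2, -⟩ := hball z hz'
      exact hz ⟨inferInstance, z, k1, k2, h0⟩) (by
      intro z hz'
      obtain ⟨k1, -, k3⟩ := hball z hz'
      have hN : (f : ℝ) * (‖z‖ + 2) ≤ x ^ 3 := by
        have e1 : ‖z‖ + 2 ≤ x ^ 2 := by nlinarith
        calc (f : ℝ) * (‖z‖ + 2) ≤ x * x ^ 2 :=
              mul_le_mul hf e1 (by positivity) hx.le
          _ = x ^ 3 := by ring
      have hc := char_norm_le hχ (η := 4 * η) (by positivity) (by linarith) k1 hN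
      have e2 : (9 + 1 / (4 * η)) ≤ 1 / η := by
        have : 1 / (4 * η) = (1 / η) / 4 := by field_simp
        rw [this]
        have h100 : 100 ≤ 1 / η := by
          rw [le_div_iff₀ hη]; linarith
        linarith
      have e3 : (x ^ 3) ^ (2 * (4 * η)) = Real.exp (24 * η * ℓ) := by
        rw [← Real.rpow_natCast x 3, ← Real.rpow_mul hx.le, Real.rpow_def_of_pos hx]
        congr 1
        push_cast
        ring
      rw [e3] at hc
      have e4 : 1 / η ≤ Real.exp (1 / η) := by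
        have := Real.add_one_le_exp (1 / η); linarith
      have e5 : 28 / η ≤ Real.exp (28 / η) := by
        have := Real.add_one_le_exp (28 / η); linarith
      have e6 : Real.exp M = Real.exp (28 / η) * (Real.exp (1 / η) * Real.exp (24 * η * ℓ)) := by
        rw [← Real.exp_add, ← Real.exp_add, hM]
        congr 1
        ring
      have hE : 0 < Real.exp (24 * η * ℓ) := Real.exp_pos _
      have e7 : ‖χ.LFunction z‖ ≤ Real.exp (1 / η) * Real.exp (24 * η * ℓ) :=
        hc.trans (mul_le_mul_of_nonneg_right (e2.trans e4) hE.le)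
      have e8 : 1 ≤ ‖χ.LFunction s0‖ * Real.exp (28 / η) :=
        hlow.trans (mul_le_mul_of_nonneg_left e5 (norm_nonneg _))
      rw [e6, ← mul_assoc]
      calc ‖χ.LFunction z‖ ≤ 1 * (Real.exp (1 / η) * Real.exp (24 * η * ℓ)) := by
            rw [one_mul]; exact e7
        _ ≤ _ := mul_le_mul_of_nonneg_right e8 (by positivity)) (by
      have e1 : s - s0 = ((s.re - (1 + η) : ℝ) : ℂ) := by
        apply Complex.ext
        · rw [Complex.sub_re, hs0re, Complex.ofReal_re]
        · rw [Complex.sub_im, hs0im, Complex.ofReal_im, sub_self]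
      rw [e1, Complex.norm_real, Real.norm_eq_abs, abs_le]
      constructor <;> linarith)
  refine key.trans ?_
  have e9 : 20 * M / (5 * η) = 116 * (1 / η) * (1 / η) + 96 * ℓ := by
    rw [hM]; field_simp; ring
  rw [e9]
  have hη3 : 0 < 1 / η := by positivity
  nlinarith

lemma arctan_tail {T : ℝ} (hT : 0 < T) : π / 2 - Real.arctan T ≤ 1 / T := by
  rw [← Real.arctan_inv_of_pos hT, one_div]
  have h0 : 0 ≤ Real.arctan T⁻¹ := Real.arctan_nonneg.2 (by positivity)
  have := Real.le_tan h0 (Real.arctan_lt_pi_div_two _)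
  rwa [Real.tan_arctan] at this

/-- the integrand -/
noncomputable def G {f : ℕ} [NeZero f] (χ : DirichletCharacter ℂ f) (ℓ : ℝ) (s : ℂ) : ℂ :=
  -(deriv χ.LFunction s / χ.LFunction s) / s ^ 2 * cexp (s * ℓ)

lemma norm_exp_mul (s : ℂ) (ℓ : ℝ) : ‖cexp (s * ℓ)‖ = Real.exp (s.re * ℓ) := by
  rw [Complex.norm_exp]; simp

lemma G_norm {f : ℕ} [NeZero f] {χ : DirichletCharacter ℂ f} {ℓ : ℝ} {s : ℂ} {K : ℝ}
    (hK : ‖deriv χ.LFunction s / χ.LFunction s‖ ≤ K) (hs : 99 / 100 ≤ s.re) :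
    ‖G χ ℓ s‖ ≤ 2 * K * Real.exp (s.re * ℓ) * (1 + s.im ^ 2)⁻¹ := by
  have hK0 : 0 ≤ K := (norm_nonneg _).trans hK
  unfold G
  rw [norm_mul, norm_div, norm_neg, norm_exp_mul, norm_pow]
  have h1 : (1 + s.im ^ 2) / 2 ≤ ‖s‖ ^ 2 := by
    rw [Complex.sq_norm, Complex.normSq_apply]
    nlinarith [sq_nonneg s.im]
  have h2 : 0 < (1 + s.im ^ 2) / 2 := by positivity
  have h3 : (‖s‖ ^ 2)⁻¹ ≤ 2 * (1 + s.im ^ 2)⁻¹ := by
    have := inv_anti₀ h2 h1
    rwa [inv_div, div_eq_mul_inv] at this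
  rw [div_eq_mul_inv]
  calc ‖deriv χ.LFunction s / χ.LFunction s‖ * (‖s‖ ^ 2)⁻¹ * Real.exp (s.re * ℓ)
      ≤ K * (2 * (1 + s.im ^ 2)⁻¹) * Real.exp (s.re * ℓ) := by
        apply mul_le_mul_of_nonneg_right _ (Real.exp_pos _).le
        exact mul_le_mul hK h3 (by positivity) hK0
    _ = _ := by ring

end ZFx

open ZFx Pool.Agent.H410R2 in
theorem zf : St_ZF := by
  refine ⟨4000, by norm_num, ?_⟩
  intro f χ hf hprim η T x hη hη1 hT hηx hfx hTx hz
  have : NeZero f := ⟨by omega⟩
  have hf0 : (1 : ℝ) ≤ f := by exact_mod_cast hf.le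
  have hx : 0 < x := by linarith
  have hχ : χ ≠ 1 := by
    rintro rfl
    have h1 : DirichletCharacter.conductor (1 : DirichletCharacter ℂ f) = f := hprim
    rw [DirichletCharacter.conductor_one] at h1
    omega
  set ℓ : ℝ := Real.log x with hℓ
  have hℓ100 : 100 ≤ ℓ := by
    by_contra hcon
    push Not at hcon
    have hℓ0 : 0 < ℓ := by
      by_contra h0
      push Not at h0
      nlinarith
    nlinarith
  have hℓ0 : 0 < ℓ := by linarith
  have hx1 : 1 ≤ x := by linarith
  set c : ℝ := 1 + 1 / ℓ with hc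
  have hℓη : 1 / ℓ ≤ η := by
    rw [div_le_iff₀ hℓ0]; exact hηx
  have hℓi : 0 < 1 / ℓ := by positivity
  have hc1 : 1 < c := by linarith
  have hc2 : c ≤ 1 + η := by linarith
  have hcℓ : Real.exp (c * ℓ) = Real.exp 1 * x := by
    have h1 : c * ℓ = 1 + ℓ := by rw [hc]; field_simp; ring
    rw [h1, Real.exp_add, hℓ, Real.exp_log hx]
  have he3 : Real.exp 1 ≤ 3 := by
    have := Real.exp_one_lt_d9; linarith
  -- the Perron formula
  set a : ℕ → ℂ := (fun n : ℕ => χ (n : ZMod f)) *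
    (fun n : ℕ => ((ArithmeticFunction.vonMangoldt n : ℝ) : ℂ)) with ha
  have hsum : LSeriesSummable a (c : ℂ) :=
    DirichletCharacter.LSeriesSummable_twist_vonMangoldt χ (by simpa using hc1)
  have hpsi : psiLog x f χ =
      ∑ n ∈ Finset.Icc 1 ⌊x⌋₊, a n * ((Real.log (x / n) : ℝ) : ℂ) := by
    unfold psiLog
    apply Finset.sum_congr rfl
    intro n _
    simp only [ha, Pi.mul_apply]
    ring
  have hd : Differentiable ℂ χ.LFunction := DirichletCharacter.differentiable_LFunction hχ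
  have hLf : ∀ s : ℂ, 1 < s.re → LSeries a s =
      -(deriv χ.LFunction s / χ.LFunction s) := by
    intro s hs
    rw [ha, DirichletCharacter.LSeries_twist_vonMangoldt_eq χ hs,
      DirichletCharacter.deriv_LFunction_eq_deriv_LSeries χ hs,
      DirichletCharacter.LFunction_eq_LSeries χ hs, neg_div]
  have hpsi2 : psiLog x f χ = ∫ ξ : ℝ, G χ ℓ ((c : ℂ) + ((2 * π * ξ : ℝ) : ℂ) * I) := by
    rw [hpsi, Pool.Agent.H379R2.SW.perron_sum a hc1.le hsum hx1, ← integral_const_mul]
    congr 1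
    ext ξ
    rw [hLf _ (by rw [Pool.Agent.H379R2.SW.vert_re]; exact hc1)]
    unfold G
    rw [show (c : ℂ) + ((2 * π * ξ : ℝ) : ℂ) * I = Pool.Agent.H379R2.SW.vert c ξ from rfl]
    have e1 : cexp (Pool.Agent.H379R2.SW.vert c ξ * (ℓ : ℂ)) =
        ((Real.exp (c * Real.log x) : ℝ) : ℂ) *
          cexp (((2 * π * ξ * Real.log x : ℝ) : ℂ) * I) := by
      rw [Complex.ofReal_exp, ← Complex.exp_add]
      congr 1
      unfold Pool.Agent.H379R2.SW.vert
      rw [hℓ]
      push_cast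
      ring
    rw [e1]
    ring
  set g : ℝ → ℂ := fun t => G χ ℓ ((c : ℂ) + (t : ℂ) * I) with hg
  have hpsi3 : psiLog x f χ = |(2 * π)⁻¹| • ∫ t : ℝ, g t := by
    rw [hpsi2]
    exact Measure.integral_comp_mul_left g (2 * π)
  have hre : ∀ (b t : ℝ), ((b : ℂ) + (t : ℂ) * I).re = b := by intro b t; simp
  have him : ∀ (b t : ℝ), ((b : ℂ) + (t : ℂ) * I).im = t := by intro b t; simp
  -- pointwise bound on the line
  have hgle : ∀ t : ℝ, ‖g t‖ ≤ 672 * ℓ ^ 2 * x * (1 + t ^ 2)⁻¹ := by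
    intro t
    have hs : 1 < ((c : ℂ) + (t : ℂ) * I).re := by rw [hre]; exact hc1
    have h1 := Lam_le χ hs (by rw [hre]; linarith)
    rw [← ha, hLf _ hs, norm_neg, hre] at h1
    have e1 : 112 / (c - 1) ^ 2 = 112 * ℓ ^ 2 := by
      rw [hc]; field_simp; ring
    rw [e1] at h1
    have h2 := G_norm (ℓ := ℓ) h1 (by rw [hre]; linarith)
    rw [hre, him, hcℓ] at h2
    refine h2.trans ?_
    apply mul_le_mul_of_nonneg_right _ (by positivity)
    have : 0 ≤ 224 * ℓ ^ 2 * x := by positivity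
    nlinarith
  have hgc : Continuous g := by
    rw [continuous_iff_continuousAt]
    intro t
    have hs : 1 < ((c : ℂ) + (t : ℂ) * I).re := by rw [hre]; exact hc1
    have hne : χ.LFunction ((c : ℂ) + (t : ℂ) * I) ≠ 0 := by
      rw [DirichletCharacter.LFunction_eq_LSeries χ hs]
      exact DirichletCharacter.LSeries_ne_zero_of_one_lt_re χ hs
    have hs0 : ((c : ℂ) + (t : ℂ) * I) ≠ 0 := by
      intro h0
      rw [h0] at hs
      simp at hs
      linarith
    have hGc : ContinuousAt (G χ ℓ) ((c : ℂ) + (t : ℂ) * I) := by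
      unfold G
      apply ContinuousAt.mul
      · apply ContinuousAt.div
        · apply ContinuousAt.neg
          apply ContinuousAt.div _ hd.continuous.continuousAt hne
          exact (hd.analyticAt _).deriv.continuousAt
        · fun_prop
        · exact pow_ne_zero 2 hs0
      · fun_prop
    exact ContinuousAt.comp (f := fun t : ℝ => (c : ℂ) + (t : ℂ) * I) hGc (by fun_prop)
  have hdom : Integrable (fun t : ℝ => 672 * ℓ ^ 2 * x * (1 + t ^ 2)⁻¹) :=
    integrable_inv_one_add_sq.const_mul _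
  have hgi : Integrable g := Integrable.mono' hdom hgc.aestronglyMeasurable
    (Eventually.of_forall hgle)
  have hTp : 0 < T := by linarith
  -- tails
  have ht1 : ‖∫ t in Ioi T, g t‖ ≤ 672 * ℓ ^ 2 * x * (1 / T) := by
    have h1 := norm_integral_le_of_norm_le (μ := volume.restrict (Ioi T)) (f := g)
      (g := fun t : ℝ => 672 * ℓ ^ 2 * x * (1 + t ^ 2)⁻¹) hdom.integrableOn
      (Eventually.of_forall hgle)
    rw [integral_const_mul, integral_Ioi_inv_one_add_sq] at h1
    exact h1.trans (mul_le_mul_of_nonneg_left (arctan_tail hTp) (by positivity))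
  have ht2 : ‖∫ t in Iic (-T), g t‖ ≤ 672 * ℓ ^ 2 * x * (1 / T) := by
    have h1 := norm_integral_le_of_norm_le (μ := volume.restrict (Iic (-T))) (f := g)
      (g := fun t : ℝ => 672 * ℓ ^ 2 * x * (1 + t ^ 2)⁻¹) hdom.integrableOn
      (Eventually.of_forall hgle)
    rw [integral_const_mul, integral_Iic_inv_one_add_sq, Real.arctan_neg] at h1
    refine h1.trans (mul_le_mul_of_nonneg_left ?_ (by positivity))
    have := arctan_tail hTp
    linarith
  have hsplit : ∫ t : ℝ, g t = (∫ t in Iic (-T), g t) + (∫ t in (-T)..T, g t) +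
      ∫ t in Ioi T, g t := by
    have h1 := intervalIntegral.integral_Iic_sub_Iic (μ := volume) (f := g) (a := -T) (b := T)
      hgi.integrableOn hgi.integrableOn
    have h2 := intervalIntegral.integral_Iic_add_Ioi (μ := volume) (f := g) (b := T)
      hgi.integrableOn hgi.integrableOn
    rw [← h2, ← h1]; ring
  -- the rectangle
  have hreg : ∀ s : ℂ, 1 - η ≤ s.re → s.re ≤ c → |s.im| ≤ T →
      ‖deriv χ.LFunction s / χ.LFunction s‖ ≤ 212 * ℓ ^ 2 := fun s h1 h2 h3 =>
    ld_le hχ hη hη1 hT hx hηx hfx hTx hz h1 (h2.trans hc2) h3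
  have hcauchy := Complex.integral_boundary_rect_eq_zero_of_differentiableOn (G χ ℓ)
    (((1 - η : ℝ) : ℂ) + ((-T : ℝ) : ℂ) * I) ((c : ℂ) + (T : ℂ) * I) (by
      intro s hs
      rw [hre, hre, him, him, mem_reProdIm, uIcc_of_le (by linarith), uIcc_of_le (by linarith)]
        at hs
      obtain ⟨⟨h1, h2⟩, h3, h4⟩ := hs
      have hne : χ.LFunction s ≠ 0 := by
        intro h0
        exact hz ⟨inferInstance, s, by linarith, by rw [abs_le]; constructor <;> linarith, h0⟩
      have hs0 : s ≠ 0 := by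
        rintro rfl
        simp at h1
        linarith
      apply DifferentiableAt.differentiableWithinAt
      unfold G
      apply DifferentiableAt.mul
      · apply DifferentiableAt.div
        · apply DifferentiableAt.neg
          apply DifferentiableAt.div _ (hd s) hne
          exact (hd.analyticAt s).deriv.differentiableAt
        · fun_prop
        · exact pow_ne_zero 2 hs0
      · fun_prop)
  rw [hre, hre, him, him] at hcauchy
  set I1 : ℂ := ∫ u : ℝ in (1 - η)..c, G χ ℓ ((u : ℂ) + ((-T : ℝ) : ℂ) * I) with hI1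
  set I2 : ℂ := ∫ u : ℝ in (1 - η)..c, G χ ℓ ((u : ℂ) + (T : ℂ) * I) with hI2
  set I3 : ℂ := ∫ y : ℝ in (-T)..T, G χ ℓ (((1 - η : ℝ) : ℂ) + (y : ℂ) * I) with hI3
  have hmid : ‖∫ t in (-T)..T, g t‖ ≤ ‖I1‖ + ‖I2‖ + ‖I3‖ := by
    have e1 : I * (∫ t in (-T)..T, g t) = -I1 + I2 + I * I3 := by
      have := hcauchy
      simp only [smul_eq_mul] at this
      linear_combination this
    have e2 : ‖∫ t in (-T)..T, g t‖ = ‖I * (∫ t in (-T)..T, g t)‖ := by
      rw [norm_mul, Complex.norm_I, one_mul]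
    rw [e2, e1]
    refine (norm_add_le _ _).trans ?_
    rw [norm_mul, Complex.norm_I, one_mul]
    gcongr
    refine (norm_add_le _ _).trans ?_
    rw [norm_neg]
  have hTT : (1 + T ^ 2)⁻¹ ≤ 1 / T := by
    rw [one_div]
    apply inv_anti₀ hTp
    nlinarith
  have hhor : ∀ (v : ℝ), |v| = T → ∀ u : ℝ, u ∈ Set.uIoc (1 - η) c →
      ‖G χ ℓ ((u : ℂ) + (v : ℂ) * I)‖ ≤ 1272 * ℓ ^ 2 * x * (1 / T) := by
    intro v hv u hu
    rw [uIoc_of_le (by linarith)] at hu
    have h1 := hreg ((u : ℂ) + (v : ℂ) * I) (by rw [hre]; exact hu.1.le) (by rw [hre]; exact hu.2)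
      (by rw [him]; exact hv.le)
    have h2 := G_norm (ℓ := ℓ) h1 (by rw [hre]; linarith [hu.1])
    rw [hre, him] at h2
    have h3 : v ^ 2 = T ^ 2 := by rw [← hv, sq_abs]
    rw [h3] at h2
    refine h2.trans ?_
    have h4 : Real.exp (u * ℓ) ≤ 3 * x := by
      calc Real.exp (u * ℓ) ≤ Real.exp (c * ℓ) :=
            Real.exp_le_exp.2 (mul_le_mul_of_nonneg_right hu.2 hℓ0.le)
        _ = Real.exp 1 * x := hcℓ
        _ ≤ 3 * x := mul_le_mul_of_nonneg_right he3 hx.le
    calc 2 * (212 * ℓ ^ 2) * Real.exp (u * ℓ) * (1 + T ^ 2)⁻¹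
        ≤ 2 * (212 * ℓ ^ 2) * (3 * x) * (1 / T) := by
          apply mul_le_mul _ hTT (by positivity) (by positivity)
          exact mul_le_mul_of_nonneg_left h4 (by positivity)
      _ = _ := by ring
  have hlen : |c - (1 - η)| ≤ 1 := by
    rw [abs_of_nonneg (by linarith)]; linarith
  have hP : 0 ≤ 1272 * ℓ ^ 2 * x * (1 / T) := by positivity
  have b1 : ‖I1‖ ≤ 1272 * ℓ ^ 2 * x * (1 / T) := by
    refine (intervalIntegral.norm_integral_le_of_norm_le_const
      (hhor (-T) (by rw [abs_neg, abs_of_pos hTp]))).trans ?_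
    nlinarith
  have b2 : ‖I2‖ ≤ 1272 * ℓ ^ 2 * x * (1 / T) := by
    refine (intervalIntegral.norm_integral_le_of_norm_le_const
      (hhor T (abs_of_pos hTp))).trans ?_
    nlinarith
  have hxe : Real.exp ((1 - η) * ℓ) = x ^ (1 - η) := by
    rw [Real.rpow_def_of_pos hx, mul_comm]
  have hxp : 0 < x ^ (1 - η) := Real.rpow_pos_of_pos hx _
  have b3 : ‖I3‖ ≤ 1696 * ℓ ^ 2 * x ^ (1 - η) := by
    have h1 : ‖I3‖ ≤ ∫ y : ℝ in (-T)..T, 424 * ℓ ^ 2 * x ^ (1 - η) * (1 + y ^ 2)⁻¹ := by
      rw [hI3]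
      apply intervalIntegral.norm_integral_le_of_norm_le (by linarith)
      · refine Eventually.of_forall (fun y hy => ?_)
        have h1 := hreg (((1 - η : ℝ) : ℂ) + (y : ℂ) * I) (by rw [hre]) (by rw [hre]; linarith)
          (by rw [him, abs_le]; exact ⟨hy.1.le, hy.2⟩)
        have h2 := G_norm (ℓ := ℓ) h1 (by rw [hre]; linarith)
        rw [hre, him, hxe] at h2
        refine h2.trans (le_of_eq ?_)
        ring
      · exact (integrable_inv_one_add_sq.const_mul _).intervalIntegrable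
    rw [intervalIntegral.integral_const_mul, integral_inv_one_add_sq] at h1
    refine h1.trans ?_
    have h2 : Real.arctan T - Real.arctan (-T) ≤ 4 := by
      have k1 := Real.arctan_lt_pi_div_two T
      have k2 := Real.neg_pi_div_two_lt_arctan (-T)
      have k3 := Real.pi_lt_four
      linarith
    calc 424 * ℓ ^ 2 * x ^ (1 - η) * (Real.arctan T - Real.arctan (-T)) ≤
          424 * ℓ ^ 2 * x ^ (1 - η) * 4 := mul_le_mul_of_nonneg_left h2 (by positivity)
      _ = _ := by ring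
  -- conclusion
  have hpi : |(2 * π)⁻¹| ≤ 1 := by
    rw [abs_of_pos (by positivity)]
    apply inv_le_one_of_one_le₀
    have := Real.pi_gt_three
    linarith
  have htot : ‖∫ t : ℝ, g t‖ ≤ 4000 * ℓ ^ 2 * (x ^ (1 - η) + x / T) := by
    rw [hsplit]
    refine (norm_add₃_le).trans ?_
    have e1 : x / T = x * (1 / T) := by ring
    rw [e1]
    have k1 : 0 ≤ ℓ ^ 2 * x ^ (1 - η) := by positivity
    have k2 : 0 ≤ ℓ ^ 2 * x * (1 / T) := by positivity
    nlinarith
  rw [hpsi3, norm_smul, Real.norm_eq_abs, abs_abs]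
  calc |(2 * π)⁻¹| * ‖∫ t : ℝ, g t‖ ≤ 1 * ‖∫ t : ℝ, g t‖ :=
        mul_le_mul_of_nonneg_right hpi (norm_nonneg _)
    _ ≤ _ := by rw [one_mul]; exact htot

end Pool.Agent.H262R3.Lk
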