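import Mathlib
import Pool.Agent.H262R3.Lk.A0
import Pool.Agent.H262R3.Lk.ALG
import Pool.Agent.H262R3.Lk.B0
import Pool.Agent.H262R3.Lk.B2
import Pool.Agent.H262R3.Lk.BND
import Pool.Agent.H262R3.Lk.BT
import Pool.Agent.H262R3.Lk.COMB
import Pool.Agent.H262R3.Lk.DENS
import Pool.Agent.H262R3.Lk.DIFF
import Pool.Agent.H262R3.Lk.EUL
import Pool.Agent.H262R3.Lk.FL
import Pool.Agent.H262R3.Lk.LL1
import Pool.Agent.H262R3.Lk.LOW2
import Pool.Agent.H262R3.Lk.ORT
import Pool.Agent.H262R3.Lk.PARS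
import Pool.Agent.H262R3.Lk.QS
import Pool.Agent.H262R3.Lk.SEL
import Pool.Agent.H262R3.Lk.SUM
import Pool.Agent.H262R3.Lk.SWQ
import Pool.Agent.H262R3.Lk.WIN
import Pool.Agent.H262R3.Lk.WUP
import Pool.Agent.H262R3.Lk.ZF

/-! All inputs of the final theorem. -/

namespace Pool.Agent.H262R3.Lk

theorem h_sum : St_SUM := sum_all
theorem h_fl : St_FL := fl
theorem h_diff : St_DIFF := diff h_fl h_sum
theorem h_a0 : St_A0 := a0 h_fl h_sum
theorem h_bt : St_BT := bt
theorem h_b0 : St_B0 := b0 h_bt h_sum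
theorem h_b2 : St_B2 := b2 h_sum
theorem h_alg : St_ALG := alg
theorem h_eul : St_EUL := eul
theorem h_swq : St_SWQ := swq
theorem h_bnd : St_BND := bnd h_sum h_diff h_a0
theorem h_pars : St_PARS := pars h_sum h_diff h_a0 h_b0
theorem h_ort : St_ORT := ort h_sum
theorem h_comb : St_COMB := comb h_alg h_b2 h_diff h_bnd h_pars h_ort
theorem h_wup : St_WUP := wup h_bt
theorem h_win : St_WIN := win h_sum h_wup
theorem h_sel : St_SEL := sel h_wup
theorem h_low2 : St_LOW2 := low2 h_eul h_bnd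
theorem h_qs : St_QS := qs
theorem h_zf : St_ZF := zf
theorem h_dens : St_DENS := dens
theorem h_ll1 : St_LL1 := ll1 h_zf h_dens

end Pool.Agent.H262R3.Lk
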