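import Mathlib
import Pool.Agent.H262R3.Lk.Defs
import Pool.Agent.H378R2.LSBV3

/-! Discrepancy of the weighted prime sums relative to a subprogression. -/

open Finset

namespace Pool.Agent.H262R3.Lk

open Pool.Agent.H378R2 Pool.Agent.H378R2.LSBV Pool.Agent.H398R2.BV Pool.Agent.Helper112 Pool.Agent.H410R2
  Pool.Agent.Helper112.BLB

/-- discrepancy of the class `b` mod `Q q` relative to the class `b` mod `Q` -/
noncomputable def ER (Y : ℝ) (Q q b : ℕ) : ℝ := pc Y (Q * q) b - pc Y Q b * (1 / (q.totient : ℝ))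

/-- characters induced from level `Q` -/
def IsInd (m Q : ℕ) (h : Q ∣ m) (χ : DirichletCharacter ℂ m) : Prop :=
  ∃ ψ : DirichletCharacter ℂ Q, DirichletCharacter.changeLevel h ψ = χ

open Classical in
theorem sum_Ind (m Q : ℕ) [NeZero m] [NeZero Q] (h : Q ∣ m) (g : DirichletCharacter ℂ m → ℂ) :
    ∑ χ ∈ (univ : Finset (DirichletCharacter ℂ m)).filter (fun χ => ¬ ¬ IsInd m Q h χ), g χ =
      ∑ ψ : DirichletCharacter ℂ Q, g (DirichletCharacter.changeLevel h ψ) := by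
  symm
  apply sum_nbij (DirichletCharacter.changeLevel h)
  · intro ψ _
    rw [mem_filter]
    exact ⟨mem_univ _, not_not.2 ⟨ψ, rfl⟩⟩
  · intro x _ y _ hxy
    exact DirichletCharacter.changeLevel_injective h hxy
  · intro χ hχ
    rw [mem_coe, mem_filter] at hχ
    obtain ⟨ψ, hψ⟩ := not_not.1 hχ.2
    exact ⟨ψ, by simp, hψ⟩
  · intro ψ _; rfl

theorem char_inv {m : ℕ} [NeZero m] {b : ℕ} (hb : b.Coprime m) (χ : DirichletCharacter ℂ m) :
    χ ((b : ZMod m)⁻¹) * χ (b : ZMod m) = 1 := by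
  have hau : IsUnit (b : ZMod m) := (ZMod.isUnit_iff_coprime b m).mpr hb
  rw [← map_mul, ZMod.inv_mul_of_unit _ hau, map_one]

theorem cl_apply {m Q : ℕ} (h : Q ∣ m) (ψ : DirichletCharacter ℂ Q) {n : ℕ} (hn : n.Coprime m) :
    (DirichletCharacter.changeLevel h ψ) (n : ZMod m) = ψ (n : ZMod Q) := by
  have h1 := DirichletCharacter.changeLevel_eq_cast_of_dvd' ψ h (a := (n : ℤ))
    (by exact_mod_cast Nat.isCoprime_iff_coprime.mpr hn)
  push_cast at h1
  exact h1

open Classical in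
theorem bracket_rel (Q q : ℕ) (hQ : 0 < Q) (hq : 0 < q) (hc : Q.Coprime q) (b : ℕ)
    (hb : b.Coprime (Q * q)) (n : ℕ) [NeZero (Q * q)] [NeZero Q] :
    (((if n ≡ b [MOD (Q * q)] then (1 : ℝ) else 0) -
      (if n ≡ b [MOD Q] ∧ n.Coprime q then (1 : ℝ) / (q.totient : ℝ) else 0) : ℝ) : ℂ) =
    (1 / ((Q * q).totient : ℂ)) *
      ∑ χ ∈ (univ : Finset (DirichletCharacter ℂ (Q * q))).filter (fun χ => ¬ IsInd (Q * q) Q (Dvd.intro q rfl) χ),
        χ ((b : ZMod (Q * q))⁻¹) * χ (n : ZMod (Q * q)) := by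
  have hbu : IsUnit (b : ZMod (Q * q)) := (ZMod.isUnit_iff_coprime b (Q * q)).mpr hb
  have hbQ : b.Coprime Q := Nat.Coprime.coprime_mul_right_right hb
  have hbuQ : IsUnit (b : ZMod Q) := (ZMod.isUnit_iff_coprime b Q).mpr hbQ
  have h0 : ((Q * q).totient : ℂ) ≠ 0 := by
    have := Nat.totient_pos.mpr (Nat.mul_pos hQ hq)
    exact_mod_cast this.ne'
  have hφQ : (Q.totient : ℂ) ≠ 0 := by exact_mod_cast (Nat.totient_pos.mpr hQ).ne'
  have hφq : (q.totient : ℂ) ≠ 0 := by exact_mod_cast (Nat.totient_pos.mpr hq).ne'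
  have h1 := DirichletCharacter.sum_char_inv_mul_char_eq ℂ hbu (n : ZMod (Q * q))
  have h2 := sum_filter_add_sum_filter_not (univ : Finset (DirichletCharacter ℂ (Q * q)))
    (fun χ => ¬ IsInd (Q * q) Q (Dvd.intro q rfl) χ) (fun χ => χ ((b : ZMod (Q * q))⁻¹) * χ (n : ZMod (Q * q)))
  have h3 : ∑ χ ∈ (univ : Finset (DirichletCharacter ℂ (Q * q))).filter
      (fun χ => ¬ ¬ IsInd (Q * q) Q (Dvd.intro q rfl) χ),
      χ ((b : ZMod (Q * q))⁻¹) * χ (n : ZMod (Q * q)) = if n ≡ b [MOD Q] ∧ n.Coprime q then (Q.totient : ℂ) else 0 := by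
    rw [sum_Ind]
    have e2 : ∀ ψ : DirichletCharacter ℂ Q,
        (DirichletCharacter.changeLevel (Dvd.intro q rfl : Q ∣ Q * q) ψ) ((b : ZMod (Q * q))⁻¹) = ψ ((b : ZMod Q)⁻¹) := by
      intro ψ
      have f1 := char_inv hb (DirichletCharacter.changeLevel (Dvd.intro q rfl : Q ∣ Q * q) ψ)
      have f2 := char_inv hbQ ψ
      rw [cl_apply _ ψ hb] at f1
      have f3 : ψ (b : ZMod Q) ≠ 0 := by
        intro h
        rw [h, mul_zero] at f2
        exact zero_ne_one f2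
      exact mul_right_cancel₀ f3 (f1.trans f2.symm)
    by_cases hn : n.Coprime (Q * q)
    · have hnq : n.Coprime q := Nat.Coprime.coprime_mul_left_right hn
      have e3 : ∀ ψ ∈ (univ : Finset (DirichletCharacter ℂ Q)),
          (DirichletCharacter.changeLevel (Dvd.intro q rfl : Q ∣ Q * q) ψ) ((b : ZMod (Q * q))⁻¹) *
            (DirichletCharacter.changeLevel (Dvd.intro q rfl : Q ∣ Q * q) ψ) (n : ZMod (Q * q)) =
          ψ ((b : ZMod Q)⁻¹) * ψ (n : ZMod Q) := by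
        intro ψ _
        rw [e2, cl_apply _ ψ hn]
      rw [sum_congr rfl e3, DirichletCharacter.sum_char_inv_mul_char_eq ℂ hbuQ (n : ZMod Q)]
      have e4 : (n ≡ b [MOD Q]) ↔ ((b : ZMod Q) = (n : ZMod Q)) := by
        rw [← ZMod.natCast_eq_natCast_iff, eq_comm]
      by_cases h5 : n ≡ b [MOD Q]
      · rw [if_pos (e4.mp h5), if_pos ⟨h5, hnq⟩]
      · rw [if_neg (fun h => h5 (e4.mpr h)), if_neg (fun h => h5 h.1)]
    · have e3 : ∀ ψ ∈ (univ : Finset (DirichletCharacter ℂ Q)),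
          (DirichletCharacter.changeLevel (Dvd.intro q rfl : Q ∣ Q * q) ψ) ((b : ZMod (Q * q))⁻¹) *
            (DirichletCharacter.changeLevel (Dvd.intro q rfl : Q ∣ Q * q) ψ) (n : ZMod (Q * q)) = 0 := by
        intro ψ _
        rw [MulChar.map_nonunit _ (fun hu => hn ((ZMod.isUnit_iff_coprime n _).mp hu)), mul_zero]
      rw [sum_eq_zero e3]
      rw [if_neg]
      rintro ⟨h5, h6⟩
      apply hn
      apply Nat.Coprime.mul_right _ h6
      have h7 : Nat.gcd n Q = Nat.gcd b Q := h5.gcd_eq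
      rw [Nat.Coprime, h7]
      exact hbQ
  rw [h3, h1] at h2
  have h4 : ∑ χ ∈ (univ : Finset (DirichletCharacter ℂ (Q * q))).filter
      (fun χ => ¬ IsInd (Q * q) Q (Dvd.intro q rfl) χ),
      χ ((b : ZMod (Q * q))⁻¹) * χ (n : ZMod (Q * q)) =
      (if (b : ZMod (Q * q)) = (n : ZMod (Q * q)) then ((Q * q).totient : ℂ) else 0) -
        (if n ≡ b [MOD Q] ∧ n.Coprime q then (Q.totient : ℂ) else 0) := by
    rw [eq_sub_iff_add_eq]
    exact h2
  rw [h4]
  have h5 : (n ≡ b [MOD (Q * q)]) ↔ ((b : ZMod (Q * q)) = (n : ZMod (Q * q))) := by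
    rw [← ZMod.natCast_eq_natCast_iff, eq_comm]
  have h6 : ((Q * q).totient : ℂ) = (Q.totient : ℂ) * (q.totient : ℂ) := by
    rw [Nat.totient_mul hc]; push_cast; ring
  by_cases h7 : n ≡ b [MOD (Q * q)]
  · rw [if_pos h7, if_pos (h5.mp h7)]
    split_ifs
    · rw [h6]; push_cast; field_simp
    · push_cast; field_simp; ring
  · rw [if_neg h7, if_neg (fun h => h7 (h5.mpr h))]
    split_ifs
    · rw [h6]; push_cast; field_simp; ring
    · simp

open Classical in
theorem ER_char (Y : ℝ) (Q q : ℕ) (hQ : 0 < Q) (hq : 0 < q) (hc : Q.Coprime q) (b : ℕ)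
    (hb : b.Coprime (Q * q)) :
    |pc Y (Q * q) b - (1 / (q.totient : ℝ)) *
      ∑ n ∈ (Icc 1 ⌊3 * Y⌋₊).filter (fun n => n ≡ b [MOD Q] ∧ n.Coprime q),
        Phi (n / Y) * ArithmeticFunction.vonMangoldt n| ≤
    (1 / ((Q * q).totient : ℝ)) *
      ∑ χ ∈ (univ : Finset (DirichletCharacter ℂ (Q * q))).filter
        (fun χ => ¬ IsInd (Q * q) Q (Dvd.intro q rfl) χ), ‖psiPhi χ Y‖ := by
  have i1 : NeZero (Q * q) := ⟨(Nat.mul_pos hQ hq).ne'⟩
  have i2 : NeZero Q := ⟨hQ.ne'⟩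
  have key : ((pc Y (Q * q) b - (1 / (q.totient : ℝ)) *
      ∑ n ∈ (Icc 1 ⌊3 * Y⌋₊).filter (fun n => n ≡ b [MOD Q] ∧ n.Coprime q),
        Phi (n / Y) * ArithmeticFunction.vonMangoldt n : ℝ) : ℂ) =
      (1 / ((Q * q).totient : ℂ)) *
      ∑ χ ∈ (univ : Finset (DirichletCharacter ℂ (Q * q))).filter
        (fun χ => ¬ IsInd (Q * q) Q (Dvd.intro q rfl) χ),
        χ ((b : ZMod (Q * q))⁻¹) * psiPhi χ Y := by
    have h1 : pc Y (Q * q) b - (1 / (q.totient : ℝ)) *
      ∑ n ∈ (Icc 1 ⌊3 * Y⌋₊).filter (fun n => n ≡ b [MOD Q] ∧ n.Coprime q),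
        Phi (n / Y) * ArithmeticFunction.vonMangoldt n =
        ∑ n ∈ Icc 1 ⌊3 * Y⌋₊, Phi (n / Y) * ArithmeticFunction.vonMangoldt n *
          ((if n ≡ b [MOD (Q * q)] then (1 : ℝ) else 0) -
            (if n ≡ b [MOD Q] ∧ n.Coprime q then (1 : ℝ) / (q.totient : ℝ) else 0)) := by
      unfold pc
      rw [sum_filter, sum_filter, mul_sum, ← sum_sub_distrib]
      apply sum_congr rfl
      intro n _
      split_ifs <;> ring
    rw [h1, Complex.ofReal_sum, mul_sum]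
    have h2 : ∀ n ∈ Icc 1 ⌊3 * Y⌋₊, ((Phi (n / Y) * ArithmeticFunction.vonMangoldt n *
          ((if n ≡ b [MOD (Q * q)] then (1 : ℝ) else 0) -
            (if n ≡ b [MOD Q] ∧ n.Coprime q then (1 : ℝ) / (q.totient : ℝ) else 0)) : ℝ) : ℂ) =
        ∑ χ ∈ (univ : Finset (DirichletCharacter ℂ (Q * q))).filter
          (fun χ => ¬ IsInd (Q * q) Q (Dvd.intro q rfl) χ),
          (1 / ((Q * q).totient : ℂ)) * (χ ((b : ZMod (Q * q))⁻¹) *
            (((Phi (n / Y) * ArithmeticFunction.vonMangoldt n : ℝ) : ℂ) * χ (n : ZMod (Q * q)))) := by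
      intro n _
      rw [Complex.ofReal_mul, bracket_rel Q q hQ hq hc b hb n, mul_sum, mul_sum]
      apply sum_congr rfl
      intro χ _
      push_cast
      ring
    rw [sum_congr rfl h2, sum_comm]
    apply sum_congr rfl
    intro χ _
    unfold psiPhi
    rw [mul_sum, mul_sum]
  rw [← Real.norm_eq_abs, ← Complex.norm_real, key, norm_mul]
  have h1 : ‖(1 / ((Q * q).totient : ℂ))‖ = 1 / ((Q * q).totient : ℝ) := by
    rw [norm_div, norm_one, Complex.norm_natCast]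
  rw [h1]
  apply mul_le_mul_of_nonneg_left _ (by positivity)
  refine (norm_sum_le _ _).trans (sum_le_sum ?_)
  intro χ _
  rw [norm_mul]
  have : ‖χ ((b : ZMod (Q * q))⁻¹)‖ ≤ 1 := χ.norm_le_one _
  calc _ ≤ 1 * ‖psiPhi χ Y‖ := mul_le_mul_of_nonneg_right this (norm_nonneg _)
    _ = _ := one_mul _

open Classical in
theorem step2_rel (m Q : ℕ) [NeZero m] (hQm : Q ∣ m) (w : DirichletCharacter ℂ m → ℝ) (hw : ∀ χ, 0 ≤ w χ)
    (W : (f : ℕ) → DirichletCharacter ℂ f → ℝ)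
    (hW : ∀ f (h : f ∣ m) (ψ : DirichletCharacter ℂ f),
      w (DirichletCharacter.changeLevel h ψ) ≤ W f ψ) :
    ∑ χ ∈ (univ : Finset (DirichletCharacter ℂ m)).filter (fun χ => ¬ IsInd m Q hQm χ), w χ ≤
      ∑ f ∈ m.divisors.filter (fun f => ¬ f ∣ Q),
        ∑ ψ ∈ (univ : Finset (DirichletCharacter ℂ f)).filter (fun χ => χ.IsPrimitive), W f ψ := by
  have h1 : ∀ χ ∈ (univ : Finset (DirichletCharacter ℂ m)).filter (fun χ => ¬ IsInd m Q hQm χ),
      χ.conductor ∈ m.divisors.filter (fun f => ¬ f ∣ Q) := by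
    intro χ hχ
    rw [mem_filter] at hχ ⊢
    refine ⟨Nat.mem_divisors.mpr ⟨χ.conductor_dvd_level, NeZero.ne m⟩, ?_⟩
    intro h
    apply hχ.2
    refine ⟨DirichletCharacter.changeLevel h χ.primitiveCharacter, ?_⟩
    rw [← DirichletCharacter.changeLevel_trans]
    exact χ.changeLevel_primitiveCharacter
  rw [← sum_fiberwise_of_maps_to h1]
  apply sum_le_sum
  intro f hf
  rw [mem_filter, Nat.mem_divisors] at hf
  have hfm := hf.1.1
  have h2 : (((univ : Finset (DirichletCharacter ℂ m)).filter (fun χ => ¬ IsInd m Q hQm χ)).filter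
      (fun χ => χ.conductor = f)) ⊆
      ((univ : Finset (DirichletCharacter ℂ f)).filter (fun χ => χ.IsPrimitive)).image
        (DirichletCharacter.changeLevel hfm) := by
    intro χ hχ
    rw [mem_filter] at hχ
    obtain ⟨_, hc⟩ := hχ
    subst hc
    rw [mem_image]
    exact ⟨χ.primitiveCharacter, by
      rw [mem_filter]; exact ⟨mem_univ _, χ.primitiveCharacter_isPrimitive⟩,
      χ.changeLevel_primitiveCharacter⟩
  calc _ ≤ ∑ χ ∈ ((univ : Finset (DirichletCharacter ℂ f)).filter (fun χ => χ.IsPrimitive)).image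
        (DirichletCharacter.changeLevel hfm), w χ :=
        sum_le_sum_of_subset_of_nonneg h2 fun χ _ _ => hw χ
    _ = ∑ ψ ∈ (univ : Finset (DirichletCharacter ℂ f)).filter (fun χ => χ.IsPrimitive),
        w (DirichletCharacter.changeLevel hfm ψ) := by
        rw [sum_image]
        intro x _ y _ hxy
        exact DirichletCharacter.changeLevel_injective hfm hxy
    _ ≤ _ := sum_le_sum fun ψ _ => hW f hfm ψ

theorem ER_le (Y : ℝ) (hY : 1 ≤ Y) (Q q b : ℕ) (hQ : 1 ≤ Q) (hq : 1 ≤ q) (hc : Q.Coprime q)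
    (hb : b.Coprime (Q * q)) :
    |ER Y Q q b| ≤
      (1 / ((Q * q).totient : ℝ)) * (∑ f ∈ (Q * q).divisors.filter (fun f => ¬ f ∣ Q), TT Y f) +
        2 * ((Q * q).primeFactors.card * Real.log (3 * Y)) := by
  classical
  set m := Q * q with hm
  have hm1 : 1 ≤ m := Nat.mul_pos hQ hq
  have : NeZero m := ⟨by omega⟩
  set E := (m.primeFactors.card : ℝ) * Real.log (3 * Y) with hE
  have hlog : 0 ≤ Real.log (3 * Y) := Real.log_nonneg (by linarith)
  have hE0 : 0 ≤ E := by positivity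
  have hφ : (1:ℝ) ≤ Nat.totient m := by exact_mod_cast Nat.totient_pos.mpr (by omega)
  have h1 := ER_char Y Q q hQ hq hc b hb
  have h2 := step2_rel m Q (Dvd.intro q rfl) (fun χ => max (‖psiPhi χ Y‖ - E) 0)
    (fun χ => le_max_right _ _) (fun f ψ => ‖psiPhi ψ Y‖) (by
      intro f h ψ
      apply max_le _ (norm_nonneg _)
      have := psiPhi_changeLevel Y hY m f hm1 h ψ
      linarith)
  have h3 : ∑ χ ∈ (univ : Finset (DirichletCharacter ℂ m)).filter (fun χ => ¬ IsInd m Q (Dvd.intro q rfl) χ),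
        ‖psiPhi χ Y‖ ≤
      (∑ f ∈ m.divisors.filter (fun f => ¬ f ∣ Q), TT Y f) + Nat.totient m * E := by
    calc ∑ χ ∈ (univ : Finset (DirichletCharacter ℂ m)).filter (fun χ => ¬ IsInd m Q (Dvd.intro q rfl) χ),
        ‖psiPhi χ Y‖ ≤
        ∑ χ ∈ (univ : Finset (DirichletCharacter ℂ m)).filter (fun χ => ¬ IsInd m Q (Dvd.intro q rfl) χ),
          (max (‖psiPhi χ Y‖ - E) 0 + E) := by
          apply sum_le_sum
          intro χ _
          have := le_max_left (‖psiPhi χ Y‖ - E) 0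
          linarith
      _ = ∑ χ ∈ (univ : Finset (DirichletCharacter ℂ m)).filter (fun χ => ¬ IsInd m Q (Dvd.intro q rfl) χ),
          max (‖psiPhi χ Y‖ - E) 0 +
          (((univ : Finset (DirichletCharacter ℂ m)).filter
            (fun χ => ¬ IsInd m Q (Dvd.intro q rfl) χ)).card : ℝ) * E := by
          rw [sum_add_distrib, sum_const, nsmul_eq_mul]
      _ ≤ _ := by
          apply add_le_add
          · exact h2
          · apply mul_le_mul_of_nonneg_right _ hE0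
            have h4 := DirichletCharacter.card_eq_totient_of_hasEnoughRootsOfUnity ℂ m
            rw [← h4, Nat.card_eq_fintype_card]
            exact_mod_cast (card_filter_le _ _)
  have hφq : (1 : ℝ) ≤ q.totient := by exact_mod_cast Nat.totient_pos.mpr (by omega)
  have h5 : pc Y Q b - ∑ n ∈ (Icc 1 ⌊3 * Y⌋₊).filter (fun n => n ≡ b [MOD Q] ∧ n.Coprime q),
        Phi (n / Y) * ArithmeticFunction.vonMangoldt n =
      ∑ n ∈ (Icc 1 ⌊3 * Y⌋₊).filter (fun n => n ≡ b [MOD Q] ∧ ¬ n.Coprime q),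
        Phi (n / Y) * ArithmeticFunction.vonMangoldt n := by
    unfold pc
    rw [← sum_filter_add_sum_filter_not ((Icc 1 ⌊3 * Y⌋₊).filter (fun n => n ≡ b [MOD Q]))
      (fun n => n.Coprime q), filter_filter, filter_filter]
    ring
  have hterm : ∀ n : ℕ, 0 ≤ Phi (n / Y) * ArithmeticFunction.vonMangoldt n := fun n =>
    mul_nonneg (Phi_nonneg _) ArithmeticFunction.vonMangoldt_nonneg
  have h6 : ∑ n ∈ (Icc 1 ⌊3 * Y⌋₊).filter (fun n => n ≡ b [MOD Q] ∧ ¬ n.Coprime q),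
        Phi (n / Y) * ArithmeticFunction.vonMangoldt n ≤ E := by
    refine le_trans ?_ (sum_ncPhi Y hY m hm1)
    apply sum_le_sum_of_subset_of_nonneg
    · intro n hn
      rw [mem_filter] at hn ⊢
      exact ⟨hn.1, fun h => hn.2.2 (Nat.Coprime.coprime_mul_left_right h)⟩
    · intro n _ _; exact hterm n
  have h7 : 0 ≤ ∑ n ∈ (Icc 1 ⌊3 * Y⌋₊).filter (fun n => n ≡ b [MOD Q] ∧ ¬ n.Coprime q),
        Phi (n / Y) * ArithmeticFunction.vonMangoldt n := sum_nonneg fun n _ => hterm n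
  set P0 := ∑ n ∈ (Icc 1 ⌊3 * Y⌋₊).filter (fun n => n ≡ b [MOD Q] ∧ n.Coprime q),
        Phi (n / Y) * ArithmeticFunction.vonMangoldt n with hP0
  have h8 : |(1 / (q.totient : ℝ)) * P0 - pc Y Q b * (1 / (q.totient : ℝ))| ≤ E := by
    have : (1 / (q.totient : ℝ)) * P0 - pc Y Q b * (1 / (q.totient : ℝ)) =
        -((pc Y Q b - P0) / (q.totient : ℝ)) := by ring
    rw [this, abs_neg, h5, abs_of_nonneg (by positivity)]
    rw [div_le_iff₀ (by linarith)]
    calc _ ≤ E := h6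
      _ = E * 1 := by ring
      _ ≤ E * (q.totient : ℝ) := mul_le_mul_of_nonneg_left hφq hE0
  have h9 : (1 / (Nat.totient m : ℝ)) *
      ∑ χ ∈ (univ : Finset (DirichletCharacter ℂ m)).filter (fun χ => ¬ IsInd m Q (Dvd.intro q rfl) χ),
        ‖psiPhi χ Y‖ ≤
      (1 / (Nat.totient m : ℝ)) * (∑ f ∈ m.divisors.filter (fun f => ¬ f ∣ Q), TT Y f) + E := by
    calc _ ≤ (1 / (Nat.totient m : ℝ)) * ((∑ f ∈ m.divisors.filter (fun f => ¬ f ∣ Q),
        TT Y f) + Nat.totient m * E) :=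
          mul_le_mul_of_nonneg_left h3 (by positivity)
      _ = _ := by
          have : (Nat.totient m : ℝ) ≠ 0 := by positivity
          field_simp
  unfold ER
  calc _ = |(pc Y m b - (1 / (q.totient : ℝ)) * P0) +
        ((1 / (q.totient : ℝ)) * P0 - pc Y Q b * (1 / (q.totient : ℝ)))| := by
        congr 1; ring
    _ ≤ _ := abs_add_le _ _
    _ ≤ _ := by linarith

end Pool.Agent.H262R3.Lk
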