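import Mathlib
import Pool.Agent.H262R2.UP.Sv3
import Pool.Agent.H262R3.Lk.Sv0

open Finset Filter
open scoped ContDiff

/-! The sieve with large coprimality sets: asymptotics and the first sum. -/

namespace Pool.Agent.H262R3.Lk

open Pool.Agent.H378R2 Pool.Agent.H262R2.UM Pool.Agent.H262R2.UP
open Pool.Agent.Erdos456.Mert (PP)

/-- all primes up to this bound are left out of the sieve -/
noncomputable def zL (X : ℝ) : ℕ := ⌊(Real.log X) ^ 20⌋₊

theorem zL_tendsto : Tendsto zL atTop atTop := by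
  unfold zL
  apply tendsto_nat_floor_atTop.comp
  exact (tendsto_pow_atTop (by norm_num)).comp Real.tendsto_log_atTop

/-- the conditions on the coprimality sets -/
structure GoodEg (X Cd : ℝ) {K : ℕ} (Em : Finset ℕ) (E : Fin K → Finset ℕ) : Prop where
  pr : ∀ p ∈ Em, p.Prime
  cd : ((Em.filter (fun p => zL X < p)).card : ℝ) ≤ Cd * (Real.log X) ^ 8
  sub : ∀ j, E j ⊆ Em
  sm : ∀ j, ∀ p : ℕ, p.Prime → p ≤ zL X → p ∈ E j

theorem setfacts3 (Cd : ℝ) (hCd : 0 ≤ Cd) : ∀ᶠ X : ℝ in atTop, ∀ E : Finset ℕ,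
    (∀ p ∈ E, p.Prime) → ((E.filter (fun p => zL X < p)).card : ℝ) ≤ Cd * (Real.log X) ^ 8 →
    (∑ p ∈ E, Real.log p / p ≤ (LL X) ^ (1 / 4 : ℝ)) ∧
    (∑ p ∈ E, (1 : ℝ) / p ≤ Real.log (LL X) / 32) := by
  obtain ⟨C1, hC1⟩ := Pool.Agent.Erdos456.Mert.mertens_log
  obtain ⟨C2, hC2⟩ := Pool.Agent.Erdos456.Mert.mertens_inv
  have hlog := Real.tendsto_log_atTop
  have e1 : ∀ᶠ X : ℝ in atTop, 20 * Real.log (Real.log X) + C1 + Cd ≤ (Real.log X / 200) ^ (1 / 4 : ℝ) := by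
    have h1 : ∀ᶠ L : ℝ in atTop, 20 * Real.log L + (C1 + Cd) ≤ (L / 200) ^ (1 / 4 : ℝ) := by
      have h2 : (fun L : ℝ => 20 * Real.log L + (C1 + Cd)) =o[atTop] (fun L : ℝ => L ^ (1 / 4 : ℝ)) := by
        apply Asymptotics.IsLittleO.add
        · exact (isLittleO_log_rpow_atTop (by norm_num)).const_mul_left 20
        · have h3 : Tendsto (fun L : ℝ => ‖L ^ (1 / 4 : ℝ)‖) atTop atTop :=
            tendsto_norm_atTop_atTop.comp (tendsto_rpow_atTop (by norm_num))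
          exact Asymptotics.isLittleO_const_left.2 (Or.inr h3)
      have h4 := h2.def (c := (1 / 200 : ℝ) ^ (1 / 4 : ℝ)) (by positivity)
      filter_upwards [h4, eventually_ge_atTop (1 : ℝ)] with L h5 h6
      rw [Real.norm_of_nonneg (by positivity : (0 : ℝ) ≤ L ^ (1 / 4 : ℝ))] at h5
      have h7 := (le_abs_self _).trans h5
      refine h7.trans (le_of_eq ?_)
      rw [← Real.mul_rpow (by norm_num) (by linarith)]
      congr 1
      ring
    filter_upwards [hlog.eventually h1] with X h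
    linarith
  have e2 : ∀ᶠ X : ℝ in atTop, Real.log (20 * Real.log (Real.log X)) + C2 + 1 ≤ Real.log (Real.log X / 200) / 32 := by
    have h1 : ∀ᶠ L : ℝ in atTop, Real.log (20 * L) + C2 + 1 ≤ (L - Real.log 200) / 32 := by
      have h4 := Real.isLittleO_log_id_atTop.def (c := 1 / 64) (by norm_num)
      filter_upwards [h4, eventually_ge_atTop (1 : ℝ), eventually_ge_atTop (64 * (Real.log 20 + C2 + 1 + Real.log 200 / 32))]
        with L h5 h6 h7
      rw [Real.norm_of_nonneg (Real.log_nonneg h6), id, Real.norm_of_nonneg (by linarith)] at h5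
      rw [Real.log_mul (by norm_num) (by linarith)]
      linarith
    filter_upwards [(hlog.comp hlog).eventually h1, hlog.eventually_ge_atTop (1 : ℝ)] with X h h2
    simp only [Function.comp] at h
    rw [Real.log_div (by linarith) (by norm_num)]
    exact h
  have e3 := hlog.eventually_ge_atTop (10 + 4 * Cd : ℝ)
  have e4 := (hlog.comp hlog).eventually_ge_atTop (10 : ℝ)
  filter_upwards [e1, e2, e3, e4, eventually_ge_atTop 10] with X h1 h2 h3 h4 h5
  intro E hE hcard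
  simp only [Function.comp] at h4
  set N := zL X with hN
  set L := Real.log X with hL
  have hL10 : 10 ≤ L := by linarith
  have hN1 : (N : ℝ) ≤ L ^ 20 := Nat.floor_le (by positivity)
  have hN2 : L ^ 20 < N + 1 := Nat.lt_floor_add_one _
  have hN3 : 3 ≤ N := by
    rw [hN]
    apply Nat.le_floor
    have : (10 : ℝ) ^ 20 ≤ L ^ 20 := by
      apply pow_le_pow_left₀ (by norm_num); linarith
    push_cast
    linarith
  have hNr : (3 : ℝ) ≤ N := by exact_mod_cast hN3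
  have hlN : Real.log N ≤ 20 * Real.log L := by
    have : Real.log (L ^ 20) = 20 * Real.log L := by
      rw [Real.log_pow]; norm_num
    rw [← this]
    exact Real.log_le_log (by linarith) hN1
  have hlN1 : 1 ≤ Real.log N := by
    rw [Real.le_log_iff_exp_le (by linarith)]
    have := Real.exp_one_lt_d9
    linarith
  have hsplit : ∀ φ : ℕ → ℝ, (∀ p, 0 ≤ φ p) → ∀ M : ℝ, (∀ p ∈ E, N < p → φ p ≤ M) →
      ∑ p ∈ E, φ p ≤ ∑ p ∈ PP N, φ p + #(E.filter (fun p => N < p)) * M := by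
    intro φ hφ M hM
    rw [← sum_filter_add_sum_filter_not E (fun p => N < p), add_comm]
    apply add_le_add
    · apply sum_le_sum_of_subset_of_nonneg _ (fun _ _ _ => hφ _)
      intro p hp
      rw [mem_filter, not_lt] at hp
      rw [mem_PP']
      exact ⟨hp.2, hE p hp.1⟩
    · rw [← nsmul_eq_mul]
      apply sum_le_card_nsmul
      intro p hp
      rw [mem_filter] at hp
      exact hM p hp.1 hp.2
  have hbig : ∀ p : ℕ, N < p → L ^ 20 ≤ p := by
    intro p hp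
    have : (N : ℝ) + 1 ≤ p := by exact_mod_cast hp
    linarith
  have hn1 : ∀ p : ℕ, 0 ≤ Real.log p / p := fun p => by
    apply div_nonneg _ (Nat.cast_nonneg _)
    exact Real.log_natCast_nonneg p
  have hbig2 : ∀ p : ℕ, N < p → Real.log p / p ≤ 2 / L ^ 10 := by
    intro p hp
    have h6 := hbig p hp
    have hp0 : (0 : ℝ) < p := lt_of_lt_of_le (by positivity) h6
    have hsq : Real.sqrt p * Real.sqrt p = p := Real.mul_self_sqrt hp0.le
    have hs : L ^ 10 ≤ Real.sqrt p := by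
      apply Real.le_sqrt_of_sq_le
      rw [← pow_mul]
      exact h6
    have h2 : Real.log p ≤ 2 * Real.sqrt p := by
      have h3 := Real.log_le_sub_one_of_pos (Real.sqrt_pos.2 hp0)
      rw [Real.log_sqrt hp0.le] at h3
      linarith
    rw [div_le_div_iff₀ hp0 (by positivity)]
    have hs0 : 0 ≤ Real.sqrt p := Real.sqrt_nonneg _
    calc Real.log p * L ^ 10 ≤ 2 * Real.sqrt p * Real.sqrt p := by gcongr
      _ = 2 * p := by rw [mul_assoc, hsq]
  have hcardN : (#(E.filter (fun p => N < p)) : ℝ) ≤ Cd * L ^ 8 := hcard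
  have hL2 : (1 : ℝ) ≤ L ^ 2 := by nlinarith
  have hs1 := hsplit (fun p => Real.log p / p) hn1 (2 / L ^ 10) (fun p _ hp => hbig2 p hp)
  have hs2 := hsplit (fun p => (1 : ℝ) / p) (fun p => by positivity) (1 / L ^ 20) (fun p _ hp =>
    one_div_le_one_div_of_le (by positivity) (hbig p hp))
  have hc1 : (#(E.filter (fun p => N < p)) : ℝ) * (2 / L ^ 10) ≤ Cd := by
    calc (#(E.filter (fun p => N < p)) : ℝ) * (2 / L ^ 10) ≤ (Cd * L ^ 8) * (2 / L ^ 10) := by gcongr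
      _ = Cd * (2 / L ^ 2) := by field_simp
      _ ≤ Cd * 1 := by
          apply mul_le_mul_of_nonneg_left _ hCd
          rw [div_le_one (by positivity)]
          nlinarith
      _ = Cd := mul_one _
  have hc2 : (#(E.filter (fun p => N < p)) : ℝ) * (1 / L ^ 20) ≤ 1 := by
    calc (#(E.filter (fun p => N < p)) : ℝ) * (1 / L ^ 20) ≤ (Cd * L ^ 8) * (1 / L ^ 20) := by gcongr
      _ = Cd / L ^ 12 := by field_simp
      _ ≤ 1 := by
          rw [div_le_one (by positivity)]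
          have : L ≤ L ^ 12 := le_self_pow₀ (by linarith) (by norm_num)
          linarith
  have hm1 := (abs_le.1 (hC1 N (by omega))).2
  have hm2 := (abs_le.1 (hC2 N hN3)).2
  have hloglog : Real.log (Real.log N) ≤ Real.log (20 * Real.log L) :=
    Real.log_le_log (by linarith) hlN
  refine ⟨?_, ?_⟩
  · unfold LL
    refine le_trans ?_ h1
    linarith
  · unfold LL
    refine le_trans ?_ h2
    linarith

theorem asympG (J : ℕ) (F G : Fin J → ℝ → ℝ)
    (hF : ∀ j, ContDiff ℝ ∞ (F j)) (hG : ∀ j, ContDiff ℝ ∞ (G j))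
    (hFc : ∀ j, HasCompactSupport (F j)) (hGc : ∀ j, HasCompactSupport (G j))
    (hF0 : ∀ j x, 1 / 2 < x → F j x = 0) (hG0 : ∀ j x, 1 / 2 < x → G j x = 0)
    (Cd : ℝ) (hCd : 0 ≤ Cd) (ε : ℝ) (hε : 0 < ε) :
    ∀ᶠ X : ℝ in atTop, ∀ (Em : Finset ℕ) (E : Fin J → Finset ℕ) (w : ℕ → Fin J → ℝ),
      GoodEg X Cd Em E →
      (∀ j, ∀ p : ℕ, p.Prime → |w p j - 1 / p| ≤ 2 / (p : ℝ) ^ 2) →
      |(∏ j, (LL X * BE (E j))) * sieveSum J F G (LL X) E w (RR X) - ∏ j, DD (F j) (G j)| ≤ ε := by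
  have h5 : SieveAsymp := sieve_asymp
  obtain ⟨δ, hδ, h⟩ := h5 J F G hF hG hFc hGc ε hε
  have e1 := LL_tendsto.eventually_ge_atTop (1 / δ)
  have e2 := LL_tendsto.eventually_ge_atTop 2
  have e3 := zL_tendsto.eventually_ge_atTop ⌈1 / δ⌉₊
  filter_upwards [e1, e2, e3, setfacts3 Cd hCd] with X h1 h2 h3 h4
  intro Em E w hGE hw
  have hEp : ∀ j, ∀ p ∈ E j, p.Prime := fun j p hp => hGE.pr p (hGE.sub j hp)
  have hf : ∀ j, _ := fun j => h4 (E j) (hEp j) (by
    refine le_trans ?_ hGE.cd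
    exact_mod_cast card_le_card (filter_subset_filter _ (hGE.sub j)))
  apply h (LL X) E w (RR X) h1
  · intro j x hx
    have h6 : 1 / 2 < x := by
      refine lt_of_le_of_lt ?_ hx
      rw [le_div_iff₀ (by linarith)]
      have := RR_ge (LL X) h2
      unfold RR
      linarith
    exact ⟨hF0 j x h6, hG0 j x h6⟩
  · intro j p hp
    exact hEp j p hp
  · intro j p hp hpl
    apply hGE.sm j p hp
    have : p ≤ ⌈1 / δ⌉₊ := by
      have := hpl.trans (Nat.le_ceil (1 / δ))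
      exact_mod_cast this
    exact this.trans h3
  · intro j; exact (hf j).1
  · intro j; exact (hf j).2
  · intro j p hp _
    exact hw j p hp

theorem S1g {K B : ℕ} (f : Fin B → ℝ → ℝ) (c : Fin B → ℝ) (A : Finset (Fin K → Fin B))
    (hsm : ∀ l, ContDiff ℝ ∞ (f l)) (hcs : ∀ l, HasCompactSupport (f l)) (hf0 : ∀ l x, c l < x → f l x = 0)
    (hc : ∀ l, 0 ≤ c l ∧ c l ≤ 1 / 2) (hA : ∀ a ∈ A, ∑ j, c (a j) ≤ 1) (hf1 : ∀ l x, |f l x| ≤ 1)
    (Cd : ℝ) (hCd : 0 ≤ Cd) (ε1 : ℝ) (hε1 : 0 < ε1) :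
    ∀ᶠ X : ℝ in atTop, ∀ (Em : Finset ℕ) (E : Fin K → Finset ℕ) (W a0 N : ℕ) (a b : Fin K → ℕ),
      GoodEg X Cd Em E → GoodFf E a b →
      0 < W → (∀ j, ∀ p : ℕ, p.Prime → p ∉ E j → ¬ p ∣ W) →
      ∑ n ∈ Icc 1 N, cl W a0 n * sqwf E X f A (fun j => (a j : ℤ) * n + b j) ^ 2 ≤
        ((N : ℝ) * (1 / (W : ℝ))) * (1 / ∏ j, (LL X * BE (E j))) * (II f A + ε1) +
          (A.card : ℝ) ^ 2 * Real.exp (2 * LL X) := by
  classical
  have hev : ∀ᶠ X : ℝ in atTop, ∀ a ∈ A, ∀ b ∈ A, ∀ (Em : Finset ℕ) (E : Fin K → Finset ℕ) (w : ℕ → Fin K → ℝ),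
      GoodEg X Cd Em E →
      (∀ j, ∀ p : ℕ, p.Prime → |w p j - 1 / p| ≤ 2 / (p : ℝ) ^ 2) →
      |(∏ j, (LL X * BE (E j))) * sieveSum K (fun j => f (a j)) (fun j => f (b j)) (LL X) E w (RR X) -
        ∏ j, DD (f (a j)) (f (b j))| ≤ ε1 / ((A.card : ℝ) ^ 2 + 1) := by
    rw [Filter.eventually_all_finset]
    intro a _
    rw [Filter.eventually_all_finset]
    intro b _
    exact asympG K (fun j => f (a j)) (fun j => f (b j)) (fun j => hsm _) (fun j => hsm _)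
      (fun j => hcs _) (fun j => hcs _) (fun j x hx => hf0 _ x ((hc _).2.trans_lt hx))
      (fun j x hx => hf0 _ x ((hc _).2.trans_lt hx)) Cd hCd _ (by positivity)
  filter_upwards [hev, LL_tendsto.eventually_ge_atTop 1] with X h1 h6
  intro Em E W a0 N ca cb hGE hGF hWpos hEW
  have hWr : (0 : ℝ) < W := by exact_mod_cast hWpos
  have hBE : ∀ j, 0 < BE (E j) := fun j => BE_pos fun p hp => hGE.pr p (hGE.sub j hp)
  have hLB : 0 < ∏ j, (LL X * BE (E j)) := prod_pos fun j _ => mul_pos (by linarith) (hBE j)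
  have hMnn : (0 : ℝ) ≤ N := Nat.cast_nonneg _
  have hone : ∀ a ∈ A, ∀ b ∈ A, ∑ n ∈ Icc 1 N, cl W a0 n *
      ∏ j, (VVm (E j) (RR X) (LL X) (f (a j)) ((ca j : ℤ) * n + cb j) *
        VVm (E j) (RR X) (LL X) (f (b j)) ((ca j : ℤ) * n + cb j)) ≤
      ((N : ℝ) * (1 / (W : ℝ))) * (1 / ∏ j, (LL X * BE (E j))) *
        (∏ j, DD (f (a j)) (f (b j)) + ε1 / ((A.card : ℝ) ^ 2 + 1)) + Real.exp (2 * LL X) := by
    intro a ha b hb
    have hsum : ∑ j, c (a j) + ∑ j, c (b j) ≤ 2 := by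
      have := hA a ha
      have := hA b hb
      linarith
    have k1 := sum1c N W a0 hWpos (fun j => f (a j)) (fun j => f (b j)) (LL X) 1 (by linarith) zero_le_one
      (fun j => c (a j)) (fun j => c (b j)) (fun j x => hf1 _ x) (fun j x => hf1 _ x)
      (fun j x hx => hf0 _ x hx) (fun j x hx => hf0 _ x hx) E (RR X) ca
      (fun j => (cb j : ℤ)) hEW (fun j => hGF.ha j j)
      (by
        intro i j hij p hp hpE hpE' n hh
        apply hGF.hr i j hij p hp hpE hpE'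
        have h7 := dvd_sub (hh.2.mul_left (ca i : ℤ)) (hh.1.mul_left (ca j : ℤ))
        have h8 : (ca i : ℤ) * (ca j * n + cb j) - ca j * (ca i * n + cb i) = ca i * cb j - ca j * cb i := by
          ring
        rwa [h8] at h7)
    have k2 := h1 a ha b hb Em E (fun p _ => 1 / (p : ℝ)) hGE (fun _ p _ => w_one p)
    have k4 := (abs_le.1 k1).2
    have k5 := (abs_le.1 k2).2
    set SS := sieveSum K (fun j => f (a j)) (fun j => f (b j)) (LL X) E (fun p _ => 1 / (p : ℝ)) (RR X)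
    have k6 : SS ≤ (1 / ∏ j, (LL X * BE (E j))) * (∏ j, DD (f (a j)) (f (b j)) + ε1 / ((A.card : ℝ) ^ 2 + 1)) := by
      rw [one_div, ← div_eq_inv_mul, le_div_iff₀ hLB]
      linarith
    have k7 : (N : ℝ) * (1 / (W : ℝ)) * SS ≤ ((N : ℝ) * (1 / (W : ℝ))) * ((1 / ∏ j, (LL X * BE (E j))) *
        (∏ j, DD (f (a j)) (f (b j)) + ε1 / ((A.card : ℝ) ^ 2 + 1))) :=
      mul_le_mul_of_nonneg_left k6 (by positivity)
    have k8 : (1 : ℝ) ^ (2 * K) * Real.exp (LL X * (∑ j, c (a j) + ∑ j, c (b j))) ≤ Real.exp (2 * LL X) := by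
      rw [one_pow, one_mul]
      apply Real.exp_le_exp.2
      nlinarith
    unfold cl
    linarith
  simp_rw [sqwf_sq, Finset.mul_sum]
  rw [Finset.sum_comm]
  have hswap : ∀ a ∈ A, ∑ n ∈ Icc 1 N, ∑ b ∈ A, cl W a0 n *
      ∏ j, (VVm (E j) (RR X) (LL X) (f (a j)) ((ca j : ℤ) * n + cb j) *
        VVm (E j) (RR X) (LL X) (f (b j)) ((ca j : ℤ) * n + cb j)) ≤
      ∑ b ∈ A, (((N : ℝ) * (1 / (W : ℝ))) * (1 / ∏ j, (LL X * BE (E j))) *
        (∏ j, DD (f (a j)) (f (b j)) + ε1 / ((A.card : ℝ) ^ 2 + 1)) + Real.exp (2 * LL X)) := by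
    intro a ha
    rw [Finset.sum_comm]
    exact Finset.sum_le_sum fun b hb => hone a ha b hb
  refine (Finset.sum_le_sum hswap).trans ?_
  simp_rw [Finset.sum_add_distrib, ← Finset.mul_sum, Finset.sum_add_distrib, Finset.sum_const, nsmul_eq_mul]
  have hfin : ((A.card : ℝ) * ((A.card : ℝ) * (ε1 / ((A.card : ℝ) ^ 2 + 1)))) ≤ ε1 := by
    have : (A.card : ℝ) * ((A.card : ℝ) * (ε1 / ((A.card : ℝ) ^ 2 + 1))) =
        ((A.card : ℝ) ^ 2 / ((A.card : ℝ) ^ 2 + 1)) * ε1 := by ring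
    rw [this]
    have h7 : (A.card : ℝ) ^ 2 / ((A.card : ℝ) ^ 2 + 1) ≤ 1 := by
      rw [div_le_one (by positivity)]; linarith
    nlinarith
  have hcoef : 0 ≤ ((N : ℝ) * (1 / (W : ℝ))) * (1 / ∏ j, (LL X * BE (E j))) := by positivity
  have : ((N : ℝ) * (1 / (W : ℝ))) * (1 / ∏ j, (LL X * BE (E j))) *
      (∑ a ∈ A, ∑ b ∈ A, ∏ j, DD (f (a j)) (f (b j)) +
        (A.card : ℝ) * ((A.card : ℝ) * (ε1 / ((A.card : ℝ) ^ 2 + 1)))) ≤
      ((N : ℝ) * (1 / (W : ℝ))) * (1 / ∏ j, (LL X * BE (E j))) * (II f A + ε1) := by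
    apply mul_le_mul_of_nonneg_left _ hcoef
    unfold II
    linarith
  calc _ = ((N : ℝ) * (1 / (W : ℝ))) * (1 / ∏ j, (LL X * BE (E j))) *
      (∑ a ∈ A, ∑ b ∈ A, ∏ j, DD (f (a j)) (f (b j)) +
        (A.card : ℝ) * ((A.card : ℝ) * (ε1 / ((A.card : ℝ) ^ 2 + 1)))) +
          (A.card : ℝ) ^ 2 * Real.exp (2 * LL X) := by ring
    _ ≤ _ := by linarith

end Pool.Agent.H262R3.Lk
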