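import Mathlib
import Pool.Agent.H262R3.Lk.Sv1

open Finset Filter
open scoped ContDiff

/-! The second sums of the sieve relative to the subprogression. -/

namespace Pool.Agent.H262R3.Lk

open Pool.Agent.H378R2 Pool.Agent.H262R2.UM Pool.Agent.H262R2.UP

theorem pc_nonneg (Y : ℝ) (Q r : ℕ) : 0 ≤ pc Y Q r := by
  unfold pc
  exact Finset.sum_nonneg fun n _ => mul_nonneg (Phi_nonneg _) ArithmeticFunction.vonMangoldt_nonneg

/-- the error term from the relative Bombieri-Vinogradov theorem -/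
noncomputable def BVr (K0 : ℕ) (X Y : ℝ) (Q P : ℕ) (Bc : ℕ → ℕ) : ℝ :=
  ∑ q ∈ (Icc 1 ⌊X ^ (1 / 100 : ℝ)⌋₊).filter (fun q => Squarefree q ∧ q.Coprime P),
    (q.divisors.card : ℝ) ^ (2 * K0) * |ER Y Q q (Bc q)|

/-- the error of the second sum -/
noncomputable def Er3 (K0 : ℕ) (X Y : ℝ) (Q P : ℕ) (Bc : ℕ → ℕ) : ℝ :=
  BVr K0 X Y Q P Bc + Real.exp (2 * LL X) * (2 * Real.sqrt (3 * Y) * Real.log (3 * Y))

theorem Er3_nonneg (K0 : ℕ) (X Y : ℝ) (Q P : ℕ) (Bc : ℕ → ℕ) (hY : 1 ≤ Y) : 0 ≤ Er3 K0 X Y Q P Bc := by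
  unfold Er3 BVr
  have h1 : 0 ≤ Real.log (3 * Y) := Real.log_nonneg (by linarith)
  have h2 : 0 ≤ ∑ q ∈ (Icc 1 ⌊X ^ (1 / 100 : ℝ)⌋₊).filter (fun q => Squarefree q ∧ q.Coprime P),
      (q.divisors.card : ℝ) ^ (2 * K0) * |ER Y Q q (Bc q)| :=
    sum_nonneg fun _ _ => mul_nonneg (pow_nonneg (Nat.cast_nonneg _) _) (abs_nonneg _)
  exact add_nonneg h2 (mul_nonneg (Real.exp_pos _).le (mul_nonneg (mul_nonneg (by norm_num) (Real.sqrt_nonneg _)) h1))

theorem BVr_le (K0 : ℕ) (X Y : ℝ) (Q W P0 : ℕ) (Bc : ℕ → ℕ) :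
    BVr K0 X Y Q (W * P0) Bc ≤ ∑ q ∈ LSBV.QQ W P0 ⌊X ^ (1 / 100 : ℝ)⌋₊,
      (q.divisors.card : ℝ) ^ (2 * K0 + 4) * |ER Y Q q (Bc q)| := by
  unfold BVr LSBV.QQ
  apply sum_le_sum
  intro q hq
  rw [mem_filter, mem_Icc] at hq
  apply mul_le_mul_of_nonneg_right _ (abs_nonneg _)
  apply pow_le_pow_right₀ _ (by omega)
  have : 0 < q.divisors.card := card_pos.2 ⟨1, Nat.mem_divisors.2 ⟨one_dvd _, by omega⟩⟩
  exact_mod_cast this

theorem S2_pair_g {K0 B : ℕ} (f : Fin B → ℝ → ℝ) (c : Fin B → ℝ)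
    (hsm : ∀ l, ContDiff ℝ ∞ (f l)) (hcs : ∀ l, HasCompactSupport (f l)) (hf0 : ∀ l x, c l < x → f l x = 0)
    (hc : ∀ l, 0 ≤ c l ∧ c l ≤ 1 / 2) (hf1 : ∀ l x, |f l x| ≤ 1) (Cd : ℝ) (hCd : 0 ≤ Cd)
    (ε1 : ℝ) (hε1 : 0 < ε1) (u v : Fin (K0 + 1) → Fin B) (i : Fin (K0 + 1))
    (hu : ∑ j, c (u j) ≤ 1) (hv : ∑ j, c (v j) ≤ 1) :
    ∀ᶠ X : ℝ in atTop, ∀ (Y : ℝ) (Em : Finset ℕ) (E : Fin K0 → Finset ℕ) (Q P r : ℕ) (a b : Fin (K0 + 1) → ℕ),
      1 ≤ Y → GoodEg X Cd Em E →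
      GoodHf E a b i → 0 < Q → (∀ j, ∀ p : ℕ, p.Prime → p ∉ E j → ¬ p ∣ Q) →
      (∀ j, ∀ p : ℕ, p.Prime → p ∉ E j → ¬ p ∣ P) →
      r.Coprime Q →
      ∀ Bc : ℕ → ℕ, (∀ q, 1 ≤ q → ∀ b' : ℕ, b'.Coprime (Q * q) →
        |ER Y Q q b'| ≤ |ER Y Q q (Bc q)|) →
      |∑ n ∈ Icc 1 ⌊3 * Y⌋₊, (if n ≡ r [MOD Q] then Phi (n / Y) * ArithmeticFunction.vonMangoldt n else 0) *
          PRf E X f u v i a b n -
        (pc Y Q r) * (1 / ∏ j, (LL X * BE (E j))) *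
          ∏ j : Fin K0, DD (f (u (i.succAbove j))) (f (v (i.succAbove j)))| ≤
      (pc Y Q r) * (1 / ∏ j, (LL X * BE (E j))) * ε1 + BVr K0 X Y Q P Bc := by
  classical
  have hev := asympG K0 (fun j => f (u (i.succAbove j))) (fun j => f (v (i.succAbove j))) (fun j => hsm _) (fun j => hsm _)
      (fun j => hcs _) (fun j => hcs _) (fun j x hx => hf0 _ x ((hc _).2.trans_lt hx))
      (fun j x hx => hf0 _ x ((hc _).2.trans_lt hx)) Cd hCd ε1 hε1
  filter_upwards [hev, eventually_ge_atTop 4, LL_tendsto.eventually_ge_atTop 1] with X h1 h4 h6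
  intro Y Em E Q P r a b hY hGE hGF hQ hEQ hEP hcop Bc hBc
  have hBE : ∀ j, 0 < BE (E j) := fun j => BE_pos fun p hp => hGE.pr p (hGE.sub j hp)
  have hLB : 0 < ∏ j, (LL X * BE (E j)) := prod_pos fun j _ => mul_pos (by linarith) (hBE j)
  have hsum : ∑ j : Fin K0, c (u (i.succAbove j)) + ∑ j : Fin K0, c (v (i.succAbove j)) ≤ 2 := by
    have := sum_succAbove_le c (fun l => (hc l).1) u i
    have := sum_succAbove_le c (fun l => (hc l).1) v i
    linarith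
  -- sieve
  have s2 := sum2r Y Q P r hQ hcop (fun j => f (u (i.succAbove j))) (fun j => f (v (i.succAbove j)))
    (LL X) 1 (by linarith) zero_le_one (fun j => c (u (i.succAbove j))) (fun j => c (v (i.succAbove j)))
    (fun j x => hf1 _ x) (fun j x => hf1 _ x)
    (fun j x hx => hf0 _ x hx) (fun j x hx => hf0 _ x hx) E (RR X)
    (fun j => a (i.succAbove j))
    (fun j => (a i : ℤ) * b (i.succAbove j) - a (i.succAbove j) * b i)
    hEQ hEP hGF.hc hGF.hh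
    (by
      intro j k hjk p hp hpE hpE' n hh
      have h7 := dvd_sub (hh.2.mul_left (a (i.succAbove j) : ℤ)) (hh.1.mul_left (a (i.succAbove k) : ℤ))
      have h8 : (a (i.succAbove j) : ℤ) * ((a (i.succAbove k) : ℤ) * n +
          ((a i : ℤ) * b (i.succAbove k) - a (i.succAbove k) * b i)) -
          a (i.succAbove k) * ((a (i.succAbove j) : ℤ) * n +
          ((a i : ℤ) * b (i.succAbove j) - a (i.succAbove j) * b i)) =
          (a i : ℤ) * ((a (i.succAbove j) : ℤ) * b (i.succAbove k) - a (i.succAbove k) * b (i.succAbove j)) := by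
        ring
      rw [h8] at h7
      rcases (Nat.prime_iff_prime_int.1 hp).dvd_or_dvd h7 with h9 | h9
      · exact hGF.hci j p hp hpE (Int.natCast_dvd_natCast.1 h9)
      · exact hGF.hr _ _ hjk p hp hpE hpE' h9)
    Bc hBc
  have s3 : ∑ n ∈ Icc 1 ⌊3 * Y⌋₊, (if n ≡ r [MOD Q] then Phi (n / Y) * ArithmeticFunction.vonMangoldt n else 0) *
      PRf E X f u v i a b n =
      ∑ n ∈ Icc 1 ⌊3 * Y⌋₊, (if n ≡ r [MOD Q] then Phi (n / Y) * ArithmeticFunction.vonMangoldt n else 0) *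
        ∏ j : Fin K0, (VVm (E j) (RR X) (LL X) (f (u (i.succAbove j)))
          ((a (i.succAbove j) : ℤ) * n + ((a i : ℤ) * b (i.succAbove j) - a (i.succAbove j) * b i)) *
        VVm (E j) (RR X) (LL X) (f (v (i.succAbove j)))
          ((a (i.succAbove j) : ℤ) * n + ((a i : ℤ) * b (i.succAbove j) - a (i.succAbove j) * b i))) := rfl
  rw [← s3] at s2
  have s4 : (1 : ℝ) ^ (2 * K0) * ∑ q ∈ (Icc 1 ⌊Real.exp (LL X * (∑ j : Fin K0, c (u (i.succAbove j)) +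
      ∑ j : Fin K0, c (v (i.succAbove j))))⌋₊).filter
      (fun q => Squarefree q ∧ q.Coprime P), (q.divisors.card : ℝ) ^ (2 * K0) * |ER Y Q q (Bc q)| ≤
      BVr K0 X Y Q P Bc := by
    rw [one_pow, one_mul]
    unfold BVr
    apply Finset.sum_le_sum_of_subset_of_nonneg
    · apply Finset.filter_subset_filter
      apply Finset.Icc_subset_Icc le_rfl
      apply Nat.floor_le_floor
      rw [← exp_two_LL X (by linarith)]
      apply Real.exp_le_exp.2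
      nlinarith
    · intro q _ _
      positivity
  -- asymptotics
  have s5 := h1 Em E (fun p _ => 1 / ((p : ℝ) - 1)) hGE (fun _ p hp => w_two hp)
  set SS := sieveSum K0 (fun j => f (u (i.succAbove j))) (fun j => f (v (i.succAbove j))) (LL X) E
    (fun p _ => 1 / ((p : ℝ) - 1)) (RR X)
  set D := ∏ j : Fin K0, DD (f (u (i.succAbove j))) (f (v (i.succAbove j))) with hD
  have hLP : 0 ≤ pc Y Q r := by
    exact pc_nonneg Y Q r
  have s6 : |(pc Y Q r) * SS -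
      (pc Y Q r) * (1 / ∏ j, (LL X * BE (E j))) * D| ≤
      (pc Y Q r) * (1 / ∏ j, (LL X * BE (E j))) * ε1 := by
    have : (pc Y Q r) * SS -
      (pc Y Q r) * (1 / ∏ j, (LL X * BE (E j))) * D =
      (pc Y Q r) * (1 / ∏ j, (LL X * BE (E j))) * ((∏ j, (LL X * BE (E j))) * SS - D) := by
      have h0 : (∏ j, (LL X * BE (E j))) ≠ 0 := hLB.ne'
      generalize (∏ j, (LL X * BE (E j))) = Pr at h0
      generalize (pc Y Q r) = Mn
      field_simp
    rw [this, abs_mul, abs_of_nonneg (by positivity)]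
    exact mul_le_mul_of_nonneg_left s5 (by positivity)
  have s9 := abs_le.1 s2
  have s10 := abs_le.1 s6
  rw [abs_le]
  constructor <;> linarith [s9.1, s9.2, s10.1, s10.2, s4]

end Pool.Agent.H262R3.Lk
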