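import Mathlib
import Pool.Agent.H262R3.Lk.Sv2

open Finset Filter
open scoped ContDiff

/-! The second sums of the sieve relative to the subprogression: the lower bound. -/

namespace Pool.Agent.H262R3.Lk

open Pool.Agent.H378R2 Pool.Agent.H262R2.UM Pool.Agent.H262R2.UP

theorem S2g {K0 B : ℕ} (f : Fin B → ℝ → ℝ) (c : Fin B → ℝ)
    (A : Finset (Fin (K0 + 1) → Fin B))
    (hsm : ∀ l, ContDiff ℝ ∞ (f l)) (hcs : ∀ l, HasCompactSupport (f l)) (hf0 : ∀ l x, c l < x → f l x = 0)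
    (hc : ∀ l, 0 ≤ c l ∧ c l ≤ 1 / 2) (hA : ∀ a ∈ A, ∑ j, c (a j) ≤ 1) (hf1 : ∀ l x, |f l x| ≤ 1)
    (Cd : ℝ) (hCd : 0 ≤ Cd) (ε1 : ℝ) (hε1 : 0 < ε1) :
    ∀ᶠ X : ℝ in atTop, ∀ (i : Fin (K0 + 1)) (Y : ℝ) (Em : Finset ℕ) (E : Fin (K0 + 1) → Finset ℕ) (W a0 P : ℕ)
      (a b : Fin (K0 + 1) → ℕ),
      GoodEg X Cd Em E → GoodEg X Cd Em (Ex E a b i) → GoodFf E a b → 0 < W →
      (∀ j, ∀ p : ℕ, p.Prime → p ∉ E j → ¬ p ∣ W) →
      (∀ j, ∀ p : ℕ, p.Prime → p ∉ E j → ¬ p ∣ P) → b i ≤ a i → 0 < a i →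
      (a i : ℝ) * X ≤ Y → Real.exp 1 * Y ≤ 8 * (a i * X) →
      (a i * a0 + b i).Coprime (a i * W) →
      ∀ Bc : ℕ → ℕ, (∀ q, 1 ≤ q → ∀ b' : ℕ, b'.Coprime (a i * W * q) →
        |ER Y (a i * W) q b'| ≤ |ER Y (a i * W) q (Bc q)|) →
      (pc Y (a i * W) (a i * a0 + b i)) * (1 / ∏ j, (LL X * BE (Ex E a b i j))) * (JJ f A i - ε1) -
        (A.card : ℝ) ^ 2 * Er3 K0 X Y (a i * W) P Bc ≤
      ∑ n ∈ Icc 1 ⌊8 * X⌋₊, cl W a0 n *
        (sqwf E X f A (fun j => (a j : ℤ) * n + b j) ^ 2 * th (a i * n + b i)) := by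
  classical
  have hev : ∀ i : Fin (K0 + 1), ∀ᶠ X : ℝ in atTop, ∀ u ∈ A, ∀ v ∈ A,
    ∀ (Y : ℝ) (Em : Finset ℕ) (E : Fin K0 → Finset ℕ) (Q P r : ℕ) (a b : Fin (K0 + 1) → ℕ),
      1 ≤ Y → GoodEg X Cd Em E →
      GoodHf E a b i → 0 < Q → (∀ j, ∀ p : ℕ, p.Prime → p ∉ E j → ¬ p ∣ Q) →
      (∀ j, ∀ p : ℕ, p.Prime → p ∉ E j → ¬ p ∣ P) →
      r.Coprime Q →
      ∀ Bc : ℕ → ℕ, (∀ q, 1 ≤ q → ∀ b' : ℕ, b'.Coprime (Q * q) →
        |ER Y Q q b'| ≤ |ER Y Q q (Bc q)|) →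
      |∑ n ∈ Icc 1 ⌊3 * Y⌋₊, (if n ≡ r [MOD Q] then Phi (n / Y) * ArithmeticFunction.vonMangoldt n else 0) *
          PRf E X f u v i a b n -
        (pc Y Q r) * (1 / ∏ j, (LL X * BE (E j))) *
          ∏ j : Fin K0, DD (f (u (i.succAbove j))) (f (v (i.succAbove j)))| ≤
      (pc Y Q r) * (1 / ∏ j, (LL X * BE (E j))) * (ε1 / ((A.card : ℝ) ^ 2 + 1)) +
        BVr K0 X Y Q P Bc := by
    intro i
    rw [Filter.eventually_all_finset]
    intro u hu
    rw [Filter.eventually_all_finset]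
    intro v hv
    exact S2_pair_g f c hsm hcs hf0 hc hf1 Cd hCd _ (by positivity) u v i (hA u hu) (hA v hv)
  rw [← Filter.eventually_all] at hev
  have hR : ∀ᶠ X : ℝ in atTop, 1 ≤ RR X ∧ (RR X : ℝ) < X := by
    filter_upwards [LL_tendsto.eventually_ge_atTop 1, eventually_gt_atTop 1] with X h1 h2
    have hlog : 0 < Real.log X := Real.log_pos h2
    constructor
    · unfold RR
      apply Nat.le_floor
      rw [Nat.cast_one]
      exact Real.one_le_exp (by linarith)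
    · unfold RR
      calc (⌊Real.exp (LL X)⌋₊ : ℝ) ≤ Real.exp (LL X) := Nat.floor_le (Real.exp_pos _).le
        _ < Real.exp (Real.log X) := by
            apply Real.exp_lt_exp.2
            unfold LL
            linarith
        _ = X := Real.exp_log (by linarith)
  filter_upwards [hev, hR, eventually_ge_atTop 4, LL_tendsto.eventually_ge_atTop 1] with X h1 h2 h4 h6
  intro i Y Em E W a0 P a b hGE hGE' hGF hW hEW hEP hb ha hY1 hY2 hcop Bc hBc
  have hXpos : 0 < X := by linarith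
  have har : (1 : ℝ) ≤ a i := by exact_mod_cast ha
  have hYX : X ≤ Y := by nlinarith
  have hQ : 0 < a i * W := Nat.mul_pos ha hW
  have hEQ : ∀ j, ∀ p : ℕ, p.Prime → p ∉ Ex E a b i j → ¬ p ∣ a i * W := by
    intro j p hp hpE hd
    have hpE' : p ∉ E (i.succAbove j) := fun h => hpE (mem_union_left _ h)
    rcases (Nat.Prime.dvd_mul hp).1 hd with h | h
    · exact hGF.ha i _ p hp hpE' h
    · exact hEW _ p hp hpE' h
  have hEP' : ∀ j, ∀ p : ℕ, p.Prime → p ∉ Ex E a b i j → ¬ p ∣ P := by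
    intro j p hp hpE hd
    exact hEP (i.succAbove j) p hp (fun h => hpE (mem_union_left _ h)) hd
  have hGH := GoodHf_Ex hGF i
  -- step 1 : restrict to the range and pass to primes
  have hstep : ∑ n ∈ (Icc 1 ⌊8 * X⌋₊).filter (fun n : ℕ => X ≤ a i * n + b i), cl W a0 n *
      (th (a i * n + b i) * Gf (Ex E a b i) X f A i a b (a i * n + b i)) ≤
      ∑ n ∈ Icc 1 ⌊8 * X⌋₊, cl W a0 n *
        (sqwf E X f A (fun j => (a j : ℤ) * n + b j) ^ 2 * th (a i * n + b i)) := by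
    rw [sum_filter]
    apply sum_le_sum
    intro n _
    have hcl0 := cl_nonneg W a0 n
    have hth0 := th_nonneg (a i * n + b i)
    split_ifs with hX
    · apply mul_le_mul_of_nonneg_left _ hcl0
      by_cases hp : (a i * n + b i).Prime
      · have hRn : RR X < a i * n + b i := by
          have h3 : (RR X : ℝ) < a i * n + b i := h2.2.trans_le hX
          exact_mod_cast h3
        rw [sqwf_at_prime E X f A i a b (hGF.ha i) (fun j => hGF.ha j j) n h2.1 hp hRn, mul_comm]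
      · have : th (a i * n + b i) = 0 := by
          unfold th
          rw [if_neg hp]
        rw [this, zero_mul, mul_zero]
    · positivity
  refine le_trans ?_ hstep
  refine le_trans ?_ (to_form X Y (by linarith) W a0 (a i) (b i) hW hb ha hY1 hY2 (Gf (Ex E a b i) X f A i a b)
    (Gf_nonneg (Ex E a b i) X f A i a b))
  -- step 2 : replace the primes by the von Mangoldt function
  set M1 := (pc Y (a i * W) (a i * a0 + b i)) * (1 / ∏ j, (LL X * BE (Ex E a b i j))) with hM1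
  set Er := Er3 K0 X Y (a i * W) P Bc with hEr
  set r := a i * a0 + b i with hr
  have hexch : ∑ n ∈ Icc 1 ⌊3 * Y⌋₊, (if n ≡ r [MOD (a i * W)] then Phi (n / Y) * th n else 0) *
      Gf (Ex E a b i) X f A i a b n =
      ∑ u ∈ A, ∑ v ∈ A, f (u i) 0 * f (v i) 0 *
        ∑ n ∈ Icc 1 ⌊3 * Y⌋₊, (if n ≡ r [MOD (a i * W)] then Phi (n / Y) * th n else 0) *
          PRf (Ex E a b i) X f u v i a b n := by
    have e1 : ∀ n ∈ Icc 1 ⌊3 * Y⌋₊, (if n ≡ r [MOD (a i * W)] then Phi (n / Y) * th n else 0) *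
      Gf (Ex E a b i) X f A i a b n = ∑ u ∈ A, ∑ v ∈ A, f (u i) 0 * f (v i) 0 *
        ((if n ≡ r [MOD (a i * W)] then Phi (n / Y) * th n else 0) * PRf (Ex E a b i) X f u v i a b n) := by
      intro n _
      unfold Gf
      rw [mul_sum]
      refine Finset.sum_congr rfl fun u _ => ?_
      rw [mul_sum]
      refine Finset.sum_congr rfl fun v _ => ?_
      ring
    rw [sum_congr rfl e1, Finset.sum_comm]
    refine Finset.sum_congr rfl fun u _ => ?_
    rw [Finset.sum_comm]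
    refine Finset.sum_congr rfl fun v _ => ?_
    rw [Finset.mul_sum]
  rw [hexch]
  have hpair : ∀ u ∈ A, ∀ v ∈ A, M1 * (f (u i) 0 * f (v i) 0 * ∏ j : Fin K0, DD (f (u (i.succAbove j))) (f (v (i.succAbove j)))) -
      (M1 * (ε1 / ((A.card : ℝ) ^ 2 + 1)) + Er) ≤ f (u i) 0 * f (v i) 0 *
        ∑ n ∈ Icc 1 ⌊3 * Y⌋₊, (if n ≡ r [MOD (a i * W)] then Phi (n / Y) * th n else 0) *
          PRf (Ex E a b i) X f u v i a b n := by
    intro u hu v hv
    have k1 := h1 i u hu v hv Y Em (Ex E a b i) (a i * W) P r a b (by linarith) hGE' hGH hQ hEQ hEP' hcop Bc hBc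
    have k2 : |f (u i) 0 * f (v i) 0| ≤ 1 := by
      rw [abs_mul]
      calc |f (u i) 0| * |f (v i) 0| ≤ 1 * 1 := mul_le_mul (hf1 _ _) (hf1 _ _) (abs_nonneg _) zero_le_one
        _ = 1 := one_mul 1
    -- the change from `Λ` to primes, as an absolute bound
    have k0 : |∑ n ∈ Icc 1 ⌊3 * Y⌋₊, (if n ≡ r [MOD (a i * W)] then Phi (n / Y) * th n else 0) *
          PRf (Ex E a b i) X f u v i a b n -
        ∑ n ∈ Icc 1 ⌊3 * Y⌋₊, (if n ≡ r [MOD (a i * W)] then Phi (n / Y) * ArithmeticFunction.vonMangoldt n else 0) *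
          PRf (Ex E a b i) X f u v i a b n| ≤ Real.exp (2 * LL X) * (2 * Real.sqrt (3 * Y) * Real.log (3 * Y)) := by
      have t1 := th_bound Y (by linarith) (a i * W) r (PRf (Ex E a b i) X f u v i a b) (Real.exp (2 * LL X))
        (fun n => PRf_abs (Ex E a b i) X (by linarith) f c hf0 hc hf1 u v i (hA u hu) (hA v hv) a b n)
      have t2 := th_bound Y (by linarith) (a i * W) r (fun n => - PRf (Ex E a b i) X f u v i a b n) (Real.exp (2 * LL X))
        (fun n => by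
          rw [abs_neg]
          exact PRf_abs (Ex E a b i) X (by linarith) f c hf0 hc hf1 u v i (hA u hu) (hA v hv) a b n)
      simp only [mul_neg, Finset.sum_neg_distrib] at t2
      rw [abs_le]
      constructor <;> linarith
    set U := ∑ n ∈ Icc 1 ⌊3 * Y⌋₊, (if n ≡ r [MOD (a i * W)] then Phi (n / Y) * th n else 0) *
          PRf (Ex E a b i) X f u v i a b n with hU
    set D := ∏ j : Fin K0, DD (f (u (i.succAbove j))) (f (v (i.succAbove j)))
    have k1' : |U - M1 * D| ≤ M1 * (ε1 / ((A.card : ℝ) ^ 2 + 1)) + Er := by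
      have k8 := abs_le.1 k0
      have k9 := abs_le.1 k1
      rw [hEr]
      unfold Er3
      rw [abs_le]
      constructor <;> linarith [k8.1, k8.2, k9.1, k9.2]
    have k3 : |f (u i) 0 * f (v i) 0 * (U - M1 * D)| ≤ M1 * (ε1 / ((A.card : ℝ) ^ 2 + 1)) + Er := by
      rw [abs_mul]
      calc |f (u i) 0 * f (v i) 0| * |U - M1 * D| ≤ 1 * (M1 * (ε1 / ((A.card : ℝ) ^ 2 + 1)) + Er) :=
            mul_le_mul k2 k1' (abs_nonneg _) zero_le_one
        _ = _ := one_mul _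
    have k4 := (abs_le.1 k3).1
    have k5 : f (u i) 0 * f (v i) 0 * (U - M1 * D) = f (u i) 0 * f (v i) 0 * U - M1 * (f (u i) 0 * f (v i) 0 * D) := by
      ring
    rw [k5] at k4
    linarith
  refine le_trans ?_ (Finset.sum_le_sum fun u hu => Finset.sum_le_sum fun v hv => hpair u hu v hv)
  simp_rw [Finset.sum_sub_distrib, ← Finset.mul_sum, Finset.sum_const, nsmul_eq_mul]
  have hfin : ((A.card : ℝ) * ((A.card : ℝ) * (ε1 / ((A.card : ℝ) ^ 2 + 1)))) ≤ ε1 := by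
    have : (A.card : ℝ) * ((A.card : ℝ) * (ε1 / ((A.card : ℝ) ^ 2 + 1))) =
        ((A.card : ℝ) ^ 2 / ((A.card : ℝ) ^ 2 + 1)) * ε1 := by ring
    rw [this]
    have h7 : (A.card : ℝ) ^ 2 / ((A.card : ℝ) ^ 2 + 1) ≤ 1 := by
      rw [div_le_one (by positivity)]; linarith
    nlinarith
  have hM1nn : 0 ≤ M1 := by
    rw [hM1]
    apply mul_nonneg
    · exact pc_nonneg Y _ _
    · apply one_div_nonneg.2
      apply prod_nonneg
      intro j _
      apply mul_nonneg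
      · linarith
      · exact (BE_pos (fun p hp => hGE'.pr p (hGE'.sub j hp))).le
  have hJ : JJ f A i = ∑ a ∈ A, ∑ b ∈ A, f (a i) 0 * f (b i) 0 * ∏ j : Fin K0, DD (f (a (i.succAbove j))) (f (b (i.succAbove j))) := rfl
  rw [← hJ]
  have := mul_le_mul_of_nonneg_left hfin hM1nn
  calc M1 * (JJ f A i - ε1) - (A.card : ℝ) ^ 2 * Er = M1 * JJ f A i - M1 * ε1 - (A.card : ℝ) ^ 2 * Er := by ring
    _ ≤ M1 * JJ f A i - M1 * ((A.card : ℝ) * ((A.card : ℝ) * (ε1 / ((A.card : ℝ) ^ 2 + 1)))) - (A.card : ℝ) ^ 2 * Er := by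
        linarith
    _ = _ := by ring

end Pool.Agent.H262R3.Lk
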