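import Mathlib
import Pool.Agent.H262R3.Lk.Sv3
import Pool.Agent.H262R2.UP.Core

open Finset Filter
open scoped ContDiff

/-! Many primes from a lower bound for each of the prime sums and a relative level of distribution. -/

namespace Pool.Agent.H262R3.Lk

open Pool.Agent.H378R2 Pool.Agent.H262R2.UM Pool.Agent.H262R2.UP

/-- the input of the sieve -/
structure SvOK (K0 : ℕ) (X Cd cc c0 : ℝ) (a b : Fin (K0 + 1) → ℕ) (W a0 P0 : ℕ) (Y : Fin (K0 + 1) → ℝ)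
    (Em : Finset ℕ) (E : Fin (K0 + 1) → Finset ℕ) : Prop where
  hab : ∀ i, 0 < a i ∧ b i ≤ a i
  haX : ∀ i, (a i : ℝ) ≤ X ^ (1 / 1000 : ℝ)
  hW : 0 < W
  hWX : (W : ℝ) ≤ X ^ (1 / 500 : ℝ)
  hGE : GoodEg X Cd Em E
  hGE' : ∀ i, GoodEg X Cd Em (Ex E a b i)
  hGF : GoodFf E a b
  hEW : ∀ j, ∀ p : ℕ, p.Prime → p ∉ E j → ¬ p ∣ W
  hEP : ∀ j, ∀ p : ℕ, p.Prime → p ∉ E j → ¬ p ∣ W * P0
  hY1 : ∀ i, (a i : ℝ) * X ≤ Y i
  hY2 : ∀ i, Real.exp 1 * Y i ≤ 8 * (a i * X)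
  hcop : ∀ i, (a i * a0 + b i).Coprime (a i * W)
  hBEP : c0 / Real.log (Real.log X) ≤ (W.totient : ℝ) / W
  hmain : ∀ i, cc * (X / W) * LL X * (1 / ∏ j, (LL X * BE (E j))) ≤
    pc (Y i) (a i * W) (a i * a0 + b i) * (1 / ∏ j, (LL X * BE (Ex E a b i j)))
  hBV : ∀ i, ∀ B : ℕ → ℕ, (∀ q, 1 ≤ q → (B q).Coprime (a i * W * q)) →
    ∑ q ∈ LSBV.QQ W P0 ⌊X ^ (1 / 100 : ℝ)⌋₊,
      (q.divisors.card : ℝ) ^ (2 * K0 + 4) * |ER (Y i) (a i * W) q (B q)| ≤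
    Y i / (((a i * W).totient : ℝ) * (Real.log X) ^ (2 * K0 + 4))

theorem Bc_exists' (Y : ℝ) (Q : ℕ) (hQ : 0 < Q) : ∃ Bc : ℕ → ℕ, (∀ q, 1 ≤ q → (Bc q).Coprime (Q * q)) ∧
    (∀ q, 1 ≤ q → ∀ b' : ℕ, b'.Coprime (Q * q) → |ER Y Q q b'| ≤ |ER Y Q q (Bc q)|) := by
  classical
  have h1 : ∀ q : ℕ, ∃ b : ℕ, 1 ≤ q → (b.Coprime (Q * q) ∧
      ∀ b' : ℕ, b'.Coprime (Q * q) → |ER Y Q q b'| ≤ |ER Y Q q b|) := by
    intro q
    by_cases hq : 1 ≤ q
    · have hQq : 0 < Q * q := Nat.mul_pos hQ hq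
      obtain ⟨b, hb, hmax⟩ := Finset.exists_max_image ((range (Q * q + 1)).filter (fun b => b.Coprime (Q * q)))
        (fun b => |ER Y Q q b|) ⟨1, by
          rw [mem_filter, mem_range]
          exact ⟨by omega, Nat.coprime_one_left _⟩⟩
      refine ⟨b, fun _ => ⟨(mem_filter.1 hb).2, fun b' hb' => ?_⟩⟩
      have hper : ER Y Q q b' = ER Y Q q (b' % (Q * q)) := by
        have e1 : pc Y (Q * q) b' = pc Y (Q * q) (b' % (Q * q)) := by
          unfold pc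
          congr 1
          ext n
          rw [mem_filter, mem_filter]
          have h2 : b' % (Q * q) ≡ b' [MOD (Q * q)] := Nat.mod_modEq _ _
          constructor
          · rintro ⟨h3, h4⟩
            exact ⟨h3, h4.trans h2.symm⟩
          · rintro ⟨h3, h4⟩
            exact ⟨h3, h4.trans h2⟩
        have e2 : pc Y Q b' = pc Y Q (b' % (Q * q)) := by
          unfold pc
          congr 1
          ext n
          rw [mem_filter, mem_filter]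
          have h2 : b' % (Q * q) ≡ b' [MOD Q] := (Nat.mod_modEq _ _).of_mul_right q
          constructor
          · rintro ⟨h3, h4⟩
            exact ⟨h3, h4.trans h2.symm⟩
          · rintro ⟨h3, h4⟩
            exact ⟨h3, h4.trans h2⟩
        unfold ER
        rw [e1, e2]
      rw [hper]
      apply hmax
      rw [mem_filter, mem_range]
      refine ⟨(Nat.mod_lt _ hQq).trans (Nat.lt_succ_self _), ?_⟩
      have : (b' % (Q * q)).gcd (Q * q) = b'.gcd (Q * q) := Nat.ModEq.gcd_eq (Nat.mod_modEq _ _)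
      rw [Nat.coprime_iff_gcd_eq_one, this]
      exact hb'
    · exact ⟨0, fun h => absurd h hq⟩
  choose Bc hBc using h1
  exact ⟨Bc, fun q hq => (hBc q hq).1, fun q hq => (hBc q hq).2⟩

theorem mu_lowL {K0 : ℕ} (X W L LX cc : ℝ) (e : Fin (K0 + 1) → ℝ) (hX : 0 < X) (hW : 0 < W) (he : ∀ j, 0 < e j)
    (he1 : ∀ j, e j ≤ 1) (hLX : 0 < LX) (hL : LX ≤ L) (hcc : 0 < cc) :
    X / (W * L ^ K0) ≤ (1 / cc) * (cc * (X / W) * LX * (1 / ∏ j, (LX * e j))) := by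
  have h3 : 0 < ∏ j, (LX * e j) := prod_pos fun j _ => mul_pos hLX (he j)
  have h4 : ∏ j, (LX * e j) ≤ LX ^ (K0 + 1) := by
    calc ∏ j, (LX * e j) ≤ ∏ _j : Fin (K0 + 1), LX := by
          apply Finset.prod_le_prod
          · intro j _
            exact (mul_pos hLX (he j)).le
          · intro j _
            have := he1 j
            nlinarith
      _ = LX ^ (K0 + 1) := by rw [prod_const, card_univ, Fintype.card_fin]
  have h5 : (1 / cc) * (cc * (X / W) * LX * (1 / ∏ j, (LX * e j))) =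
      (X / W) * (LX * (1 / ∏ j, (LX * e j))) := by
    generalize (1 / ∏ j, (LX * e j)) = t
    field_simp
  rw [h5]
  have hL0 : 0 < L := by linarith
  have h6 : 1 / L ^ K0 ≤ LX * (1 / ∏ j, (LX * e j)) := by
    rw [mul_one_div, div_le_div_iff₀ (by positivity) h3, one_mul]
    calc ∏ j, (LX * e j) ≤ LX ^ (K0 + 1) := h4
      _ = LX * LX ^ K0 := by rw [pow_succ]; ring
      _ ≤ LX * L ^ K0 := by
          apply mul_le_mul_of_nonneg_left _ hLX.le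
          exact pow_le_pow_left₀ hLX.le hL K0
  calc X / (W * L ^ K0) = (X / W) * (1 / L ^ K0) := by rw [div_mul_div_comm, mul_one]
    _ ≤ _ := mul_le_mul_of_nonneg_left h6 (by positivity)

theorem HmuL (X N8 W L LX Pr cc : ℝ) (hX : 0 < X) (hN : N8 ≤ 8 * X) (hW : 0 < W) (hPr : 0 < Pr)
    (hLX : 0 < LX) (hL : L = 200 * LX) (hcc : 0 < cc) :
    3 * L * ((N8 * (1 / W)) * (1 / Pr)) ≤ (4800 / cc) * (cc * (X / W) * LX * (1 / Pr)) := by
  have h5 : (4800 / cc) * (cc * (X / W) * LX * (1 / Pr)) = 4800 * (LX * (X / W)) * (1 / Pr) := by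
    field_simp
  rw [h5, hL]
  calc 3 * (200 * LX) * ((N8 * (1 / W)) * (1 / Pr)) ≤ 3 * (200 * LX) * (((8 * X) * (1 / W)) * (1 / Pr)) := by
        gcongr
    _ = _ := by ring

set_option maxHeartbeats 16000000 in
theorem coreL (m : ℕ) (cc c0 : ℝ) (hcc : 0 < cc) (hc0 : 0 < c0) : ∃ K0 : ℕ, ∀ Cd : ℝ, 0 ≤ Cd → ∀ᶠ X : ℝ in atTop,
    ∀ (a b : Fin (K0 + 1) → ℕ) (W a0 P0 : ℕ) (Y : Fin (K0 + 1) → ℝ) (Em : Finset ℕ) (E : Fin (K0 + 1) → Finset ℕ),
      SvOK K0 X Cd cc c0 a b W a0 P0 Y Em E →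
    ∃ n : ℕ, 1 ≤ n ∧ (n : ℝ) ≤ 8 * X ∧
      m ≤ #((univ : Finset (Fin (K0 + 1))).filter (fun i => (a i * n + b i).Prime)) := by
  have hc50 : 0 < 4800 / cc := by positivity
  obtain ⟨K0, B, f, c, A, hsm, hcs, hf0, hc, hA, hf1, hII, hM⟩ := family (2 * (4800 / cc) * m + 3)
  refine ⟨K0, fun Cd hCd0 => ?_⟩
  obtain ⟨Kr, hKr'⟩ : ∃ Kr : ℝ, Kr = ((K0 + 1 : ℕ) : ℝ) := ⟨_, rfl⟩
  have hKr : (1 : ℝ) ≤ Kr := by
    rw [hKr']; push_cast
    have : (0 : ℝ) ≤ K0 := Nat.cast_nonneg _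
    linarith
  have hKr0 : 0 < Kr := by linarith
  obtain ⟨IIv, hIIv⟩ : ∃ IIv : ℝ, IIv = II f A := ⟨_, rfl⟩
  rw [← hIIv] at hII hM
  obtain ⟨ε1, hε1⟩ : ∃ ε1 : ℝ, ε1 = IIv / Kr := ⟨_, rfl⟩
  have hε1pos : 0 < ε1 := by rw [hε1]; exact div_pos hII hKr0
  have hKε : Kr * ε1 ≤ IIv := by rw [hε1]; field_simp; exact le_rfl
  have hεII : ε1 ≤ IIv := by
    rw [hε1]
    exact div_le_self hII.le hKr
  obtain ⟨A2, hA2⟩ : ∃ A2 : ℝ, A2 = (A.card : ℝ) ^ 2 := ⟨_, rfl⟩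
  have hA20 : 0 ≤ A2 := by rw [hA2]; positivity
  -- constants for the errors
  have hCc10 : 0 ≤ A2 * Kr * (2 / cc) / IIv := by positivity
  have hCc20 : 0 ≤ 3 * m * A2 * (2 / cc) / IIv := by positivity
  filter_upwards [
    S1g f c A hsm hcs hf0 hc hA hf1 _ hCd0 ε1 hε1pos,
    S2g f c A hsm hcs hf0 hc hA hf1 _ hCd0 ε1 hε1pos,
    err_two K0 _ c0 hCc10 hc0, err_one K0 _ hCc20, LL_tendsto.eventually_ge_atTop 1,
    eventually_ge_atTop (256 : ℝ)] with X g6 g7 g8 g9 g10 g12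
  intro a b W a0 P0 Y EEm E hok
  have hX0 : 0 < X := by linarith
  have hX1 : 1 ≤ X := by linarith
  have hLL : LL X = Real.log X / 200 := rfl
  have hL200 : 200 ≤ Real.log X := by rw [hLL] at g10; linarith
  have hapos : ∀ i, 0 < a i := fun i => (hok.hab i).1
  have hWpos : 0 < W := hok.hW
  have hEp : ∀ j, ∀ p ∈ E j, p.Prime := fun j p hp => hok.hGE.pr p (hok.hGE.sub j hp)
  have hEp' : ∀ i j, ∀ p ∈ Ex E a b i j, p.Prime := fun i j p hp => (hok.hGE' i).pr p ((hok.hGE' i).sub j hp)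
  have hBE0 : ∀ j, 0 < BE (E j) := fun j => BE_pos (hEp j)
  have hBE1 : ∀ j, BE (E j) ≤ 1 := fun j => BE_le_one (hEp j)
  have hBE0' : ∀ i j, 0 < BE (Ex E a b i j) := fun i j => BE_pos (hEp' i j)
  have hWr : (0 : ℝ) < W := by exact_mod_cast hWpos
  have hLL0 : 0 < LL X := by linarith
  have hLB : 0 < ∏ j, (LL X * BE (E j)) := prod_pos fun j _ => mul_pos hLL0 (hBE0 j)
  have hLB' : ∀ i, 0 < ∏ j, (LL X * BE (Ex E a b i j)) := fun i => prod_pos fun j _ => mul_pos hLL0 (hBE0' i j)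
  have hXY : ∀ i, X ≤ Y i := by
    intro i
    have h1 : (1 : ℝ) ≤ a i := by exact_mod_cast hapos i
    have h2 := hok.hY1 i
    nlinarith
  have hφW : (W.totient : ℝ) = W * ((W.totient : ℝ) / W) := by field_simp
  obtain ⟨μ, hμ⟩ : ∃ μ : ℝ, μ = cc * (X / W) * LL X * (1 / ∏ j, (LL X * BE (E j))) := ⟨_, rfl⟩
  have hμ0 : 0 < μ := by
    rw [hμ]
    positivity
  have hμlow : X / (W * (Real.log X) ^ K0) ≤ (1 / cc) * μ := by
    rw [hμ]
    exact mu_lowL X W (Real.log X) (LL X) cc (fun j => BE (E j)) hX0 hWr hBE0 hBE1 hLL0 (by rw [hLL]; linarith) hcc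
  -- the sums
  choose Bc hBc1 hBc2 using fun i => Bc_exists' (Y i) (a i * W) (Nat.mul_pos (hapos i) hWpos)
  have hErle : ∀ i, A2 * Kr * Er3 K0 X (Y i) (a i * W) (W * P0) (Bc i) ≤ IIv * μ / 2 := by
    intro i
    have h1 := hok.hBV i (Bc i) (hBc1 i)
    have h2 := (BVr_le K0 X (Y i) (a i * W) W P0 (Bc i)).trans h1
    have h3 := g8 W (a i) (Y i) ((W.totient : ℝ) / W) _ hWpos hok.hWX (hapos i) (hok.haX i)
      (lt_of_lt_of_le hX0 (hXY i)) (hok.hY2 i) (hXY i) hok.hBEP hφW h2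
    have h5 : A2 * Kr * (2 / cc) / IIv * Er3 K0 X (Y i) (a i * W) (W * P0) (Bc i) ≤ (1 / cc) * μ :=
      h3.trans hμlow
    rw [div_mul_eq_mul_div, div_le_iff₀ hII] at h5
    have h6 : (1 / cc) * (2 * (A2 * Kr * Er3 K0 X (Y i) (a i * W) (W * P0) (Bc i))) ≤
        (1 / cc) * (μ * IIv) := by
      refine le_trans (le_of_eq ?_) (h5.trans (le_of_eq ?_)) <;> ring
    have h7 := le_of_mul_le_mul_left h6 (by positivity)
    linarith
  have He2 : 3 * Real.log X * m * (A2 * Real.exp (2 * LL X)) ≤ IIv * μ / 2 := by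
    have h5 := (g9 W hWpos hok.hWX).trans hμlow
    rw [div_mul_eq_mul_div, div_le_iff₀ hII] at h5
    have h6 : (1 / cc) * (2 * (3 * Real.log X * m * (A2 * Real.exp (2 * LL X)))) ≤
        (1 / cc) * (μ * IIv) := by
      refine le_trans (le_of_eq ?_) (h5.trans (le_of_eq ?_)) <;> ring
    have h7 := le_of_mul_le_mul_left h6 (by positivity)
    linarith
  have hN8 : (⌊8 * X⌋₊ : ℝ) ≤ 8 * X := Nat.floor_le (by linarith)
  have Hμ := HmuL X (⌊8 * X⌋₊ : ℝ) W (Real.log X) (LL X) _ cc hX0 hN8 hWr hLB hLL0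
    (by rw [hLL]; ring) hcc
  rw [← hμ] at Hμ
  have HS1 := g6 EEm E W a0 ⌊8 * X⌋₊ a b hok.hGE hok.hGF hWpos hok.hEW
  rw [← hIIv, ← hA2] at HS1
  obtain ⟨n, hn, hlt⟩ := pos_abs ⌊8 * X⌋₊
    (fun n => cl W a0 n * sqwf E X f A (fun j => (a j : ℤ) * n + b j) ^ 2)
    (fun n => mul_nonneg (cl_nonneg _ _ _) (sq_nonneg _))
    (fun i n => th (a i * n + b i)) (fun i n => th_nonneg _) Kr hKr' μ IIv ε1 m (4800 / cc) A2 (Real.log X)
    (Real.exp (2 * LL X)) _ (JJ f A) (fun i => Er3 K0 X (Y i) (a i * W) (W * P0) (Bc i))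
    (fun i => (pc (Y i) (a i * W) (a i * a0 + b i)) *
      (1 / ∏ j, (LL X * BE (Ex E a b i j))))
    hμ0 hII (Nat.cast_nonneg m) (by linarith) hc50.le hA20 hKε hεII hε1pos.le
    (fun i => by
      rw [hμ]
      exact hok.hmain i)
    (fun i => Er3_nonneg K0 X _ _ _ _ (hX1.trans (hXY i)))
    (fun i => by
      have h1 := g7 i (Y i) EEm E W a0 (W * P0) a b hok.hGE (hok.hGE' i) hok.hGF hWpos hok.hEW hok.hEP (hok.hab i).2
        (hapos i) (hok.hY1 i) (hok.hY2 i) (hok.hcop i) (Bc i) (hBc2 i)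
      rw [← hA2] at h1
      refine h1.trans (le_of_eq ?_)
      refine sum_congr rfl fun n _ => ?_
      ring)
    HS1 Hμ hM hErle He2
  rw [mem_Icc] at hn
  have hn8 : (n : ℝ) ≤ 8 * X := by
    have : (n : ℝ) ≤ ⌊8 * X⌋₊ := by exact_mod_cast hn.2
    linarith
  refine ⟨n, hn.1, hn8, ?_⟩
  exact primes_of_sum (fun i => a i * n + b i) (3 * Real.log X) (by linarith)
    (fun i => log_form X (by linarith) (a i) (b i) n (hok.haX i) (hok.hab i).2 hn8) m hlt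

end Pool.Agent.H262R3.Lk
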