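import Mathlib
import Pool.Agent.H262R3.Lk.Rel1
import Pool.Agent.H262R2.UM.BV3

/-! Bombieri-Vinogradov relative to an arbitrary progression, for moduli without small prime factors. -/

open Finset Filter Topology

namespace Pool.Agent.H262R3.Lk

open Pool.Agent.H378R2 Pool.Agent.H378R2.LSBV Pool.Agent.H398R2.BV Pool.Agent.Helper112 Pool.Agent.H262R2.UM

theorem lt_of_rough {q z P0 : ℕ} (hq : q ≠ 1) (hq0 : q ≠ 0) (hc : q.Coprime P0)
    (hz : ∀ p : ℕ, p.Prime → p ≤ z → p ∣ P0) : z < q := by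
  by_contra h
  have h1 : q.minFac.Prime := Nat.minFac_prime hq
  have h2 : q.minFac ≤ q := Nat.minFac_le (by omega)
  have h3 := hz _ h1 (by omega)
  have h4 : q.minFac ∣ 1 := by
    have := Nat.dvd_gcd (Nat.minFac_dvd q) h3
    rwa [hc] at this
  exact h1.one_lt.ne' (Nat.dvd_one.1 h4)

/-- algebraic form: no exceptional characters, everything is a large sieve bound -/
theorem rel_main (A : ℕ) (Y M C5 Cw S E3 : ℝ) (hY : 1 ≤ Y) (hC5 : 0 < C5)
    (hwt : ∀ b : ℕ, 1 ≤ b → LSBV.wt A b ≤ C5 / Real.sqrt b)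
    (a W P0 R F z : ℕ) (ha : 1 ≤ a) (hW : 1 ≤ W) (haP : a ∣ P0)
    (hz : ∀ p : ℕ, p.Prime → p ≤ z → p ∣ P0) (hz0 : 1 ≤ z) (hS : S = Real.sqrt z)
    (hF : a * W * R ≤ F) (hall : ∑ f ∈ Icc 2 F, TT Y f ≤ M)
    (hsumwt : ∑ e ∈ Icc 1 R, LSBV.wt A e ≤ Cw)
    (h3 : ∑ q ∈ QQ W P0 R, (q.divisors.card : ℝ) ^ A * (2 * ((a * W * q).primeFactors.card * Real.log (3 * Y))) ≤ E3)
    (b : ℕ → ℕ) (hb : ∀ q, 1 ≤ q → (b q).Coprime (a * W * q)) :
    ∑ q ∈ QQ W P0 R, (q.divisors.card : ℝ) ^ A * |ER Y (a * W) q (b q)| ≤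
      (1 / ((a * W).totient : ℝ)) * (Cw * (C5 / S * M)) + E3 := by
  classical
  set Q := a * W with hQ
  have hQ1 : 1 ≤ Q := Nat.mul_pos ha hW
  have hQQ : QQ W P0 R ⊆ QQ Q P0 R := by
    intro q hq
    rw [mem_QQ] at hq ⊢
    refine ⟨hq.1, hq.2.1, ?_⟩
    have h1 : q.Coprime P0 := Nat.Coprime.coprime_mul_left_right hq.2.2
    have h2 : q.Coprime a := h1.coprime_dvd_right haP
    have h4 : q.Coprime W := Nat.Coprime.coprime_mul_right_right hq.2.2
    exact Nat.Coprime.mul_right (Nat.Coprime.mul_right h2 h4) h1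
  -- truncated T
  set T' : ℕ → ℝ := fun f => if f ∣ Q then 0 else TT Y f with hT'
  have hT'0 : ∀ f, 0 ≤ T' f := by
    intro f
    rw [hT']
    simp only
    split_ifs
    · exact le_rfl
    · exact TT_nonneg Y f
  have hT'le : ∀ f, T' f ≤ TT Y f := by
    intro f
    rw [hT']
    simp only
    split_ifs
    · exact TT_nonneg Y f
    · exact le_rfl
  have h4 : ∀ q ∈ QQ W P0 R, (q.divisors.card : ℝ) ^ A * |ER Y Q q (b q)| ≤
      (q.divisors.card : ℝ) ^ A * ((1 / (Nat.totient (Q * q) : ℝ)) *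
        ∑ f ∈ (Q * q).divisors.filter (fun f => f ≠ 1), T' f) +
      (q.divisors.card : ℝ) ^ A * (2 * ((Q * q).primeFactors.card * Real.log (3 * Y))) := by
    intro q hq
    have hq' := hQQ hq
    rw [mem_QQ] at hq'
    have hqQ : Q.Coprime q := (Nat.Coprime.coprime_mul_right_right hq'.2.2).symm
    rw [← mul_add]
    apply mul_le_mul_of_nonneg_left _ (by positivity)
    refine (ER_le Y hY Q q (b q) hQ1 hq'.1.1 hqQ (hb q hq'.1.1)).trans (le_of_eq ?_)
    congr 2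
    rw [sum_filter, sum_filter]
    apply sum_congr rfl
    intro f _
    rw [hT']
    simp only
    by_cases hf1 : f = 1
    · subst hf1; simp
    · by_cases hfQ : f ∣ Q
      · simp [hfQ]
      · simp [hfQ, hf1]
  have h5 : ∑ q ∈ QQ W P0 R, (q.divisors.card : ℝ) ^ A * ((1 / (Nat.totient (Q * q) : ℝ)) *
        ∑ f ∈ (Q * q).divisors.filter (fun f => f ≠ 1), T' f) ≤
      (1 / (Q.totient : ℝ)) * (Cw * (C5 / S * M)) := by
    have h6 : ∑ q ∈ QQ W P0 R, (q.divisors.card : ℝ) ^ A * ((1 / (Nat.totient (Q * q) : ℝ)) *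
        ∑ f ∈ (Q * q).divisors.filter (fun f => f ≠ 1), T' f) ≤
        ∑ q ∈ QQ Q P0 R, (q.divisors.card : ℝ) ^ A * ((1 / (Nat.totient (Q * q) : ℝ)) *
        ∑ f ∈ (Q * q).divisors.filter (fun f => f ≠ 1), T' f) := by
      apply sum_le_sum_of_subset_of_nonneg hQQ
      intro q _ _
      exact mul_nonneg (by positivity) (mul_nonneg (by positivity) (sum_nonneg fun f _ => hT'0 f))
    refine h6.trans ((main_swap A T' hT'0 Q P0 R hQ1).trans ?_)
    apply mul_le_mul_of_nonneg_left _ (by positivity)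
    have h7 : 0 ≤ ∑ e ∈ Icc 1 R, LSBV.wt A e := sum_nonneg fun e _ => wt_nonneg A e
    have hS0 : 0 < S := by rw [hS]; apply Real.sqrt_pos.2; exact_mod_cast hz0
    apply mul_le_mul hsumwt _ (sum_nonneg fun p _ => mul_nonneg (wt_nonneg A _) (hT'0 _)) (h7.trans hsumwt)
    have h8 : ∀ p ∈ (Q.divisors ×ˢ QQ Q P0 R).filter (fun p => p.1 * p.2 ≠ 1),
        LSBV.wt A p.2 * T' (p.1 * p.2) ≤ (if p.2 ≠ 1 then (C5 / S) * T' (p.1 * p.2) else 0) := by
      intro p hp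
      rw [mem_filter, mem_product, Nat.mem_divisors, mem_QQ] at hp
      split_ifs with h1
      · apply mul_le_mul_of_nonneg_right _ (hT'0 _)
        have hcp : p.2.Coprime P0 := Nat.Coprime.coprime_mul_left_right hp.1.2.2.2
        have h9 := lt_of_rough h1 (by omega) hcp hz
        refine (hwt p.2 hp.1.2.1.1).trans ?_
        rw [hS]
        apply div_le_div_of_nonneg_left hC5.le (Real.sqrt_pos.2 (by exact_mod_cast hz0))
        apply Real.sqrt_le_sqrt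
        exact_mod_cast h9.le
      · rw [not_not] at h1
        rw [h1, mul_one]
        have : T' p.1 = 0 := by rw [hT']; simp only; rw [if_pos hp.1.1.1]
        rw [this, mul_zero]
    refine (sum_le_sum h8).trans ?_
    rw [← sum_filter, ← mul_sum]
    apply mul_le_mul_of_nonneg_left _ (by positivity)
    refine le_trans ?_ hall
    refine (sum_le_sum fun p _ => hT'le (p.1 * p.2)).trans ?_
    apply pair_inj (TT Y) (TT_nonneg Y) Q P0 R
    · intro p hp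
      rw [mem_filter, mem_filter] at hp
      exact hp.1.1
    · intro p hp
      rw [mem_filter, mem_filter, mem_product, Nat.mem_divisors, mem_QQ] at hp
      rw [mem_Icc]
      have h1 : 1 ≤ p.1 := Nat.pos_of_dvd_of_pos hp.1.1.1.1 hQ1
      have h2 : p.1 ≤ Q := Nat.le_of_dvd hQ1 hp.1.1.1.1
      have h3' := hp.1.1.2.1
      refine ⟨?_, (Nat.mul_le_mul h2 h3'.2).trans hF⟩
      have h9 : 1 ≤ p.1 * p.2 := Nat.mul_pos h1 h3'.1
      have := hp.1.2
      omega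
  calc ∑ q ∈ QQ W P0 R, (q.divisors.card : ℝ) ^ A * |ER Y Q q (b q)| ≤
      ∑ q ∈ QQ W P0 R, ((q.divisors.card : ℝ) ^ A * ((1 / (Nat.totient (Q * q) : ℝ)) *
        ∑ f ∈ (Q * q).divisors.filter (fun f => f ≠ 1), T' f) +
      (q.divisors.card : ℝ) ^ A * (2 * ((Q * q).primeFactors.card * Real.log (3 * Y)))) := sum_le_sum h4
    _ ≤ _ := by
        rw [sum_add_distrib]
        exact add_le_add h5 h3

theorem relbv (A : ℕ) : ∃ C1 : ℕ, ∀ᶠ X : ℝ in atTop, ∀ (Y : ℝ) (a W P0 : ℕ), X ≤ Y → Y ≤ X ^ 2 → 1 ≤ a →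
    (a : ℝ) ≤ X ^ (1 / 1000 : ℝ) → 1 ≤ W → (W : ℝ) ≤ X ^ (1 / 500 : ℝ) → a ∣ P0 →
    (∀ p : ℕ, p.Prime → p ≤ ⌊(Real.log X) ^ C1⌋₊ → p ∣ P0) →
    ∀ b : ℕ → ℕ, (∀ q, 1 ≤ q → (b q).Coprime (a * W * q)) →
      ∑ q ∈ QQ W P0 ⌊X ^ (1 / 100 : ℝ)⌋₊,
        (q.divisors.card : ℝ) ^ A * |ER Y (a * W) q (b q)|
        ≤ Y / (((a * W).totient : ℝ) * (Real.log X) ^ A) := by
  classical
  set Kw := 2 ^ (A + 1) with hKw
  refine ⟨2 * (Kw + A + 10), ?_⟩
  obtain ⟨C0, X1, hls⟩ := ls_sum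
  set C1 := max C0 1 with hC1
  have hC1p : 1 ≤ C1 := le_max_right _ _
  obtain ⟨C5, hC5, hwt⟩ := wt_le A
  have hlog : Tendsto Real.log atTop atTop := Real.tendsto_log_atTop
  filter_upwards [triv_err A C5 hC5 hwt, eventually_ge_atTop X1, eventually_ge_atTop (4:ℝ),
    hlog.eventually_ge_atTop (2 ^ Kw * (2 * C5) * (512 * C1)), hlog.eventually_ge_atTop 2] with X h1 h2 h3 h5 h6
  intro Y a W P0 hXY hYX ha haX hW hWX haP hz b hb
  have hX0 : 0 < X := by linarith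
  have hX1 : 1 ≤ X := by linarith
  have hY0 : 0 < Y := by linarith
  set L := Real.log X with hL
  have hL0 : 0 < L := by linarith
  set z := ⌊L ^ (2 * (Kw + A + 10))⌋₊ with hzdef
  have hz1 : 1 ≤ z := by
    apply Nat.le_floor
    rw [Nat.cast_one]
    exact one_le_pow₀ (by linarith)
  set R := ⌊X ^ (1 / 100 : ℝ)⌋₊ with hR
  set F : ℕ := ⌊Y ^ (1 / 50 : ℝ)⌋₊ with hF
  set M : ℝ := 256 * C1 * Y * L ^ 8 with hM
  have hRle : (R : ℝ) ≤ X ^ (1 / 100 : ℝ) := Nat.floor_le (by positivity)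
  have hFle : a * W * R ≤ F := by
    apply Nat.le_floor
    push_cast
    calc (a : ℝ) * W * R ≤ X ^ (1 / 1000 : ℝ) * X ^ (1 / 500 : ℝ) * X ^ (1 / 100 : ℝ) := by
          gcongr
      _ = X ^ (1 / 1000 + 1 / 500 + 1 / 100 : ℝ) := by
          rw [Real.rpow_add hX0, Real.rpow_add hX0]
      _ ≤ X ^ (1 / 50 : ℝ) := Real.rpow_le_rpow_of_exponent_le hX1 (by norm_num)
      _ ≤ Y ^ (1 / 50 : ℝ) := Real.rpow_le_rpow hX0.le hXY (by norm_num)
  have hall : ∑ f ∈ Icc 2 F, TT Y f ≤ M := by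
    have h7 : ∑ f ∈ Icc 2 F, TT Y f ≤ C0 * Y * (Real.log Y) ^ 8 := hls Y (h2.trans hXY)
    refine h7.trans ?_
    have e1 : M = C1 * Y * (2 * L) ^ 8 := by
      rw [hM]; ring
    rw [e1]
    have h8 : C0 ≤ C1 := le_max_left _ _
    have h9 : Real.log Y ≤ 2 * L := by
      have := Real.log_le_log hY0 hYX
      rw [Real.log_pow] at this
      exact_mod_cast this
    have h10 : 0 ≤ Real.log Y := Real.log_nonneg (hX1.trans hXY)
    calc C0 * Y * (Real.log Y) ^ 8 ≤ C1 * Y * (Real.log Y) ^ 8 := by gcongr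
      _ ≤ C1 * Y * (2 * L) ^ 8 := by gcongr
  have hRX : (R:ℝ) ≤ X := by
    refine hRle.trans ?_
    calc X ^ (1 / 100 : ℝ) ≤ X ^ (1:ℝ) := Real.rpow_le_rpow_of_exponent_le hX1 (by norm_num)
      _ = X := Real.rpow_one X
  have hsumwt : ∑ e ∈ Icc 1 R, LSBV.wt A e ≤ 2 ^ Kw * L ^ Kw := by
    refine (sum_wt A R).trans ?_
    rw [← hKw, ← mul_pow]
    have h7 := log_natCast_le R X hX1 hRX
    have h8 := Real.log_natCast_nonneg R
    apply pow_le_pow_left₀ (by linarith)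
    linarith
  have h3' := h1 Y a P0 W hXY hYX ha haX hW hWX
  have hfin := rel_main A Y M C5 (2 ^ Kw * L ^ Kw) (Real.sqrt z) _ (hX1.trans hXY) hC5 hwt a W P0 R F z
    ha hW haP hz hz1 rfl hFle hall hsumwt h3' b hb
  refine hfin.trans ?_
  have hφ : (0 : ℝ) < (a * W).totient := by
    exact_mod_cast Nat.totient_pos.2 (Nat.mul_pos ha hW)
  -- lower bound of sqrt z
  have hsq : L ^ (Kw + A + 10) / 2 ≤ Real.sqrt z := by
    apply Real.le_sqrt_of_sq_le
    have h7 : L ^ (2 * (Kw + A + 10)) - 1 ≤ z := by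
      have := Nat.sub_one_lt_floor (L ^ (2 * (Kw + A + 10)))
      linarith
    have h8 : (L ^ (Kw + A + 10)) ^ 2 = L ^ (2 * (Kw + A + 10)) := by
      rw [← pow_mul, mul_comm]
    have h9 : 2 ≤ L ^ (2 * (Kw + A + 10)) := by
      calc (2:ℝ) ≤ L := h6
        _ = L ^ 1 := (pow_one L).symm
        _ ≤ L ^ (2 * (Kw + A + 10)) := pow_le_pow_right₀ (by linarith) (Nat.succ_le_of_lt (by positivity))
    have h10 : (L ^ (Kw + A + 10) / 2) ^ 2 = L ^ (2 * (Kw + A + 10)) / 4 := by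
      rw [div_pow, h8]; norm_num
    rw [h10]
    linarith
  have hlast : (1 / ((a * W).totient : ℝ)) * (2 ^ Kw * L ^ Kw * (C5 / Real.sqrt z * M)) ≤
      (1 / 2) * (Y / (((a * W).totient : ℝ) * L ^ A)) := by
    have h7 : C5 / Real.sqrt z ≤ C5 / (L ^ (Kw + A + 10) / 2) :=
      div_le_div_of_nonneg_left hC5.le (by positivity) hsq
    have e1 : (1 / ((a * W).totient : ℝ)) * (2 ^ Kw * L ^ Kw * (C5 / (L ^ (Kw + A + 10) / 2) * M)) =
        (1 / 2) * ((2 ^ Kw * (2 * C5) * (512 * C1)) / L ^ 2) *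
          (Y / (((a * W).totient : ℝ) * L ^ A)) := by
      have e2 : L ^ (Kw + A + 10) = L ^ Kw * L ^ A * L ^ 8 * L ^ 2 := by
        rw [← pow_add, ← pow_add, ← pow_add]
      rw [hM, e2]
      have e3 : L ^ Kw ≠ 0 := by positivity
      have e4 : L ^ A ≠ 0 := by positivity
      have e5 : L ^ 8 ≠ 0 := by positivity
      field_simp
      ring
    calc (1 / ((a * W).totient : ℝ)) * (2 ^ Kw * L ^ Kw * (C5 / Real.sqrt z * M)) ≤
        (1 / ((a * W).totient : ℝ)) * (2 ^ Kw * L ^ Kw * (C5 / (L ^ (Kw + A + 10) / 2) * M)) := by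
          gcongr
      _ = _ := e1
      _ ≤ (1 / 2) * 1 * (Y / (((a * W).totient : ℝ) * L ^ A)) := by
          gcongr
          rw [div_le_one (by positivity)]
          calc 2 ^ Kw * (2 * C5) * (512 * C1) ≤ L := h5
            _ ≤ L ^ 2 := by nlinarith
      _ = _ := by ring
  have : Y / (((a * W).totient : ℝ) * L ^ A) = (1 / 2) * (Y / (((a * W).totient : ℝ) * L ^ A)) +
      (1 / 2) * (Y / (((a * W).totient : ℝ) * L ^ A)) := by ring
  rw [this]
  linarith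

end Pool.Agent.H262R3.Lk
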