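import Mathlib
import Pool.Agent.H262R3.Lk.Rel2
import Pool.Agent.H262R3.Lk.Stubs3

/-! Bombieri-Vinogradov relative to an arbitrary progression, for moduli coprime to the bad conductors. -/

open Finset Filter Topology

namespace Pool.Agent.H262R3.Lk

open Pool.Agent.H378R2 Pool.Agent.H378R2.LSBV Pool.Agent.H398R2.BV Pool.Agent.Helper112 Pool.Agent.H262R2.UM
open Pool.Agent.H410R2 (psiLog)

open Classical in
/-- the bad conductors -/
noncomputable def Bf (Q0 : ℕ) : Finset ℕ :=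
  (Icc 2 Q0).filter (fun f => ∃ χ : DirichletCharacter ℂ f, χ.IsPrimitive ∧ HZ χ (ez Q0) ((Q0 : ℝ) ^ 3))

open Classical in
/-- algebraic form -/
theorem rel_main2 (A : ℕ) (Y M M1 C5 Cw S E3 : ℝ) (hY : 1 ≤ Y) (hC5 : 0 < C5) 
    (hwt : ∀ b : ℕ, 1 ≤ b → LSBV.wt A b ≤ C5 / Real.sqrt b)
    (a W P0 R F Q0 : ℕ) (ha : 1 ≤ a) (hW : 1 ≤ W) (haP : a ∣ P0)
    (hbad : ∀ f ∈ Bf Q0, ∀ p : ℕ, p.Prime → p ∣ f → p ∣ P0) (hS0 : 0 < S)
    (hS : ∀ u : ℕ, Q0 < a * W * u → S ≤ Real.sqrt u)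
    (hF : a * W * R ≤ F) (hall : ∑ f ∈ Icc 2 F, TT Y f ≤ M)
    (hgood : ∑ f ∈ (Icc 2 Q0).filter (fun f => f ∉ Bf Q0), TT Y f ≤ M1)
    (hsumwt : ∑ e ∈ Icc 1 R, LSBV.wt A e ≤ Cw)
    (h3 : ∑ q ∈ QQ W P0 R, (q.divisors.card : ℝ) ^ A * (2 * ((a * W * q).primeFactors.card * Real.log (3 * Y))) ≤ E3)
    (b : ℕ → ℕ) (hb : ∀ q, 1 ≤ q → (b q).Coprime (a * W * q)) :
    ∑ q ∈ QQ W P0 R, (q.divisors.card : ℝ) ^ A * |ER Y (a * W) q (b q)| ≤
      (1 / ((a * W).totient : ℝ)) * (Cw * (C5 * M1 + C5 / S * M)) + E3 := by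
  set Q := a * W with hQ
  have hQ1 : 1 ≤ Q := Nat.mul_pos ha hW
  have hQQ : QQ W P0 R ⊆ QQ Q P0 R := by
    intro q hq
    rw [mem_QQ] at hq ⊢
    refine ⟨hq.1, hq.2.1, ?_⟩
    have h1 : q.Coprime P0 := Nat.Coprime.coprime_mul_left_right hq.2.2
    have h2 : q.Coprime a := h1.coprime_dvd_right haP
    have h4 : q.Coprime W := Nat.Coprime.coprime_mul_right_right hq.2.2
    exact Nat.Coprime.mul_right (Nat.Coprime.mul_right h2 h4) h1
  -- truncated T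
  set T' : ℕ → ℝ := fun f => if f ∣ Q then 0 else TT Y f with hT'
  have hT'0 : ∀ f, 0 ≤ T' f := by
    intro f
    rw [hT']
    simp only
    split_ifs
    · exact le_rfl
    · exact TT_nonneg Y f
  have hT'le : ∀ f, T' f ≤ TT Y f := by
    intro f
    rw [hT']
    simp only
    split_ifs
    · exact TT_nonneg Y f
    · exact le_rfl
  set T1 : ℕ → ℝ := fun f => if f ≤ Q0 ∧ f ∉ Bf Q0 then TT Y f else 0 with hT1
  have hT10 : ∀ f, 0 ≤ T1 f := by
    intro f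
    rw [hT1]
    simp only
    split_ifs
    · exact TT_nonneg Y f
    · exact le_rfl
  have h4 : ∀ q ∈ QQ W P0 R, (q.divisors.card : ℝ) ^ A * |ER Y Q q (b q)| ≤
      (q.divisors.card : ℝ) ^ A * ((1 / (Nat.totient (Q * q) : ℝ)) *
        ∑ f ∈ (Q * q).divisors.filter (fun f => f ≠ 1), T' f) +
      (q.divisors.card : ℝ) ^ A * (2 * ((Q * q).primeFactors.card * Real.log (3 * Y))) := by
    intro q hq
    have hq' := hQQ hq
    rw [mem_QQ] at hq'
    have hqQ : Q.Coprime q := (Nat.Coprime.coprime_mul_right_right hq'.2.2).symm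
    rw [← mul_add]
    apply mul_le_mul_of_nonneg_left _ (by positivity)
    refine (ER_le Y hY Q q (b q) hQ1 hq'.1.1 hqQ (hb q hq'.1.1)).trans (le_of_eq ?_)
    congr 2
    rw [sum_filter, sum_filter]
    apply sum_congr rfl
    intro f _
    rw [hT']
    simp only
    by_cases hf1 : f = 1
    · subst hf1; simp
    · by_cases hfQ : f ∣ Q
      · simp [hfQ]
      · simp [hfQ, hf1]
  have h5 : ∑ q ∈ QQ W P0 R, (q.divisors.card : ℝ) ^ A * ((1 / (Nat.totient (Q * q) : ℝ)) *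
        ∑ f ∈ (Q * q).divisors.filter (fun f => f ≠ 1), T' f) ≤
      (1 / (Q.totient : ℝ)) * (Cw * (C5 * M1 + C5 / S * M)) := by
    have h6 : ∑ q ∈ QQ W P0 R, (q.divisors.card : ℝ) ^ A * ((1 / (Nat.totient (Q * q) : ℝ)) *
        ∑ f ∈ (Q * q).divisors.filter (fun f => f ≠ 1), T' f) ≤
        ∑ q ∈ QQ Q P0 R, (q.divisors.card : ℝ) ^ A * ((1 / (Nat.totient (Q * q) : ℝ)) *
        ∑ f ∈ (Q * q).divisors.filter (fun f => f ≠ 1), T' f) := by
      apply sum_le_sum_of_subset_of_nonneg hQQ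
      intro q _ _
      exact mul_nonneg (by positivity) (mul_nonneg (by positivity) (sum_nonneg fun f _ => hT'0 f))
    refine h6.trans ((main_swap A T' hT'0 Q P0 R hQ1).trans ?_)
    apply mul_le_mul_of_nonneg_left _ (by positivity)
    have h7 : 0 ≤ ∑ e ∈ Icc 1 R, LSBV.wt A e := sum_nonneg fun e _ => wt_nonneg A e
    apply mul_le_mul hsumwt _ (sum_nonneg fun p _ => mul_nonneg (wt_nonneg A _) (hT'0 _)) (h7.trans hsumwt)
    have h8 : ∀ p ∈ (Q.divisors ×ˢ QQ Q P0 R).filter (fun p => p.1 * p.2 ≠ 1),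
        LSBV.wt A p.2 * T' (p.1 * p.2) ≤ (if p.2 ≠ 1 then C5 * T1 (p.1 * p.2) + (C5 / S) * TT Y (p.1 * p.2) else 0) := by
      intro p hp
      rw [mem_filter, mem_product, Nat.mem_divisors, mem_QQ] at hp
      split_ifs with h1
      · have hcp : p.2.Coprime P0 := Nat.Coprime.coprime_mul_left_right hp.1.2.2.2
        have hTT := TT_nonneg Y (p.1 * p.2)
        have hp21 : 1 ≤ p.2 := hp.1.2.1.1
        rcases Nat.lt_or_ge Q0 (p.1 * p.2) with hlt | hge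
        · have h10 : Q0 < Q * p.2 :=
            lt_of_lt_of_le hlt (Nat.mul_le_mul_right _ (Nat.le_of_dvd hQ1 hp.1.1.1))
          have h11 := hS p.2 h10
          have h12 : LSBV.wt A p.2 ≤ C5 / S :=
            (hwt p.2 hp21).trans (div_le_div_of_nonneg_left hC5.le hS0 h11)
          calc LSBV.wt A p.2 * T' (p.1 * p.2) ≤ (C5 / S) * TT Y (p.1 * p.2) :=
                mul_le_mul h12 (hT'le _) (hT'0 _) (by positivity)
            _ ≤ _ := by
                have := mul_nonneg hC5.le (hT10 (p.1 * p.2))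
                linarith
        · have h13 : p.1 * p.2 ∉ Bf Q0 := by
            intro hB
            have h14 : p.2.minFac.Prime := Nat.minFac_prime h1
            have h15 := hbad _ hB p.2.minFac h14 ((Nat.minFac_dvd p.2).trans (dvd_mul_left _ _))
            have h16 : p.2.minFac ∣ 1 := by
              have := Nat.dvd_gcd (Nat.minFac_dvd p.2) h15
              rwa [hcp] at this
            exact h14.one_lt.ne' (Nat.dvd_one.1 h16)
          have h17 : T1 (p.1 * p.2) = TT Y (p.1 * p.2) := by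
            rw [hT1]
            simp only
            rw [if_pos ⟨hge, h13⟩]
          rw [h17]
          have h18 : LSBV.wt A p.2 ≤ C5 := by
            refine (hwt p.2 hp21).trans ?_
            apply div_le_self hC5.le
            rw [Real.one_le_sqrt]
            exact_mod_cast hp21
          calc LSBV.wt A p.2 * T' (p.1 * p.2) ≤ C5 * TT Y (p.1 * p.2) :=
                mul_le_mul h18 (hT'le _) (hT'0 _) hC5.le
            _ ≤ _ := by
                have : 0 ≤ C5 / S * TT Y (p.1 * p.2) := mul_nonneg (by positivity) hTT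
                linarith
      · rw [not_not] at h1
        rw [h1, mul_one]
        have : T' p.1 = 0 := by rw [hT']; simp only; rw [if_pos hp.1.1.1]
        rw [this, mul_zero]
    refine (sum_le_sum h8).trans ?_
    rw [← sum_filter, sum_add_distrib, ← mul_sum, ← mul_sum]
    have hsub : (filter (fun p : ℕ × ℕ => p.2 ≠ 1) ((Q.divisors ×ˢ QQ Q P0 R).filter (fun p => p.1 * p.2 ≠ 1))) ⊆
        Q.divisors ×ˢ QQ Q P0 R := by
      intro p hp
      rw [mem_filter, mem_filter] at hp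
      exact hp.1.1
    have hmap : ∀ p ∈ (filter (fun p : ℕ × ℕ => p.2 ≠ 1) ((Q.divisors ×ˢ QQ Q P0 R).filter (fun p => p.1 * p.2 ≠ 1))),
        p.1 * p.2 ∈ Icc 2 F := by
      intro p hp
      rw [mem_filter, mem_filter, mem_product, Nat.mem_divisors, mem_QQ] at hp
      rw [mem_Icc]
      have h1 : 1 ≤ p.1 := Nat.pos_of_dvd_of_pos hp.1.1.1.1 hQ1
      have h2 : p.1 ≤ Q := Nat.le_of_dvd hQ1 hp.1.1.1.1
      have h3' := hp.1.1.2.1
      refine ⟨?_, (Nat.mul_le_mul h2 h3'.2).trans hF⟩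
      have h9 : 1 ≤ p.1 * p.2 := Nat.mul_pos h1 h3'.1
      have := hp.1.2
      omega
    apply add_le_add
    · apply mul_le_mul_of_nonneg_left _ hC5.le
      refine (pair_inj T1 hT10 Q P0 R (Icc 2 F) _ hsub hmap).trans ?_
      refine le_trans ?_ hgood
      rw [hT1, ← sum_filter]
      apply sum_le_sum_of_subset_of_nonneg
      · intro f hf
        rw [mem_filter, mem_Icc] at hf
        rw [mem_filter, mem_Icc]
        exact ⟨⟨hf.1.1, hf.2.1⟩, hf.2.2⟩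
      · intro f _ _
        exact TT_nonneg Y f
    · apply mul_le_mul_of_nonneg_left _ (by positivity)
      exact (pair_inj (TT Y) (TT_nonneg Y) Q P0 R (Icc 2 F) _ hsub hmap).trans hall
  calc ∑ q ∈ QQ W P0 R, (q.divisors.card : ℝ) ^ A * |ER Y Q q (b q)| ≤
      ∑ q ∈ QQ W P0 R, ((q.divisors.card : ℝ) ^ A * ((1 / (Nat.totient (Q * q) : ℝ)) *
        ∑ f ∈ (Q * q).divisors.filter (fun f => f ≠ 1), T' f) +
      (q.divisors.card : ℝ) ^ A * (2 * ((Q * q).primeFactors.card * Real.log (3 * Y)))) := sum_le_sum h4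
    _ ≤ _ := by
        rw [sum_add_distrib]
        exact add_le_add h5 h3

open Classical in
theorem good_sum (hl : St_LL1) (N : ℕ) : ∃ A1 : ℕ, ∀ A2 : ℕ, ∃ Q1 : ℕ, ∀ Q : ℕ, Q1 ≤ Q → ∀ Y : ℝ,
    (Q : ℝ) ^ A1 ≤ Y → Y ≤ (Q : ℝ) ^ A2 →
    ∑ f ∈ (Icc 2 Q).filter (fun f => f ∉ Bf Q), TT Y f ≤ 8 * Y / (Real.log Y) ^ N := by
  obtain ⟨A1, h1⟩ := hl N
  refine ⟨A1 + 1, fun A2 => ?_⟩
  obtain ⟨Q1, h2⟩ := h1 (A2 + 2)
  refine ⟨Q1 + 3, fun Q hQ Y hY1 hY2 => ?_⟩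
  have hQr : (3 : ℝ) ≤ Q := by
    have : 3 ≤ Q := by omega
    exact_mod_cast this
  have hQY : (Q : ℝ) ≤ Y := (le_self_pow₀ (by linarith) (by omega)).trans hY1
  have hQY1 : (Q : ℝ) ^ A1 ≤ Y := (pow_le_pow_right₀ (by linarith) (by omega)).trans hY1
  have hY0 : 0 < Y := by linarith
  have hlY : 0 < Real.log Y := Real.log_pos (by linarith)
  have h3 : Real.exp 1 ≤ 3 := by
    have := Real.exp_one_lt_d9
    linarith
  have h12 : Real.exp (1 / 2) ≤ 2 := by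
    have h := Real.exp_one_lt_d9
    have h2 : Real.exp (1 / 2) * Real.exp (1 / 2) = Real.exp 1 := by
      rw [← Real.exp_add]; norm_num
    nlinarith [Real.exp_pos (1 / 2)]
  have h12' : 1 ≤ Real.exp (1 / 2) := Real.one_le_exp (by norm_num)
  have h1' : 1 ≤ Real.exp 1 := Real.one_le_exp (by norm_num)
  have key : ∀ c : ℝ, 1 ≤ c → c ≤ 3 → ∑ f ∈ Icc 2 Q, ∑ χ ∈ (univ : Finset (DirichletCharacter ℂ f)).filter
      (fun χ => χ.IsPrimitive ∧ ¬ HZ χ (ez Q) ((Q : ℝ) ^ 3)), ‖psiLog (c * Y) f χ‖ ≤ c * (Y / (Real.log Y) ^ N) := by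
    intro c hc1 hc3
    have hcY : Y ≤ c * Y := by nlinarith
    have h4 := h2 Q (by omega) (c * Y) (hQY1.trans hcY) (by
      calc c * Y ≤ 3 * (Q : ℝ) ^ A2 := by gcongr
        _ ≤ (Q : ℝ) ^ 2 * (Q : ℝ) ^ A2 := by
            apply mul_le_mul_of_nonneg_right _ (by positivity)
            nlinarith
        _ = (Q : ℝ) ^ (A2 + 2) := by rw [pow_add]; ring)
    refine h4.trans ?_
    rw [mul_div_assoc]
    apply mul_le_mul_of_nonneg_left _ (by linarith)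
    apply div_le_div_of_nonneg_left hY0.le (by positivity)
    exact pow_le_pow_left₀ hlY.le (Real.log_le_log hY0 hcY) N
  have k1 := key 1 le_rfl (by norm_num)
  have k2 := key _ h12' (by linarith)
  have k3 := key _ h1' h3
  rw [one_mul, one_mul] at k1
  set D := Y / (Real.log Y) ^ N with hD
  have hD0 : 0 ≤ D := by positivity
  have h5 : ∑ f ∈ (Icc 2 Q).filter (fun f => f ∉ Bf Q), TT Y f ≤
      ∑ f ∈ Icc 2 Q, ∑ χ ∈ (univ : Finset (DirichletCharacter ℂ f)).filter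
        (fun χ => χ.IsPrimitive ∧ ¬ HZ χ (ez Q) ((Q : ℝ) ^ 3)), ‖psiPhi χ Y‖ := by
    refine le_trans ?_ (sum_le_sum_of_subset_of_nonneg (filter_subset (fun f => f ∉ Bf Q) _)
      (fun f _ _ => sum_nonneg fun χ _ => norm_nonneg _))
    apply sum_le_sum
    intro f hf
    rw [mem_filter] at hf
    unfold TT
    apply sum_le_sum_of_subset_of_nonneg
    · intro χ hχ
      have hχ' : χ.IsPrimitive := by
        unfold Pool.Agent.H398R2.BV.Prim at hχ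
        rw [mem_filter] at hχ
        exact hχ.2
      rw [mem_filter]
      refine ⟨mem_univ _, hχ', fun hz => hf.2 ?_⟩
      unfold Bf
      rw [mem_filter]
      exact ⟨hf.1, χ, hχ', hz⟩
    · intro χ _ _
      exact norm_nonneg _
  refine h5.trans ?_
  have h6 : ∑ f ∈ Icc 2 Q, ∑ χ ∈ (univ : Finset (DirichletCharacter ℂ f)).filter
        (fun χ => χ.IsPrimitive ∧ ¬ HZ χ (ez Q) ((Q : ℝ) ^ 3)), ‖psiPhi χ Y‖ ≤
      ∑ f ∈ Icc 2 Q, ∑ χ ∈ (univ : Finset (DirichletCharacter ℂ f)).filter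
        (fun χ => χ.IsPrimitive ∧ ¬ HZ χ (ez Q) ((Q : ℝ) ^ 3)), (‖psiLog Y f χ‖ +
          2 * ‖psiLog (Real.exp (1 / 2) * Y) f χ‖ + ‖psiLog (Real.exp 1 * Y) f χ‖) :=
    sum_le_sum fun f _ => sum_le_sum fun χ _ => norm_psiPhi_le Y hY0 f χ
  refine h6.trans ?_
  simp_rw [sum_add_distrib, ← mul_sum]
  rw [mul_div_assoc, ← hD]
  nlinarith

open Classical in
theorem relbv2 (hl : St_LL1) (A : ℕ) : ∃ A1 : ℕ, ∀ A2 : ℕ, ∃ Q1 : ℕ, ∀ Q : ℕ, Q1 ≤ Q →
    ∀ (X Y : ℝ) (a W P0 : ℕ), (Q : ℝ) ^ A1 ≤ X → X ≤ (Q : ℝ) ^ A2 → X ≤ Y → Y ≤ X ^ 2 → 1 ≤ a → 1 ≤ W →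
    (a * W) ^ 2 ≤ Q → a ∣ P0 → (∀ f ∈ Bf Q, ∀ p : ℕ, p.Prime → p ∣ f → p ∣ P0) →
    ∀ b : ℕ → ℕ, (∀ q, 1 ≤ q → (b q).Coprime (a * W * q)) →
      ∑ q ∈ QQ W P0 ⌊X ^ (1 / 100 : ℝ)⌋₊,
        (q.divisors.card : ℝ) ^ A * |ER Y (a * W) q (b q)|
        ≤ Y / (((a * W).totient : ℝ) * (Real.log X) ^ A) := by
  set Kw := 2 ^ (A + 1) with hKw
  obtain ⟨A1, hgs⟩ := good_sum hl (Kw + A + 12)
  refine ⟨A1 + 1000, fun A2 => ?_⟩
  obtain ⟨Q1, hgs'⟩ := hgs (2 * A2)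
  obtain ⟨C0, X1, hls⟩ := ls_sum
  set C1 := max C0 1 with hC1
  have hC1p : 1 ≤ C1 := le_max_right _ _
  obtain ⟨C5, hC5, hwt⟩ := wt_le A
  have hlog : Tendsto Real.log atTop atTop := Real.tendsto_log_atTop
  have hev : ∀ᶠ X : ℝ in atTop, _ := (triv_err A C5 hC5 hwt).and ((eventually_ge_atTop X1).and
    ((eventually_ge_atTop (4:ℝ)).and ((hlog.eventually_ge_atTop (2 ^ Kw * (32 * C5))).and
      (hlog.eventually_ge_atTop 2))))
  obtain ⟨X2, hX2⟩ := eventually_atTop.1 hev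
  obtain ⟨X3, hX3⟩ := eventually_atTop.1 (Pool.Agent.H398R2.BV.ev_log
    (2 ^ Kw * 1024 * C5 * C1 * (A2 : ℝ) ^ (Kw + 8 + A)) (Kw + 8 + A) (1 / 4) (by norm_num))
  refine ⟨Q1 + ⌈X2⌉₊ + ⌈X3⌉₊ + 4, ?_⟩
  intro Q hQ X Y a W P0 hQX hXQ hXY hYX ha hW haWQ haP hbad b hb
  have hQ4 : (4 : ℝ) ≤ Q := by
    have : 4 ≤ Q := by omega
    exact_mod_cast this
  have hQX1 : (Q : ℝ) ^ 1000 ≤ X := (pow_le_pow_right₀ (by linarith) (by omega)).trans hQX
  have hQX0 : (Q : ℝ) ≤ X := (le_self_pow₀ (by linarith) (by norm_num)).trans hQX1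
  obtain ⟨h1, h2, h3, h5, h6⟩ := hX2 X (by
    have h7 : X2 ≤ ⌈X2⌉₊ := Nat.le_ceil _
    have h8 : ((⌈X2⌉₊ : ℕ) : ℝ) ≤ Q := by
      have : ⌈X2⌉₊ ≤ Q := by omega
      exact_mod_cast this
    linarith)
  have hq1 := hX3 Q (by
    have h7 : X3 ≤ ⌈X3⌉₊ := Nat.le_ceil _
    have h8 : ((⌈X3⌉₊ : ℕ) : ℝ) ≤ Q := by
      have : ⌈X3⌉₊ ≤ Q := by omega
      exact_mod_cast this
    linarith)
  have hX0 : 0 < X := by linarith
  have hX1 : 1 ≤ X := by linarith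
  have hY0 : 0 < Y := by linarith
  have hQ0 : (0 : ℝ) < Q := by linarith
  set L := Real.log X with hL
  have hL0 : 0 < L := by linarith
  -- sizes of a and W
  have har : (1 : ℝ) ≤ a := by exact_mod_cast ha
  have hWr : (1 : ℝ) ≤ W := by exact_mod_cast hW
  have haWr : ((a : ℝ) * W) ^ 2 ≤ Q := by exact_mod_cast haWQ
  have haWQ' : (a : ℝ) * W ≤ Q := by
    have : (1 : ℝ) ≤ (a : ℝ) * W := by nlinarith
    nlinarith
  have hQr : (Q : ℝ) ≤ X ^ (1 / 1000 : ℝ) := by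
    have h7 : ((Q : ℝ) ^ 1000) ^ (1 / 1000 : ℝ) = Q := by
      rw [← Real.rpow_natCast, ← Real.rpow_mul hQ0.le]
      norm_num
    rw [← h7]
    exact Real.rpow_le_rpow (by positivity) hQX1 (by norm_num)
  have haX : (a : ℝ) ≤ X ^ (1 / 1000 : ℝ) := by
    refine le_trans ?_ hQr
    nlinarith
  have hWX : (W : ℝ) ≤ X ^ (1 / 500 : ℝ) := by
    have h7 : (W : ℝ) ≤ X ^ (1 / 1000 : ℝ) := by
      refine le_trans ?_ hQr
      nlinarith
    exact h7.trans (Real.rpow_le_rpow_of_exponent_le hX1 (by norm_num))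
  set R := ⌊X ^ (1 / 100 : ℝ)⌋₊ with hR
  set F : ℕ := ⌊Y ^ (1 / 50 : ℝ)⌋₊ with hF
  set M : ℝ := 256 * C1 * Y * L ^ 8 with hM
  have hRle : (R : ℝ) ≤ X ^ (1 / 100 : ℝ) := Nat.floor_le (by positivity)
  have hFle : a * W * R ≤ F := by
    apply Nat.le_floor
    push_cast
    calc (a : ℝ) * W * R ≤ X ^ (1 / 1000 : ℝ) * X ^ (1 / 500 : ℝ) * X ^ (1 / 100 : ℝ) := by
          gcongr
      _ = X ^ (1 / 1000 + 1 / 500 + 1 / 100 : ℝ) := by
          rw [Real.rpow_add hX0, Real.rpow_add hX0]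
      _ ≤ X ^ (1 / 50 : ℝ) := Real.rpow_le_rpow_of_exponent_le hX1 (by norm_num)
      _ ≤ Y ^ (1 / 50 : ℝ) := Real.rpow_le_rpow hX0.le hXY (by norm_num)
  have hlogY : Real.log Y ≤ 2 * L := by
    have := Real.log_le_log hY0 hYX
    rw [Real.log_pow] at this
    exact_mod_cast this
  have hall : ∑ f ∈ Icc 2 F, TT Y f ≤ M := by
    have h7 : ∑ f ∈ Icc 2 F, TT Y f ≤ C0 * Y * (Real.log Y) ^ 8 := hls Y (h2.trans hXY)
    refine h7.trans ?_
    have e1 : M = C1 * Y * (2 * L) ^ 8 := by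
      rw [hM]; ring
    rw [e1]
    have h8 : C0 ≤ C1 := le_max_left _ _
    have h10 : 0 ≤ Real.log Y := Real.log_nonneg (hX1.trans hXY)
    calc C0 * Y * (Real.log Y) ^ 8 ≤ C1 * Y * (Real.log Y) ^ 8 := by gcongr
      _ ≤ C1 * Y * (2 * L) ^ 8 := by gcongr
  have hgood : ∑ f ∈ (Icc 2 Q).filter (fun f => f ∉ Bf Q), TT Y f ≤ 8 * Y / L ^ (Kw + A + 12) := by
    have h7 := hgs' Q (by omega) Y (((pow_le_pow_right₀ (by linarith) (by omega)).trans hQX).trans hXY) (by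
      refine hYX.trans ?_
      calc X ^ 2 ≤ ((Q : ℝ) ^ A2) ^ 2 := by gcongr
        _ = (Q : ℝ) ^ (2 * A2) := by rw [← pow_mul, mul_comm])
    refine h7.trans ?_
    apply div_le_div_of_nonneg_left (by positivity) (by positivity)
    exact pow_le_pow_left₀ hL0.le (Real.log_le_log hX0 hXY) _
  have hRX : (R:ℝ) ≤ X := by
    refine hRle.trans ?_
    calc X ^ (1 / 100 : ℝ) ≤ X ^ (1:ℝ) := Real.rpow_le_rpow_of_exponent_le hX1 (by norm_num)
      _ = X := Real.rpow_one X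
  have hsumwt : ∑ e ∈ Icc 1 R, LSBV.wt A e ≤ 2 ^ Kw * L ^ Kw := by
    refine (sum_wt A R).trans ?_
    rw [← hKw, ← mul_pow]
    have h7 := log_natCast_le R X hX1 hRX
    have h8 := Real.log_natCast_nonneg R
    apply pow_le_pow_left₀ (by linarith)
    linarith
  have h3' := h1 Y a P0 W hXY hYX ha haX hW hWX
  have hS0 : 0 < (Q : ℝ) ^ (1 / 4 : ℝ) := Real.rpow_pos_of_pos hQ0 _
  have hSu : ∀ u : ℕ, Q < a * W * u → (Q : ℝ) ^ (1 / 4 : ℝ) ≤ Real.sqrt u := by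
    intro u hu
    apply Real.le_sqrt_of_sq_le
    have h7 : ((Q : ℝ) ^ (1 / 4 : ℝ)) ^ 2 = Real.sqrt Q := by
      rw [← Real.rpow_natCast, ← Real.rpow_mul hQ0.le, Real.sqrt_eq_rpow]
      norm_num
    rw [h7]
    have h8 : (a : ℝ) * W ≤ Real.sqrt Q := Real.le_sqrt_of_sq_le haWr
    have h9 : (Q : ℝ) < (a : ℝ) * W * u := by exact_mod_cast hu
    have h10 : Real.sqrt Q * Real.sqrt Q = Q := Real.mul_self_sqrt hQ0.le
    have h11 : 0 < Real.sqrt Q := Real.sqrt_pos.2 hQ0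
    have h12 : (0 : ℝ) ≤ u := Nat.cast_nonneg u
    by_contra hcon
    push Not at hcon
    have h13 : (a : ℝ) * W * u ≤ Real.sqrt Q * Real.sqrt Q := mul_le_mul h8 hcon.le h12 h11.le
    linarith
  have hfin := rel_main2 A Y M (8 * Y / L ^ (Kw + A + 12)) C5 (2 ^ Kw * L ^ Kw) ((Q : ℝ) ^ (1 / 4 : ℝ)) _
    (hX1.trans hXY) hC5 hwt a W P0 R F Q ha hW haP hbad hS0 hSu hFle hall hgood hsumwt h3' b hb
  refine hfin.trans ?_
  have hφ : (0 : ℝ) < (a * W).totient := by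
    exact_mod_cast Nat.totient_pos.2 (Nat.mul_pos ha hW)
  have hp1 : 2 ^ Kw * L ^ Kw * (C5 * (8 * Y / L ^ (Kw + A + 12))) ≤ (1 / 4) * (Y / L ^ A) := by
    have e1 : 2 ^ Kw * L ^ Kw * (C5 * (8 * Y / L ^ (Kw + A + 12))) =
        (1 / 4) * ((2 ^ Kw * (32 * C5)) / L ^ 12) * (Y / L ^ A) := by
      have e2 : L ^ (Kw + A + 12) = L ^ Kw * L ^ A * L ^ 12 := by
        rw [← pow_add, ← pow_add]
      rw [e2]
      field_simp
      ring
    rw [e1]
    calc (1 / 4) * ((2 ^ Kw * (32 * C5)) / L ^ 12) * (Y / L ^ A) ≤ (1 / 4) * 1 * (Y / L ^ A) := by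
          gcongr
          rw [div_le_one (by positivity)]
          exact h5.trans (le_self_pow₀ (by linarith) (by norm_num))
      _ = _ := by ring
  have hp2 : 2 ^ Kw * L ^ Kw * (C5 / (Q : ℝ) ^ (1 / 4 : ℝ) * M) ≤ (1 / 4) * (Y / L ^ A) := by
    have hLQ : L ≤ A2 * Real.log Q := by
      have h7 := Real.log_le_log hX0 hXQ
      rwa [Real.log_pow] at h7
    have h8 : L ^ (Kw + 8 + A) ≤ (A2 : ℝ) ^ (Kw + 8 + A) * (Real.log Q) ^ (Kw + 8 + A) := by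
      rw [← mul_pow]
      exact pow_le_pow_left₀ hL0.le hLQ _
    have h9 : 2 ^ Kw * 1024 * C5 * C1 * L ^ (Kw + 8 + A) ≤ (Q : ℝ) ^ (1 / 4 : ℝ) := by
      refine le_trans ?_ hq1
      calc 2 ^ Kw * 1024 * C5 * C1 * L ^ (Kw + 8 + A) ≤
          2 ^ Kw * 1024 * C5 * C1 * ((A2 : ℝ) ^ (Kw + 8 + A) * (Real.log Q) ^ (Kw + 8 + A)) := by gcongr
        _ = _ := by ring
    have e1 : 2 ^ Kw * L ^ Kw * (C5 / (Q : ℝ) ^ (1 / 4 : ℝ) * M) =
        (1 / 4) * ((2 ^ Kw * 1024 * C5 * C1 * L ^ (Kw + 8 + A)) / (Q : ℝ) ^ (1 / 4 : ℝ)) * (Y / L ^ A) := by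
      have e2 : L ^ (Kw + 8 + A) = L ^ Kw * L ^ 8 * L ^ A := by
        rw [← pow_add, ← pow_add]
      rw [e2, hM]
      have e3 : L ^ A ≠ 0 := by positivity
      field_simp
      ring
    rw [e1]
    calc (1 / 4) * ((2 ^ Kw * 1024 * C5 * C1 * L ^ (Kw + 8 + A)) / (Q : ℝ) ^ (1 / 4 : ℝ)) * (Y / L ^ A) ≤
        (1 / 4) * 1 * (Y / L ^ A) := by
          gcongr
          rw [div_le_one hS0]
          exact h9
      _ = _ := by ring
  have hlast : (1 / ((a * W).totient : ℝ)) * (2 ^ Kw * L ^ Kw * (C5 * (8 * Y / L ^ (Kw + A + 12)) +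
      C5 / (Q : ℝ) ^ (1 / 4 : ℝ) * M)) ≤ (1 / 2) * (Y / (((a * W).totient : ℝ) * L ^ A)) := by
    calc (1 / ((a * W).totient : ℝ)) * (2 ^ Kw * L ^ Kw * (C5 * (8 * Y / L ^ (Kw + A + 12)) +
      C5 / (Q : ℝ) ^ (1 / 4 : ℝ) * M)) ≤ (1 / ((a * W).totient : ℝ)) * ((1 / 4) * (Y / L ^ A) + (1 / 4) * (Y / L ^ A)) := by
          apply mul_le_mul_of_nonneg_left _ (by positivity)
          rw [mul_add]
          exact add_le_add hp1 hp2
      _ = _ := by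
          field_simp
          ring
  have : Y / (((a * W).totient : ℝ) * L ^ A) = (1 / 2) * (Y / (((a * W).totient : ℝ) * L ^ A)) +
      (1 / 2) * (Y / (((a * W).totient : ℝ) * L ^ A)) := by ring
  rw [this]
  linarith

end Pool.Agent.H262R3.Lk
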