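import Mathlib
import Pool.Agent.H262R3.Lk.CoreL
import Pool.Agent.H262R3.Lk.Rel3

open Finset Filter

/-! The coprimality sets over an arbitrary base set of primes. -/

namespace Pool.Agent.H262R3.Lk

open Pool.Agent.H378R2 Pool.Agent.H262R2.UM Pool.Agent.H262R2.UP

/-- the coprimality sets -/
def EsP {K : ℕ} (P : Finset ℕ) (a b : Fin K → ℕ) (j : Fin K) : Finset ℕ := (P ∪ Va a) ∪ Vr a b j

/-- the master set -/
def EmP {K : ℕ} (P : Finset ℕ) (a b : Fin K → ℕ) : Finset ℕ := P ∪ (Dsc a b).primeFactors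

theorem EmP_prime {K : ℕ} {P : Finset ℕ} (hP : ∀ p ∈ P, p.Prime) {a b : Fin K → ℕ} {p : ℕ} (hp : p ∈ EmP P a b) :
    p.Prime := by
  unfold EmP at hp
  rw [mem_union] at hp
  rcases hp with h | h
  · exact hP p h
  · exact Nat.prime_of_mem_primeFactors h

theorem EsP_sub {K : ℕ} {P : Finset ℕ} {a b : Fin K → ℕ} (hD : Dsc a b ≠ 0) (j : Fin K) :
    EsP P a b j ⊆ EmP P a b := by
  intro p hp
  unfold EsP at hp
  unfold EmP
  rw [mem_union, mem_union] at hp
  rw [mem_union]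
  rcases hp with (h | h) | h
  · exact Or.inl h
  · right
    obtain ⟨i, hi⟩ := mem_Va.1 h
    exact Nat.primeFactors_mono (dvd_Dsc_a a b i) hD hi
  · right
    obtain ⟨i, hi, hp⟩ := mem_Vr.1 h
    exact Nat.primeFactors_mono (dvd_Dsc_r a b hi.ne) hD hp

theorem ExP_sub {K0 : ℕ} {P : Finset ℕ} {a b : Fin (K0 + 1) → ℕ} (hD : Dsc a b ≠ 0) (i : Fin (K0 + 1)) (j : Fin K0) :
    Ex (EsP P a b) a b i j ⊆ EmP P a b := by
  intro p hp
  unfold Ex at hp
  rw [mem_union] at hp
  rcases hp with h | h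
  · exact EsP_sub hD _ h
  · unfold EmP
    rw [mem_union]
    right
    exact Nat.primeFactors_mono (dvd_Dsc_r a b (Fin.succAbove_ne i j).symm) hD h

theorem GoodEg_Es {K : ℕ} {X Cd : ℝ} {P : Finset ℕ} (hP : ∀ p ∈ P, p.Prime) {a b : Fin K → ℕ} (hD : Dsc a b ≠ 0)
    (hPz : ∀ p : ℕ, p.Prime → p ≤ zL X → p ∈ P)
    (hcd : (#((EmP P a b).filter (fun p => zL X < p)) : ℝ) ≤ Cd * (Real.log X) ^ 8) :
    GoodEg X Cd (EmP P a b) (EsP P a b) := by
  refine ⟨fun p hp => EmP_prime hP hp, hcd, fun j => EsP_sub hD j, ?_⟩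
  intro j p hp hpz
  unfold EsP
  rw [mem_union, mem_union]
  exact Or.inl (Or.inl (hPz p hp hpz))

theorem GoodEg_Ex {K0 : ℕ} {X Cd : ℝ} {P : Finset ℕ} (hP : ∀ p ∈ P, p.Prime) {a b : Fin (K0 + 1) → ℕ}
    (hD : Dsc a b ≠ 0) (hPz : ∀ p : ℕ, p.Prime → p ≤ zL X → p ∈ P)
    (hcd : (#((EmP P a b).filter (fun p => zL X < p)) : ℝ) ≤ Cd * (Real.log X) ^ 8) (i : Fin (K0 + 1)) :
    GoodEg X Cd (EmP P a b) (Ex (EsP P a b) a b i) := by
  refine ⟨fun p hp => EmP_prime hP hp, hcd, fun j => ExP_sub hD i j, ?_⟩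
  intro j p hp hpz
  unfold Ex EsP
  rw [mem_union, mem_union, mem_union]
  exact Or.inl (Or.inl (Or.inl (hPz p hp hpz)))

theorem GoodFf_EsP {K : ℕ} {P : Finset ℕ} {a b : Fin K → ℕ} (hadm : Adm a b) (hpos : ∀ i, 0 < a i)
    (hinj : Function.Injective (fun i => (a i, b i))) : GoodFf (EsP P a b) a b := by
  refine ⟨?_, ?_, ?_⟩
  · intro i j p hp hpE hd
    apply hpE
    unfold EsP
    rw [mem_union, mem_union]
    left; right
    exact mem_Va.2 ⟨i, Nat.mem_primeFactors.2 ⟨hp, hd, (hpos i).ne'⟩⟩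
  · intro i j hij p hp hpi hpj hd
    have h0 := nonprop hadm hpos hinj hij
    have h0' := nonprop hadm hpos hinj (Ne.symm hij)
    rcases lt_or_gt_of_ne hij with h | h
    · apply hpj
      unfold EsP
      rw [mem_union]
      right
      exact mem_Vr.2 ⟨i, h, Nat.mem_primeFactors.2 ⟨hp, Int.natCast_dvd.1 hd, Int.natAbs_ne_zero.2 h0⟩⟩
    · apply hpi
      unfold EsP
      rw [mem_union]
      right
      refine mem_Vr.2 ⟨j, h, Nat.mem_primeFactors.2 ⟨hp, ?_, Int.natAbs_ne_zero.2 h0'⟩⟩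
      apply Int.natCast_dvd.1
      have h1 : (a j : ℤ) * b i - a i * b j = -((a i : ℤ) * b j - a j * b i) := by ring
      rw [h1]
      exact hd.neg_right
  · intro i j hij
    exact nonprop hadm hpos hinj hij

/-- the comparison of the two families of coprimality sets -/
theorem key_BEP {K0 : ℕ} {P : Finset ℕ} (hP : ∀ p ∈ P, p.Prime) {a b : Fin (K0 + 1) → ℕ} (hadm : Adm a b) (hpos : ∀ i, 0 < a i)
    (hinj : Function.Injective (fun i => (a i, b i))) (i : Fin (K0 + 1)) :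
    BE (P ∪ Va a) * ∏ j, BE (Ex (EsP P a b) a b i j) ≤ BE (EsP P a b i) * ∏ j, BE (EsP P a b (i.succAbove j)) := by
  classical
  have hD := Dsc_ne hadm hpos hinj
  have hEp : ∀ j, ∀ p ∈ EsP P a b j, p.Prime := fun j p hp => EmP_prime hP (EsP_sub hD j hp)
  have hXp : ∀ j, ∀ p ∈ Ex (EsP P a b) a b i j, p.Prime := fun j p hp => EmP_prime hP (ExP_sub hD i j hp)
  have hPV : ∀ p ∈ P ∪ Va a, p.Prime := fun p hp => hEp i p (mem_union_left _ hp)
  have h1 : BE (EsP P a b i) = BE (P ∪ Va a) * BE (EsP P a b i \ (P ∪ Va a)) :=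
    BE_sub subset_union_left
  have h2 : ∀ j, BE (Ex (EsP P a b) a b i j) = BE (EsP P a b (i.succAbove j)) *
      BE (Ex (EsP P a b) a b i j \ EsP P a b (i.succAbove j)) :=
    fun j => BE_sub subset_union_left
  have h3 : ∏ j, BE (Ex (EsP P a b) a b i j \ EsP P a b (i.succAbove j)) ≤ BE (EsP P a b i \ (P ∪ Va a)) := by
    have h4 := BE_biUnion_ge univ (fun j => Ex (EsP P a b) a b i j \ EsP P a b (i.succAbove j))
      (fun j _ p hp => hXp j p (Finset.mem_sdiff.1 hp).1)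
    refine h4.trans ?_
    apply BE_anti
    · intro p hp
      rw [Finset.mem_sdiff] at hp
      obtain ⟨hpE, hpn⟩ := hp
      have hpp := hEp i p hpE
      have hpr : p ∈ Vr a b i := by
        unfold EsP at hpE
        rw [mem_union] at hpE
        exact hpE.resolve_left hpn
      obtain ⟨j0, hj0, hpj0⟩ := mem_Vr.1 hpr
      -- minimal index of the class
      have hne : ((univ : Finset (Fin (K0 + 1))).filter
          (fun j => j < i ∧ (p : ℤ) ∣ (a j : ℤ) * b i - a i * b j)).Nonempty := by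
        refine ⟨j0, ?_⟩
        rw [mem_filter]
        exact ⟨mem_univ _, hj0, Int.natCast_dvd.2 (Nat.dvd_of_mem_primeFactors hpj0)⟩
      obtain ⟨j, hj, hmin⟩ := Finset.exists_min_image _ (fun j : Fin (K0 + 1) => j) hne
      rw [mem_filter] at hj
      obtain ⟨_, hji, hpd⟩ := hj
      have hne' : j ≠ i := hji.ne
      obtain ⟨j', hj'⟩ := Fin.exists_succAbove_eq hne'
      rw [mem_biUnion]
      refine ⟨j', mem_univ _, ?_⟩
      rw [Finset.mem_sdiff, hj']
      constructor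
      · unfold Ex
        rw [mem_union, hj']
        right
        rw [Nat.mem_primeFactors]
        refine ⟨hpp, ?_, Int.natAbs_ne_zero.2 (nonprop hadm hpos hinj hne'.symm)⟩
        apply Int.natCast_dvd.1
        have e1 : (a i : ℤ) * b j - a j * b i = -((a j : ℤ) * b i - a i * b j) := by ring
        rw [e1]
        exact hpd.neg_right
      · intro hpEj
        unfold EsP at hpEj
        rw [mem_union] at hpEj
        have hpl := mem_Vr.1 (hpEj.resolve_left hpn)
        obtain ⟨l, hl, hpl⟩ := hpl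
        have hpl' : (p : ℤ) ∣ (a l : ℤ) * b j - a j * b l := Int.natCast_dvd.2 (Nat.dvd_of_mem_primeFactors hpl)
        -- transitivity
        have e2 : (p : ℤ) ∣ (a j : ℤ) * ((a l : ℤ) * b i - a i * b l) := by
          have e3 : (a j : ℤ) * ((a l : ℤ) * b i - a i * b l) =
              (a l : ℤ) * ((a j : ℤ) * b i - a i * b j) + a i * ((a l : ℤ) * b j - a j * b l) := by ring
          rw [e3]
          exact dvd_add (hpd.mul_left _) (hpl'.mul_left _)
        have hpaj : ¬ (p : ℤ) ∣ (a j : ℤ) := by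
          intro h
          apply hpn
          rw [mem_union]
          right
          exact mem_Va.2 ⟨j, Nat.mem_primeFactors.2 ⟨hpp, Int.natCast_dvd_natCast.1 h, (hpos j).ne'⟩⟩
        have e4 : (p : ℤ) ∣ (a l : ℤ) * b i - a i * b l :=
          ((Nat.prime_iff_prime_int.1 hpp).dvd_or_dvd e2).resolve_left hpaj
        have hlmem : l ∈ (univ : Finset (Fin (K0 + 1))).filter
          (fun j => j < i ∧ (p : ℤ) ∣ (a j : ℤ) * b i - a i * b j) := by
          rw [mem_filter]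
          exact ⟨mem_univ _, hl.trans hji, e4⟩
        have := hmin l hlmem
        exact absurd hl (not_lt.2 this)
    · intro p hp
      obtain ⟨j, _, hp⟩ := mem_biUnion.1 hp
      exact hXp j p (Finset.mem_sdiff.1 hp).1
  have h5 : ∏ j, BE (Ex (EsP P a b) a b i j) = (∏ j, BE (EsP P a b (i.succAbove j))) *
      ∏ j, BE (Ex (EsP P a b) a b i j \ EsP P a b (i.succAbove j)) := by
    rw [← prod_mul_distrib]
    exact prod_congr rfl fun j _ => h2 j
  rw [h1, h5]
  have h6 : 0 < BE (P ∪ Va a) := BE_pos hPV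
  have h7 : 0 < ∏ j, BE (EsP P a b (i.succAbove j)) := prod_pos fun j _ => BE_pos (hEp _)
  generalize BE (P ∪ Va a) = t1 at h6 ⊢
  generalize ∏ j, BE (EsP P a b (i.succAbove j)) = t2 at h7 ⊢
  generalize ∏ j, BE (Ex (EsP P a b) a b i j \ EsP P a b (i.succAbove j)) = t3 at h3 ⊢
  generalize BE (EsP P a b i \ (P ∪ Va a)) = t4 at h3 ⊢
  calc t1 * (t2 * t3) ≤ t1 * (t2 * t4) := by
        apply mul_le_mul_of_nonneg_left _ h6.le
        exact mul_le_mul_of_nonneg_left h3 h7.le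
    _ = _ := by ring

end Pool.Agent.H262R3.Lk
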