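import Mathlib
import Pool.Agent.H262R3.Lk.Fn1

open Finset Filter

/-! The primes of the bad conductors, and the comparison of the Euler products. -/

namespace Pool.Agent.H262R3.Lk

open Pool.Agent.H378R2 Pool.Agent.H262R2.UM Pool.Agent.H262R2.UP
open Pool.Agent.Erdos456.Mert (PP)

open Classical in
theorem Bf_card (hd : St_DENS) : ∃ C : ℝ, 0 < C ∧ ∀ Q : ℕ, 3 ≤ Q → (#(Bf Q) : ℝ) ≤ C * (Real.log Q) ^ 7 := by
  obtain ⟨C, hC, h⟩ := hd
  refine ⟨C, hC, fun Q hQ => ?_⟩
  have hQr : (3 : ℝ) ≤ Q := by exact_mod_cast hQ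
  have hlQ : 1 ≤ Real.log Q := by
    rw [Real.le_log_iff_exp_le (by linarith)]
    have := Real.exp_one_lt_d9
    linarith
  have hll : 0 ≤ Real.log (Real.log Q) := Real.log_nonneg hlQ
  have hez0 : 0 ≤ ez Q := by unfold ez; positivity
  have hez1 : ez Q ≤ 1 / 100 := by
    unfold ez
    rw [div_le_div_iff₀ (by positivity) (by norm_num)]
    have := Real.log_le_sub_one_of_pos (by linarith : 0 < Real.log Q)
    linarith
  have h1 := h Q (by omega) (ez Q) hez0 hez1
  have h2 : (Q : ℝ) ^ (100 * ez Q) = Real.log Q := by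
    rw [Real.rpow_def_of_pos (by linarith)]
    have : Real.log Q * (100 * ez Q) = Real.log (Real.log Q) := by
      unfold ez
      field_simp
    rw [this, Real.exp_log (by linarith)]
  rw [h2] at h1
  have h3 : (#(Bf Q) : ℝ) ≤ ∑ f ∈ Icc 2 Q, (((univ : Finset (DirichletCharacter ℂ f)).filter
    (fun χ => χ.IsPrimitive ∧ HZ χ (ez Q) ((Q : ℝ) ^ 3))).card : ℝ) := by
    calc (#(Bf Q) : ℝ) = ∑ f ∈ Bf Q, (1 : ℝ) := by simp
      _ ≤ ∑ f ∈ Bf Q, (((univ : Finset (DirichletCharacter ℂ f)).filter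
          (fun χ => χ.IsPrimitive ∧ HZ χ (ez Q) ((Q : ℝ) ^ 3))).card : ℝ) := by
          apply sum_le_sum
          intro f hf
          unfold Bf at hf
          rw [mem_filter] at hf
          obtain ⟨χ, hχ⟩ := hf.2
          have : 1 ≤ ((univ : Finset (DirichletCharacter ℂ f)).filter
            (fun χ => χ.IsPrimitive ∧ HZ χ (ez Q) ((Q : ℝ) ^ 3))).card :=
            card_pos.2 ⟨χ, mem_filter.2 ⟨mem_univ _, hχ⟩⟩
          exact_mod_cast this
      _ ≤ _ := by
          apply sum_le_sum_of_subset_of_nonneg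
          · unfold Bf
            exact filter_subset _ _
          · intro f _ _
            positivity
  refine h3.trans (h1.trans (le_of_eq ?_))
  ring

/-- the primes of the bad conductors -/
noncomputable def Sb (Q : ℕ) : Finset ℕ := (Bf Q).biUnion Nat.primeFactors

theorem Sb_prime {Q p : ℕ} (hp : p ∈ Sb Q) : p.Prime := by
  unfold Sb at hp
  rw [mem_biUnion] at hp
  obtain ⟨f, _, h⟩ := hp
  exact Nat.prime_of_mem_primeFactors h

open Classical in
theorem Bf_mem {Q f : ℕ} (hf : f ∈ Bf Q) : 2 ≤ f ∧ f ≤ Q := by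
  unfold Bf at hf
  rw [mem_filter, mem_Icc] at hf
  exact hf.1

theorem mem_Sb {Q f p : ℕ} (hf : f ∈ Bf Q) (hp : p.Prime) (h : p ∣ f) : p ∈ Sb Q := by
  unfold Sb
  rw [mem_biUnion]
  refine ⟨f, hf, Nat.mem_primeFactors.2 ⟨hp, h, ?_⟩⟩
  have := (Bf_mem hf).1
  omega

theorem Sb_card (hd : St_DENS) : ∃ C : ℝ, 0 < C ∧ ∀ Q : ℕ, 3 ≤ Q → (#(Sb Q) : ℝ) ≤ C * (Real.log Q) ^ 8 := by
  obtain ⟨C, hC, h⟩ := Bf_card hd
  refine ⟨2 * C, by positivity, fun Q hQ => ?_⟩
  have hQr : (3 : ℝ) ≤ Q := by exact_mod_cast hQ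
  have hlQ : 0 ≤ Real.log Q := Real.log_nonneg (by linarith)
  have h1 : ∀ f ∈ Bf Q, (#f.primeFactors : ℝ) ≤ 2 * Real.log Q := by
    intro f hf
    obtain ⟨hf2, hfQ⟩ := Bf_mem hf
    have h2 := omega_le f (by omega)
    have h3 : #f.divisors ≤ f := Nat.card_divisors_le_self f
    have h4 : ((2 : ℝ) ^ #f.primeFactors) ≤ Q := by
      exact_mod_cast (h2.trans h3).trans hfQ
    have h5 := Real.log_le_log (by positivity) h4
    rw [Real.log_pow] at h5
    have h6 := Real.log_two_gt_d9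
    have h7 : (0 : ℝ) ≤ #f.primeFactors := Nat.cast_nonneg _
    nlinarith
  calc (#(Sb Q) : ℝ) ≤ ((∑ f ∈ Bf Q, #f.primeFactors : ℕ) : ℝ) := by
        unfold Sb
        exact_mod_cast card_biUnion_le
    _ = ∑ f ∈ Bf Q, (#f.primeFactors : ℝ) := by push_cast; rfl
    _ ≤ ∑ _f ∈ Bf Q, 2 * Real.log Q := sum_le_sum h1
    _ = #(Bf Q) * (2 * Real.log Q) := by rw [sum_const, nsmul_eq_mul]
    _ ≤ (C * (Real.log Q) ^ 7) * (2 * Real.log Q) := by
        apply mul_le_mul_of_nonneg_right (h Q hQ) (by positivity)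
    _ = _ := by ring

/-- the size of the master set -/
theorem EmP_card (hd : St_DENS) (K : ℕ) : ∃ Cd : ℝ, 0 ≤ Cd ∧ ∀ᶠ X : ℝ in atTop, ∀ (Q : ℕ) (a b : Fin K → ℕ), Adm a b →
    (∀ i, 0 < a i ∧ b i ≤ a i) → Function.Injective (fun i => (a i, b i)) →
    (∀ i, (a i : ℝ) ≤ X ^ (1 / 1000 : ℝ)) → 3 ≤ Q → (Q : ℝ) ≤ X →
    (#((EmP (Pz (zL X) ∪ Sb Q) a b).filter (fun p => zL X < p)) : ℝ) ≤ Cd * (Real.log X) ^ 8 := by
  obtain ⟨C, hC, hS⟩ := Sb_card hd
  refine ⟨C + ((K : ℝ) + K ^ 2), by positivity, ?_⟩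
  have hlog := Real.tendsto_log_atTop
  filter_upwards [hlog.eventually_ge_atTop (2 : ℝ), eventually_ge_atTop (1 : ℝ)] with X h3 h4
  intro Q a b hadm hab hinj haX hQ3 hQX
  set z := zL X with hz
  have h8 : 3 ≤ z := by
    rw [hz]
    apply Nat.le_floor
    have : (2 : ℝ) ^ 20 ≤ (Real.log X) ^ 20 := pow_le_pow_left₀ (by norm_num) h3 20
    push_cast
    linarith
  have hsub : (EmP (Pz z ∪ Sb Q) a b).filter (fun p => z < p) ⊆
      Sb Q ∪ (Dsc a b).primeFactors.filter (fun p => z < p) := by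
    intro p hp
    rw [mem_filter] at hp
    rw [mem_union, mem_filter]
    have := hp.1
    unfold EmP at this
    rw [mem_union, mem_union] at this
    rcases this with (h | h) | h
    · exfalso
      have := (mem_Pz.1 h).1
      omega
    · exact Or.inl h
    · exact Or.inr ⟨h, hp.2⟩
  have h5 : ∑ p ∈ (Dsc a b).primeFactors, Real.log p ≤ ((K : ℝ) + K ^ 2) * Real.log X := by
    apply Dsc_log hadm (fun i => (hab i).1) hinj X h4 _ (fun i => (hab i).2)
    intro i
    refine (haX i).trans ?_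
    rw [Real.sqrt_eq_rpow]
    exact Real.rpow_le_rpow_of_exponent_le h4 (by norm_num)
  have h6 : (#((Dsc a b).primeFactors.filter (fun p => z < p)) : ℝ) ≤ ((K : ℝ) + K ^ 2) * Real.log X := by
    calc (#((Dsc a b).primeFactors.filter (fun p => z < p)) : ℝ) =
        ∑ p ∈ (Dsc a b).primeFactors.filter (fun p => z < p), (1 : ℝ) := by simp
      _ ≤ ∑ p ∈ (Dsc a b).primeFactors.filter (fun p => z < p), Real.log p := by
          apply sum_le_sum
          intro p hp
          have hp3 : 3 < p := lt_of_le_of_lt h8 (mem_filter.1 hp).2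
          have hpr : (3 : ℝ) < p := by exact_mod_cast hp3
          rw [Real.le_log_iff_exp_le (by linarith)]
          have := Real.exp_one_lt_d9
          linarith
      _ ≤ ∑ p ∈ (Dsc a b).primeFactors, Real.log p := by
          apply sum_le_sum_of_subset_of_nonneg (filter_subset _ _)
          intro p hp _
          exact Real.log_natCast_nonneg p
      _ ≤ _ := h5
  have h7 : (#(Sb Q) : ℝ) ≤ C * (Real.log X) ^ 8 := by
    refine (hS Q hQ3).trans ?_
    have hQr : (3 : ℝ) ≤ Q := by exact_mod_cast hQ3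
    have h9 : 0 ≤ Real.log Q := Real.log_nonneg (by linarith)
    have h10 := Real.log_le_log (by linarith) hQX
    gcongr
  have h9 : Real.log X ≤ (Real.log X) ^ 8 := le_self_pow₀ (by linarith) (by norm_num)
  calc (#((EmP (Pz z ∪ Sb Q) a b).filter (fun p => z < p)) : ℝ) ≤
        #(Sb Q) + #((Dsc a b).primeFactors.filter (fun p => z < p)) := by
          exact_mod_cast (card_le_card hsub).trans (card_union_le _ _)
    _ ≤ C * (Real.log X) ^ 8 + ((K : ℝ) + K ^ 2) * Real.log X := add_le_add h7 h6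
    _ ≤ C * (Real.log X) ^ 8 + ((K : ℝ) + K ^ 2) * (Real.log X) ^ 8 := by gcongr
    _ = _ := by ring

theorem PP_eq (N : ℕ) : (Icc 1 N).filter Nat.Prime = Pz N := by
  ext p
  rw [mem_filter, mem_Icc, mem_Pz]
  constructor
  · rintro ⟨h1, h2⟩
    exact ⟨h1.2, h2⟩
  · rintro ⟨h1, h2⟩
    exact ⟨⟨h2.one_lt.le, h1⟩, h2⟩

/-- Mertens bounds -/
theorem BE_low : ∃ c3 : ℝ, 0 < c3 ∧ ∀ Cd : ℝ, 0 ≤ Cd → ∀ᶠ X : ℝ in atTop, ∀ E : Finset ℕ, (∀ p ∈ E, p.Prime) →
    ((E.filter (fun p => zL X < p)).card : ℝ) ≤ Cd * (Real.log X) ^ 8 → c3 / Real.log (Real.log X) ≤ BE E := by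
  obtain ⟨C2, hC2⟩ := Pool.Agent.Erdos456.Mert.mertens_inv
  refine ⟨Real.exp (-C2 - 5) / 20, by positivity, fun Cd hCd => ?_⟩
  have hlog := Real.tendsto_log_atTop
  filter_upwards [hlog.eventually_ge_atTop (10 + 4 * Cd : ℝ), (hlog.comp hlog).eventually_ge_atTop (10 : ℝ)] with X h3 h4
  intro E hE hcard
  simp only [Function.comp] at h4
  set N := zL X with hN
  set L := Real.log X with hL
  have hL10 : 10 ≤ L := by linarith
  have hN1 : (N : ℝ) ≤ L ^ 20 := Nat.floor_le (by positivity)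
  have hN2 : L ^ 20 < N + 1 := Nat.lt_floor_add_one _
  have hN3 : 3 ≤ N := by
    rw [hN]
    apply Nat.le_floor
    have : (10 : ℝ) ^ 20 ≤ L ^ 20 := by
      apply pow_le_pow_left₀ (by norm_num); linarith
    push_cast
    linarith
  have hNr : (3 : ℝ) ≤ N := by exact_mod_cast hN3
  have hlN : Real.log N ≤ 20 * Real.log L := by
    have : Real.log (L ^ 20) = 20 * Real.log L := by
      rw [Real.log_pow]; norm_num
    rw [← this]
    exact Real.log_le_log (by linarith) hN1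
  have hlN1 : 1 ≤ Real.log N := by
    rw [Real.le_log_iff_exp_le (by linarith)]
    have := Real.exp_one_lt_d9
    linarith
  have hbig : ∀ p : ℕ, N < p → L ^ 20 ≤ p := by
    intro p hp
    have : (N : ℝ) + 1 ≤ p := by exact_mod_cast hp
    linarith
  have hs2 : ∑ p ∈ E, (1 : ℝ) / p ≤ ∑ p ∈ PP N, (1 : ℝ) / p + #(E.filter (fun p => N < p)) * (1 / L ^ 20) := by
    rw [← sum_filter_add_sum_filter_not E (fun p => N < p), add_comm]
    apply add_le_add
    · apply sum_le_sum_of_subset_of_nonneg _ (fun _ _ _ => by positivity)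
      intro p hp
      rw [mem_filter, not_lt] at hp
      rw [mem_PP']
      exact ⟨hp.2, hE p hp.1⟩
    · rw [← nsmul_eq_mul]
      apply sum_le_card_nsmul
      intro p hp
      rw [mem_filter] at hp
      exact one_div_le_one_div_of_le (by positivity) (hbig p hp.2)
  have hc2 : (#(E.filter (fun p => N < p)) : ℝ) * (1 / L ^ 20) ≤ 1 := by
    calc (#(E.filter (fun p => N < p)) : ℝ) * (1 / L ^ 20) ≤ (Cd * L ^ 8) * (1 / L ^ 20) := by gcongr
      _ = Cd / L ^ 12 := by field_simp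
      _ ≤ 1 := by
          rw [div_le_one (by positivity)]
          have : L ≤ L ^ 12 := le_self_pow₀ (by linarith) (by norm_num)
          linarith
  have hm2 := (abs_le.1 (hC2 N hN3)).2
  have hloglog : Real.log (Real.log N) ≤ Real.log (20 * Real.log L) :=
    Real.log_le_log (by linarith) hlN
  have hpos : 0 < 20 * Real.log L := by linarith
  refine le_trans ?_ (BE_ge hE)
  have h6 : Real.exp (-(Real.log (20 * Real.log L) + C2 + 1) - 4) ≤
      Real.exp (-(∑ p ∈ E, (1 : ℝ) / p) - 4) := by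
    apply Real.exp_le_exp.2
    linarith
  refine le_trans (le_of_eq ?_) h6
  have h7 : Real.exp (-(Real.log (20 * Real.log L) + C2 + 1) - 4) =
      Real.exp (-C2 - 5) / (20 * Real.log L) := by
    rw [show -(Real.log (20 * Real.log L) + C2 + 1) - 4 =
      (-C2 - 5) - Real.log (20 * Real.log L) by ring, Real.exp_sub (-C2 - 5), Real.exp_log hpos]
  rw [h7, div_div]

theorem BE_up : ∃ c4 : ℝ, 0 < c4 ∧ ∀ w : ℕ, 3 ≤ w → BE (Pz w) ≤ c4 / Real.log w := by
  obtain ⟨C2, hC2⟩ := Pool.Agent.Erdos456.Mert.mertens_inv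
  refine ⟨Real.exp C2, by positivity, fun w hw => ?_⟩
  have hwr : (3 : ℝ) ≤ w := by exact_mod_cast hw
  have hlw : 0 < Real.log w := Real.log_pos (by linarith)
  have h1 := (abs_le.1 (hC2 w hw)).1
  rw [PP_eq] at h1
  have h2 : BE (Pz w) ≤ Real.exp (-(∑ p ∈ Pz w, (1 : ℝ) / p)) := by
    unfold BE
    rw [← sum_neg_distrib, Real.exp_sum]
    apply Finset.prod_le_prod
    · intro p hp
      exact (one_sub_prime_pos (mem_Pz.1 hp).2).le
    · intro p _
      have := Real.add_one_le_exp (-(1 / (p : ℝ)))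
      linarith
  refine h2.trans ?_
  have h3 : Real.exp (-(∑ p ∈ Pz w, (1 : ℝ) / p)) ≤ Real.exp (C2 - Real.log (Real.log w)) := by
    apply Real.exp_le_exp.2
    linarith
  refine h3.trans (le_of_eq ?_)
  rw [Real.exp_sub, Real.exp_log hlw]

/-- removing few primes from the modulus -/
theorem BE_rem {w K : ℕ} {T : Finset ℕ} (hT : ∀ p ∈ T, p.Prime) (hTc : #T ≤ K) (hTK : ∀ p ∈ T, K ≤ p) :
    BE (Pz w \ T) ≤ Real.exp 5 * BE (Pz w) := by
  have h1 : BE (Pz w) = BE (Pz w \ T) * BE (Pz w ∩ T) := by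
    unfold BE
    rw [← prod_union (disjoint_sdiff_inter _ _), sdiff_union_inter]
  have hsum : ∑ p ∈ T, (1 : ℝ) / p ≤ 1 := by
    rcases Nat.eq_zero_or_pos K with h0 | h0
    · have : T = ∅ := by
        rw [h0] at hTc
        exact card_eq_zero.1 (by omega)
      rw [this, sum_empty]; norm_num
    · have hK : (0 : ℝ) < K := by exact_mod_cast h0
      calc ∑ p ∈ T, (1 : ℝ) / p ≤ ∑ p ∈ T, (1 : ℝ) / K := by
            apply sum_le_sum
            intro p hp
            apply one_div_le_one_div_of_le hK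
            exact_mod_cast hTK p hp
        _ = #T * (1 / K) := by rw [sum_const, nsmul_eq_mul]
        _ ≤ K * (1 / K) := by
            have : (#T : ℝ) ≤ K := by exact_mod_cast hTc
            gcongr
        _ = 1 := by field_simp
  have h2 : Real.exp (-5) ≤ BE (Pz w ∩ T) := by
    refine le_trans ?_ (BE_anti (inter_subset_right : Pz w ∩ T ⊆ T) hT)
    refine le_trans ?_ (BE_ge hT)
    apply Real.exp_le_exp.2
    linarith
  have h3 : 0 < BE (Pz w \ T) := BE_pos fun p hp => (mem_Pz.1 (Finset.mem_sdiff.1 hp).1).2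
  rw [h1]
  calc BE (Pz w \ T) = Real.exp 5 * (BE (Pz w \ T) * Real.exp (-5)) := by
        rw [mul_left_comm, ← Real.exp_add]; norm_num
    _ ≤ Real.exp 5 * (BE (Pz w \ T) * BE (Pz w ∩ T)) := by gcongr

end Pool.Agent.H262R3.Lk
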