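import Mathlib
import Pool.Agent.H262R3.Lk.Fn2

open Finset Filter

/-! The exceptional modulus, and the primes left out of the modulus of the sieve. -/

namespace Pool.Agent.H262R3.Lk

open Pool.Agent.H378R2 Pool.Agent.H262R2.UM Pool.Agent.H262R2.UP

/-- the size of the primes of the modulus -/
noncomputable def wM (M : ℕ) : ℕ := ⌊Real.log M / 2⌋₊

/-- the modulus -/
noncomputable def WT (M : ℕ) (T : Finset ℕ) : ℕ := ∏ p ∈ Pz (wM M) \ T, p

theorem WT_pos (M : ℕ) (T : Finset ℕ) : 0 < WT M T := by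
  unfold WT
  exact prod_pos fun p hp => (mem_Pz.1 (Finset.mem_sdiff.1 hp).1).2.pos

theorem WT_pf (M : ℕ) (T : Finset ℕ) : (WT M T).primeFactors = Pz (wM M) \ T := by
  unfold WT
  exact Nat.primeFactors_prod fun p hp => (mem_Pz.1 (Finset.mem_sdiff.1 hp).1).2

theorem WT_le (M : ℕ) (hM : 1 ≤ M) (T : Finset ℕ) : WT M T ≤ M := by
  have hMr : (1 : ℝ) ≤ M := by exact_mod_cast hM
  have hlog : 0 ≤ Real.log M := Real.log_nonneg hMr
  have h1 : WT M T ≤ ∏ p ∈ Pz (wM M), p := by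
    unfold WT
    apply Finset.prod_le_prod_of_subset_of_one_le' sdiff_subset
    intro p hp _
    exact (mem_Pz.1 hp).2.one_lt.le
  have h2 : ∏ p ∈ Pz (wM M), p ≤ 4 ^ (wM M) := primorial_le_four_pow (wM M)
  have h3 : ((4 : ℝ) ^ (wM M)) ≤ M := by
    rw [← Real.rpow_natCast, Real.rpow_def_of_pos (by norm_num)]
    have h4 : (wM M : ℝ) ≤ Real.log M / 2 := Nat.floor_le (by positivity)
    have h5 : Real.log 4 ≤ 2 := by
      have : Real.log 4 = 2 * Real.log 2 := by
        rw [show (4 : ℝ) = 2 ^ 2 by norm_num, Real.log_pow]; norm_num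
      rw [this]
      have := Real.log_two_lt_d9
      linarith
    have h6 : Real.log 4 * (wM M : ℝ) ≤ Real.log M := by
      calc Real.log 4 * (wM M : ℝ) ≤ 2 * (Real.log M / 2) := by
            apply mul_le_mul h5 h4 (Nat.cast_nonneg _) (by norm_num)
        _ = Real.log M := by ring
    calc Real.exp (Real.log 4 * (wM M : ℝ)) ≤ Real.exp (Real.log M) := Real.exp_le_exp.2 h6
      _ = M := Real.exp_log (by linarith)
  have h4 : (4 : ℕ) ^ (wM M) ≤ M := by exact_mod_cast h3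
  exact h1.trans (h2.trans h4)

/-- the part of the exceptional modulus without small primes -/
def fp (q1 Z0 : ℕ) : ℕ := ∏ p ∈ q1.primeFactors.filter (fun p => Z0 < p), p ^ q1.factorization p

theorem fp_exists {q1 Z0 a : ℕ} (ha : a ≠ 0) (h : ¬ fp q1 Z0 ∣ a) :
    ∃ p : ℕ, p.Prime ∧ Z0 < p ∧ a.factorization p < q1.factorization p := by
  by_contra hcon
  push Not at hcon
  apply h
  unfold fp
  apply Finset.prod_dvd_of_isRelPrime
  · intro p hp q hq hpq
    rw [mem_coe, mem_filter] at hp hq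
    rw [Function.onFun, ← Nat.coprime_iff_isRelPrime]
    apply Nat.Coprime.pow
    exact (Nat.coprime_primes (Nat.prime_of_mem_primeFactors hp.1) (Nat.prime_of_mem_primeFactors hq.1)).2 hpq
  · intro p hp
    rw [mem_filter] at hp
    have hpp := Nat.prime_of_mem_primeFactors hp.1
    exact (hpp.pow_dvd_iff_le_factorization ha).2 (hcon p hpp hp.2)

theorem not_dvd_of_fact {q1 a M p : ℕ} {T : Finset ℕ} (ha : a ≠ 0) (hpT : p ∈ T) (hp : p.Prime)
    (h : a.factorization p < q1.factorization p) : ¬ q1 ∣ a * WT M T := by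
  intro hd
  have hW := (WT_pos M T).ne'
  have h1 : q1.factorization p ≤ (a * WT M T).factorization p := by
    have hne : a * WT M T ≠ 0 := mul_ne_zero ha hW
    have hq : q1 ≠ 0 := fun h0 => by rw [h0] at hd; exact hne (Nat.eq_zero_of_zero_dvd hd)
    exact (Nat.factorization_le_iff_dvd hq hne).2 hd p
  rw [Nat.factorization_mul ha hW, Finsupp.add_apply] at h1
  have h2 : (WT M T).factorization p = 0 := by
    apply Nat.factorization_eq_zero_of_not_dvd
    intro h3
    have h4 : p ∈ (WT M T).primeFactors := Nat.mem_primeFactors.2 ⟨hp, h3, hW⟩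
    rw [WT_pf] at h4
    exact (Finset.mem_sdiff.1 h4).2 hpT
  omega

theorem fp_large (hqs : St_QS) (q1 Z0 : ℕ) (hq1 : 0 < q1) (hZ : 1 ≤ Z0) (χ : DirichletCharacter ℂ q1) (hχ : χ.IsPrimitive)
    (hχ2 : χ ^ 2 = 1) : q1 ≤ (Z0 ^ 3) ^ (Z0 + 1) * fp q1 Z0 := by
  obtain ⟨h1, h2⟩ := hqs q1 χ hq1 hχ hχ2
  have h3 : q1 = (∏ p ∈ q1.primeFactors.filter (fun p => ¬ Z0 < p), p ^ q1.factorization p) * fp q1 Z0 := by
    unfold fp
    rw [mul_comm, prod_filter_mul_prod_filter_not]
    exact (Nat.prod_primeFactors_pow_factorization hq1.ne')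
  have h4 : ∏ p ∈ q1.primeFactors.filter (fun p => ¬ Z0 < p), p ^ q1.factorization p ≤ (Z0 ^ 3) ^ (Z0 + 1) := by
    have h5 : ∀ p ∈ q1.primeFactors.filter (fun p => ¬ Z0 < p), p ^ q1.factorization p ≤ Z0 ^ 3 := by
      intro p hp
      rw [mem_filter, not_lt] at hp
      have hpp := Nat.prime_of_mem_primeFactors hp.1
      have h6 : q1.factorization p ≤ 3 := by
        by_contra hcon
        push Not at hcon
        by_cases hp2 : p = 2
        · subst hp2
          apply h2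
          have : 2 ^ 4 ∣ q1 := (hpp.pow_dvd_iff_le_factorization hq1.ne').2 hcon
          simpa using this
        · apply h1 p hpp hp2
          exact (hpp.pow_dvd_iff_le_factorization hq1.ne').2 (by omega)
      calc p ^ q1.factorization p ≤ p ^ 3 := Nat.pow_le_pow_right hpp.pos h6
        _ ≤ Z0 ^ 3 := Nat.pow_le_pow_left hp.2 3
    have h7 : #(q1.primeFactors.filter (fun p => ¬ Z0 < p)) ≤ Z0 + 1 := by
      have h8 : q1.primeFactors.filter (fun p => ¬ Z0 < p) ⊆ range (Z0 + 1) := by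
        intro p hp
        rw [mem_filter, not_lt] at hp
        rw [mem_range]
        omega
      have := card_le_card h8
      rwa [card_range] at this
    calc ∏ p ∈ q1.primeFactors.filter (fun p => ¬ Z0 < p), p ^ q1.factorization p ≤
        (Z0 ^ 3) ^ #(q1.primeFactors.filter (fun p => ¬ Z0 < p)) := prod_le_pow_card _ _ _ h5
      _ ≤ (Z0 ^ 3) ^ (Z0 + 1) := Nat.pow_le_pow_right (by positivity) h7
  calc q1 = (∏ p ∈ q1.primeFactors.filter (fun p => ¬ Z0 < p), p ^ q1.factorization p) * fp q1 Z0 := h3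
    _ ≤ _ := Nat.mul_le_mul_right _ h4

/-- the exceptional modulus -/
theorem exc (hqs : St_QS) (hsw : St_SWQ) (K B : ℕ) : ∃ M0 : ℕ, ∀ M : ℕ, M0 ≤ M → ∀ q1 : ℕ, 1 < q1 →
    (M ^ 32 < q1 ∨ ∃ χ : DirichletCharacter ℂ q1, χ.IsPrimitive ∧ χ ^ 2 = 1 ∧
      ∃ σ : ℝ, 0 < σ ∧ σ ≤ 1 ∧ ‖Lj (M ^ 32) χ 0 σ‖ < 1 / 2) →
    ∃ f1 : ℕ, (Real.log M) ^ B < f1 ∧ ∀ a : Fin K → ℕ, (∀ i, 0 < a i ∧ a i ≤ M) → (∀ i, ¬ f1 ∣ a i) →
      ∃ T : Finset ℕ, (∀ p ∈ T, p.Prime) ∧ #T ≤ K ∧ (∀ p ∈ T, K ≤ p) ∧ ∀ i, ¬ q1 ∣ a i * WT M T := by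
  obtain ⟨z0, hz0⟩ := hsw (B + 1)
  set Z0 := K + 1 with hZ0
  set Cu : ℕ := (Z0 ^ 3) ^ (Z0 + 1) with hCu
  have hev : ∀ᶠ M : ℕ in atTop, (Cu : ℝ) + 1 ≤ Real.log M :=
    (Real.tendsto_log_atTop.comp tendsto_natCast_atTop_atTop).eventually_ge_atTop _
  obtain ⟨M2, hM2⟩ := eventually_atTop.1 hev
  refine ⟨z0 + M2 + 2, fun M hM q1 hq1 hor => ?_⟩
  have hM1 : 1 ≤ M := by omega
  have hMr : (2 : ℝ) ≤ M := by
    have : 2 ≤ M := by omega
    exact_mod_cast this
  have hlM := hM2 M (by omega)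
  have hCu0 : (0 : ℝ) < Cu := by
    have : 0 < Cu := by rw [hCu, hZ0]; positivity
    exact_mod_cast this
  have hlM0 : 0 < Real.log M := by linarith
  by_cases hlarge : M ^ 32 < q1
  · refine ⟨M + 1 + ⌈(Real.log M) ^ B⌉₊, ?_, ?_⟩
    · push_cast
      have := Nat.le_ceil ((Real.log M) ^ B)
      linarith
    · intro a ha _
      refine ⟨∅, ?_, ?_, ?_, ?_⟩
      · intro p hp; exact absurd hp (notMem_empty p)
      · simp
      · intro p hp; exact absurd hp (notMem_empty p)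
      · intro i hd
        have hW := WT_pos M ∅
        have h1 := Nat.le_of_dvd (Nat.mul_pos (ha i).1 hW) hd
        have h2 : a i * WT M ∅ ≤ M * M := Nat.mul_le_mul (ha i).2 (WT_le M hM1 ∅)
        have h3 : M * M ≤ M ^ 32 := by
          calc M * M = M ^ 2 := (sq M).symm
            _ ≤ M ^ 32 := Nat.pow_le_pow_right hM1 (by norm_num)
        omega
  · obtain ⟨χ, hχ, hχ2, σ, hσ, hσ1, hlt⟩ := hor.resolve_left hlarge
    have hq1large : (Real.log ((M ^ 32 : ℕ) : ℝ)) ^ (B + 1) < q1 := by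
      by_contra hcon
      push Not at hcon
      have hz : z0 ≤ M ^ 32 := by
        calc z0 ≤ M := by omega
          _ ≤ M ^ 32 := Nat.le_self_pow (by norm_num) M
      have := hz0 (M ^ 32) hz q1 hq1 hcon χ hχ σ hσ hσ1
      linarith
    have hfl := fp_large hqs q1 Z0 (by omega) (by omega) χ hχ hχ2
    have hflr : (q1 : ℝ) ≤ Cu * fp q1 Z0 := by exact_mod_cast hfl
    have hlogz : Real.log M ≤ Real.log ((M ^ 32 : ℕ) : ℝ) := by
      apply Real.log_le_log (by linarith)
      exact_mod_cast Nat.le_self_pow (by norm_num) M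
    refine ⟨fp q1 Z0, ?_, ?_⟩
    · have h1 : (Real.log M) ^ (B + 1) < Cu * fp q1 Z0 :=
        lt_of_le_of_lt (pow_le_pow_left₀ hlM0.le hlogz _) (hq1large.trans_le hflr)
      have h2 : (Real.log M) ^ B * Cu < Cu * fp q1 Z0 := by
        refine lt_of_le_of_lt ?_ h1
        rw [pow_succ]
        apply mul_le_mul_of_nonneg_left _ (by positivity)
        linarith
      rw [mul_comm] at h2
      exact lt_of_mul_lt_mul_left h2 hCu0.le
    · intro a ha hfa
      have hex : ∀ i, ∃ p : ℕ, p.Prime ∧ Z0 < p ∧ (a i).factorization p < q1.factorization p :=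
        fun i => fp_exists (ha i).1.ne' (hfa i)
      choose p hp1 hp2 hp3 using hex
      refine ⟨univ.image p, ?_, ?_, ?_, ?_⟩
      · intro r hr
        rw [mem_image] at hr
        obtain ⟨i, _, rfl⟩ := hr
        exact hp1 i
      · refine card_image_le.trans ?_
        rw [card_univ, Fintype.card_fin]
      · intro r hr
        rw [mem_image] at hr
        obtain ⟨i, _, rfl⟩ := hr
        have := hp2 i
        omega
      · intro i
        exact not_dvd_of_fact (ha i).1.ne' (mem_image_of_mem p (mem_univ i)) (hp1 i) (hp3 i)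

end Pool.Agent.H262R3.Lk
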