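import Mathlib
import Pool.Agent.H262R3.Lk.Fn3

open Finset Filter

/-! The comparison of the main terms. -/

namespace Pool.Agent.H262R3.Lk

open Pool.Agent.H378R2 Pool.Agent.H262R2.UM Pool.Agent.H262R2.UP

theorem main_ineq {K0 : ℕ} (X Y W LX c5 c3 c4 ll lw BW BPV pcv φaW φW a : ℝ) (e : Fin (K0 + 1) → ℝ) (e' : Fin K0 → ℝ)
    (i : Fin (K0 + 1)) (hX : 0 < X) (hW : 0 < W) (hLX : 0 < LX) (hc5 : 0 < c5) (hc3 : 0 < c3) (hc4 : 0 < c4)
    (hll : 0 < ll) (hlw : ll / 4 ≤ lw) (hBW0 : 0 < BW) (hBW : BW ≤ Real.exp 5 * (c4 / lw)) (hBPV : c3 / ll ≤ BPV)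
    (he : ∀ j, 0 < e j) (he' : ∀ j, 0 < e' j) (hkey : BPV * ∏ j, e' j ≤ e i * ∏ j, e (i.succAbove j))
    (ha : 0 < a) (hφ0 : 0 < φaW) (hφaW : φaW ≤ a * φW) (hφW : φW = W * BW) (haX : a * X ≤ Y)
    (hpc : c5 * Y / φaW ≤ pcv) :
    (c5 * (c3 / (4 * c4 * Real.exp 5))) * (X / W) * LX * (1 / ∏ j, (LX * e j)) ≤ pcv * (1 / ∏ j, (LX * e' j)) := by
  have hE : 0 < Real.exp 5 := Real.exp_pos 5
  have h1 := Z_le LX 1 BPV BPV e' e i hLX he he' (by rw [one_mul]) hkey
  rw [one_mul] at h1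
  have hBPV0 : 0 < BPV := lt_of_lt_of_le (by positivity) hBPV
  have hlw0 : 0 < lw := by linarith
  have hP : 0 < ∏ j, (LX * e j) := prod_pos fun j _ => mul_pos hLX (he j)
  -- lower bound of the prime sum
  have h2 : c5 * X / (W * BW) ≤ pcv := by
    refine le_trans ?_ hpc
    have h3 : φaW ≤ a * (W * BW) := by rw [← hφW]; exact hφaW
    calc c5 * X / (W * BW) = c5 * (a * X) / (a * (W * BW)) := by field_simp
      _ ≤ c5 * Y / φaW := by
          apply div_le_div₀ _ _ hφ0 h3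
          · have : 0 < Y := lt_of_lt_of_le (by positivity) haX
            positivity
          · exact mul_le_mul_of_nonneg_left haX hc5.le
  have hpc0 : 0 < pcv := lt_of_lt_of_le (by positivity) h2
  -- comparison of the Euler products
  have h4 : (c3 / (4 * c4 * Real.exp 5)) * BW ≤ BPV := by
    refine le_trans ?_ hBPV
    have h5 : BW ≤ Real.exp 5 * (c4 / (ll / 4)) := by
      refine hBW.trans ?_
      apply mul_le_mul_of_nonneg_left _ hE.le
      exact div_le_div_of_nonneg_left hc4.le (by positivity) hlw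
    calc (c3 / (4 * c4 * Real.exp 5)) * BW ≤ (c3 / (4 * c4 * Real.exp 5)) * (Real.exp 5 * (c4 / (ll / 4))) := by
          gcongr
      _ = c3 / ll := by field_simp
  have h6 : (c5 * (c3 / (4 * c4 * Real.exp 5))) * (X / W) ≤ pcv * BPV := by
    calc (c5 * (c3 / (4 * c4 * Real.exp 5))) * (X / W) =
          (c5 * X / (W * BW)) * ((c3 / (4 * c4 * Real.exp 5)) * BW) := by field_simp
      _ ≤ pcv * BPV := mul_le_mul h2 h4 (by positivity) hpc0.le
  calc (c5 * (c3 / (4 * c4 * Real.exp 5))) * (X / W) * LX * (1 / ∏ j, (LX * e j)) =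
        ((c5 * (c3 / (4 * c4 * Real.exp 5))) * (X / W)) * (LX * (1 / ∏ j, (LX * e j))) := by ring
    _ ≤ (pcv * BPV) * (LX * (1 / ∏ j, (LX * e j))) := by
        apply mul_le_mul_of_nonneg_right h6 (by positivity)
    _ = pcv * (BPV * LX * (1 / ∏ j, (LX * e j))) := by ring
    _ ≤ _ := mul_le_mul_of_nonneg_left h1 hpc0.le

end Pool.Agent.H262R3.Lk
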