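import Mathlib
import Pool.Agent.H262R3.Lk.Fn4
import Pool.Agent.H262R3.Lk.All

open Finset Filter

/-! The eventual form of the theorem. -/

namespace Pool.Agent.H262R3.Lk

open Pool.Agent.H378R2 Pool.Agent.H262R2.UM Pool.Agent.H262R2.UP

/-- the shift of the window -/
noncomputable def sh (a : ℕ) : ℕ := ⌈2 * Real.log a⌉₊

theorem sh_low {a : ℕ} (ha : 0 < a) : (a : ℝ) ≤ Real.exp ((sh a : ℝ) / 2) := by
  have har : (0 : ℝ) < a := by exact_mod_cast ha
  have h1 : 2 * Real.log a ≤ sh a := Nat.le_ceil _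
  calc (a : ℝ) = Real.exp (Real.log a) := (Real.exp_log har).symm
    _ ≤ _ := Real.exp_le_exp.2 (by linarith)

theorem sh_up {a : ℕ} (ha : 0 < a) : Real.exp ((sh a : ℝ) / 2) ≤ 2 * a := by
  have har : (0 : ℝ) < a := by exact_mod_cast ha
  have har1 : (1 : ℝ) ≤ a := by exact_mod_cast ha
  have hlog : 0 ≤ Real.log a := Real.log_nonneg har1
  have h1 : (sh a : ℝ) < 2 * Real.log a + 1 := Nat.ceil_lt_add_one (by positivity)
  have h12 : Real.exp (1 / 2) ≤ 2 := by
    have h := Real.exp_one_lt_d9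
    have h2 : Real.exp (1 / 2) * Real.exp (1 / 2) = Real.exp 1 := by
      rw [← Real.exp_add]; norm_num
    nlinarith [Real.exp_pos (1 / 2)]
  calc Real.exp ((sh a : ℝ) / 2) ≤ Real.exp (Real.log a + 1 / 2) := Real.exp_le_exp.2 (by linarith)
    _ = a * Real.exp (1 / 2) := by rw [Real.exp_add, Real.exp_log har]
    _ ≤ a * 2 := mul_le_mul_of_nonneg_left h12 har.le
    _ = 2 * a := by ring

theorem sh_up' {a : ℕ} (ha : 0 < a) : Real.exp 1 * Real.exp ((sh a : ℝ) / 2) ≤ 8 * a := by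
  have har : (0 : ℝ) < a := by exact_mod_cast ha
  have h1 := sh_up ha
  have h3 : Real.exp 1 ≤ 4 := by
    have := Real.exp_one_lt_d9
    linarith
  calc Real.exp 1 * Real.exp ((sh a : ℝ) / 2) ≤ 4 * (2 * a) :=
        mul_le_mul h3 h1 (Real.exp_pos _).le (by norm_num)
    _ = 8 * a := by ring

/-- a sub-family indexed by a large set -/
theorem sub_emb {K k : ℕ} (I : Finset (Fin K)) (h : k ≤ #I) : ∃ e : Fin k → Fin K, Function.Injective e ∧ ∀ j, e j ∈ I := by
  obtain ⟨I', hI', hc⟩ := Finset.exists_subset_card_eq h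
  exact ⟨fun j => I'.orderEmbOfFin hc j, fun x y hxy => (I'.orderEmbOfFin hc).injective hxy,
    fun j => hI' (I'.orderEmbOfFin_mem hc j)⟩

theorem pf_prod {s : Finset ℕ} (hs : ∀ p ∈ s, p.Prime) {p : ℕ} (hp : p.Prime) (h : p ∣ ∏ q ∈ s, q) : p ∈ s := by
  obtain ⟨q, hq, hd⟩ := (Prime.dvd_finsetProd_iff hp.prime _).1 h
  rwa [(Nat.prime_dvd_prime_iff_eq hp (hs q hq)).1 hd]

end Pool.Agent.H262R3.Lk
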