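import Mathlib
import Pool.Agent.H262R3.Lk.Fn5

open Finset Filter

/-! The sieve step for a family of forms with many primes in a common window. -/

namespace Pool.Agent.H262R3.Lk

open Pool.Agent.H378R2 Pool.Agent.H262R2.UM Pool.Agent.H262R2.UP

theorem wM_facts (A2 : ℕ) : ∀ᶠ M : ℕ in atTop, 3 ≤ wM M ∧ ∀ X : ℝ, (M : ℝ) ≤ X → X ≤ (M : ℝ) ^ (4 * A2) →
    0 < Real.log (Real.log X) ∧ Real.log (Real.log X) / 4 ≤ Real.log (wM M) ∧ wM M ≤ zL X := by
  have hT : Tendsto (fun M : ℕ => Real.log M) atTop atTop :=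
    Real.tendsto_log_atTop.comp tendsto_natCast_atTop_atTop
  have hT2 : Tendsto (fun M : ℕ => Real.log (Real.log M)) atTop atTop := Real.tendsto_log_atTop.comp hT
  filter_upwards [hT.eventually_ge_atTop 12, hT2.eventually_ge_atTop (2 * Real.log 4 + Real.log (4 * A2 + 1)),
    eventually_ge_atTop 3] with M h1 h2 h3
  set L := Real.log M with hL
  have hMr : (3 : ℝ) ≤ M := by exact_mod_cast h3
  have hw1 : (wM M : ℝ) ≤ L / 2 := Nat.floor_le (by linarith)
  have hw2 : L / 2 < wM M + 1 := Nat.lt_floor_add_one _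
  have hw3 : 3 ≤ wM M := by
    have : (3 : ℝ) ≤ wM M := by linarith
    exact_mod_cast this
  refine ⟨hw3, fun X hX1 hX2 => ?_⟩
  have hX0 : 0 < X := by linarith
  have hlX1 : L ≤ Real.log X := Real.log_le_log (by linarith) hX1
  have hlX2 : Real.log X ≤ (4 * A2 + 1) * L := by
    have h4 := Real.log_le_log hX0 hX2
    rw [Real.log_pow] at h4
    push_cast at h4
    rw [← hL] at h4
    linarith
  have hA : (0 : ℝ) < 4 * A2 + 1 := by positivity
  have hll : Real.log (Real.log X) ≤ Real.log (4 * A2 + 1) + Real.log L := by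
    rw [← Real.log_mul hA.ne' (by linarith)]
    exact Real.log_le_log (by linarith) hlX2
  have hlog4 : 0 < Real.log 4 := Real.log_pos (by norm_num)
  have hlA : 0 ≤ Real.log (4 * A2 + 1) := Real.log_nonneg (by
    have : (0 : ℝ) ≤ A2 := Nat.cast_nonneg _
    linarith)
  have hlw : Real.log L - Real.log 4 ≤ Real.log (wM M) := by
    rw [← Real.log_div (by linarith) (by norm_num)]
    apply Real.log_le_log (by linarith)
    linarith
  have hll1 : Real.log L ≤ Real.log (Real.log X) := Real.log_le_log (by linarith) hlX1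
  refine ⟨by linarith, by linarith, ?_⟩
  unfold zL
  apply Nat.le_floor
  calc (wM M : ℝ) ≤ L / 2 := hw1
    _ ≤ Real.log X := by linarith
    _ ≤ (Real.log X) ^ 20 := le_self_pow₀ (by linarith) (by norm_num)

set_option maxHeartbeats 16000000 in
theorem stage2 (c5 : ℝ) (hc5 : 0 < c5) (m : ℕ) : ∃ K0 A1 : ℕ, ∀ A2 : ℕ, ∃ M0 : ℕ, ∀ M : ℕ, M0 ≤ M →
    ∀ (K l a0 : ℕ) (T : Finset ℕ) (a b : Fin (K0 + 1) → ℕ), (∀ p ∈ T, p.Prime) → #T ≤ K → (∀ p ∈ T, K ≤ p) →
    Adm a b → (∀ i, 0 < a i ∧ b i ≤ a i) → Function.Injective (fun i => (a i, b i)) → (∀ i, a i ≤ M) →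
    (M : ℝ) ^ (4 * A1) ≤ Real.exp ((l : ℝ) / 2) → Real.exp ((l : ℝ) / 2) ≤ (M : ℝ) ^ (4 * A2) →
    (∀ i, (a i * a0 + b i).Coprime (a i * WT M T)) →
    (∀ i, c5 / ((a i * WT M T).totient : ℝ) ≤ wn (a i * WT M T) (a i * a0 + b i) (l + sh (a i))) →
    ∃ n : ℕ, (n : ℝ) ≤ 8 * Real.exp ((l : ℝ) / 2) ∧
      m ≤ #((univ : Finset (Fin (K0 + 1))).filter (fun i => (a i * n + b i).Prime)) := by
  obtain ⟨c3, hc3, hBElow⟩ := BE_low
  obtain ⟨c4, hc4, hBEup⟩ := BE_up
  have he5 : 0 < Real.exp 5 := Real.exp_pos 5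
  obtain ⟨K0, hcore⟩ := coreL m (c5 * (c3 / (4 * c4 * Real.exp 5))) c3 (by positivity) hc3
  obtain ⟨Cd, hCd0, hEmc⟩ := EmP_card h_dens (K0 + 1)
  obtain ⟨A1, hrel⟩ := relbv2 h_ll1 (2 * K0 + 4)
  refine ⟨K0, A1 + 1000, fun A2 => ?_⟩
  obtain ⟨Q1, hrel'⟩ := hrel A2
  obtain ⟨X2, hX2⟩ := eventually_atTop.1 ((hcore Cd hCd0).and (hEmc.and ((hBElow Cd hCd0).and
    (eventually_ge_atTop (3 : ℝ)))))
  obtain ⟨M1, hM1⟩ := eventually_atTop.1 (wM_facts A2)
  refine ⟨Q1 + ⌈X2⌉₊ + M1 + 3, ?_⟩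
  intro M hM K l a0 T a b hTp hTc hTK hadm hab hinj haM hXlow hXup hcop hwn
  have hM3 : 3 ≤ M := by omega
  have hMr : (3 : ℝ) ≤ M := by exact_mod_cast hM3
  have hM0 : (0 : ℝ) < M := by linarith
  obtain ⟨hw3, hwX⟩ := hM1 M (by omega)
  obtain ⟨X, hXdef⟩ : ∃ X : ℝ, X = Real.exp ((l : ℝ) / 2) := ⟨_, rfl⟩
  rw [← hXdef] at hXlow hXup
  have hX0 : 0 < X := by rw [hXdef]; exact Real.exp_pos _
  have hMX1000 : (M : ℝ) ^ 1000 ≤ X := (pow_le_pow_right₀ (by linarith) (by omega)).trans hXlow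
  have hMX : (M : ℝ) ≤ X := (le_self_pow₀ (by linarith) (by norm_num)).trans hMX1000
  have hX1 : 1 ≤ X := by linarith
  obtain ⟨k1, k2, k3, k4⟩ := hX2 X (by
    have h7 : X2 ≤ ⌈X2⌉₊ := Nat.le_ceil _
    have h8 : ((⌈X2⌉₊ : ℕ) : ℝ) ≤ M := by
      have : ⌈X2⌉₊ ≤ M := by omega
      exact_mod_cast this
    linarith)
  obtain ⟨hll0, hlw, hwz⟩ := hwX X hMX hXup
  have hMXr : (M : ℝ) ≤ X ^ (1 / 1000 : ℝ) := by
    have h7 : ((M : ℝ) ^ 1000) ^ (1 / 1000 : ℝ) = M := by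
      rw [← Real.rpow_natCast, ← Real.rpow_mul hM0.le]
      norm_num
    rw [← h7]
    exact Real.rpow_le_rpow (by positivity) hMX1000 (by norm_num)
  set Q := M ^ 4 with hQ
  have hQr : ((Q : ℕ) : ℝ) = (M : ℝ) ^ 4 := by rw [hQ]; push_cast; rfl
  have hQ3 : 3 ≤ Q := hM3.trans (Nat.le_self_pow (by norm_num) M)
  have hQM : M ≤ Q := Nat.le_self_pow (by norm_num) M
  have hQX : (Q : ℝ) ≤ X := by
    rw [hQr]
    exact (pow_le_pow_right₀ (by linarith) (by norm_num)).trans hMX1000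
  have hQA1 : (Q : ℝ) ^ A1 ≤ X := by
    rw [hQr, ← pow_mul]
    exact (pow_le_pow_right₀ (by linarith) (by omega)).trans hXlow
  have hQA2 : X ≤ (Q : ℝ) ^ A2 := by
    rw [hQr, ← pow_mul]
    exact hXup
  set W := WT M T with hW
  have hWpos : 0 < W := WT_pos M T
  have hWM : W ≤ M := WT_le M (by omega) T
  have hapos : ∀ i, 0 < a i := fun i => (hab i).1
  have haX : ∀ i, (a i : ℝ) ≤ X ^ (1 / 1000 : ℝ) := fun i =>
    le_trans (by exact_mod_cast haM i) hMXr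
  have hWX : (W : ℝ) ≤ X ^ (1 / 500 : ℝ) := by
    have h1 : (W : ℝ) ≤ M := by exact_mod_cast hWM
    exact (h1.trans hMXr).trans (Real.rpow_le_rpow_of_exponent_le hX1 (by norm_num))
  -- the sets
  set P := Pz (zL X) ∪ Sb Q with hP
  have hPp : ∀ p ∈ P, p.Prime := by
    intro p hp
    rw [hP, mem_union] at hp
    rcases hp with h | h
    · exact (mem_Pz.1 h).2
    · exact Sb_prime h
  have hPz : ∀ p : ℕ, p.Prime → p ≤ zL X → p ∈ P := fun p hp hpz => by
    rw [hP, mem_union]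
    exact Or.inl (mem_Pz.2 ⟨hpz, hp⟩)
  have hDne := Dsc_ne hadm hapos hinj
  have hcd := k2 Q a b hadm hab hinj haX hQ3 hQX
  rw [← hP] at hcd
  have hGE := GoodEg_Es (X := X) hPp hDne hPz hcd
  have hGE' := GoodEg_Ex (X := X) hPp hDne hPz hcd
  have hGF : GoodFf (EsP P a b) a b := GoodFf_EsP hadm hapos hinj
  have hkey := key_BEP hPp hadm hapos hinj
  have hWpf := WT_pf M T
  have hEW : ∀ j, ∀ p : ℕ, p.Prime → p ∉ EsP P a b j → ¬ p ∣ W := by
    intro j p hp hpE hd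
    apply hpE
    unfold EsP
    rw [mem_union, mem_union]
    left; left
    apply hPz p hp
    have h1 : p ∈ W.primeFactors := Nat.mem_primeFactors.2 ⟨hp, hd, hWpos.ne'⟩
    rw [hWpf] at h1
    exact ((mem_Pz.1 (Finset.mem_sdiff.1 h1).1).1).trans hwz
  set P0 := (∏ i, a i) * ∏ p ∈ Sb Q, p with hP0
  have hEP : ∀ j, ∀ p : ℕ, p.Prime → p ∉ EsP P a b j → ¬ p ∣ W * P0 := by
    intro j p hp hpE hd
    rcases (Nat.Prime.dvd_mul hp).1 hd with h | h
    · exact hEW j p hp hpE h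
    · rw [hP0] at h
      apply hpE
      unfold EsP
      rw [mem_union, mem_union]
      left
      rcases (Nat.Prime.dvd_mul hp).1 h with h | h
      · right
        obtain ⟨i, _, hi⟩ := (Prime.dvd_finsetProd_iff hp.prime _).1 h
        exact mem_Va.2 ⟨i, Nat.mem_primeFactors.2 ⟨hp, hi, (hapos i).ne'⟩⟩
      · left
        rw [hP, mem_union]
        right
        exact pf_prod (fun q hq => Sb_prime hq) hp h
  -- Euler products
  have hEp : ∀ j, ∀ p ∈ EsP P a b j, p.Prime := fun j p hp => hGE.pr p (hGE.sub j hp)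
  have hEp' : ∀ i j, ∀ p ∈ Ex (EsP P a b) a b i j, p.Prime := fun i j p hp => (hGE' i).pr p ((hGE' i).sub j hp)
  have hφW : (W.totient : ℝ) = W * BE (Pz (wM M) \ T) := by
    rw [tot_BE, hWpf]
  have hBWp : ∀ p ∈ Pz (wM M) \ T, p.Prime := fun p hp => (mem_Pz.1 (Finset.mem_sdiff.1 hp).1).2
  have hBW0 := BE_pos hBWp
  have hBWup : BE (Pz (wM M) \ T) ≤ Real.exp 5 * (c4 / Real.log (wM M)) :=
    (BE_rem hTp hTc hTK).trans (mul_le_mul_of_nonneg_left (hBEup _ hw3) he5.le)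
  have hBPV : c3 / Real.log (Real.log X) ≤ BE (P ∪ Va a) := by
    have h1 : c3 / Real.log (Real.log X) ≤ BE (EmP P a b) := k3 _ (fun p hp => EmP_prime hPp hp) hcd
    refine h1.trans (BE_anti ?_ (fun p hp => EmP_prime hPp hp))
    intro p hp
    have h2 : p ∈ EsP P a b 0 := by
      unfold EsP
      exact mem_union_left _ hp
    exact EsP_sub hDne 0 h2
  have hBEP : c3 / Real.log (Real.log X) ≤ (W.totient : ℝ) / W := by
    have hWr : (0 : ℝ) < W := by exact_mod_cast hWpos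
    rw [hφW, mul_div_cancel_left₀ _ hWr.ne']
    have h1 : c3 / Real.log (Real.log X) ≤ BE (EmP P a b) := k3 _ (fun p hp => EmP_prime hPp hp) hcd
    refine h1.trans (BE_anti ?_ (fun p hp => EmP_prime hPp hp))
    intro p hp
    unfold EmP
    rw [mem_union]
    left
    exact hPz p (hBWp p hp) (((mem_Pz.1 (Finset.mem_sdiff.1 hp).1).1).trans hwz)
  -- the scales
  set Y : Fin (K0 + 1) → ℝ := fun i => Real.exp (((l + sh (a i) : ℕ) : ℝ) / 2) with hY
  have hYeq : ∀ i, Y i = X * Real.exp ((sh (a i) : ℝ) / 2) := by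
    intro i
    rw [hY, hXdef, ← Real.exp_add]
    simp only
    congr 1
    push_cast
    ring
  have hY1 : ∀ i, (a i : ℝ) * X ≤ Y i := by
    intro i
    rw [hYeq, mul_comm]
    exact mul_le_mul_of_nonneg_left (sh_low (hapos i)) hX0.le
  have hY2 : ∀ i, Real.exp 1 * Y i ≤ 8 * (a i * X) := by
    intro i
    rw [hYeq]
    have := mul_le_mul_of_nonneg_left (sh_up' (hapos i)) hX0.le
    calc Real.exp 1 * (X * Real.exp ((sh (a i) : ℝ) / 2)) = X * (Real.exp 1 * Real.exp ((sh (a i) : ℝ) / 2)) := by ring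
      _ ≤ X * (8 * a i) := this
      _ = _ := by ring
  have hXY : ∀ i, X ≤ Y i := by
    intro i
    have h1 : (1 : ℝ) ≤ a i := by exact_mod_cast hapos i
    have h2 := hY1 i
    nlinarith
  have hYX : ∀ i, Y i ≤ X ^ 2 := by
    intro i
    rw [hYeq, sq]
    apply mul_le_mul_of_nonneg_left _ hX0.le
    refine (sh_up (hapos i)).trans ?_
    have h1 : (a i : ℝ) ≤ M := by exact_mod_cast haM i
    have h2 : (M : ℝ) ^ 2 ≤ X := (pow_le_pow_right₀ (by linarith) (by norm_num)).trans hMX1000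
    nlinarith
  have hok : SvOK K0 X Cd (c5 * (c3 / (4 * c4 * Real.exp 5))) c3 a b W a0 P0 Y (EmP P a b) (EsP P a b) := by
    refine ⟨hab, haX, hWpos, hWX, hGE, hGE', hGF, hEW, hEP, hY1, hY2, hcop, hBEP, ?_, ?_⟩
    · intro i
      have hLL : 0 < LL X := by
        unfold LL
        have : 0 < Real.log X := Real.log_pos (by linarith)
        positivity
      refine main_ineq X (Y i) W (LL X) c5 c3 c4 (Real.log (Real.log X)) (Real.log (wM M)) (BE (Pz (wM M) \ T))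
        (BE (P ∪ Va a)) _ ((a i * W).totient) (W.totient) (a i) (fun j => BE (EsP P a b j))
        (fun j => BE (Ex (EsP P a b) a b i j)) i hX0 (by exact_mod_cast hWpos) hLL hc5 hc3 hc4 hll0 hlw hBW0 hBWup hBPV
        (fun j => BE_pos (hEp j)) (fun j => BE_pos (hEp' i j)) (hkey i) (by exact_mod_cast hapos i)
        (by exact_mod_cast Nat.totient_pos.2 (Nat.mul_pos (hapos i) hWpos)) (tot_mul_le (a i) W (hapos i) hWpos) hφW
        (hY1 i) ?_
      have h1 := hwn i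
      unfold wn at h1
      have hYi : Real.exp (((l + sh (a i) : ℕ) : ℝ) / 2) = Y i := rfl
      rw [hYi, le_div_iff₀ (lt_of_lt_of_le hX0 (hXY i))] at h1
      calc c5 * Y i / ((a i * W).totient : ℝ) = c5 / ((a i * W).totient : ℝ) * Y i := by ring
        _ ≤ _ := h1
    · intro i B hB
      refine hrel' Q ?_ X (Y i) (a i) W P0 hQA1 hQA2 (hXY i) (hYX i) (hapos i) hWpos ?_ ?_ ?_ B hB
      · omega
      · calc (a i * W) ^ 2 ≤ (M * M) ^ 2 := Nat.pow_le_pow_left (Nat.mul_le_mul (haM i) hWM) 2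
          _ = M ^ 4 := by ring
      · rw [hP0]
        exact (dvd_prod_of_mem a (mem_univ i)).mul_right _
      · intro f hf p hp hpf
        rw [hP0]
        apply Dvd.dvd.mul_left
        exact dvd_prod_of_mem (fun q => q) (mem_Sb hf hp hpf)
  obtain ⟨n, _, hn, hm⟩ := k1 a b W a0 P0 Y (EmP P a b) (EsP P a b) hok
  refine ⟨n, ?_, hm⟩
  rw [← hXdef]
  exact hn

end Pool.Agent.H262R3.Lk
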