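import Mathlib
import Pool.Agent.H262R3.Lk.Fn6

open Finset Filter

/-! The eventual form of the theorem. -/

namespace Pool.Agent.H262R3.Lk

open Pool.Agent.H378R2 Pool.Agent.H262R2.UM Pool.Agent.H262R2.UP

set_option maxHeartbeats 16000000 in
theorem evL (m : ℕ) : ∃ K A : ℕ, ∀ B : ℕ, ∃ M0 : ℕ, ∀ M : ℕ, M0 ≤ M → ∃ f1 : ℕ, (Real.log M) ^ B < f1 ∧
    ∀ a b : Fin K → ℕ, Adm a b → (∀ i, 0 < a i ∧ b i ≤ a i) → Function.Injective (fun i => (a i, b i)) →
      (∀ i, a i ≤ M) → (∀ i, ¬ f1 ∣ a i) →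
      ∃ n : ℕ, (n : ℝ) ≤ 8 * (M : ℝ) ^ A ∧ m ≤ #((univ : Finset (Fin K)).filter (fun i => (a i * n + b i).Prime)) := by
  obtain ⟨c1, δ0, hc1, hδ0, hδ01, hlow⟩ := h_low2
  obtain ⟨δ, c, hδ, hδ1, hc, hcomb⟩ := h_comb c1 hc1
  obtain ⟨η, R, c', hη, hηR, hc', hwin⟩ := h_win c hc
  obtain ⟨c5, hc5, hsel⟩ := h_sel η R c' hη hηR hc'
  obtain ⟨K0, A1, hst⟩ := stage2 c5 hc5 m
  set K : ℕ := ⌈((K0 : ℝ) + 1) / c5⌉₊ with hK
  obtain ⟨κ, hκdef⟩ : ∃ κ : ℝ, κ = min (η / (16 * ((A1 : ℝ) + 1))) (min (δ / 32) (min (δ0 / 32) (η / 128))) := ⟨_, rfl⟩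
  have hA1p : (0 : ℝ) < 16 * ((A1 : ℝ) + 1) := by positivity
  have hκ0 : 0 < κ := by
    rw [hκdef]
    exact lt_min (by positivity) (lt_min (by positivity) (lt_min (by positivity) (by positivity)))
  have hκ1 : κ ≤ η / (16 * ((A1 : ℝ) + 1)) := by rw [hκdef]; exact min_le_left _ _
  have hκ2 : κ ≤ δ / 32 := by rw [hκdef]; exact (min_le_right _ _).trans (min_le_left _ _)
  have hκ3 : κ ≤ δ0 / 32 := by
    rw [hκdef]; exact (min_le_right _ _).trans ((min_le_right _ _).trans (min_le_left _ _))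
  have hκ4 : κ ≤ η / 128 := by
    rw [hκdef]; exact (min_le_right _ _).trans ((min_le_right _ _).trans (min_le_right _ _))
  have hR0 : 0 < R := hη.trans hηR
  set A2 : ℕ := ⌈R / (8 * κ)⌉₊ with hA2
  have hA2r : R / (8 * κ) ≤ A2 := Nat.le_ceil _
  obtain ⟨M1, hst2⟩ := hst A2
  refine ⟨K, 4 * A2, fun B => ?_⟩
  obtain ⟨M2, hexc⟩ := exc h_qs h_swq K B
  refine ⟨M1 + M2 + 3, fun M hM => ?_⟩
  have hM3 : 3 ≤ M := by omega
  have hMr : (3 : ℝ) ≤ M := by exact_mod_cast hM3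
  have hM0 : (0 : ℝ) < M := by linarith
  have hL1 : 1 ≤ Real.log M := by
    rw [Real.le_log_iff_exp_le hM0]
    have := Real.exp_one_lt_d9
    linarith
  have hL0 : 0 < Real.log M := by linarith
  set z : ℕ := M ^ 32 with hz
  have hz32 : 32 ≤ z := by
    calc 32 ≤ 3 ^ 32 := by norm_num
      _ ≤ M ^ 32 := Nat.pow_le_pow_left hM3 32
  have hlogz : Real.log (z : ℝ) = 32 * Real.log M := by
    rw [hz]; push_cast; rw [Real.log_pow]; norm_num
  obtain ⟨q1, hq1, hor, hchar⟩ := hlow z hz32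
  obtain ⟨f1, hf1, hf1T⟩ := hexc M (by omega) q1 hq1 hor
  refine ⟨f1, hf1, fun a b hadm hab hinj haM hfa => ?_⟩
  have hapos : ∀ i, 0 < a i := fun i => (hab i).1
  obtain ⟨T, hTp, hTc, hTK, hq1T⟩ := hf1T a (fun i => ⟨hapos i, haM i⟩) hfa
  set W := WT M T with hW
  have hWpos : 0 < W := WT_pos M T
  have hWM : W ≤ M := WT_le M (by omega) T
  obtain ⟨a0, ha0⟩ := crt_class hadm (Pz (wM M) \ T) (fun p hp => (mem_Pz.1 (Finset.mem_sdiff.1 hp).1).2)
  have hcop : ∀ i, (a i * a0 + b i).Coprime (a i * W) := fun i =>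
    coprime_self_mul (adm_coprime hadm i) (ha0 i)
  have hqle : ∀ i, a i * W ≤ M ^ 2 := fun i => by
    calc a i * W ≤ M * M := Nat.mul_le_mul (haM i) hWM
      _ = M ^ 2 := by ring
  have hq1' : ∀ i, 1 ≤ a i * W := fun i => Nat.mul_pos (hapos i) hWpos
  have hq16 : ∀ i, (a i * W) ^ 16 ≤ z := fun i => by
    calc (a i * W) ^ 16 ≤ (M ^ 2) ^ 16 := Nat.pow_le_pow_left (hqle i) 16
      _ = z := by rw [hz, ← pow_mul]
  have hq8 : ∀ i, (a i * W) ^ 8 ≤ z := fun i =>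
    (Nat.pow_le_pow_right (hq1' i) (by norm_num)).trans (hq16 i)
  obtain ⟨σ, hσdef⟩ : ∃ σ : ℝ, σ = κ / Real.log M := ⟨_, rfl⟩
  have hσ0 : 0 < σ := by rw [hσdef]; positivity
  have hσz : σ * Real.log (z : ℝ) = 32 * κ := by
    rw [hlogz, hσdef]
    field_simp
  have hσδ : σ * Real.log (z : ℝ) ≤ δ := by rw [hσz]; linarith
  have hσδ0 : σ * Real.log (z : ℝ) ≤ δ0 := by rw [hσz]; linarith
  have hση : σ * Real.log (z : ℝ) ≤ η / 4 := by rw [hσz]; linarith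
  have hσs : ∀ i, σ * (sh (a i) : ℝ) ≤ η / 2 := by
    intro i
    have har : (1 : ℝ) ≤ a i := by exact_mod_cast hapos i
    have hlog : 0 ≤ Real.log (a i) := Real.log_nonneg har
    have h1 : (sh (a i) : ℝ) < 2 * Real.log (a i) + 1 := Nat.ceil_lt_add_one (by positivity)
    have h2 : Real.log (a i) ≤ Real.log M := Real.log_le_log (by linarith) (by exact_mod_cast haM i)
    have h3 : (sh (a i) : ℝ) ≤ 3 * Real.log M := by linarith
    calc σ * (sh (a i) : ℝ) ≤ σ * (3 * Real.log M) := mul_le_mul_of_nonneg_left h3 hσ0.le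
      _ = 3 * κ := by rw [hσdef]; field_simp
      _ ≤ η / 2 := by linarith
  have hwins : ∀ i, c' / ((a i * W).totient * σ ^ 3) ≤
      ∑ k ∈ Icc ⌈η / σ⌉₊ ⌊R / σ⌋₊, (k : ℝ) ^ 2 * Real.exp (-(σ * k / 2)) * wn (a i * W) (a i * a0 + b i) k := by
    intro i
    apply hwin z (a i * W) (a i * a0 + b i) σ hz32 (hq1' i) (hq8 i) (hcop i) hσ0 hση
    apply hcomb z (a i * W) (a i * a0 + b i) σ hz32 (hq1' i) (hq8 i) (hcop i) hσ0 hσδ
    intro χ hχ
    exact hchar (a i * W) (hq1' i) (hq16 i) (hq1T i) χ hχ σ hσ0 hσδ0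
  obtain ⟨l, hl1, hl2, hcard⟩ := hsel K z σ (fun i => a i * W) (fun i => a i * a0 + b i) (fun i => sh (a i)) hz32
    (fun i => ⟨hq1' i, hq8 i, hcop i⟩) hσ0 hση hσs hwins
  have hKr : ((K0 : ℝ) + 1) / c5 ≤ K := Nat.le_ceil _
  rw [div_le_iff₀ hc5] at hKr
  have hcard2 : K0 + 1 ≤ #((univ : Finset (Fin K)).filter (fun i => c5 / ((a i * W).totient : ℝ) ≤
      wn (a i * W) (a i * a0 + b i) (l + sh (a i)))) := by
    have h1 : ((K0 + 1 : ℕ) : ℝ) ≤ #((univ : Finset (Fin K)).filter (fun i => c5 / ((a i * W).totient : ℝ) ≤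
      wn (a i * W) (a i * a0 + b i) (l + sh (a i)))) := by
      push_cast
      linarith
    exact_mod_cast h1
  obtain ⟨e, he, heI⟩ := sub_emb _ hcard2
  have hlX1 : (M : ℝ) ^ (4 * A1) ≤ Real.exp ((l : ℝ) / 2) := by
    have h1 : (M : ℝ) ^ (4 * A1) = Real.exp ((4 * A1 : ℝ) * Real.log M) := by
      rw [← Real.rpow_natCast, Real.rpow_def_of_pos hM0]
      push_cast
      ring_nf
    rw [h1]
    apply Real.exp_le_exp.2
    have h2 : η / (2 * σ) = η / (2 * κ) * Real.log M := by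
      rw [hσdef]; field_simp
    rw [h2] at hl1
    have h3 : 16 * ((A1 : ℝ) + 1) * κ ≤ η := by
      rw [le_div_iff₀ hA1p] at hκ1
      linarith
    have h4 : 8 * ((A1 : ℝ) + 1) ≤ η / (2 * κ) := by
      rw [le_div_iff₀ (by positivity)]
      linarith
    have h5 : 8 * ((A1 : ℝ) + 1) * Real.log M ≤ l :=
      (mul_le_mul_of_nonneg_right h4 hL0.le).trans hl1
    nlinarith
  have hlX2 : Real.exp ((l : ℝ) / 2) ≤ (M : ℝ) ^ (4 * A2) := by
    have h1 : (M : ℝ) ^ (4 * A2) = Real.exp ((4 * A2 : ℝ) * Real.log M) := by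
      rw [← Real.rpow_natCast, Real.rpow_def_of_pos hM0]
      push_cast
      ring_nf
    rw [h1]
    apply Real.exp_le_exp.2
    have h2 : R / σ = 8 * (R / (8 * κ)) * Real.log M := by
      rw [hσdef]; field_simp
    rw [h2] at hl2
    have h5 : 8 * (R / (8 * κ)) * Real.log M ≤ 8 * A2 * Real.log M := by gcongr
    linarith
  obtain ⟨n, hn, hm⟩ := hst2 M (by omega) K l a0 T (fun j => a (e j)) (fun j => b (e j)) hTp hTc hTK
    (fun p hp => by
      obtain ⟨n, hn⟩ := hadm p hp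
      exact ⟨n, fun j => hn (e j)⟩)
    (fun j => hab (e j)) (fun x y hxy => he (hinj hxy)) (fun j => haM (e j)) hlX1 hlX2 (fun j => hcop (e j))
    (fun j => (mem_filter.1 (heI j)).2)
  refine ⟨n, ?_, ?_⟩
  · refine hn.trans ?_
    exact mul_le_mul_of_nonneg_left hlX2 (by norm_num)
  · refine hm.trans ?_
    have h1 : ((univ : Finset (Fin (K0 + 1))).filter (fun j => (a (e j) * n + b (e j)).Prime)).image e ⊆
        (univ : Finset (Fin K)).filter (fun i => (a i * n + b i).Prime) := by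
      intro i hi
      rw [mem_image] at hi
      obtain ⟨j, hj, rfl⟩ := hi
      rw [mem_filter] at hj ⊢
      exact ⟨mem_univ _, hj.2⟩
    have h2 := card_le_card h1
    rwa [card_image_of_injective _ he] at h2

end Pool.Agent.H262R3.Lk
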