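import Mathlib
import Pool.Agent.H262R3.Lk.Fn7

open Finset Filter

/-! The final form of the theorem. -/

namespace Pool.Agent.H262R3.Lk

open Pool.Agent.H378R2 Pool.Agent.H262R2.UM Pool.Agent.H262R2.UP

theorem finL (m : ℕ) : ∃ K A : ℕ, ∀ B : ℕ, ∃ γ : ℝ, ∀ M : ℕ, 2 ≤ M → ∃ f1 : ℕ, (Real.log M) ^ B < f1 ∧
    ∀ a b : Fin K → ℕ, Adm a b → (∀ i, 0 < a i ∧ b i ≤ a i) → Function.Injective (fun i => (a i, b i)) →
      (∀ i, a i ≤ M) → (∀ i, ¬ f1 ∣ a i) →
      ∃ n : ℕ, (n : ℝ) ≤ γ * (M : ℝ) ^ A ∧ m ≤ #((univ : Finset (Fin K)).filter (fun i => (a i * n + b i).Prime)) := by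
  obtain ⟨K, A, h⟩ := evL m
  refine ⟨K, A, fun B => ?_⟩
  obtain ⟨M0, hM0⟩ := h B
  obtain ⟨M1, hM1⟩ := h (B + 1)
  -- a scale at which the exceptional divisor exceeds `M0`
  have hev : ∀ᶠ M : ℕ in atTop, (M0 : ℝ) + 1 ≤ Real.log M :=
    (Real.tendsto_log_atTop.comp tendsto_natCast_atTop_atTop).eventually_ge_atTop _
  obtain ⟨M2, hM2⟩ := eventually_atTop.1 hev
  obtain ⟨M', hM'⟩ : ∃ M' : ℕ, M' = M0 + M1 + M2 + 2 := ⟨_, rfl⟩
  refine ⟨8 * (M' : ℝ) ^ A, fun M hM => ?_⟩
  have hM'1 : (1 : ℝ) ≤ M' := by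
    have : 1 ≤ M' := by omega
    exact_mod_cast this
  have hMr : (1 : ℝ) ≤ M := by
    have : 1 ≤ M := by omega
    exact_mod_cast this
  have hMp : (1 : ℝ) ≤ (M : ℝ) ^ A := one_le_pow₀ hMr
  have hM'p : (1 : ℝ) ≤ (M' : ℝ) ^ A := one_le_pow₀ hM'1
  rcases Nat.lt_or_ge M M0 with hlt | hge
  · obtain ⟨f1, hf1, hF⟩ := hM1 M' (by omega)
    have hlog0 : 0 ≤ Real.log M := Real.log_nonneg hMr
    have hl := hM2 M' (by omega)
    have hM00 : (0 : ℝ) ≤ M0 := Nat.cast_nonneg _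
    have hl1 : 1 ≤ Real.log M' := by linarith
    have hMM' : Real.log M ≤ Real.log M' := by
      apply Real.log_le_log (by linarith)
      have : M ≤ M' := by omega
      exact_mod_cast this
    refine ⟨f1, ?_, ?_⟩
    · refine lt_of_le_of_lt ?_ hf1
      calc (Real.log M) ^ B ≤ (Real.log M') ^ B := pow_le_pow_left₀ hlog0 hMM' B
        _ ≤ (Real.log M') ^ (B + 1) := pow_le_pow_right₀ hl1 (by omega)
    · intro a b hadm hab hinj haM _
      have haM' : ∀ i, a i ≤ M' := fun i => (haM i).trans (by omega)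
      have hfa : ∀ i, ¬ f1 ∣ a i := by
        intro i hd
        have h1 : (M0 : ℝ) < f1 := by
          refine lt_of_le_of_lt ?_ hf1
          have h2 : Real.log M' ≤ (Real.log M') ^ (B + 1) := le_self_pow₀ hl1 (by omega)
          linarith
        have h4 : M0 < f1 := by exact_mod_cast h1
        have h5 := Nat.le_of_dvd (hab i).1 hd
        have h6 := haM i
        omega
      obtain ⟨n, hn, hm⟩ := hF a b hadm hab hinj haM' hfa
      refine ⟨n, hn.trans ?_, hm⟩
      have h0 : 0 ≤ 8 * (M' : ℝ) ^ A := by positivity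
      nlinarith
  · obtain ⟨f1, hf1, hF⟩ := hM0 M hge
    refine ⟨f1, hf1, ?_⟩
    intro a b hadm hab hinj haM hfa
    obtain ⟨n, hn, hm⟩ := hF a b hadm hab hinj haM hfa
    refine ⟨n, hn.trans ?_, hm⟩
    have h0 : 0 ≤ (M : ℝ) ^ A := by linarith
    nlinarith

open Classical in
/-- double counting -/
theorem dbl_count {k K m : ℕ} (hmK : m ≤ K) (hKk : K ≤ k) (P : Finset (Fin k) → Prop)
    (h : ∀ U : Finset (Fin k), #U = K → ∃ S ⊆ U, #S = m ∧ P S) :
    (1 / (K.choose m : ℝ)) * (k.choose m : ℝ) ≤ #((powersetCard m (univ : Finset (Fin k))).filter P) := by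
  set G := (powersetCard m (univ : Finset (Fin k))).filter P with hG
  have h1 : k.choose K ≤ #G * (k - m).choose (K - m) := by
    have h2 : powersetCard K (univ : Finset (Fin k)) ⊆
        G.biUnion (fun S => (powersetCard K (univ : Finset (Fin k))).filter (fun U => S ⊆ U)) := by
      intro U hU
      have hUc := (mem_powersetCard.1 hU).2
      obtain ⟨S, hS, hSm, hPS⟩ := h U hUc
      rw [mem_biUnion]
      refine ⟨S, ?_, ?_⟩
      · rw [hG, mem_filter, mem_powersetCard]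
        exact ⟨⟨subset_univ _, hSm⟩, hPS⟩
      · rw [mem_filter]
        exact ⟨hU, hS⟩
    have h3 := card_le_card h2
    rw [card_powersetCard, card_univ, Fintype.card_fin] at h3
    refine h3.trans (card_biUnion_le_card_mul _ _ _ ?_)
    intro S hS
    have hSm : #S = m := by
      rw [hG, mem_filter, mem_powersetCard] at hS
      exact hS.1.2
    have h4 : #((powersetCard K (univ : Finset (Fin k))).filter (fun U => S ⊆ U)) ≤
        #(powersetCard (K - m) ((univ : Finset (Fin k)) \ S)) := by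
      apply card_le_card_of_injOn (fun U => U \ S)
      · intro U hU
        rw [mem_coe, mem_filter, mem_powersetCard] at hU
        rw [mem_coe, mem_powersetCard]
        refine ⟨sdiff_subset_sdiff (subset_univ _) (Subset.refl _), ?_⟩
        rw [card_sdiff_of_subset hU.2, hU.1.2, hSm]
      · intro U hU U' hU' hUU
        rw [mem_coe, mem_filter] at hU hU'
        have h5 : U \ S = U' \ S := hUU
        rw [← sdiff_union_of_subset hU.2, ← sdiff_union_of_subset hU'.2, h5]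
    refine h4.trans (le_of_eq ?_)
    rw [card_powersetCard, card_sdiff_of_subset (subset_univ _), card_univ, Fintype.card_fin, hSm]
  have h2 : k.choose K * K.choose m = k.choose m * (k - m).choose (K - m) := Nat.choose_mul hmK
  have h3 : 0 < K.choose m := Nat.choose_pos hmK
  have h4 : 0 < (k - m).choose (K - m) := Nat.choose_pos (by omega)
  have h5 : k.choose m * (k - m).choose (K - m) ≤ (#G * K.choose m) * (k - m).choose (K - m) := by
    rw [← h2]
    calc k.choose K * K.choose m ≤ (#G * (k - m).choose (K - m)) * K.choose m := Nat.mul_le_mul_right _ h1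
      _ = _ := by ring
  have h6 : k.choose m ≤ #G * K.choose m := Nat.le_of_mul_le_mul_right h5 h4
  have h7 : ((k.choose m : ℕ) : ℝ) ≤ #G * (K.choose m : ℝ) := by exact_mod_cast h6
  have h8 : (0 : ℝ) < K.choose m := by exact_mod_cast h3
  rw [one_div_mul_eq_div, div_le_iff₀ h8]
  exact h7

open Classical in
theorem finL2 (m : ℕ) : ∃ K A : ℕ, ∃ c : ℝ, 0 < c ∧ ∀ B : ℕ, ∃ γ : ℝ, ∀ M : ℕ, 2 ≤ M → ∃ f1 : ℕ,
    (Real.log M) ^ B < f1 ∧ ∀ k : ℕ, K ≤ k →
    ∀ a b : Fin k → ℕ, Adm a b → (∀ i, 0 < a i ∧ b i ≤ a i) → Function.Injective (fun i => (a i, b i)) →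
      (∀ i, a i ≤ M) → (∀ i, ¬ f1 ∣ a i) →
      c * (k.choose m : ℝ) ≤ #((powersetCard m (univ : Finset (Fin k))).filter
        (fun S => ∃ n : ℕ, (n : ℝ) ≤ γ * (M : ℝ) ^ A ∧ ∀ i ∈ S, (a i * n + b i).Prime)) := by
  obtain ⟨K, A, h⟩ := finL m
  refine ⟨K + m, A, 1 / ((K + m).choose m : ℝ), ?_, ?_⟩
  · have : (0 : ℝ) < ((K + m).choose m : ℝ) := by exact_mod_cast Nat.choose_pos (Nat.le_add_left m K)
    positivity
  intro B
  obtain ⟨γ, hγ⟩ := h B
  refine ⟨γ, fun M hM => ?_⟩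
  obtain ⟨f1, hf1, hF⟩ := hγ M hM
  refine ⟨f1, hf1, ?_⟩
  intro k hk a b hadm hab hinj haM hfa
  apply dbl_count (Nat.le_add_left m K) hk
  intro U hU
  obtain ⟨e, he, heU⟩ := sub_emb (k := K) U (by omega)
  obtain ⟨n, hn, hm⟩ := hF (fun j => a (e j)) (fun j => b (e j))
    (fun p hp => by
      obtain ⟨n, hn⟩ := hadm p hp
      exact ⟨n, fun j => hn (e j)⟩)
    (fun j => hab (e j)) (fun x y hxy => he (hinj hxy)) (fun j => haM (e j)) (fun j => hfa (e j))
  obtain ⟨S', hS', hc⟩ := Finset.exists_subset_card_eq hm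
  refine ⟨S'.image e, ?_, ?_, n, hn, ?_⟩
  · intro i hi
    obtain ⟨j, _, rfl⟩ := mem_image.1 hi
    exact heU j
  · rw [card_image_of_injective _ he, hc]
  · intro i hi
    obtain ⟨j, hj, rfl⟩ := mem_image.1 hi
    exact (mem_filter.1 (hS' hj)).2

end Pool.Agent.H262R3.Lk
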