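import Mathlib
import Pool.Agent.H262R3.Lk.Stubs2

/-! PARS: mean squares over the characters (Parseval on the group of reduced classes). -/

open Finset

namespace Pool.Agent.H262R3.Lk

open Pool.Agent.H318R2.Cr (Rgh V)

namespace PARS

lemma orth {q : ℕ} [NeZero q] (a b : (ZMod q)ˣ) :
    ∑ χ : DirichletCharacter ℂ q, χ (a : ZMod q) * (starRingEnd ℂ) (χ (b : ZMod q)) =
      if b = a then (q.totient : ℂ) else 0 := by
  have h := DirichletCharacter.sum_char_inv_mul_char_eq ℂ (n := q) (b.isUnit) (a : ZMod q)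
  have h2 : ∀ χ : DirichletCharacter ℂ q,
      χ (a : ZMod q) * (starRingEnd ℂ) (χ (b : ZMod q)) = χ ((b : ZMod q)⁻¹) * χ (a : ZMod q) := by
    intro χ
    have h3 : (starRingEnd ℂ) (χ (b : ZMod q)) = χ ((b : ZMod q)⁻¹) := by
      have h4 := MulChar.star_apply' χ (b : ZMod q)
      rw [← Complex.star_def] 
      rw [h4, MulChar.inv_apply, Ring.inverse_unit, ZMod.inv_coe_unit]
    rw [h3, mul_comm]
  rw [Finset.sum_congr rfl (fun χ _ => h2 χ), h]
  simp only [Units.val_inj]

lemma parseval {q : ℕ} [NeZero q] (u : (ZMod q)ˣ → ℂ) :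
    ∑ χ : DirichletCharacter ℂ q, ‖∑ a : (ZMod q)ˣ, χ (a : ZMod q) * u a‖ ^ 2 =
      q.totient * ∑ a : (ZMod q)ˣ, ‖u a‖ ^ 2 := by
  have h : ((∑ χ : DirichletCharacter ℂ q, ‖∑ a : (ZMod q)ˣ, χ (a : ZMod q) * u a‖ ^ 2 : ℝ) : ℂ) =
      ((q.totient * ∑ a : (ZMod q)ˣ, ‖u a‖ ^ 2 : ℝ) : ℂ) := by
    push_cast
    have h1 : ∀ χ : DirichletCharacter ℂ q, ((‖∑ a : (ZMod q)ˣ, χ (a : ZMod q) * u a‖ : ℂ)) ^ 2 =
        ∑ a : (ZMod q)ˣ, ∑ b : (ZMod q)ˣ,
          (χ (a : ZMod q) * (starRingEnd ℂ) (χ (b : ZMod q))) * (u a * (starRingEnd ℂ) (u b)) := by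
      intro χ
      rw [← Complex.mul_conj', map_sum, Finset.sum_mul_sum]
      refine Finset.sum_congr rfl fun a _ => Finset.sum_congr rfl fun b _ => ?_
      rw [map_mul]
      ring
    rw [Finset.sum_congr rfl (fun χ _ => h1 χ), Finset.sum_comm, Finset.mul_sum]
    refine Finset.sum_congr rfl fun a _ => ?_
    rw [Finset.sum_comm]
    have h2 : ∀ b : (ZMod q)ˣ, ∑ χ : DirichletCharacter ℂ q,
        (χ (a : ZMod q) * (starRingEnd ℂ) (χ (b : ZMod q))) * (u a * (starRingEnd ℂ) (u b)) =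
        if b = a then (q.totient : ℂ) * (u a * (starRingEnd ℂ) (u b)) else 0 := by
      intro b
      rw [← Finset.sum_mul, orth]
      split_ifs <;> simp
    rw [Finset.sum_congr rfl (fun b _ => h2 b)]
    rw [Finset.sum_ite_eq' Finset.univ a]
    simp only [Finset.mem_univ, if_true]
    rw [Complex.mul_conj']
  exact_mod_cast h

lemma parseval_le {q : ℕ} [NeZero q] (u : (ZMod q)ˣ → ℂ) (B : ℝ) (hB : ∀ a, ‖u a‖ ≤ B) :
    ∑ χ : DirichletCharacter ℂ q, ‖∑ a : (ZMod q)ˣ, χ (a : ZMod q) * u a‖ ^ 2 ≤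
      (q.totient * B) ^ 2 := by
  rw [parseval]
  have h1 : ∑ a : (ZMod q)ˣ, ‖u a‖ ^ 2 ≤ ∑ a : (ZMod q)ˣ, B ^ 2 :=
    Finset.sum_le_sum fun a _ => pow_le_pow_left₀ (norm_nonneg _) (hB a) 2
  rw [Finset.sum_const, Finset.card_univ, ZMod.card_units_eq_totient, nsmul_eq_mul] at h1
  have h2 : (0 : ℝ) ≤ q.totient := Nat.cast_nonneg _
  nlinarith [mul_le_mul_of_nonneg_left h1 h2]

/-- decomposition of a twisted series into residue classes -/
lemma decomp (z : ℕ) {q : ℕ} [NeZero q] (χ : DirichletCharacter ℂ q) (w : ℕ → ℝ)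
    (hw : Summable (fun n => |w n|)) (A : (ZMod q)ˣ → ℕ → ℝ)
    (hA : ∀ (a : (ZMod q)ˣ) (n : ℕ), (Rgh z n → n ≡ (a : ZMod q).val [MOD q] → A a n = w n) ∧
      (¬ (Rgh z n ∧ n ≡ (a : ZMod q).val [MOD q]) → A a n = 0)) :
    ∑' n : ℕ, fz z χ n * ((w n : ℝ) : ℂ) =
      ∑ a : (ZMod q)ˣ, χ (a : ZMod q) * ((∑' n : ℕ, A a n : ℝ) : ℂ) := by
  classical
  have hs : ∀ a : (ZMod q)ˣ, Summable (A a) := by
    intro a
    refine Summable.of_norm_bounded hw ?_
    intro n
    by_cases h : Rgh z n ∧ n ≡ (a : ZMod q).val [MOD q]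
    · rw [(hA a n).1 h.1 h.2, Real.norm_eq_abs]
    · rw [(hA a n).2 h, norm_zero]; exact abs_nonneg _
  have h1 : ∀ n : ℕ, fz z χ n * ((w n : ℝ) : ℂ) = ∑ a : (ZMod q)ˣ, χ (a : ZMod q) * ((A a n : ℝ) : ℂ) := by
    intro n
    by_cases hr : Rgh z n
    · by_cases hu : IsUnit (n : ZMod q)
      · obtain ⟨a0, ha0⟩ := hu
        rw [Finset.sum_eq_single a0]
        · rw [(hA a0 n).1 hr]
          · unfold fz
            rw [if_pos hr, ha0]
          · rw [← ZMod.natCast_eq_natCast_iff, ZMod.natCast_zmod_val, ha0]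
        · intro b _ hb
          rw [(hA b n).2]
          · simp
          · rintro ⟨_, h⟩
            apply hb
            rw [← ZMod.natCast_eq_natCast_iff, ZMod.natCast_zmod_val] at h
            exact Units.ext (h.symm.trans ha0.symm)
        · intro h; exact absurd (Finset.mem_univ _) h
      · unfold fz
        rw [if_pos hr, MulChar.map_nonunit χ hu, zero_mul]
        symm
        refine Finset.sum_eq_zero fun b _ => ?_
        rw [(hA b n).2]
        · simp
        · rintro ⟨_, h⟩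
          apply hu
          rw [← ZMod.natCast_eq_natCast_iff, ZMod.natCast_zmod_val] at h
          rw [h]; exact b.isUnit
    · unfold fz
      rw [if_neg hr, zero_mul]
      symm
      refine Finset.sum_eq_zero fun b _ => ?_
      rw [(hA b n).2]
      · simp
      · rintro ⟨h, _⟩; exact hr h
  rw [tsum_congr h1, Summable.tsum_finsetSum]
  · refine Finset.sum_congr rfl fun a _ => ?_
    rw [tsum_mul_left, Complex.ofReal_tsum]
  · intro a _
    exact ((Complex.hasSum_ofReal.mpr (hs a).hasSum).summable).mul_left _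

lemma sum_units_zero {q : ℕ} [NeZero q] (χ : DirichletCharacter ℂ q) (hχ : χ ≠ 1) :
    ∑ a : (ZMod q)ˣ, χ (a : ZMod q) = 0 := by
  obtain ⟨b, hb⟩ := MulChar.ne_one_iff.mp hχ
  refine eq_zero_of_mul_eq_self_left hb ?_
  simp only [Finset.mul_sum, ← map_mul]
  refine Fintype.sum_bijective _ (Group.mulLeft_bijective b) _ _ fun x ↦ ?_
  simp

end PARS

open PARS in
theorem pars (hs : St_SUM) (hd : St_DIFF) (ha : St_A0) (hb : St_B0) : St_PARS := by
  classical
  obtain ⟨Cd, hCd, hd⟩ := hd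
  obtain ⟨Ca, hCa, ha⟩ := ha
  obtain ⟨Cb, hCb, hb⟩ := hb
  refine ⟨1 + Cd ^ 2 + Ca ^ 2 + Cb ^ 2, by nlinarith [sq_nonneg Cd, sq_nonneg Ca, sq_nonneg Cb], ?_⟩
  intro z q σ hz hq hqz hσ hσz
  have : NeZero q := ⟨by omega⟩
  have hφ : (0 : ℝ) < q.totient := by
    have := Nat.totient_pos.mpr hq
    exact_mod_cast this
  have hlz : 1 ≤ Real.log z := by
    have h1 : Real.exp 1 ≤ z := by
      have h2 : (32 : ℝ) ≤ z := by exact_mod_cast hz
      have := Real.exp_one_lt_d9
      linarith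
    have := Real.log_le_log (Real.exp_pos 1) h1
    rwa [Real.log_exp] at this
  have hlz0 : 0 < Real.log z := by linarith
  have hσ1 : σ ≤ 1 := by nlinarith
  have hcop : ∀ a : (ZMod q)ˣ, ((a : ZMod q).val).Coprime q := fun a => ZMod.val_coe_unit_coprime a
  refine ⟨?_, ?_, ?_⟩
  · intro j hj1 hj3
    set w : ℕ → ℝ := fun n => (Real.log n) ^ j / (n : ℝ) ^ (1 + σ) with hw
    have hw0 : ∀ n : ℕ, 0 ≤ w n := fun n => by
      rw [hw]
      have := Real.log_natCast_nonneg n
      positivity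
    have hws : Summable (fun n => |w n|) := by
      have h1 := (hs z q 1 j σ hσ).2.2.1
      refine h1.congr fun n => ?_
      rw [abs_of_nonneg (hw0 n)]
    have hdec : ∀ χ : DirichletCharacter ℂ q, Lj z χ j σ =
        ∑ a : (ZMod q)ˣ, χ (a : ZMod q) * ((Aj z q (a : ZMod q).val j σ : ℝ) : ℂ) := by
      intro χ
      refine decomp z χ w hws (fun a n => aj z q (a : ZMod q).val j σ n) ?_
      intro a n
      constructor
      · intro h1 h2
        by_cases hn : 1 < n
        · simp only [aj, if_pos (show Rgh z n ∧ n ≡ (a : ZMod q).val [MOD q] ∧ 1 < n from ⟨h1, h2, hn⟩), hw]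
        · have h3 : Real.log n = 0 := by
            have : n = 0 ∨ n = 1 := by omega
            rcases this with h | h <;> simp [h]
          simp only [aj, hw]
          rw [if_neg (fun h => hn h.2.2), h3, zero_pow (by omega), zero_div]
      · intro h
        simp only [aj]
        rw [if_neg (fun h' => h ⟨h'.1, h'.2.1⟩)]
    set u : (ZMod q)ˣ → ℂ := fun a => ((Aj z q (a : ZMod q).val j σ - Aj z q ((1 : (ZMod q)ˣ) : ZMod q).val j σ : ℝ) : ℂ) with hu
    have hLu : ∀ χ : DirichletCharacter ℂ q, χ ≠ 1 → Lj z χ j σ = ∑ a : (ZMod q)ˣ, χ (a : ZMod q) * u a := by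
      intro χ hχ
      rw [hdec χ]
      have h0 := sum_units_zero χ hχ
      simp only [hu]
      push_cast
      simp only [mul_sub, Finset.sum_sub_distrib]
      rw [← Finset.sum_mul (s := Finset.univ) (f := fun a : (ZMod q)ˣ => χ (a : ZMod q)), h0, zero_mul, sub_zero]
    have hbd := parseval_le u (Cd * (Real.log z) ^ j / q.totient) (by
      intro a
      simp only [hu]
      rw [Complex.norm_real, Real.norm_eq_abs]
      exact hd z q _ _ j σ hz hq hqz (hcop a) (hcop 1) hj3 hσ hσ1)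
    have key : ∀ S : Finset (DirichletCharacter ℂ q), (∀ χ ∈ S, χ ≠ 1) → ∑ χ ∈ S, ‖Lj z χ j σ‖ ^ 2 ≤
        (1 + Cd ^ 2 + Ca ^ 2 + Cb ^ 2) * (Real.log z) ^ (2 * j) := by
      intro S hS
      calc ∑ χ ∈ S, ‖Lj z χ j σ‖ ^ 2
          = ∑ χ ∈ S, ‖∑ a : (ZMod q)ˣ, χ (a : ZMod q) * u a‖ ^ 2 := by
            refine Finset.sum_congr rfl fun χ hχ => ?_
            rw [hLu χ (hS χ hχ)]
        _ ≤ ∑ χ : DirichletCharacter ℂ q, ‖∑ a : (ZMod q)ˣ, χ (a : ZMod q) * u a‖ ^ 2 :=
            Finset.sum_le_sum_of_subset_of_nonneg (Finset.subset_univ _) (fun _ _ _ => by positivity)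
        _ ≤ (q.totient * (Cd * (Real.log z) ^ j / q.totient)) ^ 2 := hbd
        _ = Cd ^ 2 * (Real.log z) ^ (2 * j) := by
            rw [mul_div_cancel₀ _ hφ.ne', mul_pow, ← pow_mul, mul_comm j 2]
        _ ≤ _ := by
            refine mul_le_mul_of_nonneg_right ?_ (by positivity)
            nlinarith [sq_nonneg Cd, sq_nonneg Ca, sq_nonneg Cb]
    refine key _ ?_
    intro χ hχ
    simp only [Finset.mem_filter, Finset.mem_univ, true_and] at hχ
    exact hχ
  · set w : ℕ → ℝ := fun n => ArithmeticFunction.vonMangoldt n * ((Real.log n) ^ 0 / (n : ℝ) ^ (1 + σ)) with hw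
    have hw0 : ∀ n : ℕ, 0 ≤ w n := fun n => by
      rw [hw]
      have := Real.log_natCast_nonneg n
      have h2 : 0 ≤ ArithmeticFunction.vonMangoldt n := ArithmeticFunction.vonMangoldt_nonneg
      positivity
    have hws : Summable (fun n => |w n|) := by
      have h1 := (hs z q 1 0 σ hσ).2.2.2
      refine h1.congr fun n => ?_
      rw [abs_of_nonneg (hw0 n)]
    have hdec : ∀ χ : DirichletCharacter ℂ q, Dj z χ 0 σ =
        ∑ a : (ZMod q)ˣ, χ (a : ZMod q) * ((Bj z q (a : ZMod q).val 0 σ : ℝ) : ℂ) := by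
      intro χ
      refine decomp z χ w hws (fun a n => bj z q (a : ZMod q).val 0 σ n) ?_
      intro a n
      constructor
      · intro h1 h2
        simp only [bj, if_pos (show Rgh z n ∧ n ≡ (a : ZMod q).val [MOD q] from ⟨h1, h2⟩), hw]
      · intro h
        simp only [bj]
        rw [if_neg h]
    have hB0 : ∀ b : ℕ, 0 ≤ Bj z q b 0 σ := by
      intro b
      refine tsum_nonneg fun n => ?_
      simp only [bj]
      split_ifs
      · exact hw0 n
      · exact le_rfl
    have hbd := parseval_le (fun a : (ZMod q)ˣ => ((Bj z q (a : ZMod q).val 0 σ : ℝ) : ℂ)) (Cb / (q.totient * σ)) (by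
      intro a
      rw [Complex.norm_real, Real.norm_eq_abs, abs_of_nonneg (hB0 _)]
      exact hb z q _ σ hz hq hqz (hcop a) hσ hσz)
    calc ∑ χ : DirichletCharacter ℂ q, ‖Dj z χ 0 σ‖ ^ 2 
        = ∑ χ : DirichletCharacter ℂ q, ‖∑ a : (ZMod q)ˣ, χ (a : ZMod q) * ((Bj z q (a : ZMod q).val 0 σ : ℝ) : ℂ)‖ ^ 2 := by
          refine Finset.sum_congr rfl fun χ _ => ?_
          rw [hdec χ]
      _ ≤ (q.totient * (Cb / (q.totient * σ))) ^ 2 := hbd
      _ = Cb ^ 2 / σ ^ 2 := by
          field_simp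
      _ ≤ _ := by
          refine div_le_div_of_nonneg_right ?_ (by positivity)
          nlinarith [sq_nonneg Cd, sq_nonneg Ca, sq_nonneg Cb]
  · set w : ℕ → ℝ := fun n => if 1 < n then ((ArithmeticFunction.moebius n : ℤ) : ℝ) * (1 / (n : ℝ) ^ (1 + σ)) else 0 with hw
    have hmu : ∀ n : ℕ, |((ArithmeticFunction.moebius n : ℤ) : ℝ)| ≤ 1 := by
      intro n
      have := ArithmeticFunction.abs_moebius_le_one (n := n)
      exact_mod_cast this
    have hwb : ∀ n : ℕ, |w n| ≤ if 1 < n then 1 / (n : ℝ) ^ (1 + σ) else 0 := by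
      intro n
      simp only [hw]
      split_ifs
      · rw [abs_mul, abs_of_nonneg (show (0 : ℝ) ≤ 1 / (n : ℝ) ^ (1 + σ) by positivity)]
        have h0 : (0 : ℝ) ≤ 1 / (n : ℝ) ^ (1 + σ) := by positivity
        nlinarith [hmu n]
      · simp
    have hs0 : Summable (fun n : ℕ => 1 / (n : ℝ) ^ (1 + σ)) := by
      have h1 := (hs z q 1 0 σ hσ).2.2.1
      simpa using h1
    have hws : Summable (fun n => |w n|) := by
      refine Summable.of_nonneg_of_le (fun n => abs_nonneg _) (fun n => (hwb n).trans ?_) hs0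
      split_ifs
      · exact le_rfl
      · positivity
    set A : (ZMod q)ˣ → ℕ → ℝ := fun a n => if Rgh z n ∧ n ≡ (a : ZMod q).val [MOD q] then w n else 0 with hA
    have hdec : ∀ χ : DirichletCharacter ℂ q, Mj z χ σ - 1 =
        ∑ a : (ZMod q)ˣ, χ (a : ZMod q) * ((∑' n : ℕ, A a n : ℝ) : ℂ) := by
      intro χ
      have h1 := decomp z χ w hws A (by
        intro a n
        simp only [hA]
        constructor
        · intro h1 h2
          rw [if_pos ⟨h1, h2⟩]
        · intro h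
          rw [if_neg h])
      rw [← h1]
      have hfz : ∀ n, ‖fz z χ n‖ ≤ 1 := by
        intro n
        unfold fz
        split_ifs
        · exact DirichletCharacter.norm_le_one χ _
        · simp
      have hS : Summable (fun n : ℕ => fz z χ n *
          ((((ArithmeticFunction.moebius n : ℤ) : ℝ) * (1 / (n : ℝ) ^ (1 + σ)) : ℝ) : ℂ)) := by
        refine Summable.of_norm_bounded hs0 fun n => ?_
        rw [norm_mul, Complex.norm_real, Real.norm_eq_abs, abs_mul,
          abs_of_nonneg (show (0 : ℝ) ≤ 1 / (n : ℝ) ^ (1 + σ) by positivity)]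
        have h0 : (0 : ℝ) ≤ 1 / (n : ℝ) ^ (1 + σ) := by positivity
        calc ‖fz z χ n‖ * (|((ArithmeticFunction.moebius n : ℤ) : ℝ)| * (1 / (n : ℝ) ^ (1 + σ))) ≤
            1 * (1 * (1 / (n : ℝ) ^ (1 + σ))) := by
              refine mul_le_mul (hfz n) (mul_le_mul_of_nonneg_right (hmu n) h0) (by positivity) zero_le_one
          _ = _ := by ring
      have hS' : Summable (fun n : ℕ => fz z χ n * ((w n : ℝ) : ℂ)) := by
        refine Summable.of_norm_bounded hws fun n => ?_
        rw [norm_mul, Complex.norm_real, Real.norm_eq_abs]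
        calc ‖fz z χ n‖ * |w n| ≤ 1 * |w n| := mul_le_mul_of_nonneg_right (hfz n) (abs_nonneg _)
          _ = _ := one_mul _
      unfold Mj
      rw [sub_eq_iff_eq_add, ← sub_eq_iff_eq_add', ← hS.tsum_sub hS']
      rw [tsum_eq_single 1]
      · have hr : Rgh z 1 := by
          intro p hp _ h
          exact hp.one_lt.ne' (Nat.dvd_one.mp h)
        simp [fz, hr, hw]
      · intro n hn
        by_cases h1 : 1 < n
        · simp only [hw, if_pos h1, sub_self]
        · have : n = 0 := by omega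
          subst this
          simp [hw]
    have hbd := parseval_le (fun a : (ZMod q)ˣ => ((∑' n : ℕ, A a n : ℝ) : ℂ)) (Ca / (q.totient * (σ * Real.log z))) (by
      intro a
      rw [Complex.norm_real]
      have h1 : ∀ n, ‖A a n‖ ≤ aj z q (a : ZMod q).val 0 σ n := by
        intro n
        simp only [hA, aj]
        by_cases h : Rgh z n ∧ n ≡ (a : ZMod q).val [MOD q]
        · rw [if_pos h, Real.norm_eq_abs]
          refine (hwb n).trans ?_
          by_cases hn : 1 < n
          · rw [if_pos hn, if_pos ⟨h.1, h.2, hn⟩, pow_zero]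
          · rw [if_neg hn, if_neg (fun h' => hn h'.2.2)]
        · rw [if_neg h, if_neg (fun h' => h ⟨h'.1, h'.2.1⟩), norm_zero]
      exact (tsum_of_norm_bounded (hs z q (a : ZMod q).val 0 σ hσ).1.hasSum h1).trans
        (ha z q _ σ hz hq hqz (hcop a) hσ hσz))
    calc ∑ χ : DirichletCharacter ℂ q, ‖Mj z χ σ - 1‖ ^ 2 
        = ∑ χ : DirichletCharacter ℂ q, ‖∑ a : (ZMod q)ˣ, χ (a : ZMod q) * ((∑' n : ℕ, A a n : ℝ) : ℂ)‖ ^ 2 := by
          refine Finset.sum_congr rfl fun χ _ => ?_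
          rw [hdec χ]
      _ ≤ (q.totient * (Ca / (q.totient * (σ * Real.log z)))) ^ 2 := hbd
      _ = Ca ^ 2 / (σ * Real.log z) ^ 2 := by
          field_simp
      _ ≤ _ := by
          refine div_le_div_of_nonneg_right ?_ (by positivity)
          nlinarith [sq_nonneg Cd, sq_nonneg Ca, sq_nonneg Cb]

end Pool.Agent.H262R3.Lk
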